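import Pool.Agent.Helper775.Clo.Maj

/-! Closed surfaces: pairs of faces which are not good in dimension six. -/

set_option autoImplicit false

namespace Pool.Agent.Helper775.Clo

open Set Topology Metric
open Pool.Agent.Helper775.Surf
open scoped InnerProductSpace

/-- the hull of `F ∪ G` is the section of `K` by the hyperplane `w = β` -/
structure PD {E : Type*} [NormedAddCommGroup E] [InnerProductSpace ℝ E] (K F G : Set E) (w : E)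
    (β : ℝ) : Prop where
  onF : ∀ r ∈ F, ⟪w, r⟫_ℝ = β
  onG : ∀ r ∈ G, ⟪w, r⟫_ℝ = β
  cut : ∀ r ∈ K, ⟪w, r⟫_ℝ = β → r ∈ convexHull ℝ (F ∪ G)
  pos : ∃ r ∈ K, β < ⟪w, r⟫_ℝ
  neg : ∃ r ∈ K, ⟪w, r⟫_ℝ < β
  dim : Module.finrank ℝ (vectorSpan ℝ (F ∪ G)) = 5

section pure

variable {E : Type*} [NormedAddCommGroup E] [InnerProductSpace ℝ E] [FiniteDimensional ℝ E]

theorem PD.symm {K F G : Set E} {w : E} {β : ℝ} (h : PD K F G w β) : PD K G F w β := by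
  refine ⟨h.onG, h.onF, ?_, h.pos, h.neg, ?_⟩
  · rw [Set.union_comm]
    exact h.cut
  · rw [Set.union_comm]
    exact h.dim

theorem PD.neg' {K F G : Set E} {w : E} {β : ℝ} (h : PD K F G w β) : PD K F G (-w) (-β) := by
  refine ⟨?_, ?_, ?_, ?_, ?_, h.dim⟩
  · intro r hr
    rw [inner_neg_left, h.onF r hr]
  · intro r hr
    rw [inner_neg_left, h.onG r hr]
  · intro r hr hrw
    rw [inner_neg_left] at hrw
    exact h.cut r hr (neg_injective hrw)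
  · obtain ⟨r, hr, hlt⟩ := h.neg
    refine ⟨r, hr, ?_⟩
    rw [inner_neg_left]
    linarith
  · obtain ⟨r, hr, hlt⟩ := h.pos
    refine ⟨r, hr, ?_⟩
    rw [inner_neg_left]
    linarith

/-- a supporting functional of one face extends to a supporting functional of the body which is
extremal on the whole other face -/
theorem pd_supp (hE : Module.finrank ℝ E = 6) {K A B : Set E} (hK : Convex ℝ K)
    (dA : Module.finrank ℝ (vectorSpan ℝ A) = 2) (dB : Module.finrank ℝ (vectorSpan ℝ B) = 2)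
    {w : E} {β : ℝ} (h : PD K A B w β) {ζ x : E} (hx : x ∈ A) (h1 : ∀ a ∈ A, ⟪ζ, a⟫_ℝ ≤ ⟪ζ, x⟫_ℝ)
    (h2 : ∃ a ∈ A, ⟪ζ, a⟫_ℝ < ⟪ζ, x⟫_ℝ) :
    ∃ (z : E) (m : ℝ), (∀ r ∈ K, ⟪z, r⟫_ℝ ≤ m) ∧ (∀ b ∈ B, ⟪z, b⟫_ℝ = m) ∧ ⟪z, x⟫_ℝ = m ∧
      ∃ a ∈ A, ⟪z, a⟫_ℝ < m := by
  have hBne : B.Nonempty := by
    rw [Set.nonempty_iff_ne_empty]
    intro hB
    rw [hB, vectorSpan_empty] at dB
    simp at dB
  obtain ⟨b0, hb0⟩ := hBne
  obtain ⟨VA, hVA⟩ : ∃ VA, VA = vectorSpan ℝ A := ⟨_, rfl⟩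
  obtain ⟨VB, hVB⟩ : ∃ VB, VB = vectorSpan ℝ B := ⟨_, rfl⟩
  obtain ⟨W, hW⟩ : ∃ W, W = VB ⊔ Submodule.span ℝ {x - b0} := ⟨_, rfl⟩
  have hmA : ∀ a ∈ A, a - x ∈ VA := by
    intro a ha
    rw [hVA]
    exact vsub_mem_vectorSpan ℝ ha hx
  have hmB : ∀ b ∈ B, b - b0 ∈ VB := by
    intro b hb
    rw [hVB]
    exact vsub_mem_vectorSpan ℝ hb hb0
  have hdW : x - b0 ∈ W := by
    rw [hW]
    exact Submodule.mem_sup_right (Submodule.mem_span_singleton_self _)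
  have hBW : ∀ b ∈ B, b - b0 ∈ W := by
    intro b hb
    rw [hW]
    exact Submodule.mem_sup_left (hmB b hb)
  have hall : ∀ p ∈ A ∪ B, p - x ∈ VA ⊔ W := by
    intro p hp
    rcases hp with hp | hp
    · exact Submodule.mem_sup_left (hmA p hp)
    · apply Submodule.mem_sup_right
      have : p - x = (p - b0) - (x - b0) := by abel
      rw [this]
      exact W.sub_mem (hBW p hp) hdW
  have hle : vectorSpan ℝ (A ∪ B) ≤ VA ⊔ W := by
    rw [vectorSpan_def, Submodule.span_le]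
    rintro v ⟨p, hp, q, hq, rfl⟩
    have : p -ᵥ q = (p - x) - (q - x) := by
      rw [vsub_eq_sub]
      abel
    show p -ᵥ q ∈ VA ⊔ W
    rw [this]
    exact Submodule.sub_mem _ (hall p hp) (hall q hq)
  have hf1 : Module.finrank ℝ (vectorSpan ℝ (A ∪ B)) ≤ Module.finrank ℝ ↥(VA ⊔ W) :=
    Submodule.finrank_mono hle
  have hf2 := Submodule.finrank_sup_add_finrank_inf_eq VA W
  have hf3 : Module.finrank ℝ ↥W ≤ Module.finrank ℝ ↥VB +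
      Module.finrank ℝ ↥(Submodule.span ℝ {x - b0}) := by
    rw [hW]
    exact Submodule.finrank_add_le_finrank_add_finrank _ _
  have hf4 : Module.finrank ℝ ↥(Submodule.span ℝ {x - b0}) ≤ 1 := by
    have := finrank_span_le_card (R := ℝ) ({x - b0} : Set E)
    simpa using this
  have hf5 : Module.finrank ℝ ↥VA = 2 := by rw [hVA]; exact dA
  have hf6 : Module.finrank ℝ ↥VB = 2 := by rw [hVB]; exact dB
  have hf7 := h.dim
  have hf8 : Module.finrank ℝ ↥(VA ⊓ W) = 0 := by omega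
  have hbot : VA ⊓ W = ⊥ := Submodule.finrank_eq_zero.1 hf8
  have htop : VAᗮ ⊔ Wᗮ = ⊤ := by
    rw [← Submodule.orthogonal_eq_bot_iff, ← Submodule.inf_orthogonal,
      Submodule.orthogonal_orthogonal, Submodule.orthogonal_orthogonal, hbot]
  have hζ : ζ ∈ VAᗮ ⊔ Wᗮ := by
    rw [htop]
    exact Submodule.mem_top
  obtain ⟨y, hy, z0, hz0, hyz⟩ := Submodule.mem_sup.1 hζ
  obtain ⟨m, hm⟩ : ∃ m, m = ⟪z0, x⟫_ℝ := ⟨_, rfl⟩
  have hzW : ∀ v ∈ W, ⟪z0, v⟫_ℝ = 0 := fun v hv => Submodule.inner_left_of_mem_orthogonal hv hz0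
  have hyA : ∀ v ∈ VA, ⟪y, v⟫_ℝ = 0 := fun v hv => Submodule.inner_left_of_mem_orthogonal hv hy
  have hB1 : ∀ b ∈ B, ⟪z0, b⟫_ℝ = m := by
    intro b hb
    have e1 := hzW _ (hBW b hb)
    have e2 := hzW _ hdW
    rw [inner_sub_right] at e1 e2
    rw [hm]
    linarith
  have hA1 : ∀ a ∈ A, ⟪z0, a⟫_ℝ = m + (⟪ζ, a⟫_ℝ - ⟪ζ, x⟫_ℝ) := by
    intro a ha
    have e1 := hyA _ (hmA a ha)
    rw [← hyz, inner_add_left, inner_add_left]
    rw [inner_sub_right] at e1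
    rw [hm]
    linarith
  have hslice : ∀ r ∈ K, ⟪w, r⟫_ℝ = β → ⟪z0, r⟫_ℝ ≤ m := by
    intro r hr hrw
    have h3 := h.cut r hr hrw
    have hsub : A ∪ B ⊆ {r : E | ⟪z0, r⟫_ℝ ≤ m} := by
      intro p hp
      rcases hp with hp | hp
      · have e1 := hA1 p hp
        have e2 := h1 p hp
        show ⟪z0, p⟫_ℝ ≤ m
        linarith
      · exact (hB1 p hp).le
    have hconv : Convex ℝ {r : E | ⟪z0, r⟫_ℝ ≤ m} :=
      convex_halfSpace_le (innerSL ℝ z0).isLinear m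
    exact convexHull_min hsub hconv h3
  obtain ⟨l, hl⟩ := slice_ext hK h.neg h.pos hslice
  refine ⟨z0 + l • w, m + l * β, ?_, ?_, ?_, ?_⟩
  · intro r hr
    have e1 := hl r hr
    rw [inner_add_left, real_inner_smul_left]
    linarith
  · intro b hb
    rw [inner_add_left, real_inner_smul_left, hB1 b hb, h.onG b hb]
  · rw [inner_add_left, real_inner_smul_left, h.onF x hx, hm]
  · obtain ⟨a, ha, hlt⟩ := h2
    refine ⟨a, ha, ?_⟩
    rw [inner_add_left, real_inner_smul_left, hA1 a ha, h.onF a ha]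
    linarith

theorem pd_proper_perp435 {S : Set E} {z : E} {m : ℝ} (h : ∀ r ∈ S, ⟪z, r⟫_ℝ = m) :
    z ∈ (vectorSpan ℝ S)ᗮ := by
  rw [Submodule.mem_orthogonal']
  intro u hu
  unfold vectorSpan at hu
  induction hu using Submodule.span_induction with
  | mem x hx =>
    obtain ⟨a, ha, b, hb, rfl⟩ := hx
    show ⟪z, a -ᵥ b⟫_ℝ = 0
    rw [vsub_eq_sub, inner_sub_right, h a ha, h b hb, sub_self]
  | zero => exact inner_zero_right _
  | add x y _ _ hx hy => rw [inner_add_right, hx, hy, add_zero]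
  | smul a x _ hx => rw [inner_smul_right, hx, mul_zero]

/-- no proper face contains both faces of a pair -/
theorem pd_proper (hE : Module.finrank ℝ E = 6) {K B C : Set E} (hB : B ⊆ K) (hC : C ⊆ K)
    {w : E} {β : ℝ}
    (h : PD K B C w β) {z : E} {m : ℝ} (h1 : ∀ r ∈ K, ⟪z, r⟫_ℝ ≤ m) (h2 : ∀ b ∈ B, ⟪z, b⟫_ℝ = m)
    (h3 : ∃ r ∈ K, ⟪z, r⟫_ℝ < m) : ∃ c ∈ C, ⟪z, c⟫_ℝ < m := by
  by_contra hcon
  push Not at hcon
  have hzC : ∀ c ∈ C, ⟪z, c⟫_ℝ = m := fun c hc => le_antisymm (h1 c (hC hc)) (hcon c hc)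
  have hz : ∀ r ∈ B ∪ C, ⟪z, r⟫_ℝ = m := by
    rintro r (hr | hr)
    · exact h2 r hr
    · exact hzC r hr
  have hw : ∀ r ∈ B ∪ C, ⟪w, r⟫_ℝ = β := by
    rintro r (hr | hr)
    · exact h.onF r hr
    · exact h.onG r hr
  have pz := pd_proper_perp435 hz
  have pw := pd_proper_perp435 hw
  obtain ⟨r1, hr1, hr1'⟩ := h.pos
  obtain ⟨r2, hr2, hr2'⟩ := h.neg
  have hw0 : w ≠ 0 := by
    rintro rfl
    rw [inner_zero_left] at hr1' hr2'
    exact lt_asymm hr1' hr2'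
  have hfin : Module.finrank ℝ (vectorSpan ℝ (B ∪ C))ᗮ = 1 := by
    have h4 := Submodule.finrank_add_finrank_orthogonal (vectorSpan ℝ (B ∪ C))
    rw [h.dim, hE] at h4
    omega
  have h5 := (finrank_eq_one_iff_of_nonzero' (⟨w, pw⟩ : (vectorSpan ℝ (B ∪ C))ᗮ) (by
    intro h6
    exact hw0 (congrArg Subtype.val h6))).1 hfin ⟨z, pz⟩
  obtain ⟨k, hk⟩ := h5
  have hk' : k • w = z := congrArg Subtype.val hk
  have hne : (B ∪ C).Nonempty := by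
    by_contra h7
    rw [Set.not_nonempty_iff_eq_empty] at h7
    have h8 := h.dim
    rw [h7, vectorSpan_empty, finrank_bot] at h8
    omega
  obtain ⟨b0, hb0⟩ := hne
  have hm : k * β = m := by
    rw [← hw b0 hb0, ← hz b0 hb0, ← hk', real_inner_smul_left]
  have a1 := h1 r1 hr1
  have a2 := h1 r2 hr2
  rw [← hk', real_inner_smul_left, ← hm] at a1 a2
  have k1 : k ≤ 0 := by
    by_contra h9
    push Not at h9
    nlinarith
  have k2 : 0 ≤ k := by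
    by_contra h9
    push Not at h9
    nlinarith
  have k0 : k = 0 := le_antisymm k1 k2
  obtain ⟨r3, hr3, hr3'⟩ := h3
  rw [← hk', real_inner_smul_left, ← hm, k0] at hr3'
  simp at hr3'

/-- a disjoint face lies strictly on one side -/
theorem pd_side {K A B C : Set E} (hK : Convex ℝ K) (hA : A ⊆ K) (hB : B ⊆ K)
    (cA : Convex ℝ A) (cB : Convex ℝ B) (hC : IsExtreme ℝ K C) (cC : Convex ℝ C)
    (dAC : Disjoint A C) (dBC : Disjoint B C) {w : E} {β : ℝ} (h : PD K A B w β) :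
    (∀ r ∈ C, β < ⟪w, r⟫_ℝ) ∨ (∀ r ∈ C, ⟪w, r⟫_ℝ < β) := by
  have hne : ∀ r ∈ C, ⟪w, r⟫_ℝ ≠ β := by
    intro r hr he
    have h1 := h.cut r (hC.subset hr) he
    have h2 := hull_face hK hA hB cA cB hC h1 hr
    rw [dAC.inter_eq, dBC.inter_eq, Set.union_empty, convexHull_empty] at h2
    exact h2
  by_contra hcon
  push Not at hcon
  obtain ⟨⟨r1, hr1, h1⟩, ⟨r2, hr2, h2⟩⟩ := hcon
  have h1' := lt_of_le_of_ne h1 (hne r1 hr1)
  have h2' := lt_of_le_of_ne h2 (Ne.symm (hne r2 hr2))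
  have hd : 0 < ⟪w, r2⟫_ℝ - ⟪w, r1⟫_ℝ := by linarith
  have ht0 : 0 ≤ (β - ⟪w, r1⟫_ℝ) / (⟪w, r2⟫_ℝ - ⟪w, r1⟫_ℝ) := div_nonneg (by linarith) hd.le
  have ht1 : 0 ≤ (⟪w, r2⟫_ℝ - β) / (⟪w, r2⟫_ℝ - ⟪w, r1⟫_ℝ) := div_nonneg (by linarith) hd.le
  have hsum : (⟪w, r2⟫_ℝ - β) / (⟪w, r2⟫_ℝ - ⟪w, r1⟫_ℝ) + (β - ⟪w, r1⟫_ℝ) / (⟪w, r2⟫_ℝ - ⟪w, r1⟫_ℝ) = 1 := by
    rw [← add_div]
    rw [div_eq_one_iff_eq hd.ne']
    ring
  have hmem := cC hr1 hr2 ht1 ht0 hsum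
  apply hne _ hmem
  rw [inner_add_right, real_inner_smul_right, real_inner_smul_right]
  field_simp
  ring

/-- the crossing point of a segment from `x ∈ A` to `b ∈ B` with the hyperplane of `C, D` -/
theorem bad_step1_cross {K A B C D : Set E}
    (hKc : Convex ℝ K) (hAK : A ⊆ K) (hBK : B ⊆ K) (hCK : C ⊆ K) (hDK : D ⊆ K)
    (cC : Convex ℝ C) (cD : Convex ℝ D) (nC : C.Nonempty) (nD : D.Nonempty)
    {w w' : E} {β β' : ℝ} (hAB : PD K A B w β) (hCD : PD K C D w' β')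
    (sC : ∀ r ∈ C, β < ⟪w, r⟫_ℝ) (sD : ∀ r ∈ D, ⟪w, r⟫_ℝ < β) (sA : ∀ r ∈ A, β' < ⟪w', r⟫_ℝ)
    (sB : ∀ r ∈ B, ⟪w', r⟫_ℝ < β') {x z : E} {m : ℝ} (hx : x ∈ A) (hz : ∀ r ∈ K, ⟪z, r⟫_ℝ ≤ m)
    (hzB : ∀ b ∈ B, ⟪z, b⟫_ℝ = m) (hzx : ⟪z, x⟫_ℝ = m) {b : E} (hb : b ∈ B) :
    ∃ g : E, ∃ l : ℝ, 0 < l ∧ g - x = l • (b - x) ∧ ⟪w, g⟫_ℝ = β ∧
      ∃ c ∈ C, ∃ d ∈ D, ∃ q : ℝ, g - c = q • (d - c) ∧ ⟪z, c⟫_ℝ = m ∧ ⟪z, d⟫_ℝ = m := by
  have h1 := sA x hx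
  have h2 := sB b hb
  obtain ⟨u, hu⟩ : ∃ u, u = ⟪w', x⟫_ℝ - β' := ⟨_, rfl⟩
  obtain ⟨v, hv⟩ : ∃ v, v = β' - ⟪w', b⟫_ℝ := ⟨_, rfl⟩
  have hu0 : 0 < u := by linarith
  have hv0 : 0 < v := by linarith
  obtain ⟨l, hl⟩ : ∃ l, l = u / (u + v) := ⟨_, rfl⟩
  have hl0 : 0 < l := by rw [hl]; positivity
  have hl1 : 0 < 1 - l := by
    have : 1 - l = v / (u + v) := by rw [hl]; field_simp; ring
    rw [this]; positivity
  have hlu : l * (u + v) = u := by rw [hl]; field_simp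
  obtain ⟨g, hg⟩ : ∃ g : E, g = (1 - l) • x + l • b := ⟨_, rfl⟩
  have hinner : ∀ y : E, ⟪y, g⟫_ℝ = (1 - l) * ⟪y, x⟫_ℝ + l * ⟪y, b⟫_ℝ := by
    intro y
    rw [hg, inner_add_right, inner_smul_right, inner_smul_right]
  have hgK : g ∈ K := by
    rw [hg]
    exact hKc (hAK hx) (hBK hb) hl1.le hl0.le (by ring)
  have hw'g : ⟪w', g⟫_ℝ = β' := by
    rw [hinner]
    have e1 : ⟪w', x⟫_ℝ = β' + u := by linarith
    have e2 : ⟪w', b⟫_ℝ = β' - v := by linarith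
    rw [e1, e2]
    linear_combination -hlu
  have hwg : ⟪w, g⟫_ℝ = β := by
    rw [hinner, hAB.onF x hx, hAB.onG b hb]; ring
  have hzg : ⟪z, g⟫_ℝ = m := by
    rw [hinner, hzx, hzB b hb]; ring
  have hcut := hCD.cut g hgK hw'g
  rw [cC.convexHull_union cD nC nD, mem_convexJoin] at hcut
  obtain ⟨c, hc, d, hd, p, q, hp, hq, hpq, hgcd⟩ := hcut
  have hinner2 : ∀ y : E, ⟪y, g⟫_ℝ = p * ⟪y, c⟫_ℝ + q * ⟪y, d⟫_ℝ := by
    intro y
    rw [← hgcd, inner_add_right, inner_smul_right, inner_smul_right]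
  have hwc := sC c hc
  have hwd := sD d hd
  have hp0 : 0 < p := by
    rcases hp.eq_or_lt with h | h
    · exfalso
      have := hinner2 w
      rw [hwg, ← h] at this
      have hq1 : q = 1 := by linarith
      rw [hq1] at this
      linarith
    · exact h
  have hq0 : 0 < q := by
    rcases hq.eq_or_lt with h | h
    · exfalso
      have := hinner2 w
      rw [hwg, ← h] at this
      have hp1 : p = 1 := by linarith
      rw [hp1] at this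
      linarith
    · exact h
  have hzc := hz c (hCK hc)
  have hzd := hz d (hDK hd)
  have hzz := hinner2 z
  rw [hzg] at hzz
  refine ⟨g, l, hl0, ?_, hwg, c, hc, d, hd, q, ?_, ?_, ?_⟩
  · rw [hg]; module
  · have hp1 : p = 1 - q := by linarith
    rw [← hgcd, hp1]; module
  · have hp1 : p = 1 - q := by linarith
    by_contra hne
    have hlt : ⟪z, c⟫_ℝ < m := lt_of_le_of_ne hzc hne
    have h5 : p * ⟪z, c⟫_ℝ < p * m := mul_lt_mul_of_pos_left hlt hp0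
    have h6 : q * ⟪z, d⟫_ℝ ≤ q * m := mul_le_mul_of_nonneg_left hzd hq
    have h7 : p * m + q * m = m := by rw [← add_mul, hpq, one_mul]
    linarith
  · by_contra hne
    have hlt : ⟪z, d⟫_ℝ < m := lt_of_le_of_ne hzd hne
    have h5 : q * ⟪z, d⟫_ℝ < q * m := mul_lt_mul_of_pos_left hlt hq0
    have h6 : p * ⟪z, c⟫_ℝ ≤ p * m := mul_le_mul_of_nonneg_left hzc hp
    have h7 : p * m + q * m = m := by rw [← add_mul, hpq, one_mul]
    linarith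

theorem bad_step1_nonempty {A : Set E} (dA : Module.finrank ℝ (vectorSpan ℝ A) = 2) :
    A.Nonempty := by
  rw [Set.nonempty_iff_ne_empty]
  rintro rfl
  rw [vectorSpan_empty, finrank_bot] at dA
  exact absurd dA (by norm_num)

/-- intersection with the kernel of a functional which does not vanish -/
theorem bad_step1_ker (S : Submodule ℝ E) (z s : E) (hs : s ∈ S) (hzs : ⟪z, s⟫_ℝ ≠ 0) (n : ℕ)
    (hn : Module.finrank ℝ S ≤ n + 1) :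
    Module.finrank ℝ (S ⊓ LinearMap.ker (innerₛₗ ℝ z) : Submodule ℝ E) ≤ n := by
  have hlt : S ⊓ LinearMap.ker (innerₛₗ ℝ z) < S := by
    refine lt_of_le_of_ne inf_le_left ?_
    intro heq
    have h1 : s ∈ S ⊓ LinearMap.ker (innerₛₗ ℝ z) := by rw [heq]; exact hs
    have h2 : s ∈ LinearMap.ker (innerₛₗ ℝ z) := h1.2
    rw [LinearMap.mem_ker] at h2
    exact hzs h2
  have := Submodule.finrank_lt_finrank_of_lt hlt
  omega

/-- the first step -/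
theorem bad_step1 (hE : Module.finrank ℝ E = 6) {K A B C D : Set E} (hK : IsCompact K)
    (hKc : Convex ℝ K) (eA : IsExtreme ℝ K A) (eB : IsExtreme ℝ K B) (eC : IsExtreme ℝ K C)
    (eD : IsExtreme ℝ K D) (cA : Convex ℝ A) (cB : Convex ℝ B) (cC : Convex ℝ C) (cD : Convex ℝ D)
    (kA : IsCompact A) (dA : Module.finrank ℝ (vectorSpan ℝ A) = 2)
    (dB : Module.finrank ℝ (vectorSpan ℝ B) = 2)
    (dC : Module.finrank ℝ (vectorSpan ℝ C) = 2) (dD : Module.finrank ℝ (vectorSpan ℝ D) = 2)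
    {w w' : E} {β β' : ℝ} (hAB : PD K A B w β) (hCD : PD K C D w' β')
    (sC : ∀ r ∈ C, β < ⟪w, r⟫_ℝ) (sD : ∀ r ∈ D, ⟪w, r⟫_ℝ < β) (sA : ∀ r ∈ A, β' < ⟪w', r⟫_ℝ)
    (sB : ∀ r ∈ B, ⟪w', r⟫_ℝ < β') (hBC : ∃ v b, PD K B C v b) (hBD : ∃ v b, PD K B D v b) :
    ∃ (z : E) (m : ℝ), (∀ r ∈ K, ⟪z, r⟫_ℝ ≤ m) ∧ ∃ c₁ ∈ C, ∃ c₂ ∈ C, c₁ ≠ c₂ ∧ ⟪z, c₁⟫_ℝ = m ∧
      ⟪z, c₂⟫_ℝ = m ∧ ∃ c ∈ C, ⟪z, c⟫_ℝ < m := by
  have hAK : A ⊆ K := eA.1
  have hBK : B ⊆ K := eB.1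
  have hCK : C ⊆ K := eC.1
  have hDK : D ⊆ K := eD.1
  have nA := bad_step1_nonempty dA
  have nB := bad_step1_nonempty dB
  have nC := bad_step1_nonempty dC
  have nD := bad_step1_nonempty dD
  -- a functional which is not constant on `A`
  obtain ⟨a₁, ha₁, a₂, ha₂, ha⟩ : ∃ a₁ ∈ A, ∃ a₂ ∈ A, a₁ ≠ a₂ := by
    by_contra hcon
    push Not at hcon
    have hsub : A.Subsingleton := fun p hp q hq => hcon p hp q hq
    have : vectorSpan ℝ A = ⊥ := (vectorSpan_eq_bot_iff_subsingleton ℝ).2 hsub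
    rw [this, finrank_bot] at dA
    exact absurd dA (by norm_num)
  obtain ⟨x, hx, hxmax⟩ := kA.exists_isMaxOn nA
    (f := fun a => ⟪a₁ - a₂, a⟫_ℝ) (by fun_prop)
  have hmax : ∀ a ∈ A, ⟪a₁ - a₂, a⟫_ℝ ≤ ⟪a₁ - a₂, x⟫_ℝ := fun a ha => hxmax ha
  have hlt : ∃ a ∈ A, ⟪a₁ - a₂, a⟫_ℝ < ⟪a₁ - a₂, x⟫_ℝ := by
    refine ⟨a₂, ha₂, lt_of_lt_of_le ?_ (hmax a₁ ha₁)⟩
    have h1 : 0 < ⟪a₁ - a₂, a₁ - a₂⟫_ℝ := real_inner_self_pos.2 (sub_ne_zero.2 ha)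
    rw [inner_sub_right] at h1
    linarith
  obtain ⟨z, m, hz, hzB, hzx, a, haA, hza⟩ := pd_supp hE hKc dA dB hAB hx hmax hlt
  obtain ⟨v, b, hvb⟩ := hBC
  obtain ⟨v', b', hvb'⟩ := hBD
  obtain ⟨c', hc', hzc'⟩ := pd_proper hE hBK hCK hvb hz hzB ⟨a, hAK haA, hza⟩
  obtain ⟨d', hd', hzd'⟩ := pd_proper hE hBK hDK hvb' hz hzB ⟨a, hAK haA, hza⟩
  by_contra hcon
  have huniq : ∀ c₁ ∈ C, ∀ c₂ ∈ C, ⟪z, c₁⟫_ℝ = m → ⟪z, c₂⟫_ℝ = m → c₁ = c₂ := by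
    intro c₁ h1 c₂ h2 e1 e2
    by_contra hne
    exact hcon ⟨z, m, hz, c₁, h1, c₂, h2, hne, e1, e2, c', hc', hzc'⟩
  have hcross := fun (b : E) (hb : b ∈ B) => bad_step1_cross hKc hAK hBK hCK hDK cC cD nC nD
    hAB hCD sC sD sA sB hx hz hzB hzx hb
  obtain ⟨b₀, hb₀⟩ := nB
  obtain ⟨g₀, l₀, hl₀, hg₀x, hg₀w, c₀, hc₀, d₀, hd₀, q₀, hg₀, hzc₀, hzd₀⟩ := hcross b₀ hb₀
  -- the subspaces
  obtain ⟨N, hN⟩ : ∃ N : Submodule ℝ E, N = vectorSpan ℝ D ⊓ LinearMap.ker (innerₛₗ ℝ z) :=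
    ⟨_, rfl⟩
  have hNr : Module.finrank ℝ N ≤ 1 := by
    rw [hN]
    refine bad_step1_ker (vectorSpan ℝ D) z (d' -ᵥ d₀) (vsub_mem_vectorSpan ℝ hd' hd₀) ?_ 1
      (by omega)
    rw [vsub_eq_sub, inner_sub_right, hzd₀]
    exact (sub_neg.2 hzd').ne
  obtain ⟨S, hS⟩ : ∃ S : Submodule ℝ E, S = Submodule.span ℝ {d₀ - c₀} ⊔ N := ⟨_, rfl⟩
  have hSr : Module.finrank ℝ S ≤ 2 := by
    rw [hS]
    have h1 := Submodule.finrank_add_le_finrank_add_finrank (Submodule.span ℝ {d₀ - c₀}) N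
    have h2 : Module.finrank ℝ (Submodule.span ℝ {d₀ - c₀}) ≤ 1 := by
      simpa using finrank_span_le_card (R := ℝ) ({d₀ - c₀} : Set E)
    omega
  have hdc : d₀ - c₀ ∈ S := by
    rw [hS]
    exact Submodule.mem_sup_left (Submodule.mem_span_singleton_self _)
  have hS'r : Module.finrank ℝ (S ⊓ LinearMap.ker (innerₛₗ ℝ w) : Submodule ℝ E) ≤ 1 := by
    refine bad_step1_ker S w (d₀ - c₀) hdc ?_ 1 hSr
    have h1 := sC c₀ hc₀
    have h2 := sD d₀ hd₀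
    rw [inner_sub_right]
    intro h3
    linarith
  have hgS : ∀ g c d : E, ∀ q : ℝ, c ∈ C → d ∈ D → g - c = q • (d - c) → ⟪z, c⟫_ℝ = m →
      ⟪z, d⟫_ℝ = m → g - c₀ ∈ S := by
    intro g c d q hc hd hg hzc hzd
    have hcc : c = c₀ := huniq c hc c₀ hc₀ hzc hzc₀
    subst hcc
    have h1 : g - c = q • (d - d₀) + q • (d₀ - c) := by rw [hg]; module
    rw [h1]
    refine Submodule.add_mem _ (Submodule.smul_mem _ _ ?_) (Submodule.smul_mem _ _ hdc)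
    rw [hS]
    apply Submodule.mem_sup_right
    rw [hN]
    refine ⟨vsub_mem_vectorSpan ℝ hd hd₀, ?_⟩
    rw [SetLike.mem_coe, LinearMap.mem_ker]
    show ⟪z, d - d₀⟫_ℝ = 0
    rw [inner_sub_right, hzd, hzd₀, sub_self]
  have hg₀S := hgS g₀ c₀ d₀ q₀ hc₀ hd₀ hg₀ hzc₀ hzd₀
  obtain ⟨T, hT⟩ : ∃ T : Submodule ℝ E, T = Submodule.span ℝ ((fun b => b - x) '' B) := ⟨_, rfl⟩
  have hTle : T ≤ (S ⊓ LinearMap.ker (innerₛₗ ℝ w)) ⊔ Submodule.span ℝ {g₀ - x} := by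
    rw [hT, Submodule.span_le]
    rintro _ ⟨b, hb, rfl⟩
    obtain ⟨g, l, hl, hgx, hgw, c, hc, d, hd, q, hg, hzc, hzd⟩ := hcross b hb
    have h1 : b - x = l⁻¹ • ((g - g₀) + (g₀ - x)) := by
      have : (g - g₀) + (g₀ - x) = g - x := by abel
      rw [this, hgx, smul_smul, inv_mul_cancel₀ hl.ne', one_smul]
    show b - x ∈ _
    rw [h1]
    refine Submodule.smul_mem _ _ (Submodule.add_mem _ (Submodule.mem_sup_left ⟨?_, ?_⟩)
      (Submodule.mem_sup_right (Submodule.mem_span_singleton_self _)))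
    · have h2 : g - g₀ = (g - c₀) - (g₀ - c₀) := by abel
      rw [SetLike.mem_coe, h2]
      exact Submodule.sub_mem _ (hgS g c d q hc hd hg hzc hzd) hg₀S
    · rw [SetLike.mem_coe, LinearMap.mem_ker]
      show ⟪w, g - g₀⟫_ℝ = 0
      rw [inner_sub_right, hgw, hg₀w, sub_self]
  have hTr : Module.finrank ℝ T ≤ 2 := by
    refine (Submodule.finrank_mono hTle).trans ?_
    have h1 := Submodule.finrank_add_le_finrank_add_finrank
      (S ⊓ LinearMap.ker (innerₛₗ ℝ w)) (Submodule.span ℝ {g₀ - x})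
    have h2 : Module.finrank ℝ (Submodule.span ℝ {g₀ - x}) ≤ 1 := by
      simpa using finrank_span_le_card (R := ℝ) ({g₀ - x} : Set E)
    omega
  have hle : vectorSpan ℝ (A ∪ B) ≤ vectorSpan ℝ A ⊔ T := by
    have hmemx : ∀ y ∈ A ∪ B, y - x ∈ vectorSpan ℝ A ⊔ T := by
      rintro y (hy | hy)
      · exact Submodule.mem_sup_left (vsub_mem_vectorSpan ℝ hy hx)
      · apply Submodule.mem_sup_right
        rw [hT]
        exact Submodule.subset_span ⟨y, hy, rfl⟩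
    rw [vectorSpan_def, Submodule.span_le]
    rintro _ ⟨p, hp, q, hq, rfl⟩
    have h1 : p -ᵥ q = (p - x) - (q - x) := by rw [vsub_eq_sub]; abel
    simp only [SetLike.mem_coe]
    rw [h1]
    exact Submodule.sub_mem _ (hmemx p hp) (hmemx q hq)
  have h5 := Submodule.finrank_mono hle
  have h6 := Submodule.finrank_add_le_finrank_add_finrank (vectorSpan ℝ A) T
  rw [hAB.dim] at h5
  omega

theorem bad_step2_cross {K A B : Set E} (hKc : Convex ℝ K) (hA : A ⊆ K) (hB : B ⊆ K) (cA : Convex ℝ A)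
    (cB : Convex ℝ B) (nA : A.Nonempty) (nB : B.Nonempty) {w w' : E} {β β' : ℝ}
    (hcut : ∀ r ∈ K, ⟪w, r⟫_ℝ = β → r ∈ convexHull ℝ (A ∪ B)) (sA : ∀ r ∈ A, β' < ⟪w', r⟫_ℝ)
    (sB : ∀ r ∈ B, ⟪w', r⟫_ℝ < β') {z' : E} {m' : ℝ} (hz : ∀ r ∈ K, ⟪z', r⟫_ℝ ≤ m') {c d : E}
    (hc : c ∈ K) (hd : d ∈ K) (wc : β < ⟪w, c⟫_ℝ) (wd : ⟪w, d⟫_ℝ < β) (wc' : ⟪w', c⟫_ℝ = β')
    (wd' : ⟪w', d⟫_ℝ = β') (zc : ⟪z', c⟫_ℝ = m') (zd : ⟪z', d⟫_ℝ = m') :
    ∃ τ : ℝ, 0 < τ ∧ τ < 1 ∧ ∃ p ∈ A, ∃ q ∈ B, ∃ a b : ℝ, a + b = 1 ∧ ⟪z', p⟫_ℝ = m' ∧ ⟪z', q⟫_ℝ = m' ∧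
      (1 - τ) • c + τ • d = a • p + b • q ∧ ⟪w', (1 - τ) • c + τ • d⟫_ℝ = β' := by
  have hpos : 0 < ⟪w, c⟫_ℝ - ⟪w, d⟫_ℝ := by linarith
  set τ : ℝ := (⟪w, c⟫_ℝ - β) / (⟪w, c⟫_ℝ - ⟪w, d⟫_ℝ) with hτ
  have t0 : 0 < τ := div_pos (by linarith) hpos
  have t1 : τ < 1 := by
    rw [hτ, div_lt_one hpos]
    linarith
  have hτe : τ * (⟪w, c⟫_ℝ - ⟪w, d⟫_ℝ) = ⟪w, c⟫_ℝ - β := by
    rw [hτ]
    field_simp
  have hin : ∀ v : E, ⟪v, (1 - τ) • c + τ • d⟫_ℝ = (1 - τ) * ⟪v, c⟫_ℝ + τ * ⟪v, d⟫_ℝ := by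
    intro v
    rw [inner_add_right, inner_smul_right, inner_smul_right]
  have hK : (1 - τ) • c + τ • d ∈ K := hKc hc hd (by linarith) t0.le (by ring)
  have hw : ⟪w, (1 - τ) • c + τ • d⟫_ℝ = β := by
    rw [hin]
    linarith
  have hw' : ⟪w', (1 - τ) • c + τ • d⟫_ℝ = β' := by
    rw [hin, wc', wd']
    ring
  have hz' : ⟪z', (1 - τ) • c + τ • d⟫_ℝ = m' := by
    rw [hin, zc, zd]
    ring
  have hh := hcut _ hK hw
  rw [cA.convexHull_union cB nA nB, mem_convexJoin] at hh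
  obtain ⟨p, hp, q, hq, a, b, ha, hb, hab, he⟩ := hh
  have hin2 : ∀ v : E, ⟪v, a • p + b • q⟫_ℝ = a * ⟪v, p⟫_ℝ + b * ⟪v, q⟫_ℝ := by
    intro v
    rw [inner_add_right, inner_smul_right, inner_smul_right]
  have e1 := hin2 w'
  rw [he, hw'] at e1
  have e2 := hin2 z'
  rw [he, hz'] at e2
  have sp := sA p hp
  have sq := sB q hq
  have zp := hz p (hA hp)
  have zq := hz q (hB hq)
  have ha0 : 0 < a := by
    rcases ha.lt_or_eq with h | h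
    · exact h
    · exfalso
      rw [← h] at e1 hab
      have : b = 1 := by linarith
      rw [this] at e1
      linarith
  have hb0 : 0 < b := by
    rcases hb.lt_or_eq with h | h
    · exact h
    · exfalso
      rw [← h] at e1 hab
      have : a = 1 := by linarith
      rw [this] at e1
      linarith
  refine ⟨τ, t0, t1, p, hp, q, hq, a, b, hab, ?_, ?_, he.symm, hw'⟩
  · by_contra hne
    have h3 : ⟪z', p⟫_ℝ < m' := lt_of_le_of_ne zp hne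
    have h4 := mul_pos ha0 (sub_pos.2 h3)
    have h5 := mul_nonneg hb (sub_nonneg.2 zq)
    have h6 : (a + b) * m' = m' := by rw [hab, one_mul]
    linarith
  · by_contra hne
    have h3 : ⟪z', q⟫_ℝ < m' := lt_of_le_of_ne zq hne
    have h4 := mul_pos hb0 (sub_pos.2 h3)
    have h5 := mul_nonneg ha (sub_nonneg.2 zp)
    have h6 : (a + b) * m' = m' := by rw [hab, one_mul]
    linarith

theorem bad_step2_ne {A : Set E} (dA : Module.finrank ℝ (vectorSpan ℝ A) = 2) : A.Nonempty := by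
  rw [Set.nonempty_iff_ne_empty]
  rintro rfl
  rw [vectorSpan_empty, finrank_bot] at dA
  omega

theorem bad_step2_drop {A : Set E} (dA : Module.finrank ℝ (vectorSpan ℝ A) = 2) {z : E} {m : ℝ}
    (h : ∃ a ∈ A, ⟪z, a⟫_ℝ < m) :
    Module.finrank ℝ (vectorSpan ℝ {r | r ∈ A ∧ ⟪z, r⟫_ℝ = m}) ≤ 1 := by
  by_cases h2 : ∃ r ∈ A, ⟪z, r⟫_ℝ = m
  · have := dim_drop h2 h
    omega
  · have : {r | r ∈ A ∧ ⟪z, r⟫_ℝ = m} = ∅ := by
      rw [Set.eq_empty_iff_forall_notMem]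
      rintro r ⟨hr1, hr2⟩
      exact h2 ⟨r, hr1, hr2⟩
    rw [this, vectorSpan_empty, finrank_bot]
    omega

/-- three affinely independent points -/
theorem bad_step2_three {D : Set E} (dD : Module.finrank ℝ (vectorSpan ℝ D) = 2) :
    ∃ d₁ ∈ D, ∃ d₂ ∈ D, ∃ d₃ ∈ D, ∀ a b : ℝ, a • (d₂ - d₁) + b • (d₃ - d₁) = 0 → a = 0 ∧ b = 0 := by
  obtain ⟨d₁, h1⟩ := bad_step2_ne dD
  have hv : vectorSpan ℝ D = Submodule.span ℝ ((fun x => x - d₁) '' D) := by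
    have := vectorSpan_eq_span_vsub_set_right ℝ h1
    simpa only [vsub_eq_sub] using this
  have e2 : ∃ d₂ ∈ D, d₂ - d₁ ≠ 0 := by
    by_contra hcon
    push Not at hcon
    have : vectorSpan ℝ D = ⊥ := by
      rw [hv, Submodule.span_eq_bot]
      rintro _ ⟨x, hx, rfl⟩
      exact hcon x hx
    rw [this, finrank_bot] at dD
    omega
  obtain ⟨d₂, h2, h2'⟩ := e2
  have e3 : ∃ d₃ ∈ D, d₃ - d₁ ∉ Submodule.span ℝ {d₂ - d₁} := by
    by_contra hcon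
    push Not at hcon
    have : vectorSpan ℝ D ≤ Submodule.span ℝ {d₂ - d₁} := by
      rw [hv, Submodule.span_le]
      rintro _ ⟨x, hx, rfl⟩
      exact hcon x hx
    have h3 := Submodule.finrank_mono this
    rw [finrank_span_singleton h2'] at h3
    omega
  obtain ⟨d₃, h3, h3'⟩ := e3
  refine ⟨d₁, h1, d₂, h2, d₃, h3, ?_⟩
  intro a b hab
  have hb : b = 0 := by
    by_contra hb
    apply h3'
    rw [Submodule.mem_span_singleton]
    refine ⟨-(b⁻¹ * a), ?_⟩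
    have h4 : b • (d₃ - d₁) = -(a • (d₂ - d₁)) := by
      rw [eq_neg_iff_add_eq_zero, add_comm]
      exact hab
    have h5 : d₃ - d₁ = b⁻¹ • (b • (d₃ - d₁)) := by
      rw [smul_smul, inv_mul_cancel₀ hb, one_smul]
    rw [h5, h4, smul_neg, smul_smul, neg_smul]
  refine ⟨?_, hb⟩
  rw [hb, zero_smul, add_zero] at hab
  exact (smul_eq_zero.1 hab).resolve_right h2'

/-- the spans of a pair are independent -/
theorem bad_step2_dir {C D : Set E} (dC : Module.finrank ℝ (vectorSpan ℝ C) = 2)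
    (dD : Module.finrank ℝ (vectorSpan ℝ D) = 2) (dCD : Module.finrank ℝ (vectorSpan ℝ (C ∪ D)) = 5)
    {c d : E} (hc : c ∈ C) (hd : d ∈ D) :
    vectorSpan ℝ C ⊓ vectorSpan ℝ D = ⊥ ∧ d - c ∉ vectorSpan ℝ C ⊔ vectorSpan ℝ D := by
  have hle : vectorSpan ℝ (C ∪ D) ≤ (vectorSpan ℝ C ⊔ vectorSpan ℝ D) ⊔ Submodule.span ℝ {d - c} := by
    have hcu : c ∈ C ∪ D := Or.inl hc
    rw [vectorSpan_eq_span_vsub_set_right ℝ hcu, Submodule.span_le]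
    rintro _ ⟨x, hx, rfl⟩
    rcases hx with hx | hx
    · exact Submodule.mem_sup_left (Submodule.mem_sup_left (vsub_mem_vectorSpan ℝ hx hc))
    · have e : x -ᵥ c = (x -ᵥ d) + (d - c) := by
        simp only [vsub_eq_sub]
        abel
      simp only [SetLike.mem_coe]
      rw [e]
      exact Submodule.add_mem_sup (Submodule.mem_sup_right (vsub_mem_vectorSpan ℝ hx hd))
        (Submodule.mem_span_singleton_self _)
  have h1 := Submodule.finrank_mono hle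
  have h2 := Submodule.finrank_sup_add_finrank_inf_eq (vectorSpan ℝ C) (vectorSpan ℝ D)
  have h3 := Submodule.finrank_add_le_finrank_add_finrank (vectorSpan ℝ C ⊔ vectorSpan ℝ D) (Submodule.span ℝ {d - c})
  have h4 : Module.finrank ℝ (Submodule.span ℝ {d - c}) ≤ 1 := by
    have := finrank_span_le_card (R := ℝ) ({d - c} : Set E)
    simpa using this
  constructor
  · apply Submodule.finrank_eq_zero.1
    omega
  · intro hmem
    have h5 : (vectorSpan ℝ C ⊔ vectorSpan ℝ D) ⊔ Submodule.span ℝ {d - c} = vectorSpan ℝ C ⊔ vectorSpan ℝ D := by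
      rw [sup_eq_left, Submodule.span_singleton_le_iff_mem]
      exact hmem
    rw [h5] at h1
    omega

theorem bad_step2_plane {A B : Set E} {w' z' : E} {β' m' : ℝ} (sA : ∀ r ∈ A, β' < ⟪w', r⟫_ℝ)
    (sB : ∀ r ∈ B, ⟪w', r⟫_ℝ < β')
    (hA : Module.finrank ℝ (vectorSpan ℝ {r | r ∈ A ∧ ⟪z', r⟫_ℝ = m'}) ≤ 1)
    (hB : Module.finrank ℝ (vectorSpan ℝ {r | r ∈ B ∧ ⟪z', r⟫_ℝ = m'}) ≤ 1)
    {p₀ q₀ : E} (hp₀ : p₀ ∈ A) (hq₀ : q₀ ∈ B) (zp₀ : ⟪z', p₀⟫_ℝ = m') (zq₀ : ⟪z', q₀⟫_ℝ = m') :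
    ∃ W : Submodule ℝ E, Module.finrank ℝ W ≤ 2 ∧ ∀ h h' : E,
      (∃ p ∈ A, ∃ q ∈ B, ∃ a b : ℝ, a + b = 1 ∧ ⟪z', p⟫_ℝ = m' ∧ ⟪z', q⟫_ℝ = m' ∧ h = a • p + b • q) →
      ⟪w', h⟫_ℝ = β' →
      (∃ p ∈ A, ∃ q ∈ B, ∃ a b : ℝ, a + b = 1 ∧ ⟪z', p⟫_ℝ = m' ∧ ⟪z', q⟫_ℝ = m' ∧ h' = a • p + b • q) →
      ⟪w', h'⟫_ℝ = β' → h - h' ∈ W := by
  set vA := vectorSpan ℝ {r | r ∈ A ∧ ⟪z', r⟫_ℝ = m'} with hvA
  set vB := vectorSpan ℝ {r | r ∈ B ∧ ⟪z', r⟫_ℝ = m'} with hvB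
  set L := Submodule.span ℝ {p₀ - q₀} ⊔ (vA ⊔ vB) with hL
  have hw : 0 < ⟪w', p₀ - q₀⟫_ℝ := by
    rw [inner_sub_right]
    have := sA p₀ hp₀
    have := sB q₀ hq₀
    linarith
  have hne : p₀ - q₀ ≠ 0 := by
    intro h
    rw [h, inner_zero_right] at hw
    exact lt_irrefl _ hw
  have hLd : Module.finrank ℝ L ≤ 3 := by
    have h1 := Submodule.finrank_add_le_finrank_add_finrank (Submodule.span ℝ {p₀ - q₀}) (vA ⊔ vB)
    have h2 := Submodule.finrank_add_le_finrank_add_finrank vA vB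
    rw [finrank_span_singleton hne, ← hL] at h1
    omega
  refine ⟨L ⊓ (Submodule.span ℝ {w'})ᗮ, ?_, ?_⟩
  · have hlt : L ⊓ (Submodule.span ℝ {w'})ᗮ < L := by
      refine lt_of_le_of_ne inf_le_left ?_
      intro heq
      have hmem : p₀ - q₀ ∈ L := Submodule.mem_sup_left (Submodule.mem_span_singleton_self _)
      rw [← heq] at hmem
      have := (Submodule.mem_orthogonal_singleton_iff_inner_right).1 hmem.2
      linarith
    have := Submodule.finrank_lt_finrank_of_lt hlt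
    omega
  · have key : ∀ h : E, (∃ p ∈ A, ∃ q ∈ B, ∃ a b : ℝ, a + b = 1 ∧ ⟪z', p⟫_ℝ = m' ∧ ⟪z', q⟫_ℝ = m' ∧
        h = a • p + b • q) → h - q₀ ∈ L := by
      rintro h ⟨p, hp, q, hq, a, b, hab, zp, zq, rfl⟩
      have e : a • p + b • q - q₀ = a • (p₀ - q₀) + (a • (p -ᵥ p₀) + b • (q -ᵥ q₀)) := by
        simp only [vsub_eq_sub]
        have hb : b = 1 - a := by linarith
        rw [hb]
        module
      rw [e]
      apply Submodule.add_mem_sup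
      · exact Submodule.smul_mem _ _ (Submodule.mem_span_singleton_self _)
      · apply Submodule.add_mem_sup
        · apply Submodule.smul_mem
          exact vsub_mem_vectorSpan ℝ (show p ∈ {r | r ∈ A ∧ ⟪z', r⟫_ℝ = m'} from ⟨hp, zp⟩)
            (show p₀ ∈ {r | r ∈ A ∧ ⟪z', r⟫_ℝ = m'} from ⟨hp₀, zp₀⟩)
        · apply Submodule.smul_mem
          exact vsub_mem_vectorSpan ℝ (show q ∈ {r | r ∈ B ∧ ⟪z', r⟫_ℝ = m'} from ⟨hq, zq⟩)
            (show q₀ ∈ {r | r ∈ B ∧ ⟪z', r⟫_ℝ = m'} from ⟨hq₀, zq₀⟩)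
    intro h h' hh hw1 hh' hw2
    refine ⟨?_, ?_⟩
    · have e : h - h' = (h - q₀) - (h' - q₀) := by abel
      simp only [SetLike.mem_coe]
      rw [e]
      exact Submodule.sub_mem _ (key h hh) (key h' hh')
    · simp only [SetLike.mem_coe]
      rw [Submodule.mem_orthogonal_singleton_iff_inner_right, inner_sub_right, hw1, hw2, sub_self]

/-- the second step -/
theorem bad_step2 (hE : Module.finrank ℝ E = 6) {K A B C D : Set E}
    (hKc : Convex ℝ K) (eA : IsExtreme ℝ K A) (eB : IsExtreme ℝ K B) (eC : IsExtreme ℝ K C)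
    (eD : IsExtreme ℝ K D) (cA : Convex ℝ A) (cB : Convex ℝ B) (cC : Convex ℝ C) (cD : Convex ℝ D)
    (dA : Module.finrank ℝ (vectorSpan ℝ A) = 2)
    (dB : Module.finrank ℝ (vectorSpan ℝ B) = 2)
    (dC : Module.finrank ℝ (vectorSpan ℝ C) = 2) (dD : Module.finrank ℝ (vectorSpan ℝ D) = 2)
    {w w' : E} {β β' : ℝ} (hAB : PD K A B w β) (hCD : PD K C D w' β')
    (sC : ∀ r ∈ C, β < ⟪w, r⟫_ℝ) (sD : ∀ r ∈ D, ⟪w, r⟫_ℝ < β) (sA : ∀ r ∈ A, β' < ⟪w', r⟫_ℝ)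
    (sB : ∀ r ∈ B, ⟪w', r⟫_ℝ < β') (hAD : ∃ v b, PD K A D v b) (hBD : ∃ v b, PD K B D v b)
    {z : E} {m : ℝ} (hz : ∀ r ∈ K, ⟪z, r⟫_ℝ ≤ m) {c₁ c₂ : E} (h1 : c₁ ∈ C) (h2 : c₂ ∈ C)
    (hne : c₁ ≠ c₂) (z1 : ⟪z, c₁⟫_ℝ = m) (z2 : ⟪z, c₂⟫_ℝ = m) (z3 : ∃ c ∈ C, ⟪z, c⟫_ℝ < m) :
    False := by
  have kA : A ⊆ K := eA.1
  have kB : B ⊆ K := eB.1
  have kC : C ⊆ K := eC.1
  have kD : D ⊆ K := eD.1
  have nA := bad_step2_ne dA
  have nB := bad_step2_ne dB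
  -- the midpoint
  set x : E := (1 / 2 : ℝ) • c₁ + (1 / 2 : ℝ) • c₂ with hx
  have hxC : x ∈ C := cC h1 h2 (by norm_num) (by norm_num) (by norm_num)
  have hin : ∀ v : E, ⟪v, x⟫_ℝ = (⟪v, c₁⟫_ℝ + ⟪v, c₂⟫_ℝ) / 2 := by
    intro v
    rw [hx, inner_add_right, inner_smul_right, inner_smul_right]
    ring
  have zx : ⟪z, x⟫_ℝ = m := by
    rw [hin, z1, z2]
    ring
  obtain ⟨z', m', k1, k2, k3, k4⟩ := pd_supp hE hKc dC dD hCD (ζ := z) hxC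
    (fun a ha => by rw [zx]; exact hz a (kC ha)) (by rw [zx]; exact z3)
  have zc : ⟪z', c₁⟫_ℝ = m' ∧ ⟪z', c₂⟫_ℝ = m' := by
    have q1 := k1 c₁ (kC h1)
    have q2 := k1 c₂ (kC h2)
    rw [hin] at k3
    constructor <;> linarith
  have hK' : ∃ r ∈ K, ⟪z', r⟫_ℝ < m' := by
    obtain ⟨a, ha, ha'⟩ := k4
    exact ⟨a, kC ha, ha'⟩
  obtain ⟨v1, b1, hAD⟩ := hAD
  obtain ⟨v2, b2, hBD⟩ := hBD
  have pA := pd_proper hE kD kA hAD.symm k1 k2 hK'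
  have pB := pd_proper hE kD kB hBD.symm k1 k2 hK'
  have rA := bad_step2_drop dA pA
  have rB := bad_step2_drop dB pB
  obtain ⟨d₁, hd₁, d₂, hd₂, d₃, hd₃, hind⟩ := bad_step2_three dD
  obtain ⟨hinf, hnot⟩ := bad_step2_dir dC dD hCD.dim h1 hd₁
  obtain ⟨τ₁, s1, t1, p1, hp1, q1, hq1, a1, b1', hab1, zp1, zq1, he1, hw1⟩ :=
    bad_step2_cross hKc kA kB cA cB nA nB hAB.cut sA sB k1 (kC h1) (kD hd₁) (sC _ h1) (sD _ hd₁)
      (hCD.onF _ h1) (hCD.onG _ hd₁) zc.1 (k2 _ hd₁)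
  obtain ⟨τ₂, s2, t2, p2, hp2, q2, hq2, a2, b2', hab2, zp2, zq2, he2, hw2⟩ :=
    bad_step2_cross hKc kA kB cA cB nA nB hAB.cut sA sB k1 (kC h1) (kD hd₂) (sC _ h1) (sD _ hd₂)
      (hCD.onF _ h1) (hCD.onG _ hd₂) zc.1 (k2 _ hd₂)
  obtain ⟨τ₃, s3, t3, p3, hp3, q3, hq3, a3, b3', hab3, zp3, zq3, he3, hw3⟩ :=
    bad_step2_cross hKc kA kB cA cB nA nB hAB.cut sA sB k1 (kC h1) (kD hd₃) (sC _ h1) (sD _ hd₃)
      (hCD.onF _ h1) (hCD.onG _ hd₃) zc.1 (k2 _ hd₃)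
  obtain ⟨σ, s4, t4, p4, hp4, q4, hq4, a4, b4', hab4, zp4, zq4, he4, hw4⟩ :=
    bad_step2_cross hKc kA kB cA cB nA nB hAB.cut sA sB k1 (kC h2) (kD hd₁) (sC _ h2) (sD _ hd₁)
      (hCD.onF _ h2) (hCD.onG _ hd₁) zc.2 (k2 _ hd₁)
  obtain ⟨W, hW, hW'⟩ := bad_step2_plane sA sB rA rB hp1 hq1 zp1 zq1
  set g1 := (1 - τ₁) • c₁ + τ₁ • d₁ with hg1
  set g2 := (1 - τ₂) • c₁ + τ₂ • d₂ with hg2
  set g3 := (1 - τ₃) • c₁ + τ₃ • d₃ with hg3
  set g4 := (1 - σ) • c₂ + σ • d₁ with hg4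
  have m2 : g2 - g1 ∈ W := hW' _ _ ⟨p2, hp2, q2, hq2, a2, b2', hab2, zp2, zq2, he2⟩ hw2
    ⟨p1, hp1, q1, hq1, a1, b1', hab1, zp1, zq1, he1⟩ hw1
  have m3 : g3 - g1 ∈ W := hW' _ _ ⟨p3, hp3, q3, hq3, a3, b3', hab3, zp3, zq3, he3⟩ hw3
    ⟨p1, hp1, q1, hq1, a1, b1', hab1, zp1, zq1, he1⟩ hw1
  have m4 : g4 - g1 ∈ W := hW' _ _ ⟨p4, hp4, q4, hq4, a4, b4', hab4, zp4, zq4, he4⟩ hw4
    ⟨p1, hp1, q1, hq1, a1, b1', hab1, zp1, zq1, he1⟩ hw1
  have hlin : LinearIndependent ℝ ![g2 - g1, g3 - g1, g4 - g1] := by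
    rw [Fintype.linearIndependent_iff]
    intro g hg
    rw [Fin.sum_univ_three] at hg
    simp only [Matrix.cons_val_zero, Matrix.cons_val_one, Matrix.cons_val] at hg
    set α := g 0
    set γ := g 1
    set δ := g 2
    have hexp : (α * (τ₂ - τ₁) + γ * (τ₃ - τ₁) + δ * (σ - τ₁)) • (d₁ - c₁) +
        ((δ * (1 - σ)) • (c₂ - c₁) + ((α * τ₂) • (d₂ - d₁) + (γ * τ₃) • (d₃ - d₁))) = 0 := by
      rw [← hg, hg1, hg2, hg3, hg4]
      module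
    have mu : (δ * (1 - σ)) • (c₂ - c₁) ∈ vectorSpan ℝ C :=
      Submodule.smul_mem _ _ (vsub_mem_vectorSpan ℝ h2 h1)
    have mf : (α * τ₂) • (d₂ - d₁) + (γ * τ₃) • (d₃ - d₁) ∈ vectorSpan ℝ D :=
      Submodule.add_mem _ (Submodule.smul_mem _ _ (vsub_mem_vectorSpan ℝ hd₂ hd₁))
        (Submodule.smul_mem _ _ (vsub_mem_vectorSpan ℝ hd₃ hd₁))
    have hlam : α * (τ₂ - τ₁) + γ * (τ₃ - τ₁) + δ * (σ - τ₁) = 0 := by
      by_contra hlam
      apply hnot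
      set lam := α * (τ₂ - τ₁) + γ * (τ₃ - τ₁) + δ * (σ - τ₁)
      have e1 : lam • (d₁ - c₁) = -((δ * (1 - σ)) • (c₂ - c₁) + ((α * τ₂) • (d₂ - d₁) + (γ * τ₃) • (d₃ - d₁))) :=
        eq_neg_of_add_eq_zero_left hexp
      have e2 : d₁ - c₁ = lam⁻¹ • (lam • (d₁ - c₁)) := by
        rw [smul_smul, inv_mul_cancel₀ hlam, one_smul]
      rw [e2, e1]
      apply Submodule.smul_mem
      apply Submodule.neg_mem
      exact Submodule.add_mem_sup mu mf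
    rw [hlam, zero_smul, zero_add] at hexp
    have e3 : (δ * (1 - σ)) • (c₂ - c₁) ∈ vectorSpan ℝ C ⊓ vectorSpan ℝ D := by
      refine ⟨mu, ?_⟩
      have e4 : (δ * (1 - σ)) • (c₂ - c₁) = -((α * τ₂) • (d₂ - d₁) + (γ * τ₃) • (d₃ - d₁)) :=
        eq_neg_of_add_eq_zero_left hexp
      rw [e4]
      exact Submodule.neg_mem _ mf
    rw [hinf, Submodule.mem_bot] at e3
    rw [e3, zero_add] at hexp
    have e5 := (smul_eq_zero.1 e3).resolve_right (sub_ne_zero.2 hne.symm)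
    obtain ⟨e6, e7⟩ := hind _ _ hexp
    have r0 : α = 0 := (mul_eq_zero.1 e6).resolve_right s2.ne'
    have r1 : γ = 0 := (mul_eq_zero.1 e7).resolve_right s3.ne'
    have r2 : δ = 0 := (mul_eq_zero.1 e5).resolve_right (by linarith)
    intro i
    fin_cases i
    · exact r0
    · exact r1
    · exact r2
  have hcard := finrank_span_eq_card hlin
  rw [Fintype.card_fin] at hcard
  have hle : Submodule.span ℝ (Set.range ![g2 - g1, g3 - g1, g4 - g1]) ≤ W := by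
    rw [Submodule.span_le]
    rintro _ ⟨i, rfl⟩
    fin_cases i
    · exact m2
    · exact m3
    · exact m4
  have := Submodule.finrank_mono hle
  omega

end pure

variable {M : Type*} [TopologicalSpace M] {N : ℕ} {f : M → EuclideanSpace ℝ (Fin N)}

theorem bd_sep {E : Type*} [NormedAddCommGroup E] [InnerProductSpace ℝ E] [FiniteDimensional ℝ E]
    {X : Set E} (hX : IsClosed X) (hc : Convex ℝ X) {p : E} (hp : p ∉ X) :
    ∃ (n : E) (b : ℝ), (∀ r ∈ X, ⟪n, r⟫_ℝ < b) ∧ b < ⟪n, p⟫_ℝ := by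
  haveI : CompleteSpace E := FiniteDimensional.complete ℝ E
  obtain ⟨g, u, h1, h2⟩ := geometric_hahn_banach_closed_point hc hX hp
  refine ⟨(InnerProductSpace.toDual ℝ E).symm g, u, ?_, ?_⟩
  · intro r hr
    rw [InnerProductSpace.toDual_symm_apply]
    exact h1 r hr
  · rw [InnerProductSpace.toDual_symm_apply]
    exact h2

theorem bd_const (h0 : Conn0 f) {t : M → M → ZMod 2} {F G : Set (EuclideanSpace ℝ (Fin N))}
    {s s' : M → ZMod 2} (hs : Triv {x | f x ∉ F} t s) (hs' : Triv {x | f x ∉ G} t s')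
    (v : EuclideanSpace ℝ (Fin N)) (b : ℝ) (hF : ∀ r ∈ F, ⟪v, r⟫_ℝ ≤ b)
    (hG : ∀ r ∈ G, ⟪v, r⟫_ℝ ≤ b) (x x' : M) (hx : b < ⟪v, f x⟫_ℝ) (hx' : b < ⟪v, f x'⟫_ℝ) :
    s x + s' x = s x' + s' x' := by
  obtain ⟨k, hk⟩ := triv_uniq (conn_open h0 v b)
    (hs.mono (show {x | b < ⟪v, f x⟫_ℝ} ⊆ {x | f x ∉ F} from
      fun y hy hyF => absurd (hF _ hyF) (not_le.mpr hy)))
    (hs'.mono (show {x | b < ⟪v, f x⟫_ℝ} ⊆ {x | f x ∉ G} from
      fun y hy hyG => absurd (hG _ hyG) (not_le.mpr hy)))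
  rw [hk x hx, hk x' hx']

/-- the structure of pairs which are not good -/
theorem bad_data [CompactSpace M] [T2Space M] [ConnectedSpace M] (S : CSetup f) (hN : N = 6)
    {t : M → M → ZMod 2} {F G : Set (EuclideanSpace ℝ (Fin N))} (hF : Two f F) (hG : Two f G)
    {s s' : M → ZMod 2} (hs : Triv {x | f x ∉ F} t s) (hs' : Triv {x | f x ∉ G} t s')
    (hbad : ¬ ∃ c : ZMod 2, ∀ x, f x ∉ convexHull ℝ (F ∪ G) → s x + s' x = c) :
    ∃ (w : EuclideanSpace ℝ (Fin N)) (β : ℝ), PD (Hul f) F G w β ∧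
      ∀ x x', β < ⟪w, f x⟫_ℝ → ⟪w, f x'⟫_ℝ < β → s x + s' x ≠ s x' + s' x' := by
  set X : Set (EuclideanSpace ℝ (Fin N)) := convexHull ℝ (F ∪ G) with hXdef
  have hK : IsCompact (Hul f) := hul_compact S.cont
  have hFK : IsCompact F := fc_compact hK hF.1
  have hGK : IsCompact G := fc_compact hK hG.1
  have hXK : IsCompact X := sg3_compact_hull (hFK.union hGK)
  have hXc : Convex ℝ X := convex_convexHull ℝ _
  -- dimension
  have hd5 : Module.finrank ℝ (vectorSpan ℝ (F ∪ G)) = 5 := by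
    have h1 := span_union_le F G
    rw [hF.2.1, hG.2.1] at h1
    by_contra hne
    have h2 : Module.finrank ℝ (vectorSpan ℝ (F ∪ G)) + 2 ≤ N := by omega
    obtain ⟨c, hc⟩ := good_of_dim S (t := t) hF.1 hG.1 h2 s s' hs hs'
    exact hbad ⟨c, hc⟩
  obtain ⟨w, hwV, hw0⟩ := ap_exists (N := N) (vectorSpan ℝ (F ∪ G)) (by omega)
  obtain ⟨x₀', hx₀'⟩ := S.sub w 0 hw0
  haveI : Nonempty M := ⟨x₀'⟩
  have hKne : (Hul f).Nonempty := ⟨f x₀', subset_convexHull ℝ _ (mem_range_self _)⟩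
  obtain ⟨p₀, hp₀⟩ := fc_nonempty hKne hF.1
  obtain ⟨β, hβ⟩ : ∃ β : ℝ, β = ⟪w, p₀⟫_ℝ := ⟨_, rfl⟩
  have hU : ∀ r ∈ F ∪ G, ⟪w, r⟫_ℝ = β := by
    intro r hr
    have h1 : r -ᵥ p₀ ∈ vectorSpan ℝ (F ∪ G) := vsub_mem_vectorSpan ℝ hr (Or.inl hp₀)
    have h2 := (Submodule.mem_orthogonal' _ _).1 hwV _ h1
    rw [vsub_eq_sub, inner_sub_right] at h2
    rw [hβ]
    linarith
  have hUX : ∀ r ∈ X, ⟪w, r⟫_ℝ = β := by
    have hc : Convex ℝ {r : EuclideanSpace ℝ (Fin N) | ⟪w, r⟫_ℝ = β} := by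
      intro a ha b hb u v hu hv huv
      simp only [mem_setOf_eq] at ha hb ⊢
      rw [inner_add_right, inner_smul_right, inner_smul_right, ha, hb, ← add_mul, huv, one_mul]
    intro r hr
    exact convexHull_min (s := F ∪ G) (fun r hr => hU r hr) hc hr
  have hFX : ∀ r ∈ F, r ∈ X := fun r hr => subset_convexHull ℝ _ (Or.inl hr)
  have hGX : ∀ r ∈ G, r ∈ X := fun r hr => subset_convexHull ℝ _ (Or.inr hr)
  obtain ⟨x₀, hx₀⟩ := S.sub w β hw0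
  -- points on the hyperplane off X
  have key : ∀ x₁ : M, ⟪w, f x₁⟫_ℝ = β → f x₁ ∉ X → ∀ x : M, ⟪w, f x⟫_ℝ ≠ β →
      s x + s' x = s x₁ + s' x₁ := by
    intro x₁ h1 h1X x hx
    obtain ⟨n, b, hn1, hn2⟩ := bd_sep hXK.isClosed hXc h1X
    have hmu : ∀ μ : ℝ, b + μ * β < ⟪n + μ • w, f x⟫_ℝ → s x + s' x = s x₁ + s' x₁ := by
      intro μ hμ
      apply bd_const S.conn hs hs' (n + μ • w) (b + μ * β) _ _ x x₁ hμ
      · rw [inner_add_left, real_inner_smul_left, h1]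
        linarith
      · intro r hr
        rw [inner_add_left, real_inner_smul_left, hU r (Or.inl hr)]
        have := hn1 r (hFX r hr)
        linarith
      · intro r hr
        rw [inner_add_left, real_inner_smul_left, hU r (Or.inr hr)]
        have := hn1 r (hGX r hr)
        linarith
    have hne : ⟪w, f x⟫_ℝ - β ≠ 0 := sub_ne_zero.mpr hx
    apply hmu ((b - ⟪n, f x⟫_ℝ + 1) / (⟪w, f x⟫_ℝ - β))
    rw [inner_add_left, real_inner_smul_left]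
    have h2 : (b - ⟪n, f x⟫_ℝ + 1) / (⟪w, f x⟫_ℝ - β) * (⟪w, f x⟫_ℝ - β)
        = b - ⟪n, f x⟫_ℝ + 1 := div_mul_cancel₀ _ hne
    nlinarith
  have claim1 : ∀ x : M, ⟪w, f x⟫_ℝ = β → f x ∈ X := by
    intro x₁ h1
    by_contra h1X
    apply hbad
    refine ⟨s x₀ + s' x₀, fun x hx => ?_⟩
    by_cases hxe : ⟪w, f x⟫_ℝ = β
    · rw [key x hxe hx x₀ hx₀]
    · rw [key x₁ h1 h1X x hxe, key x₁ h1 h1X x₀ hx₀]
  have hpos : ∀ x x' : M, β < ⟪w, f x⟫_ℝ → β < ⟪w, f x'⟫_ℝ → s x + s' x = s x' + s' x' := by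
    intro x x' hx hx'
    apply bd_const S.conn hs hs' w β _ _ x x' hx hx'
    · intro r hr
      exact (hU r (Or.inl hr)).le
    · intro r hr
      exact (hU r (Or.inr hr)).le
  have hneg : ∀ x x' : M, ⟪w, f x⟫_ℝ < β → ⟪w, f x'⟫_ℝ < β → s x + s' x = s x' + s' x' := by
    intro x x' hx hx'
    apply bd_const S.conn hs hs' (-w) (-β) _ _ x x'
    · rw [inner_neg_left]; linarith
    · rw [inner_neg_left]; linarith
    · intro r hr
      rw [inner_neg_left, hU r (Or.inl hr)]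
    · intro r hr
      rw [inner_neg_left, hU r (Or.inr hr)]
  have hlast : ∀ x x', β < ⟪w, f x⟫_ℝ → ⟪w, f x'⟫_ℝ < β → s x + s' x ≠ s x' + s' x' := by
    intro x x' hx hx' heq
    apply hbad
    refine ⟨s x + s' x, fun y hy => ?_⟩
    rcases lt_trichotomy (⟪w, f y⟫_ℝ) β with h | h | h
    · rw [heq]
      exact hneg y x' h hx'
    · exact absurd (claim1 y h) hy
    · exact hpos y x h hx
  have hexp : ∃ x, β < ⟪w, f x⟫_ℝ := by
    by_contra hcon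
    push Not at hcon
    apply hbad
    have h3 : ⟪w, f x₀⟫_ℝ < β := lt_of_le_of_ne (hcon x₀) hx₀
    refine ⟨s x₀ + s' x₀, fun y hy => ?_⟩
    have h4 : ⟪w, f y⟫_ℝ < β := lt_of_le_of_ne (hcon y) (fun h => hy (claim1 y h))
    exact hneg y x₀ h4 h3
  have hexn : ∃ x, ⟪w, f x⟫_ℝ < β := by
    by_contra hcon
    push Not at hcon
    apply hbad
    have h3 : β < ⟪w, f x₀⟫_ℝ := lt_of_le_of_ne (hcon x₀) (Ne.symm hx₀)
    refine ⟨s x₀ + s' x₀, fun y hy => ?_⟩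
    have h4 : β < ⟪w, f y⟫_ℝ := lt_of_le_of_ne (hcon y) (fun h => hy (claim1 y h.symm))
    exact hpos y x₀ h4 h3
  obtain ⟨xp, hxp⟩ := hexp
  obtain ⟨xn, hxn⟩ := hexn
  have hcut : ∀ r ∈ Hul f, ⟪w, r⟫_ℝ = β → r ∈ X := by
    intro r hr hrw
    by_contra hrX
    obtain ⟨n, b, hn1, hn2⟩ := bd_sep hXK.isClosed hXc hrX
    have hcn : Continuous (fun x : M => ⟪n, f x⟫_ℝ) := by
      have := S.cont
      fun_prop
    have hcw : Continuous (fun x : M => ⟪w, f x⟫_ℝ) := by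
      have := S.cont
      fun_prop
    have hne : ∀ μ : ℝ, ∃ x, b + μ * β ≤ ⟪n + μ • w, f x⟫_ℝ := by
      intro μ
      by_contra hcon
      push Not at hcon
      have hc : Convex ℝ {q : EuclideanSpace ℝ (Fin N) | ⟪n + μ • w, q⟫_ℝ < b + μ * β} := by
        intro a ha c hc u v hu hv huv
        simp only [mem_setOf_eq] at ha hc ⊢
        rw [inner_add_right, inner_smul_right, inner_smul_right]
        rcases eq_or_lt_of_le hu with hu0 | hu0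
        · rw [← hu0] at huv ⊢
          have hv1 : v = 1 := by linarith
          rw [hv1]
          linarith
        · have e1 := mul_lt_mul_of_pos_left ha hu0
          have e2 := mul_le_mul_of_nonneg_left hc.le hv
          have e3 : u * (b + μ * β) + v * (b + μ * β) = b + μ * β := by
            rw [← add_mul, huv, one_mul]
          linarith
      have h5 : r ∈ {q : EuclideanSpace ℝ (Fin N) | ⟪n + μ • w, q⟫_ℝ < b + μ * β} := by
        apply convexHull_min (s := range f) _ hc hr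
        rintro _ ⟨x, rfl⟩
        exact hcon x
      simp only [mem_setOf_eq] at h5
      rw [inner_add_left, real_inner_smul_left, hrw] at h5
      linarith
    set Tp : Set (ℝ × M) := {q | b + q.1 * β ≤ ⟪n, f q.2⟫_ℝ + q.1 * ⟪w, f q.2⟫_ℝ ∧
      β ≤ ⟪w, f q.2⟫_ℝ} with hTp
    set Tn : Set (ℝ × M) := {q | b + q.1 * β ≤ ⟪n, f q.2⟫_ℝ + q.1 * ⟪w, f q.2⟫_ℝ ∧
      ⟪w, f q.2⟫_ℝ ≤ β} with hTn
    have hcn2 : Continuous (fun q : ℝ × M => ⟪n, f q.2⟫_ℝ) := hcn.comp continuous_snd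
    have hcw2 : Continuous (fun q : ℝ × M => ⟪w, f q.2⟫_ℝ) := hcw.comp continuous_snd
    have hTpc : IsClosed Tp := by
      apply IsClosed.and
      · exact isClosed_le (by fun_prop) (hcn2.add (continuous_fst.mul hcw2))
      · exact isClosed_le continuous_const hcw2
    have hTnc : IsClosed Tn := by
      apply IsClosed.and
      · exact isClosed_le (by fun_prop) (hcn2.add (continuous_fst.mul hcw2))
      · exact isClosed_le hcw2 continuous_const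
    have hAp : IsClosed (Prod.fst '' Tp) := isClosedMap_fst_of_compactSpace _ hTpc
    have hAn : IsClosed (Prod.fst '' Tn) := isClosedMap_fst_of_compactSpace _ hTnc
    have hcov : (univ : Set ℝ) ⊆ Prod.fst '' Tp ∪ Prod.fst '' Tn := by
      intro μ _
      obtain ⟨x, hx⟩ := hne μ
      rw [inner_add_left, real_inner_smul_left] at hx
      rcases le_total β (⟪w, f x⟫_ℝ) with h | h
      · exact Or.inl ⟨(μ, x), ⟨hx, h⟩, rfl⟩
      · exact Or.inr ⟨(μ, x), ⟨hx, h⟩, rfl⟩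
    have hpne : ((univ : Set ℝ) ∩ Prod.fst '' Tp).Nonempty := by
      have hne : ⟪w, f xp⟫_ℝ - β ≠ 0 := by
        have : 0 < ⟪w, f xp⟫_ℝ - β := by linarith
        exact this.ne'
      have h2 : (b - ⟪n, f xp⟫_ℝ) / (⟪w, f xp⟫_ℝ - β) * (⟪w, f xp⟫_ℝ - β)
        = b - ⟪n, f xp⟫_ℝ := div_mul_cancel₀ _ hne
      refine ⟨(b - ⟪n, f xp⟫_ℝ) / (⟪w, f xp⟫_ℝ - β), mem_univ _,
        ((b - ⟪n, f xp⟫_ℝ) / (⟪w, f xp⟫_ℝ - β), xp), ⟨?_, hxp.le⟩, rfl⟩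
      dsimp only
      nlinarith
    have hnne : ((univ : Set ℝ) ∩ Prod.fst '' Tn).Nonempty := by
      have hne : ⟪w, f xn⟫_ℝ - β ≠ 0 := by
        have : ⟪w, f xn⟫_ℝ - β < 0 := by linarith
        exact this.ne
      have h2 : (b - ⟪n, f xn⟫_ℝ) / (⟪w, f xn⟫_ℝ - β) * (⟪w, f xn⟫_ℝ - β)
        = b - ⟪n, f xn⟫_ℝ := div_mul_cancel₀ _ hne
      refine ⟨(b - ⟪n, f xn⟫_ℝ) / (⟪w, f xn⟫_ℝ - β), mem_univ _,
        ((b - ⟪n, f xn⟫_ℝ) / (⟪w, f xn⟫_ℝ - β), xn), ⟨?_, hxn.le⟩, rfl⟩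
      dsimp only
      nlinarith
    obtain ⟨μ, -, ⟨q1, hq1, hq1e⟩, ⟨q2, hq2, hq2e⟩⟩ :=
      isPreconnected_closed_iff.1 (isPreconnected_univ (α := ℝ)) _ _ hAp hAn hcov hpne hnne
    obtain ⟨μ1, y1⟩ := q1
    obtain ⟨μ2, y2⟩ := q2
    dsimp only at hq1e hq2e
    subst hq1e
    subst hq2e
    obtain ⟨ha1, ha2⟩ := hq1
    obtain ⟨hb1, hb2⟩ := hq2
    dsimp only at ha1 ha2 hb1 hb2
    have hcon := S.conn (n + μ2 • w) (b + μ2 * β)
    have hm1 : y1 ∈ {x | b + μ2 * β ≤ ⟪n + μ2 • w, f x⟫_ℝ} := by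
      simp only [mem_setOf_eq]
      rw [inner_add_left, real_inner_smul_left]
      exact ha1
    have hm2 : y2 ∈ {x | b + μ2 * β ≤ ⟪n + μ2 • w, f x⟫_ℝ} := by
      simp only [mem_setOf_eq]
      rw [inner_add_left, real_inner_smul_left]
      exact hb1
    obtain ⟨y, hy1, hy2⟩ := hcon.intermediate_value hm2 hm1 hcw.continuousOn ⟨hb2, ha2⟩
    simp only [mem_setOf_eq] at hy1
    rw [inner_add_left, real_inner_smul_left] at hy1
    dsimp only at hy2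
    rw [hy2] at hy1
    have h6 := hn1 _ (claim1 y hy2)
    linarith
  refine ⟨w, β, ⟨fun r hr => hU r (Or.inl hr), fun r hr => hU r (Or.inr hr), hcut, ?_, ?_, hd5⟩,
    hlast⟩
  · exact ⟨f xp, subset_convexHull ℝ _ (mem_range_self _), hxp⟩
  · exact ⟨f xn, subset_convexHull ℝ _ (mem_range_self _), hxn⟩

theorem nfb_z2a : ∀ p q r u : ZMod 2, q + u = (p + q) + (r + u) + (p + r) := by decide

theorem nfb_z2b : ∀ p q r : ZMod 2, p ≠ r → q ≠ r → p = q := by decide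

/-- the final contradiction -/
theorem nfb_final {E : Type*} [NormedAddCommGroup E] [InnerProductSpace ℝ E]
    [FiniteDimensional ℝ E] (hE : Module.finrank ℝ E = 6) {K A B C D : Set E} (hK : IsCompact K)
    (hKc : Convex ℝ K) (eA : IsExtreme ℝ K A) (eB : IsExtreme ℝ K B) (eC : IsExtreme ℝ K C)
    (eD : IsExtreme ℝ K D) (cA : Convex ℝ A) (cB : Convex ℝ B) (cC : Convex ℝ C) (cD : Convex ℝ D)
    (kA : IsCompact A) (dA : Module.finrank ℝ (vectorSpan ℝ A) = 2)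
    (dB : Module.finrank ℝ (vectorSpan ℝ B) = 2)
    (dC : Module.finrank ℝ (vectorSpan ℝ C) = 2) (dD : Module.finrank ℝ (vectorSpan ℝ D) = 2)
    {w w' : E} {β β' : ℝ} (hAB : PD K A B w β) (hCD : PD K C D w' β')
    (sC : ∀ r ∈ C, β < ⟪w, r⟫_ℝ) (sD : ∀ r ∈ D, ⟪w, r⟫_ℝ < β) (sA : ∀ r ∈ A, β' < ⟪w', r⟫_ℝ)
    (sB : ∀ r ∈ B, ⟪w', r⟫_ℝ < β') (hBC : ∃ v b, PD K B C v b) (hBD : ∃ v b, PD K B D v b)
    (hAD : ∃ v b, PD K A D v b) : False := by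
  obtain ⟨z, m, hz, c₁, h1, c₂, h2, hne, z1, z2, z3⟩ := bad_step1 hE hK hKc eA eB eC eD cA cB cC cD
    kA dA dB dC dD hAB hCD sC sD sA sB hBC hBD
  exact bad_step2 hE hKc eA eB eC eD cA cB cC cD dA dB dC dD hAB hCD sC sD sA sB hAD hBD hz h1 h2
    hne z1 z2 z3

/-- flipping the orientation -/
theorem nfb_flip {E : Type*} [NormedAddCommGroup E] [InnerProductSpace ℝ E]
    [FiniteDimensional ℝ E] {K A B C D : Set E} {w : E} {β : ℝ} (hAB : PD K A B w β)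
    (h : ((∀ r ∈ C, β < ⟪w, r⟫_ℝ) ∧ (∀ r ∈ D, ⟪w, r⟫_ℝ < β)) ∨
      ((∀ r ∈ C, ⟪w, r⟫_ℝ < β) ∧ (∀ r ∈ D, β < ⟪w, r⟫_ℝ))) :
    ∃ (v : E) (b : ℝ), PD K A B v b ∧ (∀ r ∈ C, b < ⟪v, r⟫_ℝ) ∧ (∀ r ∈ D, ⟪v, r⟫_ℝ < b) := by
  rcases h with ⟨h1, h2⟩ | ⟨h1, h2⟩
  · exact ⟨w, β, hAB, h1, h2⟩
  · refine ⟨-w, -β, hAB.neg', fun r hr => ?_, fun r hr => ?_⟩
    · rw [inner_neg_left]
      exact neg_lt_neg (h1 r hr)
    · rw [inner_neg_left]
      exact neg_lt_neg (h2 r hr)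

/-- there are no four pairwise bad faces with the same class -/
theorem no_four_bad [CompactSpace M] [T2Space M] [ConnectedSpace M] (S : CSetup f) (hN : N = 6)
    {t : M → M → ZMod 2} (hn : ¬ Null univ t) {Φ : Fin 4 → Set (EuclideanSpace ℝ (Fin N))}
    (h2 : ∀ i, Two f (Φ i)) (ht : ∀ i, Null {x | f x ∉ Φ i} t)
    (hg : ∀ i j, i ≠ j → ¬ Good f t (Φ i) (Φ j)) : False := by
  classical
  subst hN
  have hKc : Convex ℝ (Hul f) := convex_convexHull ℝ _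
  have hKk : IsCompact (Hul f) := hul_compact S.cont
  have hKne : (Hul f).Nonempty := (range_nonempty f).convexHull
  have hFc : ∀ i, Fc (Hul f) (Φ i) := fun i => (h2 i).1
  have hdim : ∀ i, Module.finrank ℝ (vectorSpan ℝ (Φ i)) = 2 := fun i => (h2 i).2.1
  have hsub : ∀ i, Φ i ⊆ Hul f := fun i => fc_sub (hFc i)
  have hcv : ∀ i, Convex ℝ (Φ i) := fun i => fc_convex hKc (hFc i)
  have hcp : ∀ i, IsCompact (Φ i) := fun i => fc_compact hKk (hFc i)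
  have hex : ∀ i, IsExtreme ℝ (Hul f) (Φ i) := fun i => fc_extreme (hFc i)
  have hE : Module.finrank ℝ (EuclideanSpace ℝ (Fin 6)) = 6 := finrank_euclideanSpace_fin
  have hdis : ∀ i j, i ≠ j → Disjoint (Φ i) (Φ j) := by
    intro i j hij
    rw [Set.disjoint_iff_inter_eq_empty]
    by_contra hne
    exact hg i j hij (good_pair S (le_refl _) (h2 i) (h2 j)
      (Or.inl (Set.nonempty_iff_ne_empty.2 hne)))
  have hco : ∀ i, IsPreconnected {x | f x ∉ Φ i} := by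
    intro i
    have h := fc_co S.cont S.conn (hFc i) 0 0
    have e : {x | ¬ (f x ∈ Φ i ∧ (0:ℝ) ≤ ⟪(0 : EuclideanSpace ℝ (Fin 6)), f x⟫_ℝ)} =
        {x | f x ∉ Φ i} := by
      ext x
      simp
    rwa [e] at h
  have hconn : ∀ i, IsPreconnected (f ⁻¹' Φ i) := by
    intro i
    have h := fc_conn S.cont S.conn (hFc i) 0 0
    have e : {x | f x ∈ Φ i ∧ (0:ℝ) ≤ ⟪(0 : EuclideanSpace ℝ (Fin 6)), f x⟫_ℝ} =
        f ⁻¹' Φ i := by
      ext x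
      simp
    rwa [e] at h
  choose s hs using ht
  have hdata : ∀ i j, i ≠ j → ∃ (w : EuclideanSpace ℝ (Fin 6)) (β : ℝ),
      PD (Hul f) (Φ i) (Φ j) w β ∧ ∀ x x', β < ⟪w, f x⟫_ℝ → ⟪w, f x'⟫_ℝ < β →
        s i x + s j x ≠ s i x' + s j x' := by
    intro i j hij
    refine bad_data S rfl (h2 i) (h2 j) (hs i) (hs j) ?_
    rintro ⟨c, hc⟩
    apply hg i j hij
    intro s0 s0' hs0 hs0'
    obtain ⟨k, hk⟩ := triv_uniq (hco i) (hs i) hs0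
    obtain ⟨k', hk'⟩ := triv_uniq (hco j) (hs j) hs0'
    refine ⟨k + k' + c, fun x hx => ?_⟩
    have h1 := hk x (fun h => hx (subset_convexHull ℝ _ (Or.inl h)))
    have h2 := hk' x (fun h => hx (subset_convexHull ℝ _ (Or.inr h)))
    have h3 := hc x hx
    rw [← h1, ← h2, ← h3]
    exact nfb_z2a _ _ _ _
  have hy : ∀ i, ∃ y, f y ∈ Φ i := by
    intro i
    obtain ⟨r, hr⟩ := fc_nonempty hKne (hFc i)
    obtain ⟨x, hx, -⟩ := fc_cover S.cont (hFc i) (w := 0) (b := 0) hr (by simp)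
    exact ⟨x, hx⟩
  choose y hy using hy
  obtain ⟨a, b, c, d, hab, hac, had, hbc, hbd, hcd, e1, e2⟩ := interlace hn
    (G := fun i => f ⁻¹' Φ i) (fun i => (hcp i).isClosed.preimage S.cont) hconn
    (fun i j hij => (hdis i j hij).preimage f) (s := s) (fun i => hs i) (y := y) hy
  -- points on both sides
  have hposM : ∀ (w : EuclideanSpace ℝ (Fin 6)) (β : ℝ), (∃ r ∈ Hul f, β < ⟪w, r⟫_ℝ) →
      ∃ x, β < ⟪w, f x⟫_ℝ := by
    rintro w β ⟨r, hr, hlt⟩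
    by_contra hcon
    push Not at hcon
    have hcvx : Convex ℝ {r : EuclideanSpace ℝ (Fin 6) | ⟪w, r⟫_ℝ ≤ β} :=
      convex_halfSpace_le (f := fun r => ⟪w, r⟫_ℝ)
        ⟨fun x y => inner_add_right _ _ _, fun c x => inner_smul_right _ _ _⟩ β
    have h1 : Hul f ⊆ {r : EuclideanSpace ℝ (Fin 6) | ⟪w, r⟫_ℝ ≤ β} := by
      refine convexHull_min ?_ hcvx
      rintro _ ⟨x, rfl⟩
      exact hcon x
    have h2 : ⟪w, r⟫_ℝ ≤ β := h1 hr
    linarith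
  have hnegM : ∀ (w : EuclideanSpace ℝ (Fin 6)) (β : ℝ), (∃ r ∈ Hul f, ⟪w, r⟫_ℝ < β) →
      ∃ x, ⟪w, f x⟫_ℝ < β := by
    rintro w β ⟨r, hr, hlt⟩
    obtain ⟨x, hx⟩ := hposM (-w) (-β) ⟨r, hr, by rw [inner_neg_left]; exact neg_lt_neg hlt⟩
    rw [inner_neg_left] at hx
    exact ⟨x, neg_lt_neg_iff.1 hx⟩
  have hsides : ∀ a b c d : Fin 4, a ≠ b → a ≠ c → a ≠ d → b ≠ c → b ≠ d →
      s a (y c) + s b (y c) ≠ s a (y d) + s b (y d) →
      ∃ (v : EuclideanSpace ℝ (Fin 6)) (t : ℝ), PD (Hul f) (Φ a) (Φ b) v t ∧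
        (∀ r ∈ Φ c, t < ⟪v, r⟫_ℝ) ∧ (∀ r ∈ Φ d, ⟪v, r⟫_ℝ < t) := by
    intro a b c d hab hac had hbc hbd hne
    obtain ⟨w, β, hPD, hval⟩ := hdata a b hab
    refine nfb_flip hPD ?_
    rcases pd_side hKc (hsub a) (hsub b) (hcv a) (hcv b) (hex c) (hcv c) (hdis a c hac)
      (hdis b c hbc) hPD with hc | hc <;>
    rcases pd_side hKc (hsub a) (hsub b) (hcv a) (hcv b) (hex d) (hcv d) (hdis a d had)
      (hdis b d hbd) hPD with hd | hd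
    · exfalso
      obtain ⟨x, hx⟩ := hnegM w β hPD.neg
      exact hne (nfb_z2b _ _ _ (hval (y c) x (hc _ (hy c)) hx) (hval (y d) x (hd _ (hy d)) hx))
    · exact Or.inl ⟨hc, hd⟩
    · exact Or.inr ⟨hc, hd⟩
    · exfalso
      obtain ⟨x, hx⟩ := hposM w β hPD.pos
      exact hne (nfb_z2b _ _ _ (hval x (y c) hx (hc _ (hy c))).symm
        (hval x (y d) hx (hd _ (hy d))).symm)
  obtain ⟨v, β, hAB, sC, sD⟩ := hsides a b c d hab hac had hbc hbd e1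
  obtain ⟨v', β', hCD, sA, sB⟩ := hsides c d a b hcd hac.symm hbc.symm had.symm hbd.symm e2
  have hPDe : ∀ i j, i ≠ j → ∃ v b, PD (Hul f) (Φ i) (Φ j) v b := by
    intro i j hij
    obtain ⟨w, β, hPD, -⟩ := hdata i j hij
    exact ⟨w, β, hPD⟩
  exact nfb_final hE hKk hKc (hex a) (hex b) (hex c) (hex d) (hcv a) (hcv b) (hcv c) (hcv d)
    (hcp a) (hdim a) (hdim b) (hdim c) (hdim d) hAB hCD sC sD sA sB (hPDe b c hbc) (hPDe b d hbd)
    (hPDe a d had)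

end Pool.Agent.Helper775.Clo
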