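import Pool.Agent.Helper775.Surf.Defs

/-! Closed surfaces: definitions used in the proof. -/

set_option autoImplicit false

namespace Pool.Agent.Helper775.Clo

open Set Topology Metric
open Pool.Agent.Helper775.Surf
open scoped InnerProductSpace

/-- everything about the closed surface and the map which is used in the geometric part -/
structure CSetup {M : Type*} [TopologicalSpace M] {N : ℕ} (f : M → EuclideanSpace ℝ (Fin N)) :
    Prop where
  cont : Continuous f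
  loc : ∀ x, ∃ U ∈ 𝓝 x, InjOn f U
  sub : ∀ (z : EuclideanSpace ℝ (Fin N)) (c : ℝ), z ≠ 0 → ∃ x, ⟪z, f x⟫_ℝ ≠ c
  conn : Conn0 f
  sur : ∀ (z : EuclideanSpace ℝ (Fin N)) (c : ℝ), Sur {x | c ≤ ⟪z, f x⟫_ℝ}
  pt : ∀ x : M, IntPt x
  fin : FinH1 M
  pun : Punct M

/-- the function `v` is not a coboundary on any punctured neighbourhood of `y` -/
def Ess {M : Type*} [TopologicalSpace M] (y : M) (v : M → M → ZMod 2) : Prop :=
  ∀ W ∈ 𝓝 y, ¬ Null (W \ {y}) v

/-- iterated exposed faces -/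
inductive Fc {E : Type*} [NormedAddCommGroup E] [InnerProductSpace ℝ E] (K : Set E) : Set E → Prop
  | top : Fc K K
  | step (F : Set E) (u : E) (m : ℝ) : Fc K F → (∀ r ∈ F, ⟪u, r⟫_ℝ ≤ m) →
      (∃ r ∈ F, ⟪u, r⟫_ℝ = m) → Fc K {r | r ∈ F ∧ ⟪u, r⟫_ℝ = m}

/-- the preimage of the slice of `F` by the hyperplane `z = c` -/
def Tr {M : Type*} {N : ℕ} (f : M → EuclideanSpace ℝ (Fin N)) (F : Set (EuclideanSpace ℝ (Fin N)))
    (z : EuclideanSpace ℝ (Fin N)) (c : ℝ) : Set M := {x | f x ∈ F ∧ ⟪z, f x⟫_ℝ = c}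

/-- two-dimensional faces of the hull with a disconnected chord -/
def Two {M : Type*} [TopologicalSpace M] {N : ℕ} (f : M → EuclideanSpace ℝ (Fin N))
    (F : Set (EuclideanSpace ℝ (Fin N))) : Prop :=
  Fc (Hul f) F ∧ Module.finrank ℝ (vectorSpan ℝ F) = 2 ∧
    ∃ (z : EuclideanSpace ℝ (Fin N)) (c : ℝ), ¬ IsPreconnected (Tr f F z c)

end Pool.Agent.Helper775.Clo
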