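import Pool.Agent.Helper775.Clo.Top
import Pool.Agent.Helper775.Surf.Four

/-! Closed surfaces: iterated faces. -/

set_option autoImplicit false

namespace Pool.Agent.Helper775.Clo

open Set Topology Metric
open Pool.Agent.Helper775.Surf
open scoped InnerProductSpace

section pure

variable {E : Type*} [NormedAddCommGroup E] [InnerProductSpace ℝ E] [FiniteDimensional ℝ E]

theorem fc_sub {K F : Set E} (h : Fc K F) : F ⊆ K := by
  induction h with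
  | top => exact fun _ hx => hx
  | step F u m _ _ _ ih => exact fun x hx => ih hx.1

theorem fc_compact {K F : Set E} (hK : IsCompact K) (h : Fc K F) : IsCompact F := by
  induction h with
  | top => exact hK
  | step F u m _ _ _ ih =>
    have h1 : IsClosed {r : E | ⟪u, r⟫_ℝ = m} :=
      isClosed_eq (continuous_const.inner continuous_id) continuous_const
    exact ih.inter_right h1

theorem fc_convex {K F : Set E} (hK : Convex ℝ K) (h : Fc K F) : Convex ℝ F := by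
  induction h with
  | top => exact hK
  | step F u m _ _ _ ih =>
    rintro x ⟨hx, hx'⟩ y ⟨hy, hy'⟩ a b ha hb hab
    refine ⟨ih hx hy ha hb hab, ?_⟩
    rw [inner_add_right, inner_smul_right, inner_smul_right, hx', hy', ← add_mul, hab, one_mul]

theorem fc_nonempty {K F : Set E} (hK : K.Nonempty) (h : Fc K F) : F.Nonempty := by
  induction h with
  | top => exact hK
  | step F u m _ _ h2 _ =>
    obtain ⟨r, hr, hr'⟩ := h2
    exact ⟨r, hr, hr'⟩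

theorem fc_extreme {K F : Set E} (h : Fc K F) : IsExtreme ℝ K F := by
  induction h with
  | top => exact IsExtreme.refl ℝ K
  | step F u m _ h1 _ ih =>
    refine ih.trans ⟨fun x hx => hx.1, ?_⟩
    rintro x hx y hy z ⟨hz, hz'⟩ ⟨a, b, ha, hb, hab, rfl⟩
    refine ⟨hx, ?_⟩
    rw [inner_add_right, inner_smul_right, inner_smul_right] at hz'
    have hxm := h1 x hx
    have hym := h1 y hy
    have hb' : b = 1 - a := by linarith
    subst hb'
    nlinarith [mul_nonneg hb.le (sub_nonneg.mpr hym), mul_nonneg ha.le (sub_nonneg.mpr hxm)]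

theorem fc_inter {K F G : Set E} (h : Fc K F) (h' : Fc K G) (hne : (F ∩ G).Nonempty) :
    Fc K (F ∩ G) := by
  induction h' with
  | top =>
    have h1 : F ∩ K = F := Set.inter_eq_left.mpr (fc_sub h)
    rw [h1]
    exact h
  | step G u m _ h1 _ ih =>
    obtain ⟨r, hrF, hrG, hr⟩ := hne
    have h3 : F ∩ {r | r ∈ G ∧ ⟪u, r⟫_ℝ = m} = {r | r ∈ F ∩ G ∧ ⟪u, r⟫_ℝ = m} := by
      ext x
      constructor
      · rintro ⟨hx1, hx2, hx3⟩
        exact ⟨⟨hx1, hx2⟩, hx3⟩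
      · rintro ⟨⟨hx1, hx2⟩, hx3⟩
        exact ⟨hx1, hx2, hx3⟩
    rw [h3]
    exact Fc.step (F ∩ G) u m (ih ⟨r, hrF, hrG⟩) (fun x hx => h1 x hx.2) ⟨r, ⟨hrF, hrG⟩, hr⟩

/-- a proper iterated face lies in a supporting hyperplane -/
theorem fc_proper {K F : Set E} (h : Fc K F) (hne : F ≠ K) :
    ∃ (u : E) (m : ℝ), (∀ r ∈ K, ⟪u, r⟫_ℝ ≤ m) ∧ (∀ r ∈ F, ⟪u, r⟫_ℝ = m) ∧
      ∃ r ∈ K, ⟪u, r⟫_ℝ < m := by
  induction h with
  | top => exact absurd rfl hne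
  | step F u m _ h1 _ ih =>
    by_cases hFK : F = K
    · subst hFK
      refine ⟨u, m, h1, fun r hr => hr.2, ?_⟩
      by_contra hcon
      push Not at hcon
      apply hne
      ext r
      constructor
      · exact fun hr => hr.1
      · exact fun hr => ⟨hr, le_antisymm (h1 r hr) (hcon r hr)⟩
    · obtain ⟨u', m', h3, h4, h5⟩ := ih hFK
      exact ⟨u', m', h3, fun r hr => h4 r hr.1, h5⟩

/-- extension of a functional bounded on a slice -/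
theorem slice_ext {K : Set E} (hC : Convex ℝ K) {z z₀ : E} {c m : ℝ}
    (h1 : ∃ r ∈ K, ⟪z, r⟫_ℝ < c) (h2 : ∃ r ∈ K, c < ⟪z, r⟫_ℝ)
    (h : ∀ r ∈ K, ⟪z, r⟫_ℝ = c → ⟪z₀, r⟫_ℝ ≤ m) :
    ∃ l : ℝ, ∀ r ∈ K, ⟪z₀, r⟫_ℝ + l * (⟪z, r⟫_ℝ - c) ≤ m := by
  obtain ⟨r1, hr1, hr1c⟩ := h1
  obtain ⟨r2, hr2, hr2c⟩ := h2
  have key : ∀ r ∈ K, c < ⟪z, r⟫_ℝ → ∀ r' ∈ K, ⟪z, r'⟫_ℝ < c →
      (⟪z₀, r⟫_ℝ - m) / (⟪z, r⟫_ℝ - c) ≤ -(⟪z₀, r'⟫_ℝ - m) / (c - ⟪z, r'⟫_ℝ) := by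
    intro r hr hrc r' hr' hrc'
    have ha : 0 < ⟪z, r⟫_ℝ - c := sub_pos.mpr hrc
    have hb : 0 < c - ⟪z, r'⟫_ℝ := sub_pos.mpr hrc'
    have hab : 0 < (⟪z, r⟫_ℝ - c) + (c - ⟪z, r'⟫_ℝ) := add_pos ha hb
    have hp : ((⟪z, r⟫_ℝ - c) / ((⟪z, r⟫_ℝ - c) + (c - ⟪z, r'⟫_ℝ))) • r' +
        ((c - ⟪z, r'⟫_ℝ) / ((⟪z, r⟫_ℝ - c) + (c - ⟪z, r'⟫_ℝ))) • r ∈ K := by
      refine hC hr' hr (by positivity) (by positivity) ?_
      rw [← add_div]
      exact div_self hab.ne'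
    have hpz := h _ hp (by
      rw [inner_add_right, inner_smul_right, inner_smul_right]
      field_simp
      ring)
    rw [inner_add_right, inner_smul_right, inner_smul_right, div_mul_eq_mul_div,
      div_mul_eq_mul_div, ← add_div, div_le_iff₀ hab] at hpz
    rw [div_le_div_iff₀ ha hb]
    nlinarith
  have hbdd : BddAbove {q : ℝ | ∃ r ∈ K, c < ⟪z, r⟫_ℝ ∧ q = (⟪z₀, r⟫_ℝ - m) / (⟪z, r⟫_ℝ - c)} := by
    refine ⟨-(⟪z₀, r1⟫_ℝ - m) / (c - ⟪z, r1⟫_ℝ), ?_⟩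
    rintro q ⟨r, hr, hrc, rfl⟩
    exact key r hr hrc r1 hr1 hr1c
  refine ⟨-sSup {q : ℝ | ∃ r ∈ K, c < ⟪z, r⟫_ℝ ∧ q = (⟪z₀, r⟫_ℝ - m) / (⟪z, r⟫_ℝ - c)}, ?_⟩
  intro r hr
  rcases lt_trichotomy (⟪z, r⟫_ℝ) c with hlt | heq | hgt
  · have hb : 0 < c - ⟪z, r⟫_ℝ := sub_pos.mpr hlt
    have h3 : sSup {q : ℝ | ∃ r ∈ K, c < ⟪z, r⟫_ℝ ∧ q = (⟪z₀, r⟫_ℝ - m) / (⟪z, r⟫_ℝ - c)} ≤
        -(⟪z₀, r⟫_ℝ - m) / (c - ⟪z, r⟫_ℝ) := by
      refine csSup_le ⟨_, r2, hr2, hr2c, rfl⟩ ?_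
      rintro q ⟨r', hr', hrc', rfl⟩
      exact key r' hr' hrc' r hr hlt
    rw [le_div_iff₀ hb] at h3
    nlinarith
  · have h3 := h r hr heq
    rw [heq, sub_self, mul_zero, add_zero]
    exact h3
  · have ha : 0 < ⟪z, r⟫_ℝ - c := sub_pos.mpr hgt
    have h3 : (⟪z₀, r⟫_ℝ - m) / (⟪z, r⟫_ℝ - c) ≤
        sSup {q : ℝ | ∃ r ∈ K, c < ⟪z, r⟫_ℝ ∧ q = (⟪z₀, r⟫_ℝ - m) / (⟪z, r⟫_ℝ - c)} :=
      le_csSup hbdd ⟨r, hr, hgt, rfl⟩
    rw [div_le_iff₀ ha] at h3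
    nlinarith

/-- faces of slices are slices of faces -/
theorem slice_face {K F : Set E} (hK : Convex ℝ K) (h : Fc K F) {z w : E} {c m : ℝ}
    (h1 : ∀ r ∈ F, ⟪z, r⟫_ℝ = c → ⟪w, r⟫_ℝ ≤ m) (h2 : ∃ r ∈ F, ⟪z, r⟫_ℝ = c ∧ ⟪w, r⟫_ℝ = m) :
    ∃ F' : Set E, Fc K F' ∧ F' ⊆ F ∧
      ∀ r, (r ∈ F' ∧ ⟪z, r⟫_ℝ = c) ↔ (r ∈ F ∧ ⟪z, r⟫_ℝ = c ∧ ⟪w, r⟫_ℝ = m) := by
  obtain ⟨r0, hr0, hz0, hw0⟩ := h2
  by_cases ha : ∀ r ∈ F, ⟪z, r⟫_ℝ ≤ c
  · have hF1 : Fc K {r | r ∈ F ∧ ⟪z, r⟫_ℝ = c} := Fc.step F z c h ha ⟨r0, hr0, hz0⟩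
    have hF2 := Fc.step _ w m hF1 (fun r hr => h1 r hr.1 hr.2) ⟨r0, ⟨hr0, hz0⟩, hw0⟩
    refine ⟨_, hF2, fun r hr => hr.1.1, fun r => ?_⟩
    constructor
    · rintro ⟨⟨⟨a1, a2⟩, a3⟩, -⟩
      exact ⟨a1, a2, a3⟩
    · rintro ⟨a1, a2, a3⟩
      exact ⟨⟨⟨a1, a2⟩, a3⟩, a2⟩
  · by_cases hb : ∀ r ∈ F, c ≤ ⟪z, r⟫_ℝ
    · have hF1 : Fc K {r | r ∈ F ∧ ⟪-z, r⟫_ℝ = -c} := Fc.step F (-z) (-c) h
        (fun r hr => by rw [inner_neg_left]; linarith [hb r hr])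
        ⟨r0, hr0, by rw [inner_neg_left, hz0]⟩
      have hF2 := Fc.step _ w m hF1 (fun r hr => h1 r hr.1 (by
        have := hr.2
        rw [inner_neg_left] at this
        linarith)) ⟨r0, ⟨hr0, by rw [inner_neg_left, hz0]⟩, hw0⟩
      refine ⟨_, hF2, fun r hr => hr.1.1, fun r => ?_⟩
      constructor
      · rintro ⟨⟨⟨a1, a2⟩, a3⟩, a4⟩
        exact ⟨a1, a4, a3⟩
      · rintro ⟨a1, a2, a3⟩
        exact ⟨⟨⟨a1, by rw [inner_neg_left, a2]⟩, a3⟩, a2⟩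
    · push Not at ha hb
      obtain ⟨r1, hr1, hr1'⟩ := ha
      obtain ⟨r2, hr2, hr2'⟩ := hb
      obtain ⟨l, hl⟩ := slice_ext (fc_convex hK h) ⟨r2, hr2, hr2'⟩ ⟨r1, hr1, hr1'⟩ h1
      have hin : ∀ r, ⟪w + l • z, r⟫_ℝ = ⟪w, r⟫_ℝ + l * ⟪z, r⟫_ℝ := by
        intro r
        rw [inner_add_left, real_inner_smul_left]
      have hF1 : Fc K {r | r ∈ F ∧ ⟪w + l • z, r⟫_ℝ = m + l * c} := Fc.step F (w + l • z) (m + l * c) h
        (fun r hr => by rw [hin]; linarith [hl r hr])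
        ⟨r0, hr0, by rw [hin, hz0, hw0]⟩
      refine ⟨_, hF1, fun r hr => hr.1, fun r => ?_⟩
      constructor
      · rintro ⟨⟨a1, a2⟩, a3⟩
        refine ⟨a1, a3, ?_⟩
        rw [hin, a3] at a2
        linarith
      · rintro ⟨a1, a2, a3⟩
        exact ⟨⟨a1, by rw [hin, a2, a3]⟩, a2⟩

theorem slice_dim_cross {F : Set E} (hC : Convex ℝ F) {z : E} {c : ℝ} {a b : E} (ha : a ∈ F)
    (hb : b ∈ F) (ha' : ⟪z, a⟫_ℝ < c) (hb' : c < ⟪z, b⟫_ℝ) :
    ∃ s : ℝ, 0 < s ∧ s < 1 ∧ a + s • (b - a) ∈ F ∧ ⟪z, a + s • (b - a)⟫_ℝ = c := by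
  have hd : 0 < ⟪z, b⟫_ℝ - ⟪z, a⟫_ℝ := by linarith
  refine ⟨(c - ⟪z, a⟫_ℝ) / (⟪z, b⟫_ℝ - ⟪z, a⟫_ℝ), div_pos (by linarith) hd,
    (div_lt_one hd).2 (by linarith), ?_, ?_⟩
  · refine hC.add_smul_sub_mem ha hb ⟨(div_pos (by linarith) hd).le,
      ((div_lt_one hd).2 (by linarith)).le⟩
  · rw [inner_add_right, inner_smul_right, inner_sub_right]
    field_simp
    ring

/-- a convex set crossing a hyperplane in a set of dimension one has dimension two -/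
theorem slice_dim {F : Set E} (hC : Convex ℝ F) {z : E} {c : ℝ} (h1 : ∃ r ∈ F, ⟪z, r⟫_ℝ < c)
    (h2 : ∃ r ∈ F, c < ⟪z, r⟫_ℝ)
    (h : Module.finrank ℝ (vectorSpan ℝ {r | r ∈ F ∧ ⟪z, r⟫_ℝ = c}) = 1) :
    Module.finrank ℝ (vectorSpan ℝ F) = 2 := by
  obtain ⟨a, ha, ha'⟩ := h1
  obtain ⟨b, hb, hb'⟩ := h2
  obtain ⟨s, hs0, hs1, hqF, hqc⟩ := slice_dim_cross hC ha hb ha' hb'
  set q := a + s • (b - a) with hq
  set S : Set E := {r | r ∈ F ∧ ⟪z, r⟫_ℝ = c} with hS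
  set V := vectorSpan ℝ S with hV
  have hqS : q ∈ S := ⟨hqF, hqc⟩
  have hSF : S ⊆ F := fun r hr => hr.1
  have hVF : V ≤ vectorSpan ℝ F := vectorSpan_mono ℝ hSF
  -- z vanishes on V
  have hz : ∀ v ∈ V, ⟪z, v⟫_ℝ = 0 := by
    intro v hv
    rw [hV, vectorSpan_def] at hv
    refine Submodule.span_induction (p := fun v _ => ⟪z, v⟫_ℝ = 0) ?_ ?_ ?_ ?_ hv
    · rintro _ ⟨r, hr, r', hr', rfl⟩
      simp only [vsub_eq_sub]
      rw [inner_sub_right, hr.2, hr'.2, sub_self]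
    · exact inner_zero_right z
    · intro x y _ _ hx hy
      rw [inner_add_right, hx, hy, add_zero]
    · intro t x _ hx
      rw [inner_smul_right, hx, mul_zero]
  have hba : b - a ∈ vectorSpan ℝ F := vsub_mem_vectorSpan ℝ hb ha
  set W := V ⊔ Submodule.span ℝ {b - a} with hW
  have hbaW : b - a ∈ W := Submodule.mem_sup_right (Submodule.mem_span_singleton_self _)
  have hVW : V ≤ W := le_sup_left
  -- every point of F differs from a by an element of W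
  have hmem : ∀ r ∈ F, r - a ∈ W := by
    intro r hr
    have hqa : q - a ∈ W := by
      have : q - a = s • (b - a) := by rw [hq]; abel
      rw [this]; exact W.smul_mem _ hbaW
    rcases lt_trichotomy ⟪z, r⟫_ℝ c with h3 | h3 | h3
    · obtain ⟨t, ht0, ht1, hpF, hpc⟩ := slice_dim_cross hC hr hb h3 hb'
      have hp : (r + t • (b - r)) - q ∈ W := hVW (vsub_mem_vectorSpan ℝ ⟨hpF, hpc⟩ hqS)
      have e : r - a = (1 - t)⁻¹ • (((r + t • (b - r)) - q) + (q - a) - t • (b - a)) := by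
        have h1t : (1 - t) ≠ 0 := by linarith
        rw [eq_inv_smul_iff₀ h1t]
        module
      rw [e]
      exact W.smul_mem _ (W.sub_mem (W.add_mem hp hqa) (W.smul_mem _ hbaW))
    · have hp : r - q ∈ W := hVW (vsub_mem_vectorSpan ℝ ⟨hr, h3⟩ hqS)
      have e : r - a = (r - q) + (q - a) := by abel
      rw [e]
      exact W.add_mem hp hqa
    · obtain ⟨t, ht0, ht1, hpF, hpc⟩ := slice_dim_cross hC ha hr ha' h3
      have hp : (a + t • (r - a)) - q ∈ W := hVW (vsub_mem_vectorSpan ℝ ⟨hpF, hpc⟩ hqS)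
      have e : r - a = t⁻¹ • (((a + t • (r - a)) - q) + (q - a)) := by
        rw [eq_inv_smul_iff₀ ht0.ne']
        module
      rw [e]
      exact W.smul_mem _ (W.add_mem hp hqa)
  have hFW : vectorSpan ℝ F ≤ W := by
    rw [vectorSpan_def, Submodule.span_le]
    rintro _ ⟨r, hr, r', hr', rfl⟩
    have e : r -ᵥ r' = (r - a) - (r' - a) := by rw [vsub_eq_sub]; abel
    simp only [SetLike.mem_coe]
    rw [e]
    exact W.sub_mem (hmem r hr) (hmem r' hr')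
  have hle : Module.finrank ℝ (vectorSpan ℝ F) ≤ 2 := by
    refine (Submodule.finrank_mono hFW).trans ?_
    refine (Submodule.finrank_add_le_finrank_add_finrank _ _).trans ?_
    rw [h]
    have hne : b - a ≠ 0 := by
      intro h0
      rw [sub_eq_zero] at h0
      rw [h0] at hb'
      linarith
    rw [finrank_span_singleton hne]
  have hlt : V < vectorSpan ℝ F := by
    refine lt_of_le_of_ne hVF fun heq => ?_
    rw [← heq] at hba
    have := hz _ hba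
    rw [inner_sub_right] at this
    linarith
  have := Submodule.finrank_lt_finrank_of_lt hlt
  rw [h] at this
  omega

theorem vs_const' {S : Set E} {w : E} (hw : ∀ r ∈ S, ∀ r' ∈ S, ⟪w, r⟫_ℝ = ⟪w, r'⟫_ℝ) :
    ∀ v ∈ vectorSpan ℝ S, ⟪w, v⟫_ℝ = 0 := by
  intro v hv
  have h1 : vectorSpan ℝ S ≤ (Submodule.span ℝ {w})ᗮ := by
    rw [vectorSpan_def, Submodule.span_le]
    rintro x hx
    obtain ⟨a, ha, b, hb, rfl⟩ := Set.mem_vsub.1 hx
    show a -ᵥ b ∈ (Submodule.span ℝ {w})ᗮ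
    rw [Submodule.mem_orthogonal_singleton_iff_inner_right, vsub_eq_sub, inner_sub_right,
      hw a ha b hb, sub_self]
  exact Submodule.mem_orthogonal_singleton_iff_inner_right.1 (h1 hv)

/-- the dimension drops when a nonconstant functional is maximised -/
theorem dim_drop {S : Set E} {w : E} {m : ℝ} (h2 : ∃ r ∈ S, ⟪w, r⟫_ℝ = m)
    (h3 : ∃ r ∈ S, ⟪w, r⟫_ℝ < m) :
    Module.finrank ℝ (vectorSpan ℝ {r | r ∈ S ∧ ⟪w, r⟫_ℝ = m}) <
      Module.finrank ℝ (vectorSpan ℝ S) := by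
  obtain ⟨r, hr, hrm⟩ := h2
  obtain ⟨s, hs, hsm⟩ := h3
  apply Submodule.finrank_lt_finrank_of_lt
  refine lt_of_le_of_ne (vectorSpan_mono ℝ (fun x hx => hx.1)) ?_
  intro heq
  have h4 : r -ᵥ s ∈ vectorSpan ℝ S := vsub_mem_vectorSpan ℝ hr hs
  rw [← heq] at h4
  have h5 := vs_const' (S := {r | r ∈ S ∧ ⟪w, r⟫_ℝ = m}) (w := w)
    (fun a ha b hb => ha.2.trans hb.2.symm) _ h4
  rw [vsub_eq_sub, inner_sub_right, hrm] at h5
  linarith

/-- functionals which separate the points of a set of dimension at least two -/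
theorem two_funs {S : Set E} (h : 2 ≤ Module.finrank ℝ (vectorSpan ℝ S)) :
    ∃ w₁ w₂ : E, ∀ a b : ℝ, (a ≠ 0 ∨ b ≠ 0) →
      ∃ r ∈ S, ∃ r' ∈ S, ⟪a • w₁ + b • w₂, r⟫_ℝ < ⟪a • w₁ + b • w₂, r'⟫_ℝ := by
  have hnt : Nontrivial (vectorSpan ℝ S) := Module.nontrivial_of_finrank_pos (R := ℝ) (by omega)
  obtain ⟨x, hx⟩ := exists_ne (0 : vectorSpan ℝ S)
  obtain ⟨y, hy⟩ := exists_linearIndependent_pair_of_one_lt_finrank (R := ℝ)
    (M := vectorSpan ℝ S) (by omega) hx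
  refine ⟨(x : E), (y : E), fun a b hab => ?_⟩
  by_contra hcon
  push Not at hcon
  set w : E := a • (x : E) + b • (y : E) with hw
  have hc : ∀ r ∈ S, ∀ r' ∈ S, ⟪w, r⟫_ℝ = ⟪w, r'⟫_ℝ := fun r hr r' hr' =>
    le_antisymm (hcon r' hr' r hr) (hcon r hr r' hr')
  have hmem : w ∈ vectorSpan ℝ S :=
    Submodule.add_mem _ (Submodule.smul_mem _ _ x.2) (Submodule.smul_mem _ _ y.2)
  have h0 := vs_const' hc w hmem
  have hw0 : w = 0 := inner_self_eq_zero.1 h0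
  have h1 : a • x + b • y = 0 := by
    apply Subtype.ext
    simpa [hw] using hw0
  have h2 := LinearIndependent.pair_iff.1 hy a b h1
  rcases hab with h | h
  · exact h h2.1
  · exact h h2.2

theorem two_inter_aux {K F G : Set E} (hFK : F ⊆ K) (hG : IsExtreme ℝ K G)
    (hS : Convex ℝ (F ∩ G)) (hne : (F ∩ G).Nonempty)
    (hv : vectorSpan ℝ (F ∩ G) = vectorSpan ℝ F) : F ⊆ G := by
  intro r hr
  obtain ⟨g, hg⟩ := hne.intrinsicInterior hS
  obtain ⟨y, hy, rfl⟩ := mem_intrinsicInterior.1 hg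
  have hyS : (y : E) ∈ F ∩ G := by
    have h1 : y ∈ ((↑) ⁻¹' (F ∩ G) : Set (affineSpan ℝ (F ∩ G))) := interior_subset hy
    exact h1
  have hdir : (y : E) - r ∈ (affineSpan ℝ (F ∩ G)).direction := by
    rw [direction_affineSpan, hv]
    exact vsub_mem_vectorSpan ℝ hyS.1 hr
  have hmem : ∀ ε : ℝ, ε • ((y : E) - r) + (y : E) ∈ affineSpan ℝ (F ∩ G) := by
    intro ε
    have := AffineSubspace.vadd_mem_of_mem_direction (Submodule.smul_mem _ ε hdir) y.2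
    exact this
  have hcont : Continuous (fun ε : ℝ => (⟨ε • ((y : E) - r) + (y : E), hmem ε⟩ :
      affineSpan ℝ (F ∩ G))) := by
    refine Continuous.subtype_mk ?_ _
    fun_prop
  have h0 : (⟨(0 : ℝ) • ((y : E) - r) + (y : E), hmem 0⟩ : affineSpan ℝ (F ∩ G)) = y := by
    apply Subtype.ext
    simp
  have hev : ∀ᶠ ε : ℝ in 𝓝 0, (⟨ε • ((y : E) - r) + (y : E), hmem ε⟩ :
      affineSpan ℝ (F ∩ G)) ∈ ((↑) ⁻¹' (F ∩ G) : Set (affineSpan ℝ (F ∩ G))) := by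
    apply hcont.continuousAt.eventually_mem
    rw [h0]
    exact mem_interior_iff_mem_nhds.1 hy
  have hev2 : ∀ᶠ ε : ℝ in 𝓝[>] 0, (⟨ε • ((y : E) - r) + (y : E), hmem ε⟩ :
      affineSpan ℝ (F ∩ G)) ∈ ((↑) ⁻¹' (F ∩ G) : Set (affineSpan ℝ (F ∩ G))) :=
    hev.filter_mono nhdsWithin_le_nhds
  obtain ⟨ε, hε1, hε2⟩ := (hev2.and self_mem_nhdsWithin).exists
  have hε : (0 : ℝ) < ε := hε2
  have hq : ε • ((y : E) - r) + (y : E) ∈ F ∩ G := hε1
  refine hG.left_mem_of_mem_openSegment (hFK hr) (hFK hq.1) hyS.2 ?_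
  refine ⟨ε / (1 + ε), 1 / (1 + ε), by positivity, by positivity, by field_simp; ring, ?_⟩
  have h1 : (1 + ε) ≠ 0 := by positivity
  have h2 : (ε / (1 + ε)) • r + (1 / (1 + ε)) • (ε • ((y : E) - r) + (y : E)) =
      ((1 / (1 + ε)) * (1 + ε)) • (y : E) := by
    module
  rw [h2, one_div, inv_mul_cancel₀ h1, one_smul]

/-- two distinct faces of dimension two meet in a set of dimension at most one -/
theorem two_inter {K F G : Set E} (hF : IsExtreme ℝ K F) (hG : IsExtreme ℝ K G)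
    (hFc : Convex ℝ F) (hGc : Convex ℝ G)
    (dF : Module.finrank ℝ (vectorSpan ℝ F) = 2) (dG : Module.finrank ℝ (vectorSpan ℝ G) = 2)
    (hne : F ≠ G) : Module.finrank ℝ (vectorSpan ℝ (F ∩ G)) ≤ 1 := by
  by_contra hcon
  rw [not_le] at hcon
  have hn : (F ∩ G).Nonempty := by
    rw [Set.nonempty_iff_ne_empty]
    intro h0
    rw [h0, vectorSpan_empty, finrank_bot] at hcon
    omega
  have h1 : vectorSpan ℝ (F ∩ G) = vectorSpan ℝ F := by
    apply Submodule.eq_of_le_of_finrank_le (vectorSpan_mono ℝ Set.inter_subset_left)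
    rw [dF]
    exact hcon
  have h2 : vectorSpan ℝ (F ∩ G) = vectorSpan ℝ G := by
    apply Submodule.eq_of_le_of_finrank_le (vectorSpan_mono ℝ Set.inter_subset_right)
    rw [dG]
    exact hcon
  have hS := hFc.inter hGc
  apply hne
  apply Set.Subset.antisymm
  · exact two_inter_aux hF.subset hG hS hn h1
  · refine two_inter_aux hG.subset hF ?_ ?_ ?_
    · rw [Set.inter_comm]
      exact hS
    · rw [Set.inter_comm]
      exact hn
    · rw [Set.inter_comm]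
      exact h2

/-- a set of dimension at most one contains at most two extreme points -/
theorem line_ext {K S : Set E} (hS : S ⊆ K) (h : Module.finrank ℝ (vectorSpan ℝ S) ≤ 1) :
    (S ∩ extremePoints ℝ K).Finite := by
  classical
  obtain ⟨v, hv⟩ := finrank_le_one_iff.1 h
  have hv' : ∀ r ∈ S, ∀ r' ∈ S, ∃ c : ℝ, r - r' = c • (v : E) := by
    intro r hr r' hr'
    have hm : r - r' ∈ vectorSpan ℝ S := by
      have := vsub_mem_vectorSpan ℝ hr hr'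
      simpa using this
    obtain ⟨c, hc⟩ := hv ⟨r - r', hm⟩
    refine ⟨c, ?_⟩
    have := congrArg Subtype.val hc
    simpa using this.symm
  have hn : (0 : ℝ) ≤ ⟪(v : E), (v : E)⟫_ℝ := real_inner_self_nonneg
  have key : ∀ p ∈ S ∩ extremePoints ℝ K, ∀ q ∈ S ∩ extremePoints ℝ K,
      ∀ r ∈ S ∩ extremePoints ℝ K, ⟪(v : E), p⟫_ℝ < ⟪(v : E), q⟫_ℝ →
      ⟪(v : E), q⟫_ℝ < ⟪(v : E), r⟫_ℝ → False := by
    intro p hp q hq r hr hpq hqr
    obtain ⟨c, hc⟩ := hv' r hr.1 p hp.1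
    obtain ⟨d, hd⟩ := hv' q hq.1 p hp.1
    have hr2 : r = p + c • (v : E) := by rw [← hc]; abel
    have hq2 : q = p + d • (v : E) := by rw [← hd]; abel
    rw [hq2, inner_add_right, real_inner_smul_right] at hpq
    rw [hq2, hr2, inner_add_right, inner_add_right, real_inner_smul_right,
      real_inner_smul_right] at hqr
    have hn' : (0 : ℝ) < ⟪(v : E), (v : E)⟫_ℝ := by
      rcases hn.lt_or_eq with h1 | h1
      · exact h1
      · rw [← h1] at hpq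
        simp at hpq
    have hd0 : 0 < d := by
      have h1 : 0 < d * ⟪(v : E), (v : E)⟫_ℝ := by linarith
      exact (pos_iff_pos_of_mul_pos h1).2 hn'
    have hcd : d < c := by
      have h1 : 0 < (c - d) * ⟪(v : E), (v : E)⟫_ℝ := by nlinarith
      have := (pos_iff_pos_of_mul_pos h1).2 hn'
      linarith
    have hc0 : 0 < c := hd0.trans hcd
    have hmem : q ∈ openSegment ℝ p r := by
      refine ⟨1 - d / c, d / c, ?_, div_pos hd0 hc0, by ring, ?_⟩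
      · rw [sub_pos, div_lt_one hc0]
        exact hcd
      · rw [hr2, hq2, smul_add, smul_smul, div_mul_cancel₀ _ hc0.ne', sub_smul, one_smul]
        abel
    have h3 := hq.2.2 (hS hp.1) (hS hr.1) hmem
    have h4 : p = q := h3
    rw [hq2] at h4
    have h5 : d • (v : E) = 0 := by
      have := h4
      simpa using this.symm
    rcases smul_eq_zero.1 h5 with h6 | h6
    · exact hd0.ne' h6
    · rw [h6] at hn'
      simp at hn'
  have hinj : ∀ p ∈ S, ∀ q ∈ S, ⟪(v : E), p⟫_ℝ = ⟪(v : E), q⟫_ℝ → p = q := by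
    intro p hp q hq hpq
    obtain ⟨d, hd⟩ := hv' q hq p hp
    have hq2 : q = p + d • (v : E) := by rw [← hd]; abel
    rw [hq2, inner_add_right, real_inner_smul_right] at hpq
    have h1 : d * ⟪(v : E), (v : E)⟫_ℝ = 0 := by linarith
    rcases mul_eq_zero.1 h1 with h2 | h2
    · rw [hq2, h2]; simp
    · rw [inner_self_eq_zero.1 h2] at hq2
      rw [hq2]; simp
  by_contra hinf
  obtain ⟨t, ht, hcard⟩ := (show (S ∩ extremePoints ℝ K).Infinite from hinf).exists_subset_card_eq 3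
  obtain ⟨x, y, z, hxy, hxz, hyz, rfl⟩ := Finset.card_eq_three.1 hcard
  have hx : x ∈ S ∩ extremePoints ℝ K := ht (by simp)
  have hy : y ∈ S ∩ extremePoints ℝ K := ht (by simp)
  have hz : z ∈ S ∩ extremePoints ℝ K := ht (by simp)
  have gxy : ⟪(v : E), x⟫_ℝ ≠ ⟪(v : E), y⟫_ℝ := fun hh => hxy (hinj x hx.1 y hy.1 hh)
  have gxz : ⟪(v : E), x⟫_ℝ ≠ ⟪(v : E), z⟫_ℝ := fun hh => hxz (hinj x hx.1 z hz.1 hh)
  have gyz : ⟪(v : E), y⟫_ℝ ≠ ⟪(v : E), z⟫_ℝ := fun hh => hyz (hinj y hy.1 z hz.1 hh)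
  rcases lt_or_gt_of_ne gxy with h1 | h1 <;> rcases lt_or_gt_of_ne gxz with h2 | h2 <;>
    rcases lt_or_gt_of_ne gyz with h3 | h3
  · exact key x hx y hy z hz h1 h3
  · exact key x hx z hz y hy h2 h3
  · exact absurd (h1.trans h3) (not_lt.2 h2.le)
  · exact key z hz x hx y hy h2 h1
  · exact key y hy x hx z hz h1 h2
  · exact absurd (h3.trans h1) (not_lt.2 h2.le)
  · exact key y hy z hz x hx h3 h2
  · exact key z hz y hy x hx h3 h1

/-- some functional is injective on a set of dimension at most one -/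
theorem line_fun {S : Set E} (h : Module.finrank ℝ (vectorSpan ℝ S) ≤ 1) :
    ∃ w : E, ∀ r ∈ S, ∀ r' ∈ S, ⟪w, r⟫_ℝ = ⟪w, r'⟫_ℝ → r = r' := by
  obtain ⟨v, hv⟩ := finrank_le_one_iff.1 h
  refine ⟨v, ?_⟩
  intro r hr r' hr' hrr
  have hm : r - r' ∈ vectorSpan ℝ S := by
    have := vsub_mem_vectorSpan ℝ hr hr'
    simpa using this
  obtain ⟨c, hc⟩ := hv ⟨r - r', hm⟩
  have hc' : r - r' = c • (v : E) := by
    have := congrArg Subtype.val hc
    simpa using this.symm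
  have h1 : ⟪(v : E), r - r'⟫_ℝ = 0 := by
    rw [inner_sub_right, hrr, sub_self]
  rw [hc', real_inner_smul_right] at h1
  rcases mul_eq_zero.1 h1 with h2 | h2
  · rw [h2, zero_smul] at hc'
    exact sub_eq_zero.1 hc'
  · rw [inner_self_eq_zero.1 h2, smul_zero] at hc'
    exact sub_eq_zero.1 hc'

end pure

variable {M : Type*} [TopologicalSpace M] {N : ℕ} {f : M → EuclideanSpace ℝ (Fin N)}

theorem hul_interior [Nonempty M] (S : CSetup f) : (interior (Hul f)).Nonempty :=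
  hul_int S.sub

theorem fc_conn_iff {F : Set (EuclideanSpace ℝ (Fin N))} {u w : EuclideanSpace ℝ (Fin N)}
    {m b : ℝ} (hle : ∀ r ∈ F, ⟪u, r⟫_ℝ ≤ m) (r : EuclideanSpace ℝ (Fin N)) :
    (r ∈ {r | r ∈ F ∧ ⟪u, r⟫_ℝ = m} ∧ b ≤ ⟪w, r⟫_ℝ) ↔
      ∀ n : ℕ, r ∈ F ∧ b + (n : ℝ) * m ≤ ⟪w + (n : ℝ) • u, r⟫_ℝ := by
  constructor
  · rintro ⟨⟨h1, h2⟩, h3⟩ n
    refine ⟨h1, ?_⟩
    rw [inner_add_left, inner_smul_left, h2]
    simpa using h3
  · intro h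
    have h0 := h 0
    refine ⟨⟨h0.1, ?_⟩, by simpa using h0.2⟩
    by_contra hne
    have hlt : ⟪u, r⟫_ℝ < m := lt_of_le_of_ne (hle r h0.1) hne
    obtain ⟨n, hn⟩ := exists_nat_gt ((⟪w, r⟫_ℝ - b) / (m - ⟪u, r⟫_ℝ))
    have h1 := (h n).2
    rw [inner_add_left, inner_smul_left] at h1
    rw [div_lt_iff₀ (by linarith)] at hn
    have h2 : (starRingEnd ℝ) (n : ℝ) = (n : ℝ) := by simp
    rw [h2] at h1
    nlinarith

theorem fc_conn_anti {F : Set (EuclideanSpace ℝ (Fin N))} {u w : EuclideanSpace ℝ (Fin N)}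
    {m b : ℝ} (hle : ∀ r ∈ F, ⟪u, r⟫_ℝ ≤ m) (r : EuclideanSpace ℝ (Fin N)) {n n' : ℕ}
    (hn : n ≤ n') (h : r ∈ F ∧ b + (n' : ℝ) * m ≤ ⟪w + (n' : ℝ) • u, r⟫_ℝ) :
    r ∈ F ∧ b + (n : ℝ) * m ≤ ⟪w + (n : ℝ) • u, r⟫_ℝ := by
  refine ⟨h.1, ?_⟩
  have h1 := h.2
  rw [inner_add_left, inner_smul_left] at h1 ⊢
  have h2 : (starRingEnd ℝ) (n : ℝ) = (n : ℝ) := by simp
  have h3 : (starRingEnd ℝ) (n' : ℝ) = (n' : ℝ) := by simp
  rw [h2]
  rw [h3] at h1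
  have h4 : (n : ℝ) ≤ (n' : ℝ) := by exact_mod_cast hn
  have h5 : ⟪u, r⟫_ℝ ≤ m := hle r h.1
  nlinarith [mul_le_mul_of_nonneg_right h4 (sub_nonneg.mpr h5)]

/-- half-space sections of faces are connected -/
theorem fc_conn [CompactSpace M] [T2Space M] (hf : Continuous f) (h0 : Conn0 f)
    {F : Set (EuclideanSpace ℝ (Fin N))} (h : Fc (Hul f) F) (w : EuclideanSpace ℝ (Fin N)) (b : ℝ) :
    IsPreconnected {x | f x ∈ F ∧ b ≤ ⟪w, f x⟫_ℝ} := by
  induction h generalizing w b with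
  | top =>
    have h1 : {x | f x ∈ Hul f ∧ b ≤ ⟪w, f x⟫_ℝ} = {x | b ≤ ⟪w, f x⟫_ℝ} := by
      ext x
      exact ⟨fun h => h.2, fun h => ⟨subset_convexHull ℝ _ (mem_range_self x), h⟩⟩
    rw [h1]
    exact h0 w b
  | step F u m hF hle hex ih =>
    have h1 : {x | f x ∈ {r | r ∈ F ∧ ⟪u, r⟫_ℝ = m} ∧ b ≤ ⟪w, f x⟫_ℝ} =
        ⋂₀ (range (fun n : ℕ => {x | f x ∈ F ∧
          b + (n : ℝ) * m ≤ ⟪w + (n : ℝ) • u, f x⟫_ℝ})) := by
      ext x
      rw [sInter_range, mem_iInter]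
      exact fc_conn_iff hle (f x)
    rw [h1]
    refine nested_conn (range_nonempty _) ?_ ?_ ?_
    · rintro _ ⟨n, rfl⟩
      apply IsClosed.isCompact
      have hFc : IsClosed F := (fc_compact (hul_compact hf) hF).isClosed
      refine IsClosed.inter (hFc.preimage hf) ?_
      have hcw : Continuous (fun x => ⟪w + (n : ℝ) • u, f x⟫_ℝ) :=
        Continuous.inner (𝕜 := ℝ) continuous_const hf
      exact isClosed_le (continuous_const (y := b + (n : ℝ) * m)) hcw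
    · rintro _ ⟨n, rfl⟩
      exact ih (w + (n : ℝ) • u) (b + (n : ℝ) * m)
    · rintro _ ⟨n, rfl⟩ _ ⟨k, rfl⟩
      refine ⟨_, ⟨max n k, rfl⟩, ?_, ?_⟩
      · intro x hx
        exact fc_conn_anti hle (f x) (le_max_left n k) hx
      · intro x hx
        exact fc_conn_anti hle (f x) (le_max_right n k) hx

/-- complements of half-space sections of faces are connected -/
theorem fc_co [CompactSpace M] [T2Space M] (hf : Continuous f) (h0 : Conn0 f)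
    {F : Set (EuclideanSpace ℝ (Fin N))} (h : Fc (Hul f) F) (w : EuclideanSpace ℝ (Fin N)) (b : ℝ) :
    IsPreconnected {x | ¬ (f x ∈ F ∧ b ≤ ⟪w, f x⟫_ℝ)} := by
  induction h generalizing w b with
  | top =>
    have h1 : {x | ¬ (f x ∈ Hul f ∧ b ≤ ⟪w, f x⟫_ℝ)} = {x | ⟪w, f x⟫_ℝ < b} := by
      ext x
      constructor
      · intro h
        by_contra h2
        exact h ⟨subset_convexHull ℝ _ (mem_range_self x), not_lt.mp h2⟩
      · intro h h2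
        exact absurd h (not_lt.mpr h2.2)
    rw [h1]
    exact conn_lt h0 w b
  | step F u m hF hle hex ih =>
    have h1 : {x | ¬ (f x ∈ {r | r ∈ F ∧ ⟪u, r⟫_ℝ = m} ∧ b ≤ ⟪w, f x⟫_ℝ)} =
        ⋃₀ (range (fun n : ℕ => {x | ¬ (f x ∈ F ∧
          b + (n : ℝ) * m ≤ ⟪w + (n : ℝ) • u, f x⟫_ℝ)})) := by
      ext x
      rw [sUnion_range, mem_iUnion]
      have h2 := fc_conn_iff (w := w) (b := b) hle (f x)
      constructor
      · intro h
        have h3 := mt h2.mpr h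
        push Not at h3
        obtain ⟨n, hn⟩ := h3
        exact ⟨n, fun h4 => absurd (hn h4.1) (not_lt.mpr h4.2)⟩
      · rintro ⟨n, hn⟩ h
        exact hn (h2.mp h n)
    rw [h1]
    refine IsPreconnected.sUnion_directed ?_ ?_
    · rintro _ ⟨n, rfl⟩ _ ⟨k, rfl⟩
      refine ⟨_, ⟨max n k, rfl⟩, ?_, ?_⟩
      · intro x hx hx2
        exact hx (fc_conn_anti hle (f x) (le_max_left n k) hx2)
      · intro x hx hx2
        exact hx (fc_conn_anti hle (f x) (le_max_right n k) hx2)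
    · rintro _ ⟨n, rfl⟩
      exact ih (w + (n : ℝ) • u) (b + (n : ℝ) * m)

/-- nonempty half-space sections of faces have nonempty preimage -/
theorem fc_cover [CompactSpace M] (hf : Continuous f) {F : Set (EuclideanSpace ℝ (Fin N))}
    (h : Fc (Hul f) F) {w r : EuclideanSpace ℝ (Fin N)} {b : ℝ} (hr : r ∈ F) (hb : b ≤ ⟪w, r⟫_ℝ) :
    ∃ x, f x ∈ F ∧ b ≤ ⟪w, f x⟫_ℝ := by
  have hFc : IsCompact F := fc_compact (hul_compact hf) h
  have hcw : Continuous (fun r : EuclideanSpace ℝ (Fin N) => ⟪w, r⟫_ℝ) :=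
    Continuous.inner (𝕜 := ℝ) continuous_const continuous_id
  obtain ⟨r0, hr0, hmax⟩ := hFc.exists_isMaxOn ⟨r, hr⟩ hcw.continuousOn
  have hmax' : ∀ r ∈ F, ⟪w, r⟫_ℝ ≤ ⟪w, r0⟫_ℝ := fun r hr => hmax hr
  have hF' := Fc.step F w ⟪w, r0⟫_ℝ h hmax' ⟨r0, hr0, rfl⟩
  have hc' := fc_compact (hul_compact hf) hF'
  obtain ⟨e, he⟩ := hc'.extremePoints_nonempty ⟨r0, hr0, rfl⟩
  have he2 : e ∈ extremePoints ℝ (Hul f) :=
    (fc_extreme hF').extremePoints_subset_extremePoints he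
  have he3 : e ∈ range f := extremePoints_convexHull_subset he2
  obtain ⟨x, hx⟩ := he3
  have he4 := extremePoints_subset he
  refine ⟨x, ?_, ?_⟩
  · rw [hx]
    exact he4.1
  · rw [hx, he4.2]
    exact hb.trans (hmax' r hr)

theorem loc_inj_lv581 [T2Space M] {A : Set M} (hA : IsCompact A) {g : M → ℝ} (hg : Continuous g)
    {c : ℝ} (hc : IsPreconnected (A ∩ {x | c ≤ g x})) {x x' : M} (hx : x ∈ A) (hx' : x' ∈ A)
    (hgx : g x = c) (hgx' : g x' = c) (hne : x ≠ x') {U : Set M} (hU : U ∈ 𝓝 x)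
    (hi : InjOn g (U ∩ A)) : ∃ ε > 0, ∀ b, c < b → b < c + ε → ∃ q ∈ U ∩ A, g q = b := by
  have hL : IsCompact (A \ interior U) := hA.diff isOpen_interior
  have hxU : x ∈ interior U := mem_interior_iff_mem_nhds.mpr hU
  have hdis : Disjoint ({x} : Set M) (A \ interior U) := by
    rw [Set.disjoint_singleton_left]
    exact fun h => h.2 hxU
  obtain ⟨V, V₂, hV, hV₂, hxV, hLV, hVV⟩ :=
    SeparatedNhds.of_isCompact_isCompact isCompact_singleton hL hdis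
  have hxV' : x ∈ V := hxV (mem_singleton x)
  have hK : ∀ q ∈ A, q ∉ V₂ → q ∈ U ∩ A := by
    intro q hq h
    refine ⟨?_, hq⟩
    by_contra hqU
    exact h (hLV ⟨hq, fun h' => hqU (interior_subset h')⟩)
  have hB : IsCompact ((A \ (V ∪ V₂)) ∩ {y | c ≤ g y}) :=
    (hA.diff (hV.union hV₂)).inter_right (isClosed_le continuous_const hg)
  have hm : ∃ m, c < m ∧ ∀ q ∈ (A \ (V ∪ V₂)) ∩ {y | c ≤ g y}, m ≤ g q := by
    rcases ((A \ (V ∪ V₂)) ∩ {y | c ≤ g y}).eq_empty_or_nonempty with h0 | h0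
    · refine ⟨c + 1, by linarith, ?_⟩
      intro q hq
      rw [h0] at hq
      exact absurd hq (Set.notMem_empty q)
    · obtain ⟨p, hp, hpm⟩ := hB.exists_isMinOn h0 hg.continuousOn
      refine ⟨g p, ?_, fun q hq => hpm hq⟩
      refine lt_of_le_of_ne hp.2 ?_
      intro hcp
      have h1 : p ∈ U ∩ A := hK p hp.1.1 (fun h => hp.1.2 (Or.inr h))
      have h2 : x ∈ U ∩ A := ⟨interior_subset hxU, hx⟩
      have h3 : p = x := hi h1 h2 (by rw [hgx, ← hcp])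
      exact hp.1.2 (Or.inl (h3 ▸ hxV'))
  obtain ⟨m, hcm, hm⟩ := hm
  refine ⟨m - c, by linarith, ?_⟩
  intro b hb1 hb2
  by_contra hcon
  push Not at hcon
  have hS : IsOpen (V ∩ {y | g y < b}) := hV.inter (isOpen_lt hg continuous_const)
  have hT : IsOpen (V₂ ∪ {y | b < g y}) := hV₂.union (isOpen_lt continuous_const hg)
  have hcov : A ∩ {x | c ≤ g x} ⊆ (V ∩ {y | g y < b}) ∪ (V₂ ∪ {y | b < g y}) := by
    rintro q ⟨hqA, hqc⟩
    by_cases h2 : q ∈ V₂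
    · exact Or.inr (Or.inl h2)
    have hqU := hK q hqA h2
    rcases lt_trichotomy (g q) b with h | h | h
    · left
      refine ⟨?_, h⟩
      by_contra hqV
      have := hm q ⟨⟨hqA, fun h' => h'.elim hqV h2⟩, hqc⟩
      linarith
    · exact absurd h (hcon q hqU)
    · exact Or.inr (Or.inr h)
  have hx'2 : x' ∈ V₂ := by
    by_contra h
    exact hne (hi ⟨interior_subset hxU, hx⟩ (hK x' hx' h) (by rw [hgx, hgx']))
  obtain ⟨q, -, ⟨hq1, hq2⟩, hq3⟩ := hc _ _ hS hT hcov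
    ⟨x, ⟨hx, hgx.ge⟩, hxV', by simpa [hgx] using hb1⟩
    ⟨x', ⟨hx', hgx'.ge⟩, Or.inl hx'2⟩
  rcases hq3 with hq3 | hq3
  · exact Set.disjoint_left.mp hVV hq1 hq3
  · simp only [mem_setOf_eq] at hq2 hq3
    linarith

/-- locally injective functions with connected superlevel sets are injective -/
theorem loc_inj [T2Space M] {A : Set M} (hA : IsCompact A) {g : M → ℝ} (hg : Continuous g)
    (hl : ∀ x ∈ A, ∃ U ∈ 𝓝 x, InjOn g (U ∩ A)) (hc : ∀ b : ℝ, IsPreconnected (A ∩ {x | b ≤ g x})) :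
    InjOn g A := by
  by_contra hcon
  choose! U hU hUi using hl
  have hO : IsOpen (⋃ y ∈ A, (interior (U y)) ×ˢ (interior (U y))) :=
    isOpen_biUnion fun y _ => isOpen_interior.prod isOpen_interior
  have hE : IsCompact (((A ×ˢ A) ∩ {p : M × M | g p.1 = g p.2}) \
      (⋃ y ∈ A, (interior (U y)) ×ˢ (interior (U y)))) :=
    ((hA.prod hA).inter_right
      (isClosed_eq (hg.comp continuous_fst) (hg.comp continuous_snd))).diff hO
  have hEm : ∀ p : M × M, p.1 ∈ A → p.2 ∈ A → g p.1 = g p.2 → p.1 ≠ p.2 →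
      p ∈ ((A ×ˢ A) ∩ {p : M × M | g p.1 = g p.2}) \
      (⋃ y ∈ A, (interior (U y)) ×ˢ (interior (U y))) := by
    intro p h1 h2 h3 h4
    refine ⟨⟨⟨h1, h2⟩, h3⟩, ?_⟩
    intro h5
    simp only [mem_iUnion, mem_prod] at h5
    obtain ⟨y, hy, h5, h6⟩ := h5
    exact h4 (hUi y hy ⟨interior_subset h5, h1⟩ ⟨interior_subset h6, h2⟩ h3)
  have hne : (((A ×ˢ A) ∩ {p : M × M | g p.1 = g p.2}) \
      (⋃ y ∈ A, (interior (U y)) ×ˢ (interior (U y)))).Nonempty := by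
    unfold InjOn at hcon
    push Not at hcon
    obtain ⟨a, ha, b, hb, hab, hne⟩ := hcon
    exact ⟨(a, b), hEm (a, b) ha hb hab hne⟩
  obtain ⟨⟨x, x'⟩, hp, hmax⟩ := hE.exists_isMaxOn hne (hg.comp continuous_fst).continuousOn
  obtain ⟨⟨⟨hx, hx'⟩, hgg⟩, hno⟩ := hp
  simp only at hx hx' hgg
  have hxx : x ≠ x' := by
    rintro rfl
    apply hno
    simp only [mem_iUnion, mem_prod]
    exact ⟨x, hx, mem_interior_iff_mem_nhds.mpr (hU x hx), mem_interior_iff_mem_nhds.mpr (hU x hx)⟩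
  obtain ⟨O, O', hO1, hO2, hxO, hxO', hOO⟩ := t2_separation hxx
  have hgg' : g x = g x' := hgg
  obtain ⟨ε, hε, h1⟩ := loc_inj_lv581 hA hg (hc (g x)) hx hx' rfl hgg'.symm hxx
    (U := U x ∩ O) (Filter.inter_mem (hU x hx) (hO1.mem_nhds hxO))
    (fun z hz w hw hzw => hUi x hx ⟨hz.1.1, hz.2⟩ ⟨hw.1.1, hw.2⟩ hzw)
  obtain ⟨ε', hε', h2⟩ := loc_inj_lv581 hA hg (hc (g x)) hx' hx hgg'.symm rfl hxx.symm
    (U := U x' ∩ O') (Filter.inter_mem (hU x' hx') (hO2.mem_nhds hxO'))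
    (fun z hz w hw hzw => hUi x' hx' ⟨hz.1.1, hz.2⟩ ⟨hw.1.1, hw.2⟩ hzw)
  obtain ⟨q, hq, hqb⟩ := h1 (g x + min ε ε' / 2)
    (by have := lt_min hε hε'; linarith) (by have := min_le_left ε ε'; linarith)
  obtain ⟨q', hq', hqb'⟩ := h2 (g x + min ε ε' / 2)
    (by have := lt_min hε hε'; linarith) (by have := min_le_right ε ε'; linarith)
  have hqq : q ≠ q' := by
    rintro rfl
    exact Set.disjoint_left.mp hOO hq.1.2 hq'.1.2
  have h3 := hmax (hEm (q, q') hq.2 hq'.2 (by rw [hqb, hqb']) hqq)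
  have h4 : g q ≤ g x := h3
  have := lt_min hε hε'
  linarith

theorem h170_inner_cont (S : CSetup f) (w : EuclideanSpace ℝ (Fin N)) : Continuous (fun x => ⟪w, f x⟫_ℝ) :=
  continuous_const.inner S.cont

theorem h170_pre_conn [CompactSpace M] [T2Space M] (S : CSetup f) {F : Set (EuclideanSpace ℝ (Fin N))}
    (h : Fc (Hul f) F) : IsPreconnected (f ⁻¹' F) := by
  have h1 := fc_conn S.cont S.conn h 0 0
  have e : {x | f x ∈ F ∧ (0:ℝ) ≤ ⟪(0 : EuclideanSpace ℝ (Fin N)), f x⟫_ℝ} = f ⁻¹' F := by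
    ext x
    simp
  rwa [e] at h1

theorem h170_cross {F : Set (EuclideanSpace ℝ (Fin N))} (hF : Convex ℝ F)
    {z : EuclideanSpace ℝ (Fin N)} {c : ℝ}
    (h1 : ∀ r ∈ F, ∀ r' ∈ F, ⟪z, r⟫_ℝ = c → ⟪z, r'⟫_ℝ = c → r = r')
    {r0 r r' : EuclideanSpace ℝ (Fin N)} (h0 : r0 ∈ F) (hr : r ∈ F) (hr' : r' ∈ F)
    (he : ⟪z, r⟫_ℝ = ⟪z, r'⟫_ℝ) (t : ℝ) (ht0 : 0 < t) (ht1 : t ≤ 1)
    (ht : (1 - t) * ⟪z, r0⟫_ℝ + t * ⟪z, r⟫_ℝ = c) : r = r' := by
  have hm : ∀ s ∈ F, (1 - t) • r0 + t • s ∈ F := fun s hs =>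
    hF h0 hs (by linarith) ht0.le (by ring)
  have hv : ∀ s, ⟪z, (1 - t) • r0 + t • s⟫_ℝ = (1 - t) * ⟪z, r0⟫_ℝ + t * ⟪z, s⟫_ℝ := by
    intro s
    rw [inner_add_right, inner_smul_right, inner_smul_right]
  have h2 := h1 _ (hm r hr) _ (hm r' hr') (by rw [hv]; exact ht) (by rw [hv, ← he]; exact ht)
  have h3 : t • r = t • r' := add_left_cancel h2
  exact smul_right_injective _ ht0.ne' h3

/-- a functional injective on a face is injective on its preimage -/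
theorem fc_inj [CompactSpace M] [T2Space M] (S : CSetup f) {F : Set (EuclideanSpace ℝ (Fin N))}
    (h : Fc (Hul f) F) {w : EuclideanSpace ℝ (Fin N)}
    (hw : ∀ r ∈ F, ∀ r' ∈ F, ⟪w, r⟫_ℝ = ⟪w, r'⟫_ℝ → r = r') :
    InjOn (fun x => ⟪w, f x⟫_ℝ) (f ⁻¹' F) := by
  have hFc : IsCompact F := fc_compact (hul_compact S.cont) h
  have hA : IsCompact (f ⁻¹' F) := (hFc.isClosed.preimage S.cont).isCompact
  refine loc_inj hA (h170_inner_cont S w) ?_ ?_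
  · intro x hx
    obtain ⟨U, hU, hUi⟩ := S.loc x
    refine ⟨U, hU, ?_⟩
    rintro a ⟨haU, haA⟩ b ⟨hbU, hbA⟩ hab
    exact hUi haU hbU (hw _ haA _ hbA hab)
  · intro b
    exact fc_conn S.cont S.conn h w b

/-- slices of faces which do not cross the hyperplane have connected preimage -/
theorem h170_tr_side [CompactSpace M] [T2Space M] (S : CSetup f) {F : Set (EuclideanSpace ℝ (Fin N))}
    (h : Fc (Hul f) F) {z : EuclideanSpace ℝ (Fin N)} {c : ℝ}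
    (h1 : (∀ r ∈ F, ⟪z, r⟫_ℝ ≤ c) ∨ (∀ r ∈ F, c ≤ ⟪z, r⟫_ℝ)) :
    IsPreconnected (Tr f F z c) := by
  rcases h1 with h1 | h1
  · have e : Tr f F z c = {x | f x ∈ F ∧ c ≤ ⟪z, f x⟫_ℝ} := by
      ext x
      constructor
      · rintro ⟨ha, hb⟩
        exact ⟨ha, hb.ge⟩
      · rintro ⟨ha, hb⟩
        exact ⟨ha, le_antisymm (h1 _ ha) hb⟩
    rw [e]
    exact fc_conn S.cont S.conn h z c
  · have e : Tr f F z c = {x | f x ∈ F ∧ -c ≤ ⟪-z, f x⟫_ℝ} := by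
      ext x
      constructor
      · rintro ⟨ha, hb⟩
        refine ⟨ha, ?_⟩
        rw [inner_neg_left, hb]
      · rintro ⟨ha, hb⟩
        rw [inner_neg_left, neg_le_neg_iff] at hb
        exact ⟨ha, le_antisymm hb (h1 _ ha)⟩
    rw [e]
    exact fc_conn S.cont S.conn h (-z) (-c)

/-- slices which are single points have connected preimage -/
theorem tr_point [CompactSpace M] [T2Space M] (S : CSetup f) {F : Set (EuclideanSpace ℝ (Fin N))}
    (h : Fc (Hul f) F) {z : EuclideanSpace ℝ (Fin N)} {c : ℝ}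
    (h1 : ∀ r ∈ F, ∀ r' ∈ F, ⟪z, r⟫_ℝ = c → ⟪z, r'⟫_ℝ = c → r = r') :
    IsPreconnected (Tr f F z c) := by
  by_cases hside : (∀ r ∈ F, ⟪z, r⟫_ℝ ≤ c) ∨ (∀ r ∈ F, c ≤ ⟪z, r⟫_ℝ)
  · exact h170_tr_side S h hside
  push Not at hside
  obtain ⟨⟨r2, hr2, hr2c⟩, ⟨r1, hr1, hr1c⟩⟩ := hside
  have hF : Convex ℝ F := fc_convex (convex_convexHull ℝ _) h
  have hinj : ∀ r ∈ F, ∀ r' ∈ F, ⟪z, r⟫_ℝ = ⟪z, r'⟫_ℝ → r = r' := by
    intro r hr r' hr' he
    rcases lt_trichotomy ⟪z, r⟫_ℝ c with hlt | heq | hgt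
    · have hpos : 0 < ⟪z, r2⟫_ℝ - ⟪z, r⟫_ℝ := by linarith
      refine h170_cross hF h1 hr2 hr hr' he ((⟪z, r2⟫_ℝ - c) / (⟪z, r2⟫_ℝ - ⟪z, r⟫_ℝ)) (div_pos (by linarith) hpos)
        ((div_le_one hpos).2 (by linarith)) ?_
      field_simp
      ring
    · exact h1 r hr r' hr' heq (he ▸ heq)
    · have hpos : 0 < ⟪z, r⟫_ℝ - ⟪z, r1⟫_ℝ := by linarith
      refine h170_cross hF h1 hr1 hr hr' he ((c - ⟪z, r1⟫_ℝ) / (⟪z, r⟫_ℝ - ⟪z, r1⟫_ℝ)) (div_pos (by linarith) hpos)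
        ((div_le_one hpos).2 (by linarith)) ?_
      field_simp
      ring
  have hi := fc_inj S h hinj
  refine Set.Subsingleton.isPreconnected ?_
  rintro x ⟨hx, hxc⟩ y ⟨hy, hyc⟩
  exact hi hx hy (hxc.trans hyc.symm)

/-- slices of faces which do not cross the hyperplane have connected preimage -/
theorem tr_side [CompactSpace M] [T2Space M] (S : CSetup f) {F : Set (EuclideanSpace ℝ (Fin N))}
    (h : Fc (Hul f) F) {z : EuclideanSpace ℝ (Fin N)} {c : ℝ}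
    (h1 : (∀ r ∈ F, ⟪z, r⟫_ℝ ≤ c) ∨ (∀ r ∈ F, c ≤ ⟪z, r⟫_ℝ)) :
    IsPreconnected (Tr f F z c) :=
  h170_tr_side S h h1

/-- slices of faces have nonempty preimage -/
theorem tr_nonempty [CompactSpace M] [T2Space M] (S : CSetup f)
    {F : Set (EuclideanSpace ℝ (Fin N))}
    (h : Fc (Hul f) F) {z : EuclideanSpace ℝ (Fin N)} {c : ℝ} (h1 : ∃ r ∈ F, ⟪z, r⟫_ℝ = c) :
    (Tr f F z c).Nonempty := by
  obtain ⟨r, hr, hrc⟩ := h1
  obtain ⟨x, hx, hxc⟩ := fc_cover S.cont h hr hrc.ge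
  obtain ⟨y, hy, hyc⟩ := fc_cover S.cont h (w := -z) (b := -c) hr (by rw [inner_neg_left, hrc])
  rw [inner_neg_left, neg_le_neg_iff] at hyc
  have hiv := (h170_pre_conn S h).intermediate_value (a := y) (b := x) hy hx (h170_inner_cont S z).continuousOn
  obtain ⟨w, hw, hwc⟩ := hiv ⟨hyc, hxc⟩
  exact ⟨w, hw, hwc⟩

/-- a face with a disconnected slice carries a class -/
theorem face_class [CompactSpace M] [T2Space M] [ConnectedSpace M] [LocallyPathConnectedSpace M]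
    (S : CSetup f) {F : Set (EuclideanSpace ℝ (Fin N))} (h : Fc (Hul f) F)
    {z : EuclideanSpace ℝ (Fin N)} {c : ℝ} (h1 : ¬ IsPreconnected (Tr f F z c)) :
    ∃ t : M → M → ZMod 2, Coc univ t ∧ ¬ Null univ t ∧ Null {x | f x ∉ F} t := by
  have hFcl : IsClosed F := (fc_compact (hul_compact S.cont) h).isClosed
  have hcl : ∀ (w : EuclideanSpace ℝ (Fin N)) (b : ℝ), IsClosed {x | f x ∈ F ∧ b ≤ ⟪w, f x⟫_ℝ} := by
    intro w b
    have h2 : IsClosed {x : M | b ≤ ⟪w, f x⟫_ℝ} :=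
      isClosed_le continuous_const (continuous_const.inner S.cont)
    exact (hFcl.preimage S.cont).inter h2
  have hA := hcl z c
  have hA' := hcl (-z) (-c)
  have hinter : {x | f x ∈ F ∧ c ≤ ⟪z, f x⟫_ℝ} ∩ {x | f x ∈ F ∧ -c ≤ ⟪-z, f x⟫_ℝ} = Tr f F z c := by
    ext x
    simp only [mem_inter_iff, mem_setOf_eq, Tr, inner_neg_left]
    constructor
    · rintro ⟨⟨a1, a2⟩, _, a3⟩
      exact ⟨a1, by linarith⟩
    · rintro ⟨a1, a2⟩
      exact ⟨⟨a1, by linarith⟩, a1, by linarith⟩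
  have hunion : ({x | f x ∈ F ∧ c ≤ ⟪z, f x⟫_ℝ} ∪ {x | f x ∈ F ∧ -c ≤ ⟪-z, f x⟫_ℝ})ᶜ =
      {x | f x ∉ F} := by
    ext x
    simp only [mem_compl_iff, mem_union, mem_setOf_eq, inner_neg_left]
    constructor
    · intro hn hF
      apply hn
      rcases le_total c ⟪z, f x⟫_ℝ with hc | hc
      · exact Or.inl ⟨hF, hc⟩
      · exact Or.inr ⟨hF, by linarith⟩
    · rintro hn (⟨hF, _⟩ | ⟨hF, _⟩)
      · exact hn hF
      · exact hn hF
  have hu : IsPreconnected {x | f x ∉ F} := by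
    have h0 := fc_co S.cont S.conn h (0 : EuclideanSpace ℝ (Fin N)) (0 : ℝ)
    have he : {x | ¬ (f x ∈ F ∧ (0 : ℝ) ≤ ⟪(0 : EuclideanSpace ℝ (Fin N)), f x⟫_ℝ)} =
        {x | f x ∉ F} := by
      ext x
      simp
    rwa [he] at h0
  obtain ⟨t, ht1, ht2, ht3⟩ := circle_class S hA hA' (fc_conn S.cont S.conn h z c)
    (fc_conn S.cont S.conn h (-z) (-c)) (fc_co S.cont S.conn h z c)
    (fc_co S.cont S.conn h (-z) (-c)) (by rw [hunion]; exact hu) (by rw [hinter]; exact h1)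
  rw [hunion] at ht3
  exact ⟨t, ht1, ht2, ht3⟩

end Pool.Agent.Helper775.Clo
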