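import Pool.Agent.Helper775.Clo.Bad
import Pool.Agent.Helper775.Surf.Tig

/-! The hull of a tight closed surface is a polytope. -/

set_option autoImplicit false

namespace Pool.Agent.Helper775.Clo

open Set Topology Metric
open Pool.Agent.Helper775.Surf
open Pool.Agent.Helper775.Tight
open scoped InnerProductSpace Manifold

theorem int_of_charted {M : Type*} [TopologicalSpace M] [ChartedSpace (EuclideanSpace ℝ (Fin 2)) M]
    (x : M) : IntPt x := by
  set e := chartAt (EuclideanSpace ℝ (Fin 2)) x with he
  set g : ℝ × ℝ → EuclideanSpace ℝ (Fin 2) := fun p => WithLp.toLp 2 ![p.1, p.2] with hg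
  have hg0 : ∀ p, (g p) 0 = p.1 := fun p => rfl
  have hg1 : ∀ p, (g p) 1 = p.2 := fun p => rfl
  have hgc : Continuous g := by
    refine (PiLp.continuous_toLp 2 _).comp (continuous_pi fun i => ?_)
    fin_cases i
    · exact continuous_fst
    · exact continuous_snd
  have hgh : ∀ h : EuclideanSpace ℝ (Fin 2), g (h 0, h 1) = h := by
    intro h
    ext i
    fin_cases i <;> rfl
  have hc0 : Continuous (fun y : EuclideanSpace ℝ (Fin 2) => y 0) :=
    (EuclideanSpace.proj (0 : Fin 2) (𝕜 := ℝ)).continuous
  have hc1 : Continuous (fun y : EuclideanSpace ℝ (Fin 2) => y 1) :=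
    (EuclideanSpace.proj (1 : Fin 2) (𝕜 := ℝ)).continuous
  have hT : IsOpen (g ⁻¹' e.target) := e.open_target.preimage hgc
  have hce : ContinuousOn e e.source := e.continuousOn
  have hch : Chart e.source (g ⁻¹' e.target) (fun y => (e y 0, e y 1))
      (fun p => e.symm (g p)) := by
    refine ⟨e.open_source, ?_, ?_, ?_, ?_, ?_, ?_⟩
    · exact (hc0.comp_continuousOn hce).prodMk (hc1.comp_continuousOn hce)
    · exact e.continuousOn_symm.comp hgc.continuousOn (fun p hp => hp)
    · intro y hy
      show g (e y 0, e y 1) ∈ e.target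
      rw [hgh]
      exact e.map_source hy
    · intro p hp
      exact e.map_target hp
    · intro y hy
      show e.symm (g (e y 0, e y 1)) = y
      rw [hgh]
      exact e.left_inv hy
    · intro p hp
      show ((e (e.symm (g p))) 0, (e (e.symm (g p))) 1) = p
      rw [e.right_inv hp]
      rfl
  refine intPt_of_chart hch (mem_chart_source _ x) (hT.mem_nhds ?_)
  show g (e x 0, e x 1) ∈ e.target
  rw [hgh]
  exact e.map_source (mem_chart_source _ x)

/-- the hull has finitely many extreme points -/
theorem clo_ext_finite {M : Type*} [TopologicalSpace M] [CompactSpace M] [T2Space M]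
    [ConnectedSpace M] [LocallyPathConnectedSpace M] [SecondCountableTopology M] {N : ℕ}
    {f : M → EuclideanSpace ℝ (Fin N)} (S : CSetup f) (hN : 6 ≤ N) :
    (extremePoints ℝ (Hul f)).Finite := by
  by_contra hinf
  have hinf' : (extremePoints ℝ (Hul f)).Infinite := hinf
  have h2 := inf_two S (by omega) hinf'
  obtain ⟨t, ht0, hn, ht⟩ := inf_cls S h2
  let e := ht.natEmbedding
  let Φ : ℕ → Set (EuclideanSpace ℝ (Fin N)) := fun i => (e i : Set (EuclideanSpace ℝ (Fin N)))
  have hΦ2 : ∀ i, Two f (Φ i) := fun i => (e i).2.1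
  have hΦt : ∀ i, Null {x | f x ∉ Φ i} t := fun i => (e i).2.2
  have hΦi : Function.Injective Φ := fun i j hij => e.injective (Subtype.ext hij)
  obtain ⟨g, hg, hgood | hbad⟩ := ramsey_pairs (fun i j => Good f t (Φ i) (Φ j))
    (fun i j h => good_symm h)
  · exact no_inf_good S hN ht0 hn (Φ := fun i => Φ (g i)) (fun i => hΦ2 _) (fun i => hΦt _)
      (fun i j hij => hg.injective (hΦi hij)) hgood
  · have hN6 : N = 6 := by
      by_contra hne
      have h7 : 7 ≤ N := by omega
      exact hbad 0 1 (by norm_num) (good_pair S hN (hΦ2 _) (hΦ2 _) (Or.inr h7))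
    refine no_four_bad S hN6 hn (Φ := fun i : Fin 4 => Φ (g i)) (fun i => hΦ2 _) (fun i => hΦt _) ?_
    intro i j hij
    exact hbad i j (fun h => hij (Fin.ext h))

end Pool.Agent.Helper775.Clo
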