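import Pool.Agent.Helper775.Clo.Sli

/-! Closed surfaces: majority arguments. -/

set_option autoImplicit false

namespace Pool.Agent.Helper775.Clo

open Set Topology Metric
open Pool.Agent.Helper775.Surf
open scoped InnerProductSpace

variable {M : Type*} [TopologicalSpace M] {N : ℕ} {f : M → EuclideanSpace ℝ (Fin N)}

/-- the part of the surface beyond all points of a compact set, in one direction, is connected -/
theorem conn_beyond_c (h0 : Conn0 f) {X : Set (EuclideanSpace ℝ (Fin N))} (hX : IsCompact X)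
    (hne : X.Nonempty) (z : EuclideanSpace ℝ (Fin N)) :
    IsPreconnected {x | ∀ q ∈ X, ⟪z, q⟫_ℝ < ⟪z, f x⟫_ℝ} := by
  obtain ⟨a, ha, hmax⟩ := hX.exists_isMaxOn (f := fun q => ⟪z, q⟫_ℝ) hne
    (by fun_prop : Continuous fun q : EuclideanSpace ℝ (Fin N) => ⟪z, q⟫_ℝ).continuousOn
  have e : {x | ∀ q ∈ X, ⟪z, q⟫_ℝ < ⟪z, f x⟫_ℝ} = {x | ⟪z, a⟫_ℝ < ⟪z, f x⟫_ℝ} := by
    ext x
    simp only [mem_setOf_eq]
    constructor
    · intro h
      exact h a ha
    · intro h q hq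
      exact (hmax hq).trans_lt h
  rw [e]
  exact conn_open h0 z _

/-- the same for a connected set of directions -/
theorem conn_beyond_union_c (hf : Continuous f) (h0 : Conn0 f)
    {X : Set (EuclideanSpace ℝ (Fin N))} (hX : IsCompact X) (hne : X.Nonempty)
    {Z : Set (EuclideanSpace ℝ (Fin N))} (hZ : IsPreconnected Z)
    (hZx : ∀ z ∈ Z, ∃ x, ∀ q ∈ X, ⟪z, q⟫_ℝ < ⟪z, f x⟫_ℝ) :
    IsPreconnected (⋃ z ∈ Z, {x | ∀ q ∈ X, ⟪z, q⟫_ℝ < ⟪z, f x⟫_ℝ}) := by
  apply glue_conn hZ (fun z => {x | ∀ q ∈ X, ⟪z, q⟫_ℝ < ⟪z, f x⟫_ℝ})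
    (fun z _ => conn_beyond_c h0 hX hne z)
  intro z hz
  obtain ⟨x, hx⟩ := hZx z hz
  refine ⟨x, hx, ?_⟩
  have h : ∀ᶠ j in 𝓝 z, ∀ q ∈ X, ⟪j, q⟫_ℝ < ⟪j, f x⟫_ℝ := by
    apply hX.eventually_forall_of_forall_eventually
    intro q hq
    have h1 : ContinuousAt (fun j : EuclideanSpace ℝ (Fin N) × EuclideanSpace ℝ (Fin N) =>
        ⟪j.1, j.2⟫_ℝ) (z, q) := by fun_prop
    have h2 : ContinuousAt (fun j : EuclideanSpace ℝ (Fin N) × EuclideanSpace ℝ (Fin N) =>
        ⟪j.1, f x⟫_ℝ) (z, q) := by fun_prop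
    exact h1.eventually_lt h2 (hx q hq)
  exact Filter.Eventually.filter_mono nhdsWithin_le_nhds h

/-- points outside a compact convex set are beyond it in some direction -/
theorem beyond_of_notMem_c {X : Set (EuclideanSpace ℝ (Fin N))} (hX : IsCompact X)
    (hXc : Convex ℝ X) {p : EuclideanSpace ℝ (Fin N)} (hp : p ∉ X) :
    ∃ z : EuclideanSpace ℝ (Fin N), ∀ q ∈ X, ⟪z, q⟫_ℝ < ⟪z, p⟫_ℝ := by
  obtain ⟨g, u, hg, hu⟩ := geometric_hahn_banach_closed_point hXc hX.isClosed hp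
  have hz : ∀ y, ⟪(InnerProductSpace.toDual ℝ (EuclideanSpace ℝ (Fin N))).symm g, y⟫_ℝ = g y :=
    fun y => InnerProductSpace.toDual_symm_apply
  refine ⟨(InnerProductSpace.toDual ℝ (EuclideanSpace ℝ (Fin N))).symm g, ?_⟩
  intro q hq
  rw [hz, hz]
  exact (hg q hq).trans hu

/-- the preimage of a compact convex set of codimension at least two does not separate -/
theorem aplus_cpt [CompactSpace M] [ConnectedSpace M] (hf : Continuous f) (h0 : Conn0 f)
    (hsub : ∀ (z : EuclideanSpace ℝ (Fin N)) (c : ℝ), z ≠ 0 → ∃ x, ⟪z, f x⟫_ℝ ≠ c)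
    {X : Set (EuclideanSpace ℝ (Fin N))} (hX : IsCompact X) (hXc : Convex ℝ X) (hne : X.Nonempty)
    (V : Submodule ℝ (EuclideanSpace ℝ (Fin N))) (hV : ∀ p ∈ X, ∀ q ∈ X, q - p ∈ V)
    (hdim : Module.finrank ℝ V + 2 ≤ N) : IsPreconnected {x | f x ∉ X} := by
  obtain ⟨o, ho⟩ := hne
  obtain ⟨Z, hZdef⟩ : ∃ Z : Set (EuclideanSpace ℝ (Fin N)),
    Z = {z | ∃ x, ∀ q ∈ X, ⟪z, q⟫_ℝ < ⟪z, f x⟫_ℝ} := ⟨_, rfl⟩
  have hP : ∀ w ∈ Vᗮ, ∀ q ∈ X, ⟪w, q⟫_ℝ = ⟪w, o⟫_ℝ := by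
    intro w hw q hq
    have h1 : ⟪w, q - o⟫_ℝ = 0 := by
      rw [real_inner_comm]
      exact (Submodule.mem_orthogonal V w).1 hw (q - o) (hV o ho q hq)
    rw [inner_sub_right] at h1
    linarith
  have hHZ : ∀ x, ApH Vᗮ (f x - o) ⊆ Z := by
    intro x w hw
    rw [hZdef]
    refine ⟨x, fun q hq => ?_⟩
    have h1 := hw.2
    rw [inner_sub_right] at h1
    rw [hP w hw.1 q hq]
    linarith
  have hsgn : ∀ w ∈ Vᗮ, w ≠ 0 → ∃ x, ∃ w' : EuclideanSpace ℝ (Fin N), (w' = w ∨ w' = -w) ∧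
      0 < ⟪w', f x - o⟫_ℝ := by
    intro w hw hw0
    obtain ⟨x, hx⟩ := hsub w ⟪w, o⟫_ℝ hw0
    rcases lt_or_gt_of_ne hx with h | h
    · refine ⟨x, -w, Or.inr rfl, ?_⟩
      rw [inner_neg_left, inner_sub_right]
      linarith
    · refine ⟨x, w, Or.inl rfl, ?_⟩
      rw [inner_sub_right]
      linarith
  have hsgnP : ∀ w ∈ Vᗮ, ∀ w' : EuclideanSpace ℝ (Fin N), (w' = w ∨ w' = -w) → w' ∈ Vᗮ := by
    rintro w hw w' (h | h)
    · rw [h]
      exact hw
    · rw [h]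
      exact Submodule.neg_mem _ hw
  have hPZ : ∃ w ∈ Vᗮ, ∃ x, 0 < ⟪w, f x - o⟫_ℝ := by
    obtain ⟨w, hw, hw0⟩ := ap_exists V (by omega)
    obtain ⟨x, w', h1, h2⟩ := hsgn w hw hw0
    exact ⟨w', hsgnP w hw w' h1, x, h2⟩
  have hJH : ∀ x, ∀ w₁ ∈ ApH Vᗮ (f x - o), ∀ w₂ ∈ ApH Vᗮ (f x - o), ApJ Z w₁ w₂ := by
    intro x w₁ h1 w₂ h2
    exact ⟨ApH Vᗮ (f x - o), hHZ x, h1, h2, ap_half _ _⟩
  have hJP : ∀ x₁ x₂, ∀ w₁ ∈ ApH Vᗮ (f x₁ - o), ∀ w₂ ∈ ApH Vᗮ (f x₂ - o), ApJ Z w₁ w₂ := by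
    intro x₁ x₂ w₁ h1 w₂ h2
    have hfr : Module.finrank ℝ ↥(V ⊔ Submodule.span ℝ {f x₁ - o}) < N := by
      have h3 := Submodule.finrank_add_le_finrank_add_finrank V (Submodule.span ℝ {f x₁ - o})
      have h4 : Module.finrank ℝ ↥(Submodule.span ℝ {f x₁ - o}) ≤ 1 := by
        have h5 := finrank_span_le_card (R := ℝ) ({f x₁ - o} : Set (EuclideanSpace ℝ (Fin N)))
        simpa using h5
      omega
    obtain ⟨w, hw, hw0⟩ := ap_exists _ hfr
    have hwP : w ∈ Vᗮ := by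
      rw [Submodule.mem_orthogonal] at hw ⊢
      intro v hv
      exact hw v (Submodule.mem_sup_left hv)
    have hwu : ⟪w, f x₁ - o⟫_ℝ = 0 := by
      rw [real_inner_comm]
      exact (Submodule.mem_orthogonal _ w).1 hw _
        (Submodule.mem_sup_right (Submodule.mem_span_singleton_self _))
    have hwu' : ∀ w' : EuclideanSpace ℝ (Fin N), (w' = w ∨ w' = -w) → ⟪w', f x₁ - o⟫_ℝ = 0 := by
      rintro w' (h | h)
      · rw [h]
        exact hwu
      · rw [h, inner_neg_left, hwu, neg_zero]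
    by_cases hc : ⟪w, f x₂ - o⟫_ℝ = 0
    · have hc' : ∀ w' : EuclideanSpace ℝ (Fin N), (w' = w ∨ w' = -w) → ⟪w', f x₂ - o⟫_ℝ = 0 := by
        rintro w' (h | h)
        · rw [h]
          exact hc
        · rw [h, inner_neg_left, hc, neg_zero]
      obtain ⟨x₃, w', h3, h4⟩ := hsgn w hwP hw0
      have h5 := hsgnP w hwP w' h3
      obtain ⟨v, hv, hv1, hv2⟩ := ap_small Vᗮ h5 h1.1 (hwu' w' h3) h1.2 h4
      obtain ⟨v', hv', hv1', hv2'⟩ := ap_small Vᗮ h5 h2.1 (hc' w' h3) h2.2 h4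
      exact (hJH x₁ w₁ h1 v ⟨hv, hv1⟩).trans ((hJH x₃ v ⟨hv, hv2⟩ v' ⟨hv', hv2'⟩).trans
        (hJH x₂ v' ⟨hv', hv1'⟩ w₂ h2))
    · have h3 : ∃ w' : EuclideanSpace ℝ (Fin N), (w' = w ∨ w' = -w) ∧ 0 < ⟪w', f x₂ - o⟫_ℝ := by
        rcases lt_or_gt_of_ne hc with h | h
        · refine ⟨-w, Or.inr rfl, ?_⟩
          rw [inner_neg_left]
          linarith
        · exact ⟨w, Or.inl rfl, h⟩
      obtain ⟨w', h3, h4⟩ := h3
      obtain ⟨v, hv, hv1, hv2⟩ := ap_small Vᗮ (hsgnP w hwP w' h3) h1.1 (hwu' w' h3) h1.2 h4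
      exact (hJH x₁ w₁ h1 v ⟨hv, hv1⟩).trans (hJH x₂ v ⟨hv, hv2⟩ w₂ h2)
  have hJZ : ∀ z ∈ Z, ∃ x, ∃ w ∈ ApH Vᗮ (f x - o), ApJ Z z w := by
    intro z hz
    have hz' := hz
    rw [hZdef] at hz'
    obtain ⟨x₀, hx₀⟩ := hz'
    have hw : ∃ x, ∃ w ∈ ApH Vᗮ (f x - o), 0 ≤ ⟪w, f x₀ - o⟫_ℝ := by
      by_cases hc : ∃ w ∈ Vᗮ, 0 < ⟪w, f x₀ - o⟫_ℝ
      · obtain ⟨w, hw, hw'⟩ := hc
        exact ⟨x₀, w, ⟨hw, hw'⟩, hw'.le⟩
      · obtain ⟨w, hw, x, hx⟩ := hPZ
        refine ⟨x, w, ⟨hw, hx⟩, ?_⟩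
        by_contra hneg
        apply hc
        refine ⟨-w, Submodule.neg_mem _ hw, ?_⟩
        rw [inner_neg_left]
        linarith
    obtain ⟨x, w, hw, hw0⟩ := hw
    refine ⟨x, w, hw, segment ℝ z w, ?_, left_mem_segment ℝ z w, right_mem_segment ℝ z w,
      (convex_segment z w).isPreconnected⟩
    rintro v ⟨a, b, ha, hb, hab, rfl⟩
    rcases ha.eq_or_lt with h | h
    · have hb1 : b = 1 := by linarith
      rw [← h, hb1, zero_smul, one_smul, zero_add]
      exact hHZ x hw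
    · rw [hZdef]
      refine ⟨x₀, fun q hq => ?_⟩
      have h1 := hx₀ q hq
      have h2 := hP w hw.1 q hq
      rw [inner_sub_right] at hw0
      rw [inner_add_left, inner_add_left, real_inner_smul_left, real_inner_smul_left,
        real_inner_smul_left, real_inner_smul_left, h2]
      have h3 : a * ⟪z, q⟫_ℝ < a * ⟪z, f x₀⟫_ℝ := mul_lt_mul_of_pos_left h1 h
      have h4 : b * ⟪w, o⟫_ℝ ≤ b * ⟪w, f x₀⟫_ℝ := mul_le_mul_of_nonneg_left (by linarith) hb
      linarith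
  have hZpre : IsPreconnected Z := by
    apply isPreconnected_of_forall_pair
    intro z₁ hz₁ z₂ hz₂
    obtain ⟨x₁, w₁, hw₁, hj₁⟩ := hJZ z₁ hz₁
    obtain ⟨x₂, w₂, hw₂, hj₂⟩ := hJZ z₂ hz₂
    exact (hj₁.trans (hJP x₁ x₂ w₁ hw₁ w₂ hw₂)).trans hj₂.symm
  have hfin := conn_beyond_union_c hf h0 hX ⟨o, ho⟩ hZpre (fun z hz => by
    rw [hZdef] at hz
    exact hz)
  have hset : {x | f x ∉ X} = ⋃ z ∈ Z, {x | ∀ q ∈ X, ⟪z, q⟫_ℝ < ⟪z, f x⟫_ℝ} := by
    ext x
    simp only [mem_iUnion, exists_prop]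
    constructor
    · intro hx
      obtain ⟨z, hz⟩ := beyond_of_notMem_c hX hXc hx
      refine ⟨z, ?_, hz⟩
      rw [hZdef]
      exact ⟨x, hz⟩
    · rintro ⟨z, _, hz⟩
      intro hx
      exact lt_irrefl _ (hz (f x) hx)
  rw [hset]
  exact hfin

theorem span_union_le {E : Type*} [NormedAddCommGroup E] [InnerProductSpace ℝ E]
    [FiniteDimensional ℝ E] (F G : Set E) :
    Module.finrank ℝ (vectorSpan ℝ (F ∪ G)) ≤
      Module.finrank ℝ (vectorSpan ℝ F) + Module.finrank ℝ (vectorSpan ℝ G) + 1 := by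
  rcases F.eq_empty_or_nonempty with hF | ⟨a, ha⟩
  · subst hF
    rw [Set.empty_union]
    omega
  rcases G.eq_empty_or_nonempty with hG | ⟨b, hb⟩
  · subst hG
    rw [Set.union_empty]
    omega
  have h1 : vectorSpan ℝ (F ∪ G) = vectorSpan ℝ F ⊔ vectorSpan ℝ G ⊔ Submodule.span ℝ {b -ᵥ a} := by
    rw [← direction_affineSpan, AffineSubspace.span_union,
      AffineSubspace.direction_sup (mem_affineSpan ℝ ha) (mem_affineSpan ℝ hb),
      direction_affineSpan, direction_affineSpan]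
  rw [h1]
  have h2 := Submodule.finrank_add_le_finrank_add_finrank (vectorSpan ℝ F ⊔ vectorSpan ℝ G) (Submodule.span ℝ {b -ᵥ a})
  have h3 := Submodule.finrank_add_le_finrank_add_finrank (vectorSpan ℝ F) (vectorSpan ℝ G)
  have h4 : Module.finrank ℝ (Submodule.span ℝ {b -ᵥ a}) ≤ 1 := by
    classical
    have h5 := finrank_span_finset_le_card (R := ℝ) ({b -ᵥ a} : Finset E)
    rw [Finset.coe_singleton, Finset.card_singleton] at h5
    exact h5
  omega

theorem span_union_le' {E : Type*} [NormedAddCommGroup E] [InnerProductSpace ℝ E]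
    [FiniteDimensional ℝ E] {F G : Set E} (h : (F ∩ G).Nonempty) :
    Module.finrank ℝ (vectorSpan ℝ (F ∪ G)) ≤
      Module.finrank ℝ (vectorSpan ℝ F) + Module.finrank ℝ (vectorSpan ℝ G) := by
  obtain ⟨a, ha, hb⟩ := h
  have h1 : vectorSpan ℝ (F ∪ G) = vectorSpan ℝ F ⊔ vectorSpan ℝ G := by
    rw [← direction_affineSpan, AffineSubspace.span_union,
      AffineSubspace.direction_sup (mem_affineSpan ℝ ha) (mem_affineSpan ℝ hb),
      direction_affineSpan, direction_affineSpan, vsub_self, Submodule.span_zero_singleton, sup_bot_eq]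
  rw [h1]
  exact Submodule.finrank_add_le_finrank_add_finrank (vectorSpan ℝ F) (vectorSpan ℝ G)

theorem good_of_dim [CompactSpace M] [T2Space M] [ConnectedSpace M] (S : CSetup f)
    {t : M → M → ZMod 2} {F G : Set (EuclideanSpace ℝ (Fin N))} (hF : Fc (Hul f) F)
    (hG : Fc (Hul f) G) (h : Module.finrank ℝ (vectorSpan ℝ (F ∪ G)) + 2 ≤ N) : Good f t F G := by
  apply good_of_conn
  have hne : (Hul f).Nonempty := by
    obtain ⟨x⟩ := (inferInstance : Nonempty M)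
    exact ⟨f x, subset_convexHull ℝ _ ⟨x, rfl⟩⟩
  have hFne := fc_nonempty hne hF
  have hcpt : IsCompact (Hul f) := hul_compact S.cont
  refine aplus_cpt S.cont S.conn S.sub
    (sg3_compact_hull ((fc_compact hcpt hF).union (fc_compact hcpt hG)))
    (convex_convexHull ℝ _) ?_ (vectorSpan ℝ (F ∪ G)) ?_ h
  · obtain ⟨p, hp⟩ := hFne
    exact ⟨p, subset_convexHull ℝ _ (Or.inl hp)⟩
  · intro p hp q hq
    have h1 := AffineSubspace.vsub_mem_direction (convexHull_subset_affineSpan (F ∪ G) hq)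
      (convexHull_subset_affineSpan (F ∪ G) hp)
    rw [direction_affineSpan] at h1
    exact h1

theorem good_pair [CompactSpace M] [T2Space M] [ConnectedSpace M] (S : CSetup f) (hN : 6 ≤ N)
    {t : M → M → ZMod 2} {F G : Set (EuclideanSpace ℝ (Fin N))} (hF : Two f F) (hG : Two f G)
    (h : (F ∩ G).Nonempty ∨ 7 ≤ N) : Good f t F G := by
  obtain ⟨hF1, hF2, _⟩ := hF
  obtain ⟨hG1, hG2, _⟩ := hG
  apply good_of_dim S hF1 hG1
  rcases h with h | h
  · have h1 := span_union_le' h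
    omega
  · have h1 := span_union_le F G
    omega

theorem good_symm {t : M → M → ZMod 2} {F G : Set (EuclideanSpace ℝ (Fin N))}
    (h : Good f t F G) : Good f t G F := by
  intro s s' hs hs'
  obtain ⟨c, hc⟩ := h s' s hs' hs
  refine ⟨c, fun x hx => ?_⟩
  rw [add_comm]
  apply hc x
  rwa [Set.union_comm]

/-- majority of five values -/
def maj5_m (v : Fin 5 → ZMod 2) : ZMod 2 :=
  if 3 ≤ (Finset.univ.filter (fun i => v i = 1)).card then 1 else 0

theorem maj5_add (v : Fin 5 → ZMod 2) (c : ZMod 2) : maj5_m (fun i => v i + c) = maj5_m v + c := by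
  revert v c
  decide

theorem maj5_const (v : Fin 5 → ZMod 2) (c : ZMod 2) (k j : Fin 5)
    (h : ∀ i, i ≠ k → i ≠ j → v i = c) : maj5_m v = c := by
  revert v c k j
  decide

theorem maj5_ex (k j : Fin 5) : ∃ i : Fin 5, i ≠ k ∧ i ≠ j := by
  revert k j
  decide

theorem maj5_z1 (a b t : ZMod 2) (h : t = a + b) : b = a + t := by
  revert a b t
  decide

/-- the majority of five trivializations -/
theorem maj5 {t : M → M → ZMod 2} {G : Fin 5 → Set M} (hc : ∀ i, IsClosed (G i))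
    {s : Fin 5 → M → ZMod 2} (hs : ∀ i, Triv (G i)ᶜ t (s i))
    (h : ∀ x k, x ∈ G k → (∀ i, i ≠ k → x ∉ G i) →
      ∃ c : ZMod 2, ∃ j, j ≠ k ∧ ∀ i, i ≠ k → i ≠ j → s i x = c) :
    Null {x | ∀ i j, i ≠ j → x ∈ G i → x ∉ G j} t := by
  refine ⟨fun a => maj5_m (fun i => s i a), fun x hx => ?_⟩
  by_cases hk : ∃ k, x ∈ G k
  · obtain ⟨k, hk⟩ := hk
    have hno : ∀ i, i ≠ k → x ∉ G i := fun i hi => hx k i (Ne.symm hi) hk
    obtain ⟨c, j, hjk, hc'⟩ := h x k hk hno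
    have hW : ∀ i, ∃ W ∈ 𝓝 x, i ≠ k → ∀ a ∈ W, ∀ b ∈ W, t a b = s i a + s i b := by
      intro i
      by_cases hi : i = k
      · exact ⟨univ, Filter.univ_mem, fun h => absurd hi h⟩
      · obtain ⟨W, hW1, hW2⟩ := hs i x (hno i hi)
        exact ⟨W, hW1, fun _ => hW2⟩
    choose W hW1 hW2 using hW
    refine ⟨⋂ i, W i, Filter.iInter_mem.2 hW1, ?_⟩
    have hxW : ∀ i, x ∈ W i := fun i => mem_of_mem_nhds (hW1 i)
    have hm : ∀ a ∈ ⋂ i, W i, maj5_m (fun i => s i a) = c + t x a := by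
      intro a ha
      rw [mem_iInter] at ha
      apply maj5_const _ _ k j
      intro i hi hij
      have h1 := hW2 i hi x (hxW i) a (ha i)
      have h2 := maj5_z1 _ _ _ h1
      rw [h2, hc' i hi hij]
    obtain ⟨i0, hi0, hi0'⟩ := maj5_ex k j
    have hms : ∀ a ∈ ⋂ i, W i, maj5_m (fun i => s i a) = s i0 a := by
      intro a ha
      rw [hm a ha]
      rw [mem_iInter] at ha
      have h1 := hW2 i0 hi0 x (hxW i0) a (ha i0)
      have h2 := maj5_z1 _ _ _ h1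
      rw [h2, hc' i0 hi0 hi0']
    intro a ha b hb
    show t a b = maj5_m (fun i => s i a) + maj5_m (fun i => s i b)
    rw [hms a ha, hms b hb]
    rw [mem_iInter] at ha hb
    exact hW2 i0 hi0 a (ha i0) b (hb i0)
  · have hno : ∀ i, x ∉ G i := fun i hi => hk ⟨i, hi⟩
    have hW : ∀ i, ∃ W ∈ 𝓝 x, ∀ a ∈ W, ∀ b ∈ W, t a b = s i a + s i b := fun i => hs i x (hno i)
    choose W hW1 hW2 using hW
    refine ⟨⋂ i, W i, Filter.iInter_mem.2 hW1, ?_⟩
    intro a ha b hb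
    rw [mem_iInter] at ha hb
    show t a b = maj5_m (fun i => s i a) + maj5_m (fun i => s i b)
    have h1 : (fun i => s i b) = fun i => s i a + t a b := by
      funext i
      exact maj5_z1 _ _ _ (hW2 i a (ha i) b (hb i))
    rw [h1, maj5_add]
    generalize maj5_m (fun i => s i a) = u
    generalize t a b = v
    revert u v
    decide

theorem maj3_loc {M : Type*} [TopologicalSpace M] {t : M → M → ZMod 2} {x : M}
    {u v w : M → ZMod 2} (hu : Triv {x} t u)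
    (hv : Triv {x} t v) (huv : u x = v x) : ∃ W ∈ 𝓝 x, ∀ a ∈ W, ∀ b ∈ W,
      t a b = (u a * v a + v a * w a + w a * u a) + (u b * v b + v b * w b + w b * u b) := by
  obtain ⟨W1, hW1, h1⟩ := hu x rfl
  obtain ⟨W2, hW2, h2⟩ := hv x rfl
  have hx1 : x ∈ W1 := mem_of_mem_nhds hW1
  have hx2 : x ∈ W2 := mem_of_mem_nhds hW2
  have key : ∀ a ∈ W1 ∩ W2, u a = v a := by
    intro a ha
    have e1 := h1 a ha.1 x hx1
    have e2 := h2 a ha.2 x hx2
    rw [e1, huv] at e2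
    exact add_right_cancel e2
  have alg : ∀ p q : ZMod 2, p * p + p * q + q * p = p := by decide
  refine ⟨W1 ∩ W2, Filter.inter_mem hW1 hW2, ?_⟩
  intro a ha b hb
  rw [← key a ha, ← key b hb, alg, alg]
  exact h1 a ha.1 b hb.1

/-- the majority of three trivializations -/
theorem maj3 {t : M → M → ZMod 2} (hn : ¬ Null univ t) {G : Fin 3 → Set M}
    (hc : ∀ i, IsClosed (G i)) (hp : ∀ i, IsPreconnected (G i))
    (hd : ∀ i j, i ≠ j → Disjoint (G i) (G j)) {s : Fin 3 → M → ZMod 2}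
    (hs : ∀ i, Triv (G i)ᶜ t (s i)) {y : Fin 3 → M} (hy : ∀ i, y i ∈ G i) :
    (s 1 (y 0) + s 2 (y 0)) + (s 0 (y 1) + s 2 (y 1)) + (s 0 (y 2) + s 1 (y 2)) = 1 := by
  have d : ∀ i j, i ≠ j → G i ⊆ (G j)ᶜ := fun i j hij x hx hx' =>
    Set.disjoint_left.mp (hd i j hij) hx hx'
  obtain ⟨a0, ha0⟩ := triv_uniq (hp 0) ((hs 1).mono (d 0 1 (by decide)))
    ((hs 2).mono (d 0 2 (by decide)))
  obtain ⟨a1, ha1⟩ := triv_uniq (hp 1) ((hs 0).mono (d 1 0 (by decide)))
    ((hs 2).mono (d 1 2 (by decide)))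
  obtain ⟨a2, ha2⟩ := triv_uniq (hp 2) ((hs 0).mono (d 2 0 (by decide)))
    ((hs 1).mono (d 2 1 (by decide)))
  rw [ha0 _ (hy 0), ha1 _ (hy 1), ha2 _ (hy 2)]
  by_contra hne
  have h0 : a0 + a1 + a2 = 0 := by
    revert hne
    generalize a0 + a1 + a2 = z
    revert z
    decide
  apply hn
  refine ⟨fun x => (s 0 x * (s 1 x + a2) + (s 1 x + a2) * (s 2 x + a1) + (s 2 x + a1) * s 0 x), ?_⟩
  intro x _
  have t0 : x ∉ G 0 → Triv {x} t (s 0) := fun hx => (hs 0).mono (by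
    rintro _ rfl
    exact hx)
  have t1 : x ∉ G 1 → Triv {x} t (fun x => s 1 x + a2) := fun hx => ((hs 1).mono (by
    rintro _ rfl
    exact hx)).add_const a2
  have t2 : x ∉ G 2 → Triv {x} t (fun x => s 2 x + a1) := fun hx => ((hs 2).mono (by
    rintro _ rfl
    exact hx)).add_const a1
  have c01 : x ∉ G 0 → x ∉ G 1 → s 0 x = s 1 x + a2 → ∃ W ∈ 𝓝 x, ∀ a ∈ W, ∀ b ∈ W,
      t a b = (s 0 a * (s 1 a + a2) + (s 1 a + a2) * (s 2 a + a1) + (s 2 a + a1) * s 0 a) +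
        (s 0 b * (s 1 b + a2) + (s 1 b + a2) * (s 2 b + a1) + (s 2 b + a1) * s 0 b) := by
    intro h1 h2 heq
    obtain ⟨W, hW, h⟩ := maj3_loc (w := fun x => s 2 x + a1) (t0 h1) (t1 h2) heq
    refine ⟨W, hW, fun a ha b hb => ?_⟩
    refine (h a ha b hb).trans ?_
    ring
  have c02 : x ∉ G 0 → x ∉ G 2 → s 0 x = s 2 x + a1 → ∃ W ∈ 𝓝 x, ∀ a ∈ W, ∀ b ∈ W,
      t a b = (s 0 a * (s 1 a + a2) + (s 1 a + a2) * (s 2 a + a1) + (s 2 a + a1) * s 0 a) +
        (s 0 b * (s 1 b + a2) + (s 1 b + a2) * (s 2 b + a1) + (s 2 b + a1) * s 0 b) := by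
    intro h1 h2 heq
    obtain ⟨W, hW, h⟩ := maj3_loc (w := fun x => s 1 x + a2) (t0 h1) (t2 h2) heq
    refine ⟨W, hW, fun a ha b hb => ?_⟩
    refine (h a ha b hb).trans ?_
    ring
  have c12 : x ∉ G 1 → x ∉ G 2 → s 1 x + a2 = s 2 x + a1 → ∃ W ∈ 𝓝 x, ∀ a ∈ W, ∀ b ∈ W,
      t a b = (s 0 a * (s 1 a + a2) + (s 1 a + a2) * (s 2 a + a1) + (s 2 a + a1) * s 0 a) +
        (s 0 b * (s 1 b + a2) + (s 1 b + a2) * (s 2 b + a1) + (s 2 b + a1) * s 0 b) := by
    intro h1 h2 heq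
    obtain ⟨W, hW, h⟩ := maj3_loc (w := s 0) (t1 h1) (t2 h2) heq
    refine ⟨W, hW, fun a ha b hb => ?_⟩
    refine (h a ha b hb).trans ?_
    ring
  by_cases x0 : x ∈ G 0
  · refine c12 (d 0 1 (by decide) x0) (d 0 2 (by decide) x0) ?_
    have h3 := ha0 x x0
    have h4 : ∀ p q a0 a1 a2 : ZMod 2, p + q = a0 → a0 + a1 + a2 = 0 → p + a2 = q + a1 := by
      decide
    exact h4 _ _ _ _ _ h3 h0
  · by_cases x1 : x ∈ G 1
    · refine c02 x0 (d 1 2 (by decide) x1) ?_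
      have h3 := ha1 x x1
      have h4 : ∀ p q a1 : ZMod 2, p + q = a1 → p = q + a1 := by
        decide
      exact h4 _ _ _ h3
    · by_cases x2 : x ∈ G 2
      · refine c01 x0 x1 ?_
        have h3 := ha2 x x2
        have h4 : ∀ p q a1 : ZMod 2, p + q = a1 → p = q + a1 := by
          decide
        exact h4 _ _ _ h3
      · have h4 : ∀ p q r : ZMod 2, p = q ∨ p = r ∨ q = r := by
          decide
        rcases h4 (s 0 x) (s 1 x + a2) (s 2 x + a1) with h | h | h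
        · exact c01 x0 x1 h
        · exact c02 x0 x2 h
        · exact c12 x1 x2 h

/-- among four disjoint sets some pairs interlace -/
theorem interlace {t : M → M → ZMod 2} (hn : ¬ Null univ t) {G : Fin 4 → Set M}
    (hc : ∀ i, IsClosed (G i)) (hp : ∀ i, IsPreconnected (G i))
    (hd : ∀ i j, i ≠ j → Disjoint (G i) (G j)) {s : Fin 4 → M → ZMod 2}
    (hs : ∀ i, Triv (G i)ᶜ t (s i)) {y : Fin 4 → M} (hy : ∀ i, y i ∈ G i) :
    ∃ a b c d : Fin 4, a ≠ b ∧ a ≠ c ∧ a ≠ d ∧ b ≠ c ∧ b ≠ d ∧ c ≠ d ∧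
      s a (y c) + s b (y c) ≠ s a (y d) + s b (y d) ∧
      s c (y a) + s d (y a) ≠ s c (y b) + s d (y b) := by
  have key : ∀ g : Fin 3 → Fin 4, Function.Injective g →
      (s (g 1) (y (g 0)) + s (g 2) (y (g 0))) + (s (g 0) (y (g 1)) + s (g 2) (y (g 1))) +
        (s (g 0) (y (g 2)) + s (g 1) (y (g 2))) = 1 := by
    intro g hg
    exact maj3 hn (G := fun i => G (g i)) (fun i => hc (g i)) (fun i => hp (g i))
      (fun i j hij => hd (g i) (g j) (fun h => hij (hg h))) (s := fun i => s (g i))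
      (fun i => hs (g i)) (y := fun i => y (g i)) (fun i => hy (g i))
  have H012 : (s 1 (y 0) + s 2 (y 0)) + (s 0 (y 1) + s 2 (y 1)) + (s 0 (y 2) + s 1 (y 2)) = 1 :=
    key ![0, 1, 2] (by decide)
  have H013 : (s 1 (y 0) + s 3 (y 0)) + (s 0 (y 1) + s 3 (y 1)) + (s 0 (y 3) + s 1 (y 3)) = 1 :=
    key ![0, 1, 3] (by decide)
  have H023 : (s 2 (y 0) + s 3 (y 0)) + (s 0 (y 2) + s 3 (y 2)) + (s 0 (y 3) + s 2 (y 3)) = 1 :=
    key ![0, 2, 3] (by decide)
  have H123 : (s 2 (y 1) + s 3 (y 1)) + (s 1 (y 2) + s 3 (y 2)) + (s 1 (y 3) + s 2 (y 3)) = 1 :=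
    key ![1, 2, 3] (by decide)
  have h2 : (2 : ZMod 2) = 0 := by decide
  by_contra hcon
  have P1 : s 0 (y 2) + s 1 (y 2) = s 0 (y 3) + s 1 (y 3) := by
    by_cases hP : s 0 (y 2) + s 1 (y 2) = s 0 (y 3) + s 1 (y 3)
    · exact hP
    · by_cases hQ : s 2 (y 0) + s 3 (y 0) = s 2 (y 1) + s 3 (y 1)
      · linear_combination H012 - H013 + hQ + (s 3 (y 1) - s 2 (y 0)) * h2
      · exact absurd ⟨0, 1, 2, 3, by decide, by decide, by decide, by decide, by decide,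
          by decide, hP, hQ⟩ hcon
  have P2 : s 0 (y 1) + s 2 (y 1) = s 0 (y 3) + s 2 (y 3) := by
    by_cases hP : s 0 (y 1) + s 2 (y 1) = s 0 (y 3) + s 2 (y 3)
    · exact hP
    · by_cases hQ : s 1 (y 0) + s 3 (y 0) = s 1 (y 2) + s 3 (y 2)
      · linear_combination H012 - H023 + hQ + (s 3 (y 2) - s 1 (y 0)) * h2
      · exact absurd ⟨0, 2, 1, 3, by decide, by decide, by decide, by decide, by decide,
          by decide, hP, hQ⟩ hcon
  have P3 : s 0 (y 1) + s 3 (y 1) = s 0 (y 2) + s 3 (y 2) := by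
    by_cases hP : s 0 (y 1) + s 3 (y 1) = s 0 (y 2) + s 3 (y 2)
    · exact hP
    · by_cases hQ : s 1 (y 0) + s 2 (y 0) = s 1 (y 3) + s 2 (y 3)
      · linear_combination H013 - H023 + hQ + (s 2 (y 3) - s 1 (y 0)) * h2
      · exact absurd ⟨0, 3, 1, 2, by decide, by decide, by decide, by decide, by decide,
          by decide, hP, hQ⟩ hcon
  have h10 : (1 : ZMod 2) = 0 := by
    linear_combination P1 + P2 + P3 - H123 + (s 1 (y 3) + s 2 (y 3) + s 3 (y 2) + s 0 (y 3)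
      - s 0 (y 1)) * h2
  exact absurd h10 (by decide)

/-- cones of directions -/
def pl4D {E : Type*} [NormedAddCommGroup E] [InnerProductSpace ℝ E] (r : E) (V : Set E) : Set E :=
  {v | ∃ l : ℝ, 0 < l ∧ r + l • v ∈ V}

theorem pl4_cone {E : Type*} [NormedAddCommGroup E] [InnerProductSpace ℝ E] {r : E} {V : Set E}
    (hc : Convex ℝ V) {x y : E} (hx : x ∈ pl4D r V) (hy : y ∈ pl4D r V) {a b : ℝ} (ha : 0 ≤ a)
    (hb : 0 ≤ b) (hab : 0 < a + b) : a • x + b • y ∈ pl4D r V := by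
  obtain ⟨l, hl, h1⟩ := hx
  obtain ⟨m, hm, h2⟩ := hy
  have hs : 0 < a / l + b / m := by
    rcases ha.lt_or_eq with h | h
    · exact add_pos_of_pos_of_nonneg (div_pos h hl) (div_nonneg hb hm.le)
    · rw [← h, zero_add] at hab
      exact add_pos_of_nonneg_of_pos (div_nonneg ha hl.le) (div_pos hab hm)
  refine ⟨(a / l + b / m)⁻¹, inv_pos.2 hs, ?_⟩
  have h3 := hc h1 h2 (a := (a / l) / (a / l + b / m)) (b := (b / m) / (a / l + b / m))
    (div_nonneg (div_nonneg ha hl.le) hs.le) (div_nonneg (div_nonneg hb hm.le) hs.le)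
    (by rw [← add_div, div_self hs.ne'])
  convert h3 using 1
  have e1 : (a / l) / (a / l + b / m) * l = (a / l + b / m)⁻¹ * a := by
    field_simp
  have e2 : (b / m) / (a / l + b / m) * m = (a / l + b / m)⁻¹ * b := by
    field_simp
  have e3 : (a / l) / (a / l + b / m) + (b / m) / (a / l + b / m) = 1 := by
    rw [← add_div, div_self hs.ne']
  simp only [smul_add, smul_smul, e1, e2]
  have e4 : r = ((a / l) / (a / l + b / m)) • r + ((b / m) / (a / l + b / m)) • r := by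
    rw [← add_smul, e3, one_smul]
  conv_lhs => rw [e4]
  abel

theorem pl4_zero {E : Type*} [NormedAddCommGroup E] [InnerProductSpace ℝ E] {r : E} {V : Set E}
    (hr : r ∉ V) : (0 : E) ∉ pl4D r V := by
  rintro ⟨l, _, h⟩
  rw [smul_zero, add_zero] at h
  exact hr h

theorem pl4_smul {E : Type*} [NormedAddCommGroup E] [InnerProductSpace ℝ E] {r : E} {V : Set E}
    {x : E} (hx : x ∈ pl4D r V) {a : ℝ} (ha : 0 < a) : a • x ∈ pl4D r V := by
  obtain ⟨l, hl, h1⟩ := hx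
  refine ⟨l / a, div_pos hl ha, ?_⟩
  rw [smul_smul, div_mul_cancel₀ _ ha.ne']
  exact h1

theorem pl4_lt {E : Type*} [NormedAddCommGroup E] [InnerProductSpace ℝ E] {F : Set E} {r : E}
    (hr : r ∈ F) {V : Set E} (hV : IsExtreme ℝ F V) (rV : r ∉ V) {v : E} {l m : ℝ} (hl : 0 < l)
    (hlm : l < m) (h1 : r + l • v ∈ V) (h2 : r + m • v ∈ F) : False := by
  have hm : 0 < m := hl.trans hlm
  refine rV (hV.2 hr h2 h1 ⟨1 - l / m, l / m, ?_, div_pos hl hm, by ring, ?_⟩)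
  · rw [sub_pos, div_lt_one hm]
    exact hlm
  · rw [smul_add, smul_smul, div_mul_cancel₀ _ hm.ne', sub_smul, one_smul]
    abel

theorem pl4_disj {E : Type*} [NormedAddCommGroup E] [InnerProductSpace ℝ E] {F : Set E} {r : E}
    (hr : r ∈ F) {V W : Set E} (hV : IsExtreme ℝ F V) (hW : IsExtreme ℝ F W) (rV : r ∉ V)
    (rW : r ∉ W) (hd : Disjoint V W) {v : E} (h1 : v ∈ pl4D r V) (h2 : v ∈ pl4D r W) : False := by
  obtain ⟨l, hl, h1⟩ := h1
  obtain ⟨m, hm, h2⟩ := h2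
  rcases lt_trichotomy l m with h | h | h
  · exact pl4_lt hr hV rV hl h h1 (hW.1 h2)
  · subst h
    exact Set.disjoint_left.1 hd h1 h2
  · exact pl4_lt hr hW rW hm h h2 (hV.1 h1)

theorem pl4_get {E : Type*} [NormedAddCommGroup E] [InnerProductSpace ℝ E] {F : Set E} {r : E}
    (hr : r ∈ F) {V W : Set E} (hV : V ⊆ F) (cV : Convex ℝ V) (cW : Convex ℝ W) (rV : r ∉ V)
    (rW : r ∉ W) (hk : r ∈ convexHull ℝ (V ∪ W)) :
    ∃ u : E, u ∈ vectorSpan ℝ F ∧ u ∈ pl4D r V ∧ -u ∈ pl4D r W := by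
  rcases V.eq_empty_or_nonempty with rfl | hVn
  · rw [Set.empty_union, cW.convexHull_eq] at hk
    exact absurd hk rW
  rcases W.eq_empty_or_nonempty with rfl | hWn
  · rw [Set.union_empty, cV.convexHull_eq] at hk
    exact absurd hk rV
  rw [convexHull_union hVn hWn, cV.convexHull_eq, cW.convexHull_eq, mem_convexJoin] at hk
  obtain ⟨p, hp, q, hq, a, b, ha, hb, hab, hrr⟩ := hk
  have ha' : 0 < a := by
    rcases ha.lt_or_eq with h | h
    · exact h
    · rw [← h, zero_add] at hab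
      rw [← h, hab, zero_smul, one_smul, zero_add] at hrr
      exact absurd (hrr ▸ hq) rW
  have hb' : 0 < b := by
    rcases hb.lt_or_eq with h | h
    · exact h
    · rw [← h, add_zero] at hab
      rw [← h, hab, zero_smul, one_smul, add_zero] at hrr
      exact absurd (hrr ▸ hp) rV
  refine ⟨p - r, ?_, ⟨1, one_pos, by simpa using hp⟩, ⟨a / b, div_pos ha' hb', ?_⟩⟩
  · have := vsub_mem_vectorSpan ℝ (hV hp) hr
    simpa using this
  · convert hq using 1
    have h1 : b • (r + (a / b) • -(p - r)) = b • q := by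
      have e : b * (a / b) = a := by field_simp
      rw [smul_add, smul_smul, e]
      have h2 : a • r + b • r = r := by rw [← add_smul, hab, one_smul]
      have h3 : b • q = r - a • p := by rw [← hrr]; abel
      rw [h3]
      have h4 : b • r = r - a • r := by
        rw [eq_sub_iff_add_eq, add_comm]
        exact h2
      rw [h4, neg_sub, smul_sub]
      abel
    exact smul_right_injective E hb'.ne' h1

theorem pl4_tri {E : Type*} [NormedAddCommGroup E] [InnerProductSpace ℝ E]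
    [FiniteDimensional ℝ E] {F : Set E} {r : E} (hr : r ∈ F)
    (hd : Module.finrank ℝ (vectorSpan ℝ F) = 2) {V₀ V₁ V₂ V₃ : Set E}
    (h0 : IsExtreme ℝ F V₀) (h1 : IsExtreme ℝ F V₁) (h2 : IsExtreme ℝ F V₂)
    (h3 : IsExtreme ℝ F V₃) (c0 : Convex ℝ V₀) (c2 : Convex ℝ V₂)
    (d01 : Disjoint V₀ V₁) (d02 : Disjoint V₀ V₂) (d23 : Disjoint V₂ V₃)
    (r0 : r ∉ V₀) (r1 : r ∉ V₁) (r2 : r ∉ V₂) (r3 : r ∉ V₃)
    {x y z : E} (sx : x ∈ vectorSpan ℝ F) (sy : y ∈ vectorSpan ℝ F) (sz : z ∈ vectorSpan ℝ F)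
    (x0 : x ∈ pl4D r V₀) (y0 : y ∈ pl4D r V₀) (z1 : z ∈ pl4D r V₁) (x2 : -x ∈ pl4D r V₂)
    (z2 : -z ∈ pl4D r V₂) (y3 : -y ∈ pl4D r V₃) :
    ∃ b c : ℝ, 0 < b ∧ 0 < c ∧ x = b • y + c • z := by
  have hrel : ∃ α β γ : ℝ, α • x + β • y + γ • z = 0 ∧ ¬ (α = 0 ∧ β = 0 ∧ γ = 0) := by
    have hli : ¬ LinearIndependent ℝ (![⟨x, sx⟩, ⟨y, sy⟩, ⟨z, sz⟩] : Fin 3 → vectorSpan ℝ F) := by
      intro hli
      have := hli.fintype_card_le_finrank
      rw [hd] at this
      simp at this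
    rw [Fintype.not_linearIndependent_iff] at hli
    obtain ⟨g, hg, i, hi⟩ := hli
    refine ⟨g 0, g 1, g 2, ?_, ?_⟩
    · have := congrArg Subtype.val hg
      simpa [Fin.sum_univ_three] using this
    · rintro ⟨e0, e1, e2⟩
      fin_cases i
      · exact hi e0
      · exact hi e1
      · exact hi e2
  obtain ⟨α, β, γ, hrel, hne⟩ := hrel
  have k01 : ∀ v, v ∈ pl4D r V₀ → v ∈ pl4D r V₁ → False := fun v a b =>
    pl4_disj hr h0 h1 r0 r1 d01 a b
  have k02 : ∀ v, v ∈ pl4D r V₀ → v ∈ pl4D r V₂ → False := fun v a b =>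
    pl4_disj hr h0 h2 r0 r2 d02 a b
  have k23 : ∀ v, v ∈ pl4D r V₂ → v ∈ pl4D r V₃ → False := fun v a b =>
    pl4_disj hr h2 h3 r2 r3 d23 a b
  by_cases hα : α = 0
  · exfalso
    rw [hα, zero_smul, zero_add] at hrel
    by_cases hγ : γ = 0
    · rw [hγ, zero_smul, add_zero] at hrel
      have hβ : β ≠ 0 := fun h => hne ⟨hα, h, hγ⟩
      have : y = 0 := (smul_eq_zero.1 hrel).resolve_left hβ
      rw [this] at y0
      exact pl4_zero r0 y0
    · have hz : z = (-(β / γ)) • y := by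
        have h4 : γ • z = -(β • y) := by
          rw [eq_neg_iff_add_eq_zero, add_comm]; exact hrel
        have h5 : z = γ⁻¹ • (γ • z) := by rw [smul_smul, inv_mul_cancel₀ hγ, one_smul]
        rw [h5, h4, smul_neg, smul_smul, neg_smul]
        congr 2
        field_simp
      rcases lt_trichotomy (-(β / γ)) 0 with h | h | h
      · refine k02 (-z) ?_ z2
        rw [hz, ← neg_smul]
        exact pl4_smul y0 (by linarith)
      · rw [h, zero_smul] at hz
        rw [hz] at z1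
        exact pl4_zero r1 z1
      · refine k01 z ?_ z1
        rw [hz]
        exact pl4_smul y0 h
  · obtain ⟨b, hb⟩ : ∃ b, b = -(β / α) := ⟨_, rfl⟩
    obtain ⟨c, hc⟩ : ∃ c, c = -(γ / α) := ⟨_, rfl⟩
    have hx : x = b • y + c • z := by
      have h4 : α • x = -(β • y) - γ • z := by
        rw [eq_sub_iff_add_eq, eq_neg_iff_add_eq_zero]
        rw [← hrel]; abel
      have h5 : x = α⁻¹ • (α • x) := by rw [smul_smul, inv_mul_cancel₀ hα, one_smul]
      rw [h5, h4, smul_sub, smul_neg, smul_smul, smul_smul, hb, hc, neg_smul, neg_smul]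
      rw [div_eq_inv_mul, div_eq_inv_mul]
      abel
    by_cases hb0 : 0 < b
    · by_cases hc0 : 0 < c
      · exact ⟨b, c, hb0, hc0, hx⟩
      · exfalso
        refine k23 (b • (-y)) ?_ (pl4_smul y3 hb0)
        have h5 : b • (-y) = (1 : ℝ) • (-x) + (-c) • (-z) := by
          rw [hx, one_smul, smul_neg, neg_add, neg_smul, smul_neg]
          abel
        rw [h5]
        exact pl4_cone c2 x2 z2 zero_le_one (by linarith) (by linarith)
    · exfalso
      have h6 : (1 : ℝ) • x + (-b) • y ∈ pl4D r V₀ :=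
        pl4_cone c0 x0 y0 zero_le_one (by linarith) (by linarith)
      have h7 : (1 : ℝ) • x + (-b) • y = c • z := by
        rw [one_smul, neg_smul]
        nth_rewrite 1 [hx]
        abel
      rw [h7] at h6
      rcases lt_trichotomy c 0 with h | h | h
      · refine k02 _ h6 ?_
        have h8 : c • z = (-c) • (-z) := by rw [neg_smul, smul_neg, neg_neg]
        rw [h8]
        exact pl4_smul z2 (by linarith)
      · rw [h, zero_smul] at h6
        exact pl4_zero r0 h6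
      · exact k01 _ h6 (pl4_smul z1 h)

/-- four disjoint faces of a planar convex set have only one crossing pairing -/
theorem planar4 {E : Type*} [NormedAddCommGroup E] [InnerProductSpace ℝ E]
    [FiniteDimensional ℝ E] {F : Set E} (hC : Convex ℝ F)
    (hd : Module.finrank ℝ (vectorSpan ℝ F) = 2) {V₀ V₁ V₂ V₃ : Set E}
    (h0 : IsExtreme ℝ F V₀) (h1 : IsExtreme ℝ F V₁) (h2 : IsExtreme ℝ F V₂)
    (h3 : IsExtreme ℝ F V₃) (c0 : Convex ℝ V₀) (c1 : Convex ℝ V₁) (c2 : Convex ℝ V₂)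
    (c3 : Convex ℝ V₃) (d01 : Disjoint V₀ V₁) (d02 : Disjoint V₀ V₂) (d03 : Disjoint V₀ V₃)
    (d12 : Disjoint V₁ V₂) (d13 : Disjoint V₁ V₃) (d23 : Disjoint V₂ V₃) {r : E} (hr : r ∈ F)
    (r0 : r ∉ V₀) (r1 : r ∉ V₁) (r2 : r ∉ V₂) (r3 : r ∉ V₃)
    (k02 : r ∈ convexHull ℝ (V₀ ∪ V₂)) (k03 : r ∈ convexHull ℝ (V₀ ∪ V₃))
    (k12 : r ∈ convexHull ℝ (V₁ ∪ V₂)) (k13 : r ∈ convexHull ℝ (V₁ ∪ V₃)) : False := by
  obtain ⟨u, su, u0, u2⟩ := pl4_get hr h0.1 c0 c2 r0 r2 k02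
  obtain ⟨u', su', u0', u3'⟩ := pl4_get hr h0.1 c0 c3 r0 r3 k03
  obtain ⟨w, sw, w1, w2⟩ := pl4_get hr h1.1 c1 c2 r1 r2 k12
  obtain ⟨w', sw', w1', w3'⟩ := pl4_get hr h1.1 c1 c3 r1 r3 k13
  obtain ⟨b, c, hb, hc, e1⟩ := pl4_tri hr hd h0 h1 h2 h3 c0 c2 d01 d02 d23 r0 r1 r2 r3
    su su' sw u0 u0' w1 u2 w2 u3'
  obtain ⟨ε, ζ, hε, hζ, e2⟩ := pl4_tri hr hd h0 h1 h3 h2 c0 c3 d01 d03 d23.symm r0 r1 r3 r2
    su' su sw' u0' u0 w1' u3' w3' u2
  obtain ⟨b', c', hb', hc', e3⟩ := pl4_tri hr hd h1 h0 h2 h3 c1 c2 d01.symm d12 d23 r1 r0 r2 r3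
    sw sw' su w1 w1' u0 w2 u2 w3'
  have hτ : 0 < b * ζ + c * b' := by positivity
  have e4 : (1 - b * ε - c * c') • u = (b * ζ + c * b') • w' := by
    have h5 : u = (b * ε + c * c') • u + (b * ζ + c * b') • w' := by
      nth_rewrite 1 [e1]
      rw [e2, e3]
      simp only [smul_add, smul_smul, add_smul]
      abel
    have h6 : (1 - b * ε - c * c') • u = u - (b * ε + c * c') • u := by
      rw [sub_smul, sub_smul, one_smul, add_smul]
      abel
    rw [h6]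
    nth_rewrite 1 [h5]
    abel
  rcases lt_trichotomy (1 - b * ε - c * c') 0 with h | h | h
  · refine pl4_disj hr h1 h2 r1 r2 d12 (pl4_smul w1' hτ) ?_
    rw [← e4]
    have h8 : (1 - b * ε - c * c') • u = (-(1 - b * ε - c * c')) • (-u) := by
      rw [neg_smul, smul_neg, neg_neg]
    rw [h8]
    exact pl4_smul u2 (by linarith)
  · rw [h, zero_smul] at e4
    have h7 := pl4_smul w1' hτ
    rw [← e4] at h7
    exact pl4_zero r1 h7
  · refine pl4_disj hr h0 h1 r0 r1 d01 (pl4_smul u0 h) ?_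
    rw [e4]
    exact pl4_smul w1' hτ

/-- the hull of two subsets meets a face in the hull of their traces -/
theorem hull_face {E : Type*} [NormedAddCommGroup E] [InnerProductSpace ℝ E]
    {K F G H : Set E} (hK : Convex ℝ K) (hF : F ⊆ K) (hG : G ⊆ K) (hFc : Convex ℝ F)
    (hGc : Convex ℝ G) (hH : IsExtreme ℝ K H) {r : E} (hr : r ∈ convexHull ℝ (F ∪ G))
    (hrH : r ∈ H) : r ∈ convexHull ℝ ((F ∩ H) ∪ (G ∩ H)) := by
  rcases F.eq_empty_or_nonempty with rfl | hFn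
  · rw [Set.empty_union, hGc.convexHull_eq] at hr
    exact subset_convexHull ℝ _ (Or.inr ⟨hr, hrH⟩)
  rcases G.eq_empty_or_nonempty with rfl | hGn
  · rw [Set.union_empty, hFc.convexHull_eq] at hr
    exact subset_convexHull ℝ _ (Or.inl ⟨hr, hrH⟩)
  rw [hFc.convexHull_union hGc hFn hGn, mem_convexJoin] at hr
  obtain ⟨p, hp, q, hq, hr⟩ := hr
  rw [← insert_endpoints_openSegment] at hr
  rcases hr with rfl | rfl | hr
  · exact subset_convexHull ℝ _ (Or.inl ⟨hp, hrH⟩)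
  · exact subset_convexHull ℝ _ (Or.inr ⟨hq, hrH⟩)
  · have hpH : p ∈ H := hH.left_mem_of_mem_openSegment (hF hp) (hG hq) hrH hr
    have hqH : q ∈ H := hH.right_mem_of_mem_openSegment (hF hp) (hG hq) hrH hr
    exact segment_subset_convexHull (s := (F ∩ H) ∪ (G ∩ H)) (Or.inl ⟨hp, hpH⟩)
      (Or.inr ⟨hq, hqH⟩) (openSegment_subset_segment ℝ p q hr)

theorem three_edges_seg {E : Type*} [NormedAddCommGroup E] [InnerProductSpace ℝ E] {p a q : E}
    (h : q ∈ segment ℝ p a) : ∃ s : ℝ, 0 ≤ s ∧ s ≤ 1 ∧ q - p = s • (a - p) := by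
  rw [segment_eq_image'] at h
  obtain ⟨s, ⟨h0, h1⟩, rfl⟩ := h
  refine ⟨s, h0, h1, ?_⟩
  simp only [add_sub_cancel_left]

theorem three_edges_par {E : Type*} [NormedAddCommGroup E] [InnerProductSpace ℝ E] {F : Set E}
    {p a b : E} (ha : IsExtreme ℝ F (segment ℝ p a)) (hb : IsExtreme ℝ F (segment ℝ p b))
    (hpa : p ≠ a) (hpb : p ≠ b) (hab : a ≠ b) (t : ℝ) : b - p ≠ t • (a - p) := by
  intro h
  have hu : a - p ≠ 0 := sub_ne_zero.mpr (Ne.symm hpa)
  have hpF : p ∈ F := ha.subset (left_mem_segment ℝ p a)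
  have haF : a ∈ F := ha.subset (right_mem_segment ℝ p a)
  have hbF : b ∈ F := hb.subset (right_mem_segment ℝ p b)
  have hinj : ∀ s r : ℝ, s • (a - p) = r • (a - p) → s = r :=
    fun s r e => smul_left_injective ℝ hu e
  have hb' : b = p + t • (a - p) := by
    rw [← h]
    abel
  rcases lt_trichotomy t 0 with ht | ht | ht
  · have h1 : 0 < 1 - t := by linarith
    have h1' : 1 - t ≠ 0 := h1.ne'
    have hp : p ∈ openSegment ℝ b a := by
      refine ⟨1 / (1 - t), -t / (1 - t), by positivity, div_pos (by linarith) h1, ?_, ?_⟩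
      · field_simp
        ring
      · rw [hb']
        match_scalars <;> field_simp <;> ring
    have hb1 : b ∈ segment ℝ p a :=
      ha.left_mem_of_mem_openSegment hbF haF (left_mem_segment ℝ p a) hp
    obtain ⟨s, hs0, hs1, e⟩ := three_edges_seg hb1
    have := hinj s t (by rw [← e, h])
    linarith
  · rw [ht, zero_smul] at h
    exact hpb (sub_eq_zero.mp h).symm
  · rcases lt_trichotomy t 1 with ht1 | ht1 | ht1
    · have hmem : b ∈ openSegment ℝ p a := by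
        refine ⟨1 - t, t, by linarith, ht, by ring, ?_⟩
        rw [hb']
        module
      have ha1 : a ∈ segment ℝ p b :=
        hb.right_mem_of_mem_openSegment hpF haF (right_mem_segment ℝ p b) hmem
      obtain ⟨s, hs0, hs1, e⟩ := three_edges_seg ha1
      have e2 : (1 : ℝ) = s * t := hinj 1 (s * t) (by rw [one_smul, mul_smul, ← h, ← e])
      nlinarith
    · rw [ht1, one_smul] at h
      exact hab (sub_left_injective h).symm
    · have ht' : t ≠ 0 := ht.ne'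
      have hmem : a ∈ openSegment ℝ p b := by
        refine ⟨1 - 1 / t, 1 / t, ?_, by positivity, by ring, ?_⟩
        · rw [sub_pos, div_lt_one ht]
          exact ht1
        · rw [hb']
          match_scalars <;> field_simp <;> ring
      have hb1 : b ∈ segment ℝ p a :=
        ha.right_mem_of_mem_openSegment hpF hbF (right_mem_segment ℝ p a) hmem
      obtain ⟨s, hs0, hs1, e⟩ := three_edges_seg hb1
      have := hinj s t (by rw [← e, h])
      linarith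

theorem three_edges_pos {E : Type*} [NormedAddCommGroup E] [InnerProductSpace ℝ E] {F : Set E}
    (hC : Convex ℝ F) {p a b c : E} (haF : a ∈ F) (hbF : b ∈ F)
    (hc : IsExtreme ℝ F (segment ℝ p c)) (hpc : p ≠ c) (hn : ∀ t : ℝ, a - p ≠ t • (c - p))
    {x y : ℝ} (hx : 0 < x) (hy : 0 < y) (h : c - p = x • (a - p) + y • (b - p)) : False := by
  have hw : c - p ≠ 0 := sub_ne_zero.mpr (Ne.symm hpc)
  have hpF : p ∈ F := hc.subset (left_mem_segment ℝ p c)
  have hs : 0 < x + y := add_pos hx hy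
  have hs' : x + y ≠ 0 := hs.ne'
  have hg : p + (1 / (x + y)) • (c - p) ∈ openSegment ℝ a b := by
    refine ⟨x / (x + y), y / (x + y), by positivity, by positivity, ?_, ?_⟩
    · rw [← add_div]
      exact div_self hs'
    · rw [h]
      match_scalars <;> field_simp <;> ring
  by_cases h1 : 1 ≤ x + y
  · have hgc : p + (1 / (x + y)) • (c - p) ∈ segment ℝ p c := by
      rw [segment_eq_image']
      exact ⟨1 / (x + y), ⟨by positivity, (div_le_one hs).mpr h1⟩, rfl⟩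
    have ha1 : a ∈ segment ℝ p c := hc.left_mem_of_mem_openSegment haF hbF hgc hg
    obtain ⟨t, -, -, e⟩ := three_edges_seg ha1
    exact hn t e
  · push Not at h1
    have hgF : p + (1 / (x + y)) • (c - p) ∈ F := hC.openSegment_subset haF hbF hg
    have hmem : c ∈ openSegment ℝ p (p + (1 / (x + y)) • (c - p)) := by
      refine ⟨1 - (x + y), x + y, by linarith, hs, by ring, ?_⟩
      match_scalars <;> field_simp <;> ring
    have hg1 : p + (1 / (x + y)) • (c - p) ∈ segment ℝ p c :=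
      hc.right_mem_of_mem_openSegment hpF hgF (right_mem_segment ℝ p c) hmem
    obtain ⟨t, ht0, ht1, e⟩ := three_edges_seg hg1
    rw [add_sub_cancel_left] at e
    have e2 : 1 / (x + y) = t := smul_left_injective ℝ hw e
    rw [← e2, div_le_one hs] at ht1
    linarith

theorem three_edges_neg {E : Type*} [NormedAddCommGroup E] [InnerProductSpace ℝ E] {F : Set E}
    (hC : Convex ℝ F) {p a b c : E} (hbF : b ∈ F) (hcF : c ∈ F)
    (ha : IsExtreme ℝ F (segment ℝ p a)) (hn : ∀ t : ℝ, c - p ≠ t • (a - p))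
    {x y : ℝ} (hx : x < 0) (hy : y < 0) (h : c - p = x • (a - p) + y • (b - p)) : False := by
  have haF : a ∈ F := ha.subset (right_mem_segment ℝ p a)
  obtain ⟨s, hs⟩ : ∃ s, s = -(x + y) := ⟨_, rfl⟩
  have hs0 : 0 < s := by linarith
  have hs0' : s ≠ 0 := hs0.ne'
  have hs1 : 0 < 1 + s := by linarith
  have hs1' : 1 + s ≠ 0 := hs1.ne'
  have hgF : p - (1 / s) • (c - p) ∈ F := by
    apply hC.openSegment_subset haF hbF
    refine ⟨-x / s, -y / s, div_pos (by linarith) hs0, div_pos (by linarith) hs0, ?_, ?_⟩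
    · rw [← add_div, show -x + -y = s by linarith]
      exact div_self hs0'
    · rw [h]
      have hy' : y = -s - x := by linarith
      rw [hy']
      match_scalars <;> field_simp <;> ring
  have hmem : p ∈ openSegment ℝ (p - (1 / s) • (c - p)) c := by
    refine ⟨s / (1 + s), 1 / (1 + s), by positivity, by positivity, ?_, ?_⟩
    · rw [← add_div, add_comm s 1]
      exact div_self hs1'
    · match_scalars <;> field_simp <;> ring
  have hc1 : c ∈ segment ℝ p a :=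
    ha.right_mem_of_mem_openSegment hgF hcF (left_mem_segment ℝ p a) hmem
  obtain ⟨t, -, -, e⟩ := three_edges_seg hc1
  exact hn t e

/-- at most two edges of a planar convex set leave from a point -/
theorem three_edges {E : Type*} [NormedAddCommGroup E] [InnerProductSpace ℝ E]
    [FiniteDimensional ℝ E] {F : Set E} (hC : Convex ℝ F)
    (hd : Module.finrank ℝ (vectorSpan ℝ F) = 2) {p a b c : E} (ha : IsExtreme ℝ F (segment ℝ p a))
    (hb : IsExtreme ℝ F (segment ℝ p b)) (hc : IsExtreme ℝ F (segment ℝ p c)) (hpa : p ≠ a)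
    (hpb : p ≠ b) (hpc : p ≠ c) (hab : a ≠ b) (hac : a ≠ c) (hbc : b ≠ c) : False := by
  have hpF : p ∈ F := ha.subset (left_mem_segment ℝ p a)
  have haF : a ∈ F := ha.subset (right_mem_segment ℝ p a)
  have hbF : b ∈ F := hb.subset (right_mem_segment ℝ p b)
  have hcF : c ∈ F := hc.subset (right_mem_segment ℝ p c)
  have hau : a - p ∈ vectorSpan ℝ F := vsub_mem_vectorSpan ℝ haF hpF
  have hbu : b - p ∈ vectorSpan ℝ F := vsub_mem_vectorSpan ℝ hbF hpF
  have hcu : c - p ∈ vectorSpan ℝ F := vsub_mem_vectorSpan ℝ hcF hpF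
  have hu : a - p ≠ 0 := sub_ne_zero.mpr (Ne.symm hpa)
  have nab := three_edges_par ha hb hpa hpb hab
  have nac := three_edges_par ha hc hpa hpc hac
  have nbc := three_edges_par hb hc hpb hpc hbc
  have nca := three_edges_par hc ha hpc hpa hac.symm
  have ncb := three_edges_par hc hb hpc hpb hbc.symm
  have nba := three_edges_par hb ha hpb hpa hab.symm
  have hdep : ¬ LinearIndependent ℝ (![⟨a - p, hau⟩, ⟨b - p, hbu⟩, ⟨c - p, hcu⟩] :
      Fin 3 → vectorSpan ℝ F) := by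
    intro hli
    have := hli.fintype_card_le_finrank
    rw [hd, Fintype.card_fin] at this
    omega
  rw [Fintype.not_linearIndependent_iff] at hdep
  obtain ⟨g, hg, i, hi⟩ := hdep
  have hg' : g 0 • (a - p) + g 1 • (b - p) + g 2 • (c - p) = 0 := by
    have h1 := congrArg (fun z : vectorSpan ℝ F => (z : E)) hg
    rw [Fin.sum_univ_three] at h1
    exact h1
  have hz : g 2 ≠ 0 := by
    intro hz
    rw [hz, zero_smul, add_zero] at hg'
    by_cases hy : g 1 = 0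
    · rw [hy, zero_smul, add_zero] at hg'
      have hx : g 0 = 0 := (smul_eq_zero.mp hg').resolve_right hu
      apply hi
      fin_cases i
      · exact hx
      · exact hy
      · exact hz
    · apply nab (-(g 0) / g 1)
      have h2 : g 1 • (b - p) = -(g 0 • (a - p)) := by
        rw [eq_neg_iff_add_eq_zero, add_comm]
        exact hg'
      have h3 : b - p = (g 1)⁻¹ • (g 1 • (b - p)) := by
        rw [smul_smul, inv_mul_cancel₀ hy, one_smul]
      rw [h3, h2]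
      match_scalars <;> field_simp
  obtain ⟨x, hx⟩ : ∃ x, x = -(g 0) / g 2 := ⟨_, rfl⟩
  obtain ⟨y, hy⟩ : ∃ y, y = -(g 1) / g 2 := ⟨_, rfl⟩
  have hw : c - p = x • (a - p) + y • (b - p) := by
    have h2 : g 2 • (c - p) = -(g 0 • (a - p) + g 1 • (b - p)) := by
      rw [eq_neg_iff_add_eq_zero, add_comm]
      exact hg'
    have h3 : c - p = (g 2)⁻¹ • (g 2 • (c - p)) := by
      rw [smul_smul, inv_mul_cancel₀ hz, one_smul]
    rw [h3, h2, hx, hy, smul_neg, smul_add, smul_smul, smul_smul, neg_add, ← neg_smul, ← neg_smul]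
    congr 2 <;> ring
  have hx0 : x ≠ 0 := by
    intro e
    rw [e, zero_smul, zero_add] at hw
    exact nbc y hw
  have hy0 : y ≠ 0 := by
    intro e
    rw [e, zero_smul, add_zero] at hw
    exact nac x hw
  rcases lt_or_gt_of_ne hx0 with hxn | hxp
  · rcases lt_or_gt_of_ne hy0 with hyn | hyp
    · exact three_edges_neg hC hbF hcF ha nac hxn hyn hw
    · refine three_edges_pos hC (a := c) (b := a) (c := b) hcF haF hb hpb nbc
        (x := 1 / y) (y := -x / y) (by positivity) (div_pos (by linarith) hyp) ?_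
      rw [hw]
      match_scalars <;> field_simp <;> ring
  · rcases lt_or_gt_of_ne hy0 with hyn | hyp
    · refine three_edges_pos hC (a := c) (b := b) (c := a) hcF hbF ha hpa nac
        (x := 1 / x) (y := -y / x) (by positivity) (div_pos (by linarith) hxp) ?_
      rw [hw]
      match_scalars <;> field_simp <;> ring
    · exact three_edges_pos hC haF hbF hc hpc nca hxp hyp hw

theorem arm_step [CompactSpace M] [T2Space M] [ConnectedSpace M]
    (S : CSetup f) {V : Set (EuclideanSpace ℝ (Fin N))} (hV : Fc (Hul f) V)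
    {w : EuclideanSpace ℝ (Fin N)}
    (hw : ∀ r ∈ V, ∀ r' ∈ V, ⟪w, r⟫_ℝ = ⟪w, r'⟫_ℝ → r = r')
    {t : M → M → ZMod 2} (ht : Coc univ t) {c0 c' : ℝ} (hcc : c0 < c') {y' : M} (hy' : f y' ∈ V)
    (hgy : ⟪w, f y'⟫_ℝ = c')
    (h : Null {x | ¬ (f x ∈ V ∧ c0 ≤ ⟪w, f x⟫_ℝ)} t) :
    ∃ τ : M → M → ZMod 2, Coc univ τ ∧
      Null {x | ¬ (f x ∈ V ∧ c0 ≤ ⟪w, f x⟫_ℝ ∧ ⟪w, f x⟫_ℝ ≤ c')} τ ∧
      Null {x | ¬ (f x ∈ V ∧ c' ≤ ⟪w, f x⟫_ℝ)} (t + τ) := by
  classical
  obtain ⟨s, hs⟩ := h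
  have hVc : IsCompact V := fc_compact (hul_compact S.cont) hV
  have hwc : Continuous fun r : EuclideanSpace ℝ (Fin N) => ⟪w, r⟫_ℝ :=
    continuous_const.inner continuous_id
  have hinj := fc_inj S hV hw
  obtain ⟨P, hP⟩ : ∃ P : Set (EuclideanSpace ℝ (Fin N)), P = V ∩ {r | ⟪w, r⟫_ℝ ≤ c'} := ⟨_, rfl⟩
  obtain ⟨Q, hQ⟩ : ∃ Q : Set (EuclideanSpace ℝ (Fin N)), Q = V ∩ {r | c' ≤ ⟪w, r⟫_ℝ} := ⟨_, rfl⟩
  have hPc : IsClosed P := by
    rw [hP]
    exact hVc.isClosed.inter (isClosed_le hwc continuous_const)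
  have hQc : IsClosed Q := by
    rw [hQ]
    exact hVc.isClosed.inter (isClosed_le continuous_const hwc)
  have hPm : ∀ r, r ∈ P ↔ r ∈ V ∧ ⟪w, r⟫_ℝ ≤ c' := by
    intro r
    rw [hP]
    exact Iff.rfl
  have hQm : ∀ r, r ∈ Q ↔ r ∈ V ∧ c' ≤ ⟪w, r⟫_ℝ := by
    intro r
    rw [hQ]
    exact Iff.rfl
  have hPne : P.Nonempty := ⟨f y', (hPm _).2 ⟨hy', hgy.le⟩⟩
  have hQne : Q.Nonempty := ⟨f y', (hQm _).2 ⟨hy', hgy.ge⟩⟩
  obtain ⟨O, hO⟩ : ∃ O : Set M, O = {x | infDist (f x) P < infDist (f x) Q} := ⟨_, rfl⟩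
  have hOm : ∀ x, x ∈ O ↔ infDist (f x) P < infDist (f x) Q := by
    intro x
    rw [hO]
    exact Iff.rfl
  have hcP : Continuous fun x => infDist (f x) P := (continuous_infDist_pt P).comp S.cont
  have hcQ : Continuous fun x => infDist (f x) Q := (continuous_infDist_pt Q).comp S.cont
  have hOo : IsOpen O := by
    rw [hO]
    exact isOpen_lt hcP hcQ
  have hO1 : ∀ x, f x ∈ V → ⟪w, f x⟫_ℝ < c' → x ∈ O := by
    intro x hx hx2
    rw [hOm, infDist_zero_of_mem ((hPm _).2 ⟨hx, hx2.le⟩)]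
    refine (hQc.notMem_iff_infDist_pos hQne).1 ?_
    intro hcon
    exact absurd ((hQm _).1 hcon).2 (not_le.2 hx2)
  have hO2 : ∀ x, f x ∈ V → c' ≤ ⟪w, f x⟫_ℝ → x ∉ O := by
    intro x hx hx2
    rw [hOm, infDist_zero_of_mem ((hQm _).2 ⟨hx, hx2⟩)]
    exact not_lt.2 infDist_nonneg
  have hO3 : ∀ x ∈ closure O, f x ∈ V → c' ≤ ⟪w, f x⟫_ℝ → x = y' := by
    intro x hx hxV hx2
    have hcl : IsClosed {x | infDist (f x) P ≤ infDist (f x) Q} := isClosed_le hcP hcQ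
    have hsub : O ⊆ {x | infDist (f x) P ≤ infDist (f x) Q} := fun z hz => ((hOm z).1 hz).le
    have h1 : infDist (f x) P ≤ infDist (f x) Q := closure_minimal hsub hcl hx
    rw [infDist_zero_of_mem ((hQm _).2 ⟨hxV, hx2⟩)] at h1
    have h2 : infDist (f x) P = 0 := le_antisymm h1 infDist_nonneg
    have h3 : f x ∈ P := (hPc.mem_iff_infDist_zero hPne).2 h2
    have h4 : ⟪w, f x⟫_ℝ = c' := le_antisymm ((hPm _).1 h3).2 hx2
    exact hinj hxV hy' (h4.trans hgy.symm)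
  obtain ⟨t1, ht1⟩ : ∃ t1 : M → M → ZMod 2, t1 = fun a b => if a ∈ O ∧ b ∈ O then t a b else s a + s b :=
    ⟨_, rfl⟩
  have L1 : ∀ x ∈ O, ∃ W ∈ 𝓝 x, ∀ a ∈ W, ∀ b ∈ W, t1 a b = t a b := by
    intro x hx
    refine ⟨O, hOo.mem_nhds hx, fun a ha b hb => ?_⟩
    rw [ht1]
    exact if_pos ⟨ha, hb⟩
  have L2 : ∀ x, x ∉ closure O → ∃ W ∈ 𝓝 x, ∀ a ∈ W, ∀ b ∈ W, t1 a b = s a + s b := by
    intro x hx
    refine ⟨(closure O)ᶜ, isClosed_closure.isOpen_compl.mem_nhds hx, fun a ha b hb => ?_⟩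
    rw [ht1]
    exact if_neg (fun hc => ha (subset_closure hc.1))
  have L3 : ∀ x, ¬ (f x ∈ V ∧ c0 ≤ ⟪w, f x⟫_ℝ) → ∃ W ∈ 𝓝 x, ∀ a ∈ W, ∀ b ∈ W,
      t1 a b = s a + s b ∧ t a b = s a + s b := by
    intro x hx
    obtain ⟨W, hW, hWt⟩ := hs x hx
    refine ⟨W, hW, fun a ha b hb => ⟨?_, hWt a ha b hb⟩⟩
    rw [ht1]
    beta_reduce
    split_ifs
    · exact hWt a ha b hb
    · rfl
  have hout : ∀ x, ¬ (f x ∈ V ∧ c0 ≤ ⟪w, f x⟫_ℝ) ∨ x ∈ O ∨ (x ∉ closure O) ∨ x = y' := by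
    intro x
    by_cases h1 : f x ∈ V ∧ c0 ≤ ⟪w, f x⟫_ℝ
    · right
      rcases lt_or_ge ⟪w, f x⟫_ℝ c' with h2 | h2
      · left
        exact hO1 x h1.1 h2
      · right
        by_cases h3 : x ∈ closure O
        · right
          exact hO3 x h3 h1.1 h2
        · left
          exact h3
    · left
      exact h1
  have hT1 : Triv {x | ¬ (f x ∈ V ∧ c0 ≤ ⟪w, f x⟫_ℝ ∧ ⟪w, f x⟫_ℝ ≤ c')} t1 s := by
    intro x hx
    have hx' : ¬ (f x ∈ V ∧ c0 ≤ ⟪w, f x⟫_ℝ ∧ ⟪w, f x⟫_ℝ ≤ c') := hx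
    by_cases h1 : f x ∈ V ∧ c0 ≤ ⟪w, f x⟫_ℝ
    · have h2 : c' < ⟪w, f x⟫_ℝ := by
        by_contra hcon
        exact hx' ⟨h1.1, h1.2, not_lt.1 hcon⟩
      have h3 : x ∉ closure O := by
        intro hcon
        have := hO3 x hcon h1.1 h2.le
        rw [this, hgy] at h2
        exact lt_irrefl _ h2
      exact L2 x h3
    · obtain ⟨W, hW, hWt⟩ := L3 x h1
      exact ⟨W, hW, fun a ha b hb => (hWt a ha b hb).1⟩
  have hC1 : Coc ({y'}ᶜ : Set M) t1 := by
    intro x hx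
    have hxy : x ≠ y' := hx
    have htriv : (∃ W ∈ 𝓝 x, ∀ a ∈ W, ∀ b ∈ W, t1 a b = s a + s b) →
        ∃ W ∈ 𝓝 x, ∀ a ∈ W, ∀ b ∈ W, ∀ c ∈ W, t1 a b + t1 b c = t1 a c := by
      rintro ⟨W, hW, hWt⟩
      refine ⟨W, hW, fun a ha b hb c hc => ?_⟩
      rw [hWt a ha b hb, hWt b hb c hc, hWt a ha c hc]
      have := CharTwo.add_self_eq_zero (s b)
      linear_combination this
    rcases hout x with h1 | h1 | h1 | h1
    · obtain ⟨W, hW, hWt⟩ := L3 x h1
      exact htriv ⟨W, hW, fun a ha b hb => (hWt a ha b hb).1⟩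
    · obtain ⟨W, hW, hWt⟩ := L1 x h1
      obtain ⟨W', hW', hWt'⟩ := ht x (mem_univ x)
      refine ⟨W ∩ W', Filter.inter_mem hW hW', fun a ha b hb c hc => ?_⟩
      rw [hWt a ha.1 b hb.1, hWt b hb.1 c hc.1, hWt a ha.1 c hc.1]
      exact hWt' a ha.2 b hb.2 c hc.2
    · exact htriv (L2 x h1)
    · exact absurd h1 hxy
  have hN1 : Null {x | ¬ (f x ∈ V ∧ c' ≤ ⟪w, f x⟫_ℝ)} (t + t1) := by
    refine ⟨fun _ => 0, ?_⟩
    intro x hx
    have hx' : ¬ (f x ∈ V ∧ c' ≤ ⟪w, f x⟫_ℝ) := hx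
    by_cases h0 : x ∈ O
    · obtain ⟨W, hW, hWt⟩ := L1 x h0
      refine ⟨W, hW, fun a ha b hb => ?_⟩
      change t a b + t1 a b = 0 + 0
      rw [hWt a ha b hb, CharTwo.add_self_eq_zero, add_zero]
    · have h1 : ¬ (f x ∈ V ∧ c0 ≤ ⟪w, f x⟫_ℝ) := by
        rintro ⟨h1, h2⟩
        rcases lt_or_ge ⟪w, f x⟫_ℝ c' with h3 | h3
        · exact h0 (hO1 x h1 h3)
        · exact hx' ⟨h1, h3⟩
      obtain ⟨W, hW, hWt⟩ := L3 x h1
      refine ⟨W, hW, fun a ha b hb => ?_⟩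
      change t a b + t1 a b = 0 + 0
      rw [(hWt a ha b hb).1, (hWt a ha b hb).2, CharTwo.add_self_eq_zero, add_zero]
  obtain ⟨τ, hτ, hτ2⟩ := ext_one S hC1
  refine ⟨τ, hτ, ?_, ?_⟩
  · have h1 : Null {x | ¬ (f x ∈ V ∧ c0 ≤ ⟪w, f x⟫_ℝ ∧ ⟪w, f x⟫_ℝ ≤ c')} (t1 + τ) := by
      refine hτ2.mono ?_
      intro x hx hxy
      have hxy' : x = y' := hxy
      have hx' : ¬ (f x ∈ V ∧ c0 ≤ ⟪w, f x⟫_ℝ ∧ ⟪w, f x⟫_ℝ ≤ c') := hx
      rw [hxy'] at hx'
      exact hx' ⟨hy', by rw [hgy]; exact hcc.le, hgy.le⟩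
    have h2 := Null.add ⟨s, hT1⟩ h1
    rw [← add_assoc, add_self_co, zero_add] at h2
    exact h2
  · have h1 : Null {x | ¬ (f x ∈ V ∧ c' ≤ ⟪w, f x⟫_ℝ)} (t1 + τ) := by
      refine hτ2.mono ?_
      intro x hx hxy
      have hxy' : x = y' := hxy
      have hx' : ¬ (f x ∈ V ∧ c' ≤ ⟪w, f x⟫_ℝ) := hx
      rw [hxy'] at hx'
      exact hx' ⟨hy', hgy.ge⟩
    exact Null.trans hN1 h1

theorem arm_compl_ne (S : CSetup f) (hN : 3 ≤ N) {V : Set (EuclideanSpace ℝ (Fin N))}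
    (hVne : V.Nonempty) (hd : Module.finrank ℝ (vectorSpan ℝ V) ≤ 1) : ∃ x, f x ∉ V := by
  obtain ⟨z, hz, hz0⟩ := ap_exists (vectorSpan ℝ V) (by omega)
  obtain ⟨p, hp⟩ := hVne
  obtain ⟨x, hx⟩ := S.sub z ⟪z, p⟫_ℝ hz0
  refine ⟨x, fun hxV => hx ?_⟩
  have h1 : f x - p ∈ vectorSpan ℝ V := vsub_mem_vectorSpan ℝ hxV hp
  have h2 := (Submodule.mem_orthogonal' _ _).1 hz _ h1
  rw [inner_sub_right] at h2
  linarith

theorem arm_mid [CompactSpace M] [T2Space M] (S : CSetup f)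
    {V : Set (EuclideanSpace ℝ (Fin N))} (hV : Fc (Hul f) V) (w : EuclideanSpace ℝ (Fin N))
    (c0 c' : ℝ) (hne : ∃ x, f x ∉ V) (hcc : c0 ≤ c') :
    IsPreconnected {x | ¬ (f x ∈ V ∧ c0 ≤ ⟪w, f x⟫_ℝ ∧ ⟪w, f x⟫_ℝ ≤ c')} := by
  have h1 := fc_co S.cont S.conn hV w c0
  have h2 := fc_co S.cont S.conn hV (-w) (-c')
  obtain ⟨x0, hx0⟩ := hne
  have h3 := IsPreconnected.union x0 (show x0 ∈ {x | ¬ (f x ∈ V ∧ c0 ≤ ⟪w, f x⟫_ℝ)} from
    fun h => hx0 h.1) (show x0 ∈ {x | ¬ (f x ∈ V ∧ -c' ≤ ⟪-w, f x⟫_ℝ)} from fun h => hx0 h.1) h1 h2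
  have h4 : {x | ¬ (f x ∈ V ∧ c0 ≤ ⟪w, f x⟫_ℝ ∧ ⟪w, f x⟫_ℝ ≤ c')} =
      {x | ¬ (f x ∈ V ∧ c0 ≤ ⟪w, f x⟫_ℝ)} ∪ {x | ¬ (f x ∈ V ∧ -c' ≤ ⟪-w, f x⟫_ℝ)} := by
    apply Set.Subset.antisymm
    · intro x hx
      have hx' : ¬ (f x ∈ V ∧ c0 ≤ ⟪w, f x⟫_ℝ ∧ ⟪w, f x⟫_ℝ ≤ c') := hx
      by_cases h5 : f x ∈ V ∧ c0 ≤ ⟪w, f x⟫_ℝ
      · right
        intro h6
        have h7 := h6.2
        rw [inner_neg_left, neg_le_neg_iff] at h7
        exact hx' ⟨h5.1, h5.2, h7⟩
      · left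
        exact h5
    · intro x hx hcon
      rcases hx with hx | hx
      · exact hx ⟨hcon.1, hcon.2.1⟩
      · refine hx ⟨hcon.1, ?_⟩
        rw [inner_neg_left, neg_le_neg_iff]
        exact hcon.2.2
  rw [h4]
  exact h3

/-- a nontrivial class is not supported by an edge -/
theorem arc_rem [CompactSpace M] [T2Space M] [ConnectedSpace M] [LocallyPathConnectedSpace M]
    (S : CSetup f) (hN : 3 ≤ N) {V : Set (EuclideanSpace ℝ (Fin N))} (hV : Fc (Hul f) V)
    (hd : Module.finrank ℝ (vectorSpan ℝ V) ≤ 1) {t : M → M → ZMod 2} (ht : Coc univ t)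
    (h : Null {x | f x ∉ V} t) : Null univ t := by
  classical
  obtain ⟨w, hw⟩ := line_fun hd
  have hVcl : IsClosed V := (fc_compact (hul_compact S.cont) hV).isClosed
  have hg : Continuous fun x => ⟪w, f x⟫_ℝ := continuous_const.inner S.cont
  have hinj := fc_inj S hV hw
  have hA : IsClosed (f ⁻¹' V) := hVcl.preimage S.cont
  have hAconn : IsPreconnected (f ⁻¹' V) := by
    have h1 := fc_conn S.cont S.conn hV 0 0
    have h2 : {x | f x ∈ V ∧ (0 : ℝ) ≤ ⟪(0 : EuclideanSpace ℝ (Fin N)), f x⟫_ℝ} = f ⁻¹' V := by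
      apply Set.Subset.antisymm
      · intro x hx
        exact hx.1
      · intro x hx
        refine ⟨hx, ?_⟩
        rw [inner_zero_left]
    rw [h2] at h1
    exact h1
  by_cases hAe : (f ⁻¹' V).Nonempty
  swap
  · exact h.mono (fun x _ hxV => hAe ⟨x, hxV⟩)
  obtain ⟨yb, hyb, hybmax⟩ := hA.isCompact.exists_isMaxOn hAe hg.continuousOn
  obtain ⟨ya, hya, hyamin⟩ := hA.isCompact.exists_isMinOn hAe hg.continuousOn
  obtain ⟨be, hbe⟩ : ∃ be, be = ⟪w, f yb⟫_ℝ := ⟨_, rfl⟩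
  obtain ⟨al, hal⟩ : ∃ al, al = ⟪w, f ya⟫_ℝ := ⟨_, rfl⟩
  have hmax : ∀ x, f x ∈ V → ⟪w, f x⟫_ℝ ≤ be := by
    intro x hx
    rw [hbe]
    exact hybmax hx
  have hmin : ∀ x, f x ∈ V → al ≤ ⟪w, f x⟫_ℝ := by
    intro x hx
    rw [hal]
    exact hyamin hx
  have hex : ∀ c, al ≤ c → c ≤ be → ∃ y, f y ∈ V ∧ ⟪w, f y⟫_ℝ = c := by
    intro c h1 h2
    have h3 := (hAconn.image _ hg.continuousOn).ordConnected
    have h4 := h3.out (mem_image_of_mem _ hya) (mem_image_of_mem _ hyb)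
      (show c ∈ Icc (⟪w, f ya⟫_ℝ) (⟪w, f yb⟫_ℝ) from ⟨by rw [← hal]; exact h1, by rw [← hbe]; exact h2⟩)
    obtain ⟨y, hy, hy2⟩ := h4
    exact ⟨y, hy, hy2⟩
  have hne : ∃ x, f x ∉ V := arm_compl_ne S hN ⟨f yb, hyb⟩ hd
  by_contra hnot
  obtain ⟨U, hU⟩ : ∃ U : ℝ → Set M, U = fun c => {x | ¬ (f x ∈ V ∧ c ≤ ⟪w, f x⟫_ℝ)} := ⟨_, rfl⟩
  have hUm : ∀ c x, x ∈ U c ↔ ¬ (f x ∈ V ∧ c ≤ ⟪w, f x⟫_ℝ) := by
    intro c x
    rw [hU]
    exact Iff.rfl
  have hUopen : ∀ c, IsOpen (U c) := by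
    intro c
    have h1 : IsClosed ((f ⁻¹' V) ∩ {x | c ≤ ⟪w, f x⟫_ℝ}) :=
      hA.inter (isClosed_le continuous_const hg)
    have h2 : U c = ((f ⁻¹' V) ∩ {x | c ≤ ⟪w, f x⟫_ℝ})ᶜ := by
      rw [hU]
      rfl
    rw [h2]
    exact h1.isOpen_compl
  have hUconn : ∀ c, IsPreconnected (U c) := by
    intro c
    rw [hU]
    exact fc_co S.cont S.conn hV w c
  have hUmono : ∀ c c', c ≤ c' → U c ⊆ U c' := by
    intro c c' hcc x hx
    rw [hUm] at hx ⊢
    exact fun h1 => hx ⟨h1.1, hcc.trans h1.2⟩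
  obtain ⟨T, hT⟩ : ∃ T : Set ℝ, T = {c | Null (U c) t} := ⟨_, rfl⟩
  have hTm : ∀ c, c ∈ T ↔ Null (U c) t := by
    intro c
    rw [hT]
    exact Iff.rfl
  have hTa : al ∈ T := by
    rw [hTm]
    refine h.mono ?_
    intro x hx
    rw [hUm] at hx
    exact fun h1 => hx ⟨h1, hmin x h1⟩
  have hTbd : ∀ c ∈ T, c < be := by
    intro c hc
    by_contra hcon
    have hcon' := not_lt.1 hcon
    apply hnot
    refine null_punct S.pun isOpen_univ ht (F := {yb}) (Set.finite_singleton yb) ?_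
    rw [hTm] at hc
    refine hc.mono ?_
    rintro x ⟨-, hx⟩
    rw [hUm]
    rintro ⟨h1, h2⟩
    have h3 : ⟪w, f x⟫_ℝ = be := le_antisymm (hmax x h1) (hcon'.trans h2)
    exact hx (hinj h1 hyb (h3.trans hbe))
  obtain ⟨c0, hc0⟩ : ∃ c0, c0 = sSup T := ⟨_, rfl⟩
  have hbdd : BddAbove T := ⟨be, fun c hc => (hTbd c hc).le⟩
  have hac0 : al ≤ c0 := by
    rw [hc0]
    exact le_csSup hbdd hTa
  have hc0T : c0 ∈ T := by
    rw [hTm]
    have h1 : Null (⋃₀ {W | ∃ c ∈ T, W = U c}) t := by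
      refine null_directed ?_ ?_ ?_ ?_
      · rintro W ⟨c, -, rfl⟩
        exact hUopen c
      · rintro W ⟨c, -, rfl⟩
        exact hUconn c
      · rintro W ⟨c, hc, rfl⟩ W' ⟨c', hc', rfl⟩
        rcases le_total c c' with hle | hle
        · exact ⟨U c', ⟨c', hc', rfl⟩, hUmono _ _ hle, subset_rfl⟩
        · exact ⟨U c, ⟨c, hc, rfl⟩, subset_rfl, hUmono _ _ hle⟩
      · rintro W ⟨c, hc, rfl⟩
        exact (hTm c).1 hc
    refine h1.mono ?_
    intro x hx
    rw [hUm] at hx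
    by_cases hxV : f x ∈ V
    · have h2 : ⟪w, f x⟫_ℝ < sSup T := by
        rw [← hc0]
        by_contra hcon
        exact hx ⟨hxV, not_lt.1 hcon⟩
      obtain ⟨c, hc, hc2⟩ := exists_lt_of_lt_csSup ⟨al, hTa⟩ h2
      refine Set.mem_sUnion.2 ⟨U c, ⟨c, hc, rfl⟩, ?_⟩
      rw [hUm]
      exact fun h3 => absurd h3.2 (not_le.2 hc2)
    · refine Set.mem_sUnion.2 ⟨U al, ⟨al, hTa, rfl⟩, ?_⟩
      rw [hUm]
      exact fun h3 => hxV h3.1
  have hc0be : c0 < be := hTbd c0 hc0T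
  obtain ⟨y0, hy0V, hy0⟩ := hex c0 hac0 hc0be.le
  obtain ⟨cn, hcn⟩ : ∃ cn : ℕ → ℝ, cn = fun n : ℕ => c0 + (be - c0) / ((n : ℝ) + 1) := ⟨_, rfl⟩
  have hcnn : ∀ n : ℕ, cn n = c0 + (be - c0) / ((n : ℝ) + 1) := fun n => by rw [hcn]
  have hpos : 0 < be - c0 := by linarith
  have hcn1 : ∀ n, c0 < cn n := by
    intro n
    rw [hcnn]
    have : 0 < (be - c0) / ((n : ℝ) + 1) := by positivity
    linarith
  have hcn2 : ∀ n, cn n ≤ be := by
    intro n
    rw [hcnn]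
    have : (be - c0) / ((n : ℝ) + 1) ≤ be - c0 := by
      refine div_le_self hpos.le ?_
      have := Nat.cast_nonneg (α := ℝ) n
      linarith
    linarith
  have hcn3 : ∀ n m : ℕ, n ≤ m → cn m ≤ cn n := by
    intro n m hnm
    rw [hcnn, hcnn]
    have : (be - c0) / ((m : ℝ) + 1) ≤ (be - c0) / ((n : ℝ) + 1) := by
      refine div_le_div_of_nonneg_left hpos.le (by positivity) ?_
      have : (n : ℝ) ≤ m := by exact_mod_cast hnm
      linarith
    linarith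
  have hcn4 : ∀ a, c0 < a → ∃ n₀ : ℕ, ∀ n, n₀ ≤ n → cn n < a := by
    intro a ha
    obtain ⟨n₀, hn₀⟩ := exists_nat_gt ((be - c0) / (a - c0))
    refine ⟨n₀, fun n hn => ?_⟩
    rw [hcnn]
    have h1 : 0 < a - c0 := by linarith
    have h2 : (n₀ : ℝ) ≤ n := by exact_mod_cast hn
    have h3 : (be - c0) / ((n : ℝ) + 1) < a - c0 := by
      rw [div_lt_iff₀ (by positivity)]
      rw [div_lt_iff₀ h1] at hn₀
      nlinarith
    linarith
  obtain ⟨R, hRfin, hRcoc, hRall⟩ := S.fin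
  obtain ⟨B, hB⟩ : ∃ B : ℕ → Set M, B = fun n => {x | ¬ (f x ∈ V ∧ c0 ≤ ⟪w, f x⟫_ℝ ∧ ⟪w, f x⟫_ℝ ≤ cn n)} :=
    ⟨_, rfl⟩
  have hBm : ∀ n x, x ∈ B n ↔ ¬ (f x ∈ V ∧ c0 ≤ ⟪w, f x⟫_ℝ ∧ ⟪w, f x⟫_ℝ ≤ cn n) := by
    intro n x
    rw [hB]
    exact Iff.rfl
  have hBopen : ∀ n, IsOpen (B n) := by
    intro n
    have h1 : IsClosed ((f ⁻¹' V) ∩ ({x | c0 ≤ ⟪w, f x⟫_ℝ} ∩ {x | ⟪w, f x⟫_ℝ ≤ cn n})) :=
      hA.inter ((isClosed_le continuous_const hg).inter (isClosed_le hg continuous_const))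
    have h2 : B n = ((f ⁻¹' V) ∩ ({x | c0 ≤ ⟪w, f x⟫_ℝ} ∩ {x | ⟪w, f x⟫_ℝ ≤ cn n}))ᶜ := by
      rw [hB]
      rfl
    rw [h2]
    exact h1.isOpen_compl
  have hstep : ∀ n, ∃ r ∈ R, Null (B n) r ∧ Null (U (cn n)) (t + r) := by
    intro n
    obtain ⟨y', hy'V, hy'⟩ := hex (cn n) (hac0.trans (hcn1 n).le) (hcn2 n)
    have h0 : Null {x | ¬ (f x ∈ V ∧ c0 ≤ ⟪w, f x⟫_ℝ)} t := by
      have := (hTm c0).1 hc0T
      rw [hU] at this
      exact this
    obtain ⟨τ, hτ, hτ1, hτ2⟩ := arm_step S hV hw ht (hcn1 n) hy'V hy' h0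
    obtain ⟨r, hr, hr2⟩ := hRall τ hτ
    have hr3 : ∀ Z : Set M, Null Z (τ + r) := fun Z => hr2.mono (subset_univ Z)
    refine ⟨r, hr, ?_, ?_⟩
    · rw [hB]
      have h1 := Null.add hτ1 (hr3 _)
      rw [← add_assoc, add_self_co, zero_add] at h1
      exact h1
    · rw [hU]
      exact Null.trans hτ2 (hr3 _)
  choose r hrR hr1 hr2 using hstep
  haveI : Finite R := hRfin
  obtain ⟨ρ, hρ⟩ := Finite.exists_infinite_fiber (fun n : ℕ => (⟨r n, hrR n⟩ : R))
  have hρinf : ((fun n : ℕ => (⟨r n, hrR n⟩ : R)) ⁻¹' {ρ}).Infinite := Set.infinite_coe_iff.1 hρ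
  have hI : ∀ n₀ : ℕ, ∃ n, n₀ ≤ n ∧ r n = ρ.1 := by
    intro n₀
    obtain ⟨n, hn, hn2⟩ := hρinf.exists_gt n₀
    refine ⟨n, hn2.le, ?_⟩
    exact congrArg Subtype.val hn
  have hnull : Null (⋃₀ {W | ∃ n, r n = ρ.1 ∧ W = B n}) ρ.1 := by
    refine null_directed ?_ ?_ ?_ ?_
    · rintro W ⟨n, -, rfl⟩
      exact hBopen n
    · rintro W ⟨n, -, rfl⟩
      rw [hB]
      exact arm_mid S hV w c0 (cn n) hne (hcn1 n).le
    · have hBmono : ∀ n m : ℕ, n ≤ m → B n ⊆ B m := by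
        intro n m hnm x hx
        rw [hBm] at hx ⊢
        exact fun h1 => hx ⟨h1.1, h1.2.1, h1.2.2.trans (hcn3 n m hnm)⟩
      rintro W ⟨n, hn, rfl⟩ W' ⟨m, hm, rfl⟩
      rcases le_total n m with hle | hle
      · exact ⟨B m, ⟨m, hm, rfl⟩, hBmono _ _ hle, subset_rfl⟩
      · exact ⟨B n, ⟨n, hn, rfl⟩, subset_rfl, hBmono _ _ hle⟩
    · rintro W ⟨n, hn, rfl⟩
      rw [← hn]
      exact hr1 n
  have hρnull : Null univ ρ.1 := by
    refine null_punct S.pun isOpen_univ (hRcoc _ ρ.2) (F := {y0}) (Set.finite_singleton y0) ?_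
    refine hnull.mono ?_
    rintro x ⟨-, hx⟩
    by_cases hxV : f x ∈ V ∧ c0 ≤ ⟪w, f x⟫_ℝ
    · have h1 : c0 < ⟪w, f x⟫_ℝ := by
        refine lt_of_le_of_ne hxV.2 ?_
        intro heq
        exact hx (hinj hxV.1 hy0V (heq.symm.trans hy0.symm))
      obtain ⟨n₀, hn₀⟩ := hcn4 _ h1
      obtain ⟨n, hn, hn2⟩ := hI n₀
      refine Set.mem_sUnion.2 ⟨B n, ⟨n, hn2, rfl⟩, ?_⟩
      rw [hBm]
      exact fun h3 => absurd h3.2.2 (not_le.2 (hn₀ n hn))
    · obtain ⟨n, hn, hn2⟩ := hI 0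
      refine Set.mem_sUnion.2 ⟨B n, ⟨n, hn2, rfl⟩, ?_⟩
      rw [hBm]
      exact fun h3 => hxV ⟨h3.1, h3.2.1⟩
  obtain ⟨n, hn, hn2⟩ := hI 0
  have h1 : cn n ∈ T := by
    rw [hTm]
    have h2 := hr2 n
    rw [hn2] at h2
    have h3 := Null.add h2 (hρnull.mono (subset_univ (U (cn n))))
    rw [add_assoc, add_self_co, add_zero] at h3
    exact h3
  have h2 : cn n ≤ c0 := by
    rw [hc0]
    exact le_csSup hbdd h1
  exact absurd (hcn1 n) (not_lt.2 h2)

/-- the same relative to a closed set -/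
theorem arc_rem_rel [CompactSpace M] [T2Space M] [ConnectedSpace M]
    [LocallyPathConnectedSpace M]
    (S : CSetup f) (hN : 3 ≤ N) {V : Set (EuclideanSpace ℝ (Fin N))} (hV : Fc (Hul f) V)
    (hd : Module.finrank ℝ (vectorSpan ℝ V) ≤ 1) {t : M → M → ZMod 2} (ht : Coc univ t)
    {R : Set M} (hR : IsClosed R) (hVR : Disjoint (f ⁻¹' V) R)
    (h : Null {x | f x ∉ V ∧ x ∉ R} t) : Null (Rᶜ : Set M) t := by
  have hVc : IsClosed V := (fc_compact (hul_compact S.cont) hV).isClosed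
  have hA : IsClosed (f ⁻¹' V) := hVc.preimage S.cont
  obtain ⟨O, hO, hAO, hclO⟩ := normal_exists_closure_subset hA hR.isOpen_compl
    (Set.disjoint_left.mp hVR : f ⁻¹' V ⊆ Rᶜ)
  obtain ⟨s, hs⟩ := h
  have hset : ((f ⁻¹' V ∪ R)ᶜ : Set M) = {x | f x ∉ V ∧ x ∉ R} := by
    ext x
    simp only [Set.mem_compl_iff, Set.mem_union, Set.mem_preimage, not_or, Set.mem_setOf_eq]
  have hs' : Triv ((f ⁻¹' V ∪ R)ᶜ : Set M) t s := by rw [hset]; exact hs
  obtain ⟨t', ht'1, ht'2, ht'3⟩ := glue_coc hA hO hAO hR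
    (Set.disjoint_left.mpr fun x hx hx' => hclO hx hx') (Set.empty_subset _)
    (ht.mono (Set.subset_univ _)) hs'
  rw [Set.compl_empty] at ht'1
  have hn : Null {x | f x ∉ V} t' := ⟨s, ht'2⟩
  obtain ⟨σ, hσ⟩ := arc_rem S hN hV hd ht'1 hn
  have hpre : IsPreconnected ((f ⁻¹' V)ᶜ : Set M) := by
    have h1 := fc_co S.cont S.conn hV 0 0
    have h2 : {x : M | ¬ (f x ∈ V ∧ (0 : ℝ) ≤ ⟪(0 : EuclideanSpace ℝ (Fin N)), f x⟫_ℝ)} =
        ((f ⁻¹' V)ᶜ : Set M) := by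
      ext x
      simp
    rw [h2] at h1
    exact h1
  obtain ⟨k, hk⟩ := triv_uniq hpre (hσ.mono (Set.subset_univ _)) ht'2
  have hσO : Triv O t σ := by
    intro x hx
    obtain ⟨W, hW, hW2⟩ := hσ x (Set.mem_univ x)
    refine ⟨W ∩ O, Filter.inter_mem hW (hO.mem_nhds hx), ?_⟩
    intro a ha b hb
    rw [← ht'3 a ha.2 b hb.2]
    exact hW2 a ha.1 b hb.1
  have hu := null_union hO (hA.union hR).isOpen_compl hσO hs' (k := k) (by
    intro x hx
    exact hk x fun h' => hx.2 (Or.inl h'))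
  refine hu.mono ?_
  intro x hx
  by_cases hxV : x ∈ f ⁻¹' V
  · exact Or.inl (hAO hxV)
  · exact Or.inr fun h' => h'.elim hxV hx

/-- the same for finitely many disjoint edges -/
theorem arc_rem_fin [CompactSpace M] [T2Space M] [ConnectedSpace M]
    [LocallyPathConnectedSpace M]
    (S : CSetup f) (hN : 3 ≤ N) {𝒱 : Set (Set (EuclideanSpace ℝ (Fin N)))} (hfin : 𝒱.Finite)
    (hV : ∀ V ∈ 𝒱, Fc (Hul f) V ∧ Module.finrank ℝ (vectorSpan ℝ V) ≤ 1)
    (hdis : ∀ V ∈ 𝒱, ∀ V' ∈ 𝒱, V ≠ V' → Disjoint V V') {t : M → M → ZMod 2} (ht : Coc univ t)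
    (h : Null {x | ∀ V ∈ 𝒱, f x ∉ V} t) : Null univ t := by
  induction 𝒱, hfin using Set.Finite.induction_on with
  | empty =>
    refine h.mono ?_
    intro x _ V hV'
    exact absurd hV' (Set.notMem_empty V)
  | @insert V 𝒲 hVW hfin ih =>
    have hVm : V ∈ insert V 𝒲 := Set.mem_insert _ _
    have hWm : ∀ W ∈ 𝒲, W ∈ insert V 𝒲 := fun W hW => Set.mem_insert_of_mem _ hW
    refine ih (fun W hW => hV W (hWm W hW))
      (fun W hW W' hW' => hdis W (hWm W hW) W' (hWm W' hW')) ?_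
    have hR : IsClosed (⋃ W ∈ 𝒲, f ⁻¹' W) := by
      refine hfin.isClosed_biUnion fun W hW => ?_
      exact ((fc_compact (hul_compact S.cont) (hV W (hWm W hW)).1).isClosed).preimage S.cont
    have hd1 : Disjoint (f ⁻¹' V) (⋃ W ∈ 𝒲, f ⁻¹' W) := by
      rw [Set.disjoint_left]
      intro x hx hx'
      simp only [Set.mem_iUnion] at hx'
      obtain ⟨W, hW, hxW⟩ := hx'
      have hne : V ≠ W := fun h' => hVW (h' ▸ hW)
      exact (Set.disjoint_left.mp (hdis V hVm W (hWm W hW) hne)) hx hxW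
    have h1 := arc_rem_rel S hN (hV V hVm).1 (hV V hVm).2 ht hR hd1 (h.mono (by
      rintro x ⟨hx1, hx2⟩ W hW
      rcases Set.mem_insert_iff.mp hW with h' | h'
      · rw [h']; exact hx1
      · intro hxW
        apply hx2
        simp only [Set.mem_iUnion]
        exact ⟨W, h', hxW⟩))
    refine h1.mono ?_
    intro x hx hx'
    simp only [Set.mem_iUnion] at hx'
    obtain ⟨W, hW, hxW⟩ := hx'
    exact hx W hW hxW

theorem h940_zmod_ne {a b c : ZMod 2} (h1 : a ≠ b) (h2 : c = a) : c ≠ b := by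
  rw [h2]; exact h1

theorem h940_four : ∀ u : Fin 4 → ZMod 2, (∃ c : ZMod 2, ∃ j : Fin 4, ∀ i, i ≠ j → u i = c) ∨
    (∃ a b c d : Fin 4, a ≠ b ∧ a ≠ c ∧ a ≠ d ∧ b ≠ c ∧ b ≠ d ∧ c ≠ d ∧
      u a = u b ∧ u c = u d ∧ u a ≠ u c) := by
  decide +kernel

/-- five good faces with the same class -/
theorem five_good [CompactSpace M] [T2Space M] [ConnectedSpace M] [LocallyPathConnectedSpace M]
    (S : CSetup f) (hN : 6 ≤ N) {t : M → M → ZMod 2} (ht0 : Coc univ t) (hn : ¬ Null univ t)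
    {Φ : Fin 5 → Set (EuclideanSpace ℝ (Fin N))} (h2 : ∀ i, Two f (Φ i))
    (ht : ∀ i, Null {x | f x ∉ Φ i} t) (hinj : Function.Injective Φ)
    (hg : ∀ i j, i ≠ j → Good f t (Φ i) (Φ j)) {p : EuclideanSpace ℝ (Fin N)}
    (hp : p ∈ extremePoints ℝ (Hul f)) (hpi : ∀ i, p ∉ Φ i)
    (hstr : (∀ i j k, i ≠ j → i ≠ k → j ≠ k → ∀ r, r ∈ Φ i → r ∈ Φ j → r ∉ Φ k) ∨
      ∃ V, ∀ i j, i ≠ j → Φ i ∩ Φ j = V) : False := by
  have hcomp : IsCompact (Hul f) := hul_compact S.cont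
  have hconv : Convex ℝ (Hul f) := convex_convexHull ℝ _
  have hcl : ∀ i, IsClosed (f ⁻¹' (Φ i)) := fun i =>
    (fc_compact hcomp (h2 i).1).isClosed.preimage S.cont
  have hPc : ∀ i, Convex ℝ (Φ i) := fun i => fc_convex hconv (h2 i).1
  have hPs : ∀ i, Φ i ⊆ Hul f := fun i => fc_sub (h2 i).1
  have hPe : ∀ i, IsExtreme ℝ (Hul f) (Φ i) := fun i => fc_extreme (h2 i).1
  choose s' hs' using ht
  obtain ⟨e, he, -⟩ := ext_unique S.cont S.loc S.conn hp
  have hout : ∀ i j, p ∉ convexHull ℝ (Φ i ∪ Φ j) := by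
    intro i j hcon
    rcases ext_mem_of_hull (Set.union_subset (hPs i) (hPs j)) hp hcon with h | h
    · exact hpi i h
    · exact hpi j h
  have hs : ∀ i, Triv (f ⁻¹' (Φ i))ᶜ t (fun x => s' i x + s' i e) := fun i =>
    (hs' i).add_const (s' i e)
  have hag : ∀ i j, i ≠ j → ∀ x, f x ∉ convexHull ℝ (Φ i ∪ Φ j) →
      s' i x + s' i e = s' j x + s' j e := by
    intro i j hij x hx
    obtain ⟨c, hc⟩ := hg i j hij (s' i) (s' j) (hs' i) (hs' j)
    have h1 := hc x hx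
    have h3 := hc e (by rw [he]; exact hout i j)
    have h4 : s' i x + s' j x = s' i e + s' j e := by rw [h1, h3]
    have key : ∀ a b c d : ZMod 2, a + b = c + d → a + c = b + d := by decide
    exact key _ _ _ _ h4
  have hsep : ∀ x k, x ∈ f ⁻¹' (Φ k) → ∀ i j, i ≠ k → j ≠ k → i ≠ j →
      s' i x + s' i e ≠ s' j x + s' j e →
      f x ∈ convexHull ℝ ((Φ i ∩ Φ k) ∪ (Φ j ∩ Φ k)) := by
    intro x k hxk i j hik hjk hij hne
    have h1 : f x ∈ convexHull ℝ (Φ i ∪ Φ j) := by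
      by_contra h
      exact hne (hag i j hij x h)
    exact hull_face hconv (hPs i) (hPs j) (hPc i) (hPc j) (hPe k) h1 hxk
  have hmaj : Null {x | ∀ i j, i ≠ j → x ∈ f ⁻¹' (Φ i) → x ∉ f ⁻¹' (Φ j)} t := by
    refine maj5 hcl hs ?_
    intro x k hxk hxi
    rcases hstr with hstr | ⟨V, hV⟩
    · -- no triple points
      have hW := h940_four (fun a => s' (k.succAbove a) x + s' (k.succAbove a) e)
      rcases hW with ⟨c, j, hj⟩ | ⟨a, b, c, d, hab, hac, had, hbc, hbd, hcd, h1, h3, h4⟩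
      · refine ⟨c, k.succAbove j, Fin.succAbove_ne k j, ?_⟩
        intro i hik hij
        obtain ⟨i', hi'⟩ := Fin.exists_succAbove_eq hik
        rw [← hi']
        refine hj i' ?_
        rintro rfl
        exact hij hi'.symm
      · exfalso
        have hinj4 : ∀ {a b : Fin 4}, a ≠ b → k.succAbove a ≠ k.succAbove b := fun h h' =>
          h (Fin.succAbove_right_injective h')
        have hex : ∀ i, IsExtreme ℝ (Φ k) (Φ i ∩ Φ k) := fun i =>
          ((hPe i).inter (hPe k)).mono (hPs k) Set.inter_subset_right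
        have hcv : ∀ i, Convex ℝ (Φ i ∩ Φ k) := fun i => (hPc i).inter (hPc k)
        have hdj : ∀ {a b : Fin 4}, a ≠ b →
            Disjoint (Φ (k.succAbove a) ∩ Φ k) (Φ (k.succAbove b) ∩ Φ k) := by
          intro a b hab
          rw [Set.disjoint_left]
          rintro r ⟨hr1, hr2⟩ ⟨hr3, -⟩
          exact hstr _ _ _ (hinj4 hab) (Fin.succAbove_ne k a) (Fin.succAbove_ne k b) r hr1 hr3 hr2
        have hr : ∀ a, f x ∉ Φ (k.succAbove a) ∩ Φ k := fun a h =>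
          hxi _ (Fin.succAbove_ne k a) h.1
        have e1 : s' (k.succAbove a) x + s' (k.succAbove a) e =
          s' (k.succAbove b) x + s' (k.succAbove b) e := h1
        have e2 : s' (k.succAbove c) x + s' (k.succAbove c) e =
          s' (k.succAbove d) x + s' (k.succAbove d) e := h3
        have e3 : s' (k.succAbove a) x + s' (k.succAbove a) e ≠
          s' (k.succAbove c) x + s' (k.succAbove c) e := h4
        refine planar4 (hPc k) (h2 k).2.1 (hex (k.succAbove a)) (hex (k.succAbove b))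
          (hex (k.succAbove c)) (hex (k.succAbove d)) (hcv _) (hcv _) (hcv _) (hcv _)
          (hdj hab) (hdj hac) (hdj had) (hdj hbc) (hdj hbd) (hdj hcd) (r := f x) hxk
          (hr a) (hr b) (hr c) (hr d) ?_ ?_ ?_ ?_
        · exact hsep x k hxk _ _ (Fin.succAbove_ne k a) (Fin.succAbove_ne k c) (hinj4 hac) e3
        · exact hsep x k hxk _ _ (Fin.succAbove_ne k a) (Fin.succAbove_ne k d) (hinj4 had)
            (fun h => e3 (h.trans e2.symm))
        · exact hsep x k hxk _ _ (Fin.succAbove_ne k b) (Fin.succAbove_ne k c) (hinj4 hbc)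
            (fun h => e3 (e1.trans h))
        · exact hsep x k hxk _ _ (Fin.succAbove_ne k b) (Fin.succAbove_ne k d) (hinj4 hbd)
            (fun h => e3 (e1.trans (h.trans e2.symm)))
    · -- sunflower
      have hall : ∀ i j, i ≠ k → j ≠ k → s' i x + s' i e = s' j x + s' j e := by
        intro i j hik hjk
        by_cases hij : i = j
        · rw [hij]
        by_contra hne
        have h1 := hsep x k hxk i j hik hjk hij hne
        rw [hV i k hik, hV j k hjk, Set.union_self] at h1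
        have hVc : Convex ℝ V := by
          rw [← hV i k hik]
          exact (hPc i).inter (hPc k)
        rw [hVc.convexHull_eq, ← hV i k hik] at h1
        exact hxi i hik h1.1
      obtain ⟨j, hj⟩ : ∃ j : Fin 5, j ≠ k := ⟨k.succAbove 0, Fin.succAbove_ne k 0⟩
      exact ⟨s' j x + s' j e, j, hj, fun i hik _ => hall i j hik hj⟩
  refine hn (arc_rem_fin S (by omega)
    (𝒱 := {V | ∃ i j, i ≠ j ∧ V = Φ i ∩ Φ j ∧ V.Nonempty}) ?_ ?_ ?_ ht0 ?_)
  · refine (Set.finite_range (fun q : Fin 5 × Fin 5 => Φ q.1 ∩ Φ q.2)).subset ?_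
    rintro V ⟨i, j, -, rfl, -⟩
    exact ⟨(i, j), rfl⟩
  · rintro V ⟨i, j, hij, rfl, hne⟩
    exact ⟨fc_inter (h2 i).1 (h2 j).1 hne, two_inter (hPe i) (hPe j) (hPc i) (hPc j)
      (h2 i).2.1 (h2 j).2.1 (fun h => hij (hinj h))⟩
  · rintro V ⟨i, j, hij, rfl, hne⟩ V' ⟨k, l, hkl, rfl, hne'⟩ hVV
    rcases hstr with hstr | ⟨V, hV⟩
    · rw [Set.disjoint_left]
      rintro r ⟨hr1, hr2⟩ ⟨hr3, hr4⟩
      by_cases hki : k = i
      · by_cases hlj : l = j
        · exact hVV (by rw [hki, hlj])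
        · have hli : l ≠ i := fun h => hkl (hki.trans h.symm)
          exact hstr i j l hij (Ne.symm hli) (Ne.symm hlj) r hr1 hr2 hr4
      · by_cases hkj : k = j
        · by_cases hli : l = i
          · exact hVV (by rw [hkj, hli, Set.inter_comm])
          · have hlj : l ≠ j := fun h => hkl (hkj.trans h.symm)
            exact hstr i j l hij (Ne.symm hli) (Ne.symm hlj) r hr1 hr2 hr4
        · exact hstr i j k hij (Ne.symm hki) (Ne.symm hkj) r hr1 hr2 hr3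
    · exact absurd ((hV i j hij).trans (hV k l hkl).symm) hVV
  · refine hmaj.mono ?_
    intro x hx i j hij hxi hxj
    exact hx _ ⟨i, j, hij, rfl, ⟨f x, hxi, hxj⟩⟩ ⟨hxi, hxj⟩

/-- a set of dimension at most one with two extreme points is the segment between them -/
theorem seg_of_line {K G : Set (EuclideanSpace ℝ (Fin N))} (hG : G ⊆ K) (hGc : Convex ℝ G)
    (hd : Module.finrank ℝ (vectorSpan ℝ G) ≤ 1) {p p' : EuclideanSpace ℝ (Fin N)}
    (hp : p ∈ extremePoints ℝ K) (hp' : p' ∈ extremePoints ℝ K) (hne : p ≠ p')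
    (hpG : p ∈ G) (hpG' : p' ∈ G) : G = segment ℝ p p' := by
  refine Set.Subset.antisymm ?_ (hGc.segment_subset hpG hpG')
  intro r hr
  have hv : p' - p ≠ 0 := sub_ne_zero.2 hne.symm
  have hle : Submodule.span ℝ {p' - p} ≤ vectorSpan ℝ G := by
    rw [Submodule.span_singleton_le_iff_mem]
    exact vsub_mem_vectorSpan ℝ hpG' hpG
  have heq : Submodule.span ℝ {p' - p} = vectorSpan ℝ G := by
    refine Submodule.eq_of_le_of_finrank_le hle ?_
    rw [finrank_span_singleton hv]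
    exact hd
  have hrp : r - p ∈ Submodule.span ℝ {p' - p} := by
    rw [heq]
    exact vsub_mem_vectorSpan ℝ hr hpG
  obtain ⟨c, hc⟩ := Submodule.mem_span_singleton.1 hrp
  have hr' : r = p + c • (p' - p) := by
    rw [hc]
    abel
  have h0 : 0 ≤ c := by
    by_contra hlt
    push Not at hlt
    have hmem : p ∈ openSegment ℝ r p' := by
      refine ⟨1 / (1 - c), -c / (1 - c), by apply div_pos one_pos; linarith,
        by apply div_pos <;> linarith, ?_, ?_⟩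
      · have : (1:ℝ) - c ≠ 0 := by linarith
        field_simp
        try ring
      · rw [hr']
        have : (1:ℝ) - c ≠ 0 := by linarith
        have e1 : (1 / (1 - c)) • (p + c • (p' - p)) + (-c / (1 - c)) • p' =
            ((1 / (1 - c)) * (1 - c)) • p + ((1 / (1 - c)) * c + (-c / (1 - c))) • p' := by
          module
        have e2 : (1 / (1 - c)) * (1 - c) = 1 := by field_simp
        have e3 : (1 / (1 - c)) * c + (-c / (1 - c)) = 0 := by field_simp; ring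
        rw [e1, e2, e3, one_smul, zero_smul, add_zero]
    have := hp.2 (hG hr) (hG hpG') hmem
    rw [hr', add_eq_left, smul_eq_zero] at this
    rcases this with h | h
    · linarith
    · exact hv h
  have h1 : c ≤ 1 := by
    by_contra hlt
    push Not at hlt
    have hmem : p' ∈ openSegment ℝ p r := by
      refine ⟨(c - 1) / c, 1 / c, by apply div_pos <;> linarith,
        by apply div_pos one_pos; linarith, ?_, ?_⟩
      · have : c ≠ 0 := by linarith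
        field_simp
        try ring
      · rw [hr']
        have : c ≠ 0 := by linarith
        have e1 : ((c - 1) / c) • p + (1 / c) • (p + c • (p' - p)) =
            ((c - 1) / c + 1 / c - (1 / c) * c) • p + ((1 / c) * c) • p' := by
          module
        have e2 : (1 / c) * c = 1 := by field_simp
        have e3 : (c - 1) / c + 1 / c - (1 / c) * c = 0 := by field_simp; ring
        rw [e1, e3, e2, one_smul, zero_smul, zero_add]
    have := hp'.2 (hG hpG) (hG hr) hmem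
    exact hne this
  rw [hr']
  refine ⟨1 - c, c, by linarith, h0, by ring, ?_⟩
  module

/-- a compact convex set of dimension two has a third extreme point -/
theorem third_ext {F : Set (EuclideanSpace ℝ (Fin N))} (hF : IsCompact F) (hFc : Convex ℝ F)
    (hd : Module.finrank ℝ (vectorSpan ℝ F) = 2) (p p' : EuclideanSpace ℝ (Fin N)) :
    ∃ q ∈ extremePoints ℝ F, q ≠ p ∧ q ≠ p' := by
  by_contra hcon
  push Not at hcon
  have h1 : extremePoints ℝ F ⊆ {p, p'} := by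
    intro q hq
    by_cases h : q = p
    · exact Or.inl h
    · exact Or.inr (hcon q hq h)
  have h2 : F ⊆ segment ℝ p p' := by
    rw [← closure_convexHull_extremePoints hF hFc]
    refine closure_minimal ?_ ?_
    · rw [← convexHull_pair]
      exact convexHull_mono h1
    · rw [← convexHull_pair]
      exact (Set.toFinite ({p, p'} : Set (EuclideanSpace ℝ (Fin N)))).isClosed_convexHull ℝ
  have h3 : vectorSpan ℝ F ≤ Submodule.span ℝ {p' - p} := by
    rw [vectorSpan_def, Submodule.span_le]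
    rintro x ⟨a, ha, b, hb, rfl⟩
    obtain ⟨u, v, hu, hv, huv, rfl⟩ := h2 ha
    obtain ⟨u', v', hu', hv', huv', rfl⟩ := h2 hb
    show (u • p + v • p') - (u' • p + v' • p') ∈ _
    rw [SetLike.mem_coe, Submodule.mem_span_singleton]
    refine ⟨v - v', ?_⟩
    have e1 : u = 1 - v := by linarith
    have e2 : u' = 1 - v' := by linarith
    rw [e1, e2]
    module
  have h4 := Submodule.finrank_mono h3
  have h5 := finrank_span_le_card (R := ℝ) ({p' - p} : Set (EuclideanSpace ℝ (Fin N)))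
  simp at h5
  omega

/-- an infinite good family with a common edge -/
theorem no_inf_edge [CompactSpace M] [T2Space M] [ConnectedSpace M] [LocallyPathConnectedSpace M]
    (S : CSetup f) (hN : 6 ≤ N) {t : M → M → ZMod 2} (ht0 : Coc univ t) (hn : ¬ Null univ t)
    {Φ : ℕ → Set (EuclideanSpace ℝ (Fin N))} (h2 : ∀ i, Two f (Φ i))
    (ht : ∀ i, Null {x | f x ∉ Φ i} t) (hinj : Function.Injective Φ)
    (hg : ∀ i j, i ≠ j → Good f t (Φ i) (Φ j)) {p p' : EuclideanSpace ℝ (Fin N)}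
    (hp : p ∈ extremePoints ℝ (Hul f)) (hp' : p' ∈ extremePoints ℝ (Hul f)) (hne : p ≠ p')
    (hpi : ∀ i, p ∈ Φ i) (hpi' : ∀ i, p' ∈ Φ i) : False := by
  have hKc : Convex ℝ (Hul f) := convex_convexHull ℝ _
  have hKk : IsCompact (Hul f) := hul_compact S.cont
  have hcv : ∀ i, Convex ℝ (Φ i) := fun i => fc_convex hKc (h2 i).1
  have hA : ∀ i j, i ≠ j → Φ i ∩ Φ j = segment ℝ p p' := by
    intro i j hij
    have hd := two_inter (fc_extreme (h2 i).1) (fc_extreme (h2 j).1) (hcv i) (hcv j)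
      (h2 i).2.1 (h2 j).2.1 (fun h => hij (hinj h))
    exact seg_of_line (fun x hx => fc_sub (h2 i).1 hx.1) ((hcv i).inter (hcv j)) hd hp hp' hne
      ⟨hpi i, hpi j⟩ ⟨hpi' i, hpi' j⟩
  obtain ⟨q, hq, hqp, hqp'⟩ := third_ext (fc_compact hKk (h2 0).1) (hcv 0) (h2 0).2.1 p p'
  have hqK : q ∈ extremePoints ℝ (Hul f) :=
    (fc_extreme (h2 0).1).extremePoints_subset_extremePoints hq
  refine five_good S hN ht0 hn (Φ := fun i : Fin 5 => Φ (i.val + 1)) (fun i => h2 _)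
    (fun i => ht _) ?_ ?_ hqK ?_ (Or.inr ⟨segment ℝ p p', ?_⟩)
  · intro i j hij
    have := hinj hij
    exact Fin.ext (by omega)
  · intro i j hij
    refine hg _ _ (fun h => hij (Fin.ext (by omega)))
  · intro i hqi
    have h1 : q ∈ segment ℝ p p' := by
      rw [← hA 0 (i.val + 1) (by omega)]
      exact ⟨hq.1, hqi⟩
    have h2' := (mem_extremePoints_iff_forall_segment.1 hqK).2 p hp.1 p' hp'.1 h1
    rcases h2' with h | h
    · exact hqp h.symm
    · exact hqp' h.symm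
  · intro i j hij
    exact hA _ _ (fun h => hij (Fin.ext (by omega)))

theorem exists_ext_ne42 {E : Type*} [NormedAddCommGroup E] [InnerProductSpace ℝ E]
    [FiniteDimensional ℝ E] {K F : Set E} (hK : IsCompact K) (hc : Convex ℝ K) (hF : Fc K F) (p : E)
    (h : ∃ r ∈ F, r ≠ p) : ∃ q ∈ F, q ∈ extremePoints ℝ K ∧ q ≠ p := by
  by_contra hcon
  push Not at hcon
  have hFc := fc_compact hK hF
  have hFv := fc_convex hc hF
  have hE : extremePoints ℝ F ⊆ {p} := fun q hq =>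
    hcon q hq.1 ((fc_extreme hF).extremePoints_subset_extremePoints hq)
  have hKM := closure_convexHull_extremePoints hFc hFv
  obtain ⟨r, hr, hrp⟩ := h
  rw [← hKM] at hr
  have hcl : closure (convexHull ℝ (extremePoints ℝ F)) ⊆ {p} := by
    apply closure_minimal _ isClosed_singleton
    exact convexHull_min hE (convex_singleton p)
  exact hrp (hcl hr)

theorem seg_of_ext42 {E : Type*} [NormedAddCommGroup E] [InnerProductSpace ℝ E]
    [FiniteDimensional ℝ E] {I : Set E} (hc : Convex ℝ I)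
    (hd : Module.finrank ℝ (vectorSpan ℝ I) ≤ 1) {p q : E} (hp : p ∈ extremePoints ℝ I)
    (hq : q ∈ extremePoints ℝ I) (hpq : p ≠ q) : I = segment ℝ p q := by
  obtain ⟨w, hw⟩ := line_fun hd
  have hmid : ∀ a ∈ I, ∀ b ∈ I, ∀ c ∈ I, ⟪w, a⟫_ℝ < ⟪w, c⟫_ℝ → ⟪w, c⟫_ℝ < ⟪w, b⟫_ℝ →
      c ∈ openSegment ℝ a b := by
    intro a ha b hb c hcI h1 h2
    have hD : 0 < ⟪w, b⟫_ℝ - ⟪w, a⟫_ℝ := by linarith
    set t : ℝ := (⟪w, c⟫_ℝ - ⟪w, a⟫_ℝ) / (⟪w, b⟫_ℝ - ⟪w, a⟫_ℝ) with ht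
    have ht0 : 0 < t := div_pos (by linarith) hD
    have ht1 : t < 1 := by
      rw [ht, div_lt_one hD]
      linarith
    have hx : (1 - t) • a + t • b ∈ I := hc ha hb (by linarith) ht0.le (by ring)
    have hwx : ⟪w, (1 - t) • a + t • b⟫_ℝ = ⟪w, c⟫_ℝ := by
      rw [inner_add_right, real_inner_smul_right, real_inner_smul_right]
      have h3 : t * (⟪w, b⟫_ℝ - ⟪w, a⟫_ℝ) = ⟪w, c⟫_ℝ - ⟪w, a⟫_ℝ := by
        rw [ht]
        exact div_mul_cancel₀ _ hD.ne'
      linear_combination h3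
    have hxc := hw _ hx c hcI hwx
    exact ⟨1 - t, t, by linarith, ht0, by ring, hxc⟩
  have key : ∀ p q : E, p ∈ extremePoints ℝ I → q ∈ extremePoints ℝ I → ⟪w, p⟫_ℝ < ⟪w, q⟫_ℝ →
      I ⊆ segment ℝ p q := by
    intro p q hp hq hlt r hr
    rcases lt_trichotomy ⟪w, r⟫_ℝ ⟪w, p⟫_ℝ with h | h | h
    · have h1 := hmid r hr q hq.1 p hp.1 h hlt
      have h2 := hp.2 hr hq.1 h1
      rw [h2] at h
      exact absurd h (lt_irrefl _)
    · rw [hw r hr p hp.1 h]
      exact left_mem_segment ℝ p q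
    · rcases lt_trichotomy ⟪w, r⟫_ℝ ⟪w, q⟫_ℝ with h' | h' | h'
      · exact openSegment_subset_segment ℝ p q (hmid p hp.1 q hq.1 r hr h h')
      · rw [hw r hr q hq.1 h']
        exact right_mem_segment ℝ p q
      · have h1 := hmid p hp.1 r hr q hq.1 hlt h'
        have h2 := hq.2 hp.1 hr h1
        rw [h2] at hlt
        exact absurd hlt (lt_irrefl _)
  apply Set.Subset.antisymm
  · rcases lt_trichotomy ⟪w, p⟫_ℝ ⟪w, q⟫_ℝ with h | h | h
    · exact key p q hp hq h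
    · exact absurd (hw p hp.1 q hq.1 h) hpq
    · rw [segment_symm]
      exact key q p hq hp h
  · exact hc.segment_subset hp.1 hq.1

/-- an infinite good family with a common point -/
theorem no_inf_pt [CompactSpace M] [T2Space M] [ConnectedSpace M] [LocallyPathConnectedSpace M]
    (S : CSetup f) (hN : 6 ≤ N) {t : M → M → ZMod 2} (ht0 : Coc univ t) (hn : ¬ Null univ t)
    {Φ : ℕ → Set (EuclideanSpace ℝ (Fin N))} (h2 : ∀ i, Two f (Φ i))
    (ht : ∀ i, Null {x | f x ∉ Φ i} t) (hinj : Function.Injective Φ)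
    (hg : ∀ i j, i ≠ j → Good f t (Φ i) (Φ j)) {p : EuclideanSpace ℝ (Fin N)}
    (hp : p ∈ extremePoints ℝ (Hul f)) (hpi : ∀ i, p ∈ Φ i) : False := by
  classical
  have hKc : IsCompact (Hul f) := hul_compact S.cont
  have hKv : Convex ℝ (Hul f) := convex_convexHull ℝ _
  have hex : ∀ i, ∃ r ∈ Φ i, r ≠ p := by
    intro i
    by_contra hcon
    push Not at hcon
    have h1 : Φ i ⊆ {p} := hcon
    have h3 := (h2 i).2.1
    have h4 : (Φ i).Subsingleton := subsingleton_singleton.anti h1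
    have h5 : vectorSpan ℝ (Φ i) = ⊥ := vectorSpan_of_subsingleton ℝ h4
    rw [h5, finrank_bot] at h3
    omega
  by_cases hB : ∃ i, {j | j ≠ i ∧ Φ i ∩ Φ j ≠ {p}}.Infinite
  · obtain ⟨i, hi⟩ := hB
    set J : Set ℕ := {j | j ≠ i ∧ Φ i ∩ Φ j ≠ {p}} with hJ
    have hq : ∀ j ∈ J, ∃ q, q ∈ Φ i ∩ Φ j ∧ q ∈ extremePoints ℝ (Hul f) ∧ q ≠ p ∧
        IsExtreme ℝ (Φ i) (segment ℝ p q) := by
      intro j hj
      have hne : (Φ i ∩ Φ j).Nonempty := ⟨p, hpi i, hpi j⟩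
      have hFc : Fc (Hul f) (Φ i ∩ Φ j) := fc_inter (h2 i).1 (h2 j).1 hne
      have hex2 : ∃ r ∈ Φ i ∩ Φ j, r ≠ p := by
        by_contra hcon
        push Not at hcon
        apply hj.2
        exact Set.Subset.antisymm (fun r hr => hcon r hr)
          (singleton_subset_iff.mpr ⟨hpi i, hpi j⟩)
      obtain ⟨q, hq1, hq2, hq3⟩ := exists_ext_ne42 hKc hKv hFc p hex2
      have hdim : Module.finrank ℝ (vectorSpan ℝ (Φ i ∩ Φ j)) ≤ 1 :=
        two_inter (fc_extreme (h2 i).1) (fc_extreme (h2 j).1) (fc_convex hKv (h2 i).1)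
          (fc_convex hKv (h2 j).1) (h2 i).2.1 (h2 j).2.1 (fun h => hj.1 (hinj h).symm)
      have hp1 : p ∈ extremePoints ℝ (Φ i ∩ Φ j) :=
        inter_extremePoints_subset_extremePoints_of_subset (fc_sub hFc) ⟨⟨hpi i, hpi j⟩, hp⟩
      have hq4 : q ∈ extremePoints ℝ (Φ i ∩ Φ j) :=
        inter_extremePoints_subset_extremePoints_of_subset (fc_sub hFc) ⟨hq1, hq2⟩
      have hseg : Φ i ∩ Φ j = segment ℝ p q :=
        seg_of_ext42 (fc_convex hKv hFc) hdim hp1 hq4 hq3.symm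
      have hext : IsExtreme ℝ (Φ i) (Φ i ∩ Φ j) :=
        (fc_extreme hFc).mono (fc_sub (h2 i).1) Set.inter_subset_left
      rw [hseg] at hext
      exact ⟨q, hq1, hq2, hq3, hext⟩
    choose! q hq1 hq2 hq3 hq4 using hq
    have hfin : (q '' J).Finite := by
      by_contra hinf
      obtain ⟨T, hT, hcard⟩ := Set.Infinite.exists_subset_card_eq hinf 3
      obtain ⟨a, b, c, hab, hac, hbc, rfl⟩ := Finset.card_eq_three.mp hcard
      obtain ⟨ja, hja, ha⟩ := hT (show a ∈ (({a, b, c} : Finset _) : Set _) by simp)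
      obtain ⟨jb, hjb, hb⟩ := hT (show b ∈ (({a, b, c} : Finset _) : Set _) by simp)
      obtain ⟨jc, hjc, hc⟩ := hT (show c ∈ (({a, b, c} : Finset _) : Set _) by simp)
      subst ha hb hc
      exact three_edges (fc_convex hKv (h2 i).1) (h2 i).2.1 (hq4 ja hja) (hq4 jb hjb)
        (hq4 jc hjc) (hq3 ja hja).symm (hq3 jb hjb).symm (hq3 jc hjc).symm hab hac hbc
    obtain ⟨p', hp'⟩ : ∃ p', {j | j ∈ J ∧ q j = p'}.Infinite := by
      by_contra hcon
      push Not at hcon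
      apply hi
      apply (hfin.biUnion (fun v _ => Set.not_infinite.mp
        (fun h => (Set.not_infinite.mpr (hcon v)) h))).subset
      intro j hj
      simp only [mem_iUnion]
      exact ⟨q j, ⟨j, hj, rfl⟩, hj, rfl⟩
    haveI : Infinite {j | j ∈ J ∧ q j = p'} := hp'.to_subtype
    set e := Nat.orderEmbeddingOfSet {j | j ∈ J ∧ q j = p'} with he
    have hmem : ∀ k, e k ∈ {j | j ∈ J ∧ q j = p'} := by
      intro k
      have h1 : e k ∈ Set.range e := ⟨k, rfl⟩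
      rw [he, Nat.orderEmbeddingOfSet_range] at h1
      exact h1
    have hpe : p' ∈ extremePoints ℝ (Hul f) := by
      have h1 := hq2 (e 0) (hmem 0).1
      rw [(hmem 0).2] at h1
      exact h1
    have hpne : p ≠ p' := by
      have h1 := hq3 (e 0) (hmem 0).1
      rw [(hmem 0).2] at h1
      exact h1.symm
    exact no_inf_edge S hN ht0 hn (Φ := fun k => Φ (e k)) (fun k => h2 _) (fun k => ht _)
      (hinj.comp e.injective) (fun k l hkl => hg _ _ (e.injective.ne hkl)) hp hpe hpne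
      (fun k => hpi _) (fun k => by
        have h1 := (hq1 (e k) (hmem k).1).2
        rw [(hmem k).2] at h1
        exact h1)
  · push Not at hB
    have hstep : ∀ n : ℕ, ∃ s : Finset ℕ, s.card = n ∧
        ∀ i ∈ s, ∀ j ∈ s, i ≠ j → Φ i ∩ Φ j = {p} := by
      intro n
      induction n with
      | zero => exact ⟨∅, rfl, by simp⟩
      | succ n ih =>
        obtain ⟨s, hs, hsp⟩ := ih
        have hfin : ((s : Set ℕ) ∪ ⋃ i ∈ (s : Set ℕ), {j | j ≠ i ∧ Φ i ∩ Φ j ≠ {p}}).Finite :=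
          s.finite_toSet.union (s.finite_toSet.biUnion (fun i _ => hB i))
        obtain ⟨j, hj⟩ := hfin.infinite_compl.nonempty
        have hjs : j ∉ s := fun h => hj (Or.inl h)
        have hji : ∀ i ∈ s, Φ i ∩ Φ j = {p} := by
          intro i hi
          by_contra hcon
          apply hj
          right
          simp only [mem_iUnion]
          exact ⟨i, hi, fun h => hjs (h ▸ hi), hcon⟩
        refine ⟨insert j s, by rw [Finset.card_insert_of_notMem hjs, hs], ?_⟩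
        intro a ha b hb hab
        rw [Finset.mem_insert] at ha hb
        rcases ha with rfl | ha
        · rcases hb with rfl | hb
          · exact absurd rfl hab
          · rw [inter_comm]
            exact hji b hb
        · rcases hb with rfl | hb
          · exact hji a ha
          · exact hsp a ha b hb hab
    obtain ⟨s, hs, hsp⟩ := hstep 6
    set g := s.orderEmbOfFin hs with hgdef
    have hgm : ∀ i, g i ∈ s := fun i => Finset.orderEmbOfFin_mem s hs i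
    have hpair : ∀ i j : Fin 6, i ≠ j → Φ (g i) ∩ Φ (g j) = {p} := fun i j hij =>
      hsp _ (hgm i) _ (hgm j) (g.injective.ne hij)
    obtain ⟨q, hq1, hq2, hq3⟩ := exists_ext_ne42 hKc hKv (h2 (g 0)).1 p (hex (g 0))
    refine five_good S hN ht0 hn (Φ := fun i : Fin 5 => Φ (g i.succ)) (fun i => h2 _)
      (fun i => ht _) ?_ ?_ (p := q) hq2 ?_ (Or.inr ⟨{p}, fun i j hij => ?_⟩)
    · intro i j hij
      exact Fin.succ_injective 5 (g.injective (hinj hij))
    · intro i j hij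
      exact hg _ _ (g.injective.ne ((Fin.succ_injective 5).ne hij))
    · intro i hqi
      have h1 : q ∈ Φ (g 0) ∩ Φ (g i.succ) := ⟨hq1, hqi⟩
      rw [hpair 0 i.succ (Fin.succ_ne_zero i).symm] at h1
      exact hq3 h1
    · exact hpair i.succ j.succ ((Fin.succ_injective 5).ne hij)

/-- no infinite good family -/
theorem no_inf_good [CompactSpace M] [T2Space M] [ConnectedSpace M] [LocallyPathConnectedSpace M]
    (S : CSetup f) (hN : 6 ≤ N) {t : M → M → ZMod 2} (ht0 : Coc univ t) (hn : ¬ Null univ t)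
    {Φ : ℕ → Set (EuclideanSpace ℝ (Fin N))} (h2 : ∀ i, Two f (Φ i))
    (ht : ∀ i, Null {x | f x ∉ Φ i} t) (hinj : Function.Injective Φ)
    (hg : ∀ i j, i ≠ j → Good f t (Φ i) (Φ j)) : False := by
  classical
  have hKc : IsCompact (Hul f) := hul_compact S.cont
  have hKn : (Hul f).Nonempty := by
    have : Nonempty M := inferInstance
    obtain ⟨x⟩ := this
    exact ⟨f x, subset_convexHull ℝ _ (mem_range_self x)⟩
  have hKv : Convex ℝ (Hul f) := convex_convexHull ℝ _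
  by_cases hcase : ∃ p ∈ extremePoints ℝ (Hul f), {i | p ∈ Φ i}.Infinite
  · obtain ⟨p, hp, hinf⟩ := hcase
    let e := hinf.natEmbedding
    refine no_inf_pt S hN ht0 hn (Φ := fun i => Φ (e i : ℕ)) (fun i => h2 _) (fun i => ht _) ?_ ?_
      (p := p) hp (fun i => (e i).2)
    · intro i j hij
      exact e.injective (Subtype.ext (hinj hij))
    · intro i j hij
      refine hg _ _ ?_
      intro h
      exact hij (e.injective (Subtype.ext h))
  · push Not at hcase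
    have hfin : ∀ p ∈ extremePoints ℝ (Hul f), {i | p ∈ Φ i}.Finite := by
      intro p hp
      exact hcase p hp
    obtain ⟨p, hp⟩ := hKc.extremePoints_nonempty hKn
    let B : ℕ → ℕ → Set ℕ := fun a b =>
      ⋃ r ∈ (Φ a ∩ Φ b) ∩ extremePoints ℝ (Hul f), {i | r ∈ Φ i}
    have hB : ∀ a b, a ≠ b → (B a b).Finite := by
      intro a b hab
      have h1 : ((Φ a ∩ Φ b) ∩ extremePoints ℝ (Hul f)).Finite := by
        refine line_ext (K := Hul f) ?_ ?_
        · exact fun r hr => fc_sub (h2 a).1 hr.1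
        · exact two_inter (fc_extreme (h2 a).1) (fc_extreme (h2 b).1) (fc_convex hKv (h2 a).1)
            (fc_convex hKv (h2 b).1) (h2 a).2.1 (h2 b).2.1 (fun h => hab (hinj h))
      exact h1.biUnion (fun r hr => hfin r hr.2)
    have hch : ∀ m : ℕ, ∃ y : ℕ, m < y ∧ p ∉ Φ y ∧ ∀ a ≤ m, ∀ b ≤ m, a ≠ b → y ∉ B a b := by
      intro m
      have hF : ({i | p ∈ Φ i} ∪ {i | i ≤ m} ∪
          ⋃ a ∈ {a : ℕ | a ≤ m}, ⋃ b ∈ {b : ℕ | b ≤ m ∧ a ≠ b}, B a b).Finite := by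
        refine ((hfin p hp).union (Set.finite_le_nat m)).union ?_
        refine (Set.finite_le_nat m).biUnion (fun a _ => ?_)
        refine ((Set.finite_le_nat m).subset (fun b hb => hb.1)).biUnion (fun b hb => ?_)
        exact hB a b hb.2
      obtain ⟨y, hy⟩ := hF.exists_notMem
      refine ⟨y, ?_, ?_, ?_⟩
      · by_contra h
        exact hy (Or.inl (Or.inr (not_lt.mp h)))
      · intro h
        exact hy (Or.inl (Or.inl h))
      · intro a ha b hb hab h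
        refine hy (Or.inr ?_)
        simp only [Set.mem_iUnion]
        exact ⟨a, ha, b, ⟨hb, hab⟩, h⟩
    choose h hh1 hh2 hh3 using hch
    let x : ℕ → ℕ := fun k => h^[k + 1] 0
    have hx : ∀ k, x (k + 1) = h (x k) := fun k => Function.iterate_succ_apply' h (k + 1) 0
    have hmono : StrictMono x := strictMono_nat_of_lt_succ (fun k => by rw [hx]; exact hh1 _)
    have hxp : ∀ k, p ∉ Φ (x k) := by
      intro k
      have : x k = h (h^[k] 0) := Function.iterate_succ_apply' h k 0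
      rw [this]
      exact hh2 _
    have key : ∀ a b c : ℕ, a < b → b < c → ∀ r ∈ extremePoints ℝ (Hul f),
        r ∈ Φ (x a) → r ∈ Φ (x b) → r ∉ Φ (x c) := by
      intro a b c hab hbc r hr hra hrb hrc
      obtain ⟨c', rfl⟩ : ∃ c', c = c' + 1 := ⟨c - 1, by omega⟩
      rw [hx] at hrc
      refine hh3 (x c') (x a) ?_ (x b) ?_ ?_ ?_
      · exact hmono.monotone (by omega)
      · exact hmono.monotone (by omega)
      · exact (hmono hab).ne
      · simp only [B, Set.mem_iUnion]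
        exact ⟨r, ⟨⟨hra, hrb⟩, hr⟩, hrc⟩
    have key2 : ∀ i j k : ℕ, i ≠ j → i ≠ k → j ≠ k → ∀ r ∈ extremePoints ℝ (Hul f),
        r ∈ Φ (x i) → r ∈ Φ (x j) → r ∉ Φ (x k) := by
      intro i j k hij hik hjk r hr h1 h2 h3
      rcases lt_or_gt_of_ne hij with a | a <;> rcases lt_or_gt_of_ne hik with b | b <;>
        rcases lt_or_gt_of_ne hjk with c | c
      · exact key i j k a c r hr h1 h2 h3
      · exact key i k j b c r hr h1 h3 h2
      · omega
      · exact key k i j b a r hr h3 h1 h2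
      · exact key j i k a b r hr h2 h1 h3
      · omega
      · exact key j k i c b r hr h2 h3 h1
      · exact key k j i c a r hr h3 h2 h1
    have hinjx : Function.Injective (fun i : Fin 5 => Φ (x i)) := by
      intro i j hij
      exact Fin.ext (hmono.injective (hinj hij))
    refine five_good S hN ht0 hn (Φ := fun i : Fin 5 => Φ (x i)) (fun i => h2 _) (fun i => ht _)
      hinjx ?_ (p := p) hp (fun i => hxp _) (Or.inl ?_)
    · intro i j hij
      refine hg _ _ ?_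
      intro h
      exact hij (Fin.ext (hmono.injective h))
    · intro i j k hij hik hjk r hri hrj hrk
      have hne : (Φ (x i) ∩ Φ (x j)).Nonempty := ⟨r, hri, hrj⟩
      have hf1 : Fc (Hul f) (Φ (x i) ∩ Φ (x j)) := fc_inter (h2 _).1 (h2 _).1 hne
      have hne2 : ((Φ (x i) ∩ Φ (x j)) ∩ Φ (x k)).Nonempty := ⟨r, ⟨hri, hrj⟩, hrk⟩
      have hf2 : Fc (Hul f) ((Φ (x i) ∩ Φ (x j)) ∩ Φ (x k)) := fc_inter hf1 (h2 _).1 hne2
      obtain ⟨e, he⟩ := (fc_compact hKc hf2).extremePoints_nonempty hne2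
      have he2 : e ∈ extremePoints ℝ (Hul f) :=
        (fc_extreme hf2).extremePoints_subset_extremePoints he
      have he3 := he.1
      exact key2 i j k (fun h => hij (Fin.ext h)) (fun h => hik (Fin.ext h))
        (fun h => hjk (Fin.ext h)) e he2 he3.1.1 he3.1.2 he3.2

theorem ramsey_aux (U : Ultrafilter ℕ) (hU : (U : Filter ℕ) ≤ Filter.atTop) (G : ℕ → ℕ → Prop)
    (h : ∀ᶠ i in (U : Filter ℕ), ∀ᶠ j in (U : Filter ℕ), G i j) :
    ∃ g : ℕ → ℕ, ∀ m n, m < n → g m < g n ∧ G (g m) (g n) := by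
  obtain ⟨g, -, hg⟩ := exists_seq_of_forall_finset_exists
    (fun i => ∀ᶠ j in (U : Filter ℕ), G i j) (fun x y => x < y ∧ G x y) (by
      intro s hs
      have h1 : ∀ᶠ y in (U : Filter ℕ), ∀ x ∈ s, x < y ∧ G x y := by
        rw [Filter.eventually_all_finset]
        intro x hx
        exact Filter.Eventually.and (hU (Filter.eventually_gt_atTop x)) (hs x hx)
      obtain ⟨y, hy1, hy2⟩ := (h.and h1).exists
      exact ⟨y, hy1, hy2⟩)
  exact ⟨g, hg⟩

/-- Ramsey for pairs -/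
theorem ramsey_pairs (G : ℕ → ℕ → Prop) (hs : ∀ i j, G i j → G j i) :
    ∃ g : ℕ → ℕ, StrictMono g ∧
      ((∀ i j, i ≠ j → G (g i) (g j)) ∨ (∀ i j, i ≠ j → ¬ G (g i) (g j))) := by
  have hU : ((Filter.hyperfilter ℕ : Ultrafilter ℕ) : Filter ℕ) ≤ Filter.atTop := by
    rw [← Nat.cofinite_eq_atTop]
    exact Filter.hyperfilter_le_cofinite
  have key : (∀ᶠ i in ((Filter.hyperfilter ℕ : Ultrafilter ℕ) : Filter ℕ),
      ∀ᶠ j in ((Filter.hyperfilter ℕ : Ultrafilter ℕ) : Filter ℕ), G i j) ∨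
      (∀ᶠ i in ((Filter.hyperfilter ℕ : Ultrafilter ℕ) : Filter ℕ),
      ∀ᶠ j in ((Filter.hyperfilter ℕ : Ultrafilter ℕ) : Filter ℕ), ¬ G i j) := by
    rcases Ultrafilter.em (Filter.hyperfilter ℕ)
      (fun i => ∀ᶠ j in ((Filter.hyperfilter ℕ : Ultrafilter ℕ) : Filter ℕ), G i j) with h | h
    · exact Or.inl h
    · right
      filter_upwards [h] with i hi
      exact Ultrafilter.eventually_not.2 hi
  rcases key with h | h
  · obtain ⟨g, hg⟩ := ramsey_aux _ hU G h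
    refine ⟨g, fun m n hmn => (hg m n hmn).1, Or.inl fun i j hij => ?_⟩
    rcases lt_or_gt_of_ne hij with h1 | h1
    · exact (hg _ _ h1).2
    · exact hs _ _ (hg _ _ h1).2
  · obtain ⟨g, hg⟩ := ramsey_aux _ hU (fun i j => ¬ G i j) h
    refine ⟨g, fun m n hmn => (hg m n hmn).1, Or.inr fun i j hij => ?_⟩
    rcases lt_or_gt_of_ne hij with h1 | h1
    · exact (hg _ _ h1).2
    · exact fun h2 => (hg _ _ h1).2 (hs _ _ h2)

end Pool.Agent.Helper775.Clo
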