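import Pool.Agent.Helper775.Clo.Fac

/-! Closed surfaces: slices near extreme points. -/

set_option autoImplicit false

namespace Pool.Agent.Helper775.Clo

open Set Topology Metric
open Pool.Agent.Helper775.Surf
open scoped InnerProductSpace

variable {M : Type*} [TopologicalSpace M] {N : ℕ} {f : M → EuclideanSpace ℝ (Fin N)}

/-- the union of the preimages of the faces along a path of functionals -/
def Arc {M : Type*} {N : ℕ} (f : M → EuclideanSpace ℝ (Fin N))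
    (P : Set (EuclideanSpace ℝ (Fin N))) (γ : ℝ → EuclideanSpace ℝ (Fin N)) : Set M :=
  {x | f x ∈ P ∧ ∃ s ∈ Icc (0 : ℝ) 1, ∀ r ∈ P, ⟪γ s, r⟫_ℝ ≤ ⟪γ s, f x⟫_ℝ}

theorem arc_graph_closed (hf : Continuous f) {P : Set (EuclideanSpace ℝ (Fin N))}
    (hP : IsCompact P) {γ : ℝ → EuclideanSpace ℝ (Fin N)} (hγ : Continuous γ) :
    IsClosed {p : ↥(Icc (0 : ℝ) 1) × M | f p.2 ∈ P ∧
      ∀ r ∈ P, ⟪γ p.1, r⟫_ℝ ≤ ⟪γ p.1, f p.2⟫_ℝ} := by
  have h1 : IsClosed {p : ↥(Icc (0 : ℝ) 1) × M | f p.2 ∈ P} :=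
    hP.isClosed.preimage (hf.comp continuous_snd)
  have h2 : IsClosed {p : ↥(Icc (0 : ℝ) 1) × M | ∀ r ∈ P, ⟪γ p.1, r⟫_ℝ ≤ ⟪γ p.1, f p.2⟫_ℝ} := by
    simp only [setOf_forall]
    refine isClosed_iInter fun r => isClosed_iInter fun _ => isClosed_le ?_ ?_
    · exact (hγ.comp (continuous_subtype_val.comp continuous_fst)).inner continuous_const
    · exact (hγ.comp (continuous_subtype_val.comp continuous_fst)).inner (hf.comp continuous_snd)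
  exact h1.inter h2

theorem arc_closed [CompactSpace M] (hf : Continuous f) {P : Set (EuclideanSpace ℝ (Fin N))}
    (hP : IsCompact P) {γ : ℝ → EuclideanSpace ℝ (Fin N)} (hγ : Continuous γ) :
    IsClosed (Arc f P γ) := by
  have hc := isClosedMap_snd_of_compactSpace _ (arc_graph_closed hf hP hγ)
  have he : Arc f P γ = Prod.snd '' {p : ↥(Icc (0 : ℝ) 1) × M | f p.2 ∈ P ∧
      ∀ r ∈ P, ⟪γ p.1, r⟫_ℝ ≤ ⟪γ p.1, f p.2⟫_ℝ} := by
    ext x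
    constructor
    · rintro ⟨h1, s, hs, h2⟩
      exact ⟨(⟨s, hs⟩, x), ⟨h1, h2⟩, rfl⟩
    · rintro ⟨⟨s, x⟩, ⟨h1, h2⟩, rfl⟩
      exact ⟨h1, s.1, s.2, h2⟩
  rw [he]
  exact hc

theorem arc_conn [CompactSpace M] [T2Space M] (hf : Continuous f)
    {P : Set (EuclideanSpace ℝ (Fin N))} (hP : IsCompact P)
    {γ : ℝ → EuclideanSpace ℝ (Fin N)} (hγ : Continuous γ)
    (hT : ∀ s ∈ Icc (0 : ℝ) 1, IsPreconnected {x | f x ∈ P ∧ ∀ r ∈ P, ⟪γ s, r⟫_ℝ ≤ ⟪γ s, f x⟫_ℝ})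
    (hne : ∀ s ∈ Icc (0 : ℝ) 1, {x | f x ∈ P ∧ ∀ r ∈ P, ⟪γ s, r⟫_ℝ ≤ ⟪γ s, f x⟫_ℝ}.Nonempty) :
    IsPreconnected (Arc f P γ) := by
  rw [isPreconnected_closed_iff]
  intro t t' ht ht' hsub hnt hnt'
  have hG := arc_graph_closed (M := M) hf hP hγ
  have key : ∀ u : Set M, IsClosed u → IsClosed {s : ↥(Icc (0 : ℝ) 1) |
      ({x | f x ∈ P ∧ ∀ r ∈ P, ⟪γ s, r⟫_ℝ ≤ ⟪γ s, f x⟫_ℝ} ∩ u).Nonempty} := by
    intro u hu
    have h1 := isClosedMap_fst_of_compactSpace _ (hG.inter (hu.preimage continuous_snd))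
    have he : {s : ↥(Icc (0 : ℝ) 1) |
        ({x | f x ∈ P ∧ ∀ r ∈ P, ⟪γ s, r⟫_ℝ ≤ ⟪γ s, f x⟫_ℝ} ∩ u).Nonempty} =
        Prod.fst '' ({p : ↥(Icc (0 : ℝ) 1) × M | f p.2 ∈ P ∧
          ∀ r ∈ P, ⟪γ p.1, r⟫_ℝ ≤ ⟪γ p.1, f p.2⟫_ℝ} ∩ Prod.snd ⁻¹' u) := by
      ext s
      constructor
      · rintro ⟨x, h2, h3⟩
        exact ⟨(s, x), ⟨h2, h3⟩, rfl⟩
      · rintro ⟨⟨s, x⟩, ⟨h2, h3⟩, rfl⟩
        exact ⟨x, h2, h3⟩
    rw [he]
    exact h1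
  have hI : IsPreconnected (univ : Set ↥(Icc (0 : ℝ) 1)) :=
    isPreconnected_iff_preconnectedSpace.1 isPreconnected_Icc |>.isPreconnected_univ
  obtain ⟨s, -, hs1, hs2⟩ := isPreconnected_closed_iff.1 hI _ _ (key t ht) (key t' ht')
    (by
      intro s _
      obtain ⟨x, hx⟩ := hne s.1 s.2
      have hxA : x ∈ Arc f P γ := ⟨hx.1, s.1, s.2, hx.2⟩
      rcases hsub hxA with h | h
      · exact Or.inl ⟨x, hx, h⟩
      · exact Or.inr ⟨x, hx, h⟩)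
    (by
      obtain ⟨x, ⟨h1, s, hs, h2⟩, h3⟩ := hnt
      exact ⟨⟨s, hs⟩, trivial, x, ⟨h1, h2⟩, h3⟩)
    (by
      obtain ⟨x, ⟨h1, s, hs, h2⟩, h3⟩ := hnt'
      exact ⟨⟨s, hs⟩, trivial, x, ⟨h1, h2⟩, h3⟩)
  obtain ⟨x, hx, hxt⟩ := isPreconnected_closed_iff.1 (hT s.1 s.2) t t' ht ht'
    (fun x hx => hsub ⟨hx.1, s.1, s.2, hx.2⟩) hs1 hs2
  exact ⟨x, ⟨hx.1, s.1, s.2, hx.2⟩, hxt⟩

/-- the two halves of a circle of functionals meet in two disjoint pieces -/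
theorem arc_inter [CompactSpace M] [T2Space M] (hf : Continuous f)
    {P : Set (EuclideanSpace ℝ (Fin N))} (hP : IsCompact P)
    {w₁ w₂ : EuclideanSpace ℝ (Fin N)}
    (hw : ∀ a b : ℝ, (a ≠ 0 ∨ b ≠ 0) →
      ∃ r ∈ P, ∃ r' ∈ P, ⟪a • w₁ + b • w₂, r⟫_ℝ < ⟪a • w₁ + b • w₂, r'⟫_ℝ)
    (hne : ∀ w, {x | f x ∈ P ∧ ∀ r ∈ P, ⟪w, r⟫_ℝ ≤ ⟪w, f x⟫_ℝ}.Nonempty) :
    ¬ IsPreconnected (Arc f P (fun s => (1 - 2 * s) • w₁ + (4 * s * (1 - s)) • w₂) ∩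
      Arc f P (fun s => (1 - 2 * s) • w₁ + (-(4 * s * (1 - s))) • w₂)) := by
  intro hpre
  have key : ∀ (a b : ℝ) (r : EuclideanSpace ℝ (Fin N)),
      ⟪a • w₁ + b • w₂, r⟫_ℝ = a * ⟪w₁, r⟫_ℝ + b * ⟪w₂, r⟫_ℝ := by
    intro a b r
    rw [inner_add_left, real_inner_smul_left, real_inner_smul_left]
  have hcl : ∀ w, IsClosed {x | f x ∈ P ∧ ∀ r ∈ P, ⟪w, r⟫_ℝ ≤ ⟪w, f x⟫_ℝ} := by
    intro w
    have h1 : IsClosed {x | f x ∈ P} := hP.isClosed.preimage hf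
    have h2 : IsClosed (⋂ r ∈ P, {x | ⟪w, r⟫_ℝ ≤ ⟪w, f x⟫_ℝ}) :=
      isClosed_biInter fun r _ => isClosed_le continuous_const (continuous_const.inner hf)
    have h3 : {x | f x ∈ P ∧ ∀ r ∈ P, ⟪w, r⟫_ℝ ≤ ⟪w, f x⟫_ℝ} =
        {x | f x ∈ P} ∩ ⋂ r ∈ P, {x | ⟪w, r⟫_ℝ ≤ ⟪w, f x⟫_ℝ} := by
      ext x
      simp only [mem_setOf_eq, mem_inter_iff, mem_iInter]
    rw [h3]
    exact h1.inter h2
  rw [isPreconnected_closed_iff] at hpre
  have hconst : ∀ x, x ∈ {x | f x ∈ P ∧ ∀ r ∈ P, ⟪w₁, r⟫_ℝ ≤ ⟪w₁, f x⟫_ℝ} →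
      x ∈ {x | f x ∈ P ∧ ∀ r ∈ P, ⟪-w₁, r⟫_ℝ ≤ ⟪-w₁, f x⟫_ℝ} → False := by
    rintro x ⟨_, h1⟩ ⟨_, h2⟩
    obtain ⟨r, hr, r', hr', hlt⟩ := hw 1 0 (Or.inl one_ne_zero)
    rw [key, key] at hlt
    have e1 := h1 r' hr'
    have e2 := h2 r hr
    rw [inner_neg_left, inner_neg_left] at e2
    linarith
  suffices hsuf : _ ∧ _ ∧ _ by
    obtain ⟨x, hx0, hx1, hx2⟩ := hpre _ _ (hcl w₁) (hcl (-w₁)) hsuf.1 hsuf.2.1 hsuf.2.2
    exact hconst x hx1 hx2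
  refine ⟨?_, ?_, ?_⟩
  · rintro x ⟨⟨hxP, s, hs, h1⟩, ⟨_, s', hs', h2⟩⟩
    simp only [key] at h1 h2
    have hb : 0 ≤ 4 * s * (1 - s) := by
      have := hs.1; have := hs.2
      have : 0 ≤ s * (1 - s) := mul_nonneg hs.1 (by linarith)
      linarith
    have hb' : 0 ≤ 4 * s' * (1 - s') := by
      have : 0 ≤ s' * (1 - s') := mul_nonneg hs'.1 (by linarith [hs'.2])
      linarith
    -- endpoints
    have hend : ∀ s : ℝ, 4 * s * (1 - s) = 0 → s = 0 ∨ s = 1 := by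
      intro s h
      have : s * (1 - s) = 0 := by linarith
      rcases mul_eq_zero.mp this with h | h
      · exact Or.inl h
      · right; linarith
    rcases hb.lt_or_eq with hbp | hb0
    swap
    · rcases hend s hb0.symm with rfl | rfl
      · left
        refine ⟨hxP, fun r hr => ?_⟩
        have := h1 r hr
        linarith
      · right
        refine ⟨hxP, fun r hr => ?_⟩
        have := h1 r hr
        rw [inner_neg_left, inner_neg_left]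
        linarith
    rcases hb'.lt_or_eq with hbp' | hb0'
    swap
    · rcases hend s' hb0'.symm with rfl | rfl
      · left
        refine ⟨hxP, fun r hr => ?_⟩
        have := h2 r hr
        linarith
      · right
        refine ⟨hxP, fun r hr => ?_⟩
        have := h2 r hr
        rw [inner_neg_left, inner_neg_left]
        linarith
    set b := 4 * s * (1 - s) with hbdef
    set b' := 4 * s' * (1 - s') with hbdef'
    set a := 1 - 2 * s with hadef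
    set a' := 1 - 2 * s' with hadef'
    have hk : ∀ r ∈ P, (a * b' + a' * b) * ⟪w₁, r⟫_ℝ ≤ (a * b' + a' * b) * ⟪w₁, f x⟫_ℝ := by
      intro r hr
      have e1 := mul_le_mul_of_nonneg_left (h1 r hr) hbp'.le
      have e2 := mul_le_mul_of_nonneg_left (h2 r hr) hbp.le
      nlinarith [e1, e2]
    rcases lt_trichotomy (a * b' + a' * b) 0 with hk0 | hk0 | hk0
    · right
      refine ⟨hxP, fun r hr => ?_⟩
      have hk1 := hk r hr
      have hk2 : ⟪w₁, f x⟫_ℝ ≤ ⟪w₁, r⟫_ℝ := by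
        refine le_of_mul_le_mul_left (a := -(a * b' + a' * b)) ?_ (by linarith)
        linarith
      rw [inner_neg_left, inner_neg_left]
      linarith
    · exfalso
      obtain ⟨r, hr, r', hr', hlt⟩ := hw a b (Or.inr hbp.ne')
      rw [key, key] at hlt
      have e1 := h1 r' hr'
      have e2 := mul_le_mul_of_nonneg_left (h2 r hr) hbp.le
      -- b * (a' φ₁ - b' φ₂) = - b' * (a φ₁ + b φ₂)
      have e3 : ∀ p q : ℝ, b * (a' * p + -b' * q) = - (b' * (a * p + b * q)) := by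
        intro p q
        have : a' * b = - (a * b') := by linarith
        linear_combination p * this
      rw [e3, e3] at e2
      have e4 : a * ⟪w₁, f x⟫_ℝ + b * ⟪w₂, f x⟫_ℝ ≤ a * ⟪w₁, r⟫_ℝ + b * ⟪w₂, r⟫_ℝ := by
        have := neg_le_neg_iff.mp e2
        exact le_of_mul_le_mul_left this hbp'
      linarith
    · left
      refine ⟨hxP, fun r hr => ?_⟩
      exact le_of_mul_le_mul_left (hk r hr) hk0
  · obtain ⟨x, hxP, hx⟩ := hne w₁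
    refine ⟨x, ⟨⟨hxP, 0, ⟨le_rfl, zero_le_one⟩, ?_⟩, ⟨hxP, 0, ⟨le_rfl, zero_le_one⟩, ?_⟩⟩, hxP, hx⟩
    · intro r hr
      have := hx r hr
      simp only [key]
      linarith
    · intro r hr
      have := hx r hr
      simp only [key]
      linarith
  · obtain ⟨x, hxP, hx⟩ := hne (-w₁)
    refine ⟨x, ⟨⟨hxP, 1, ⟨zero_le_one, le_rfl⟩, ?_⟩, ⟨hxP, 1, ⟨zero_le_one, le_rfl⟩, ?_⟩⟩, hxP, hx⟩
    · intro r hr
      have := hx r hr
      rw [inner_neg_left, inner_neg_left] at this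
      simp only [key]
      linarith
    · intro r hr
      have := hx r hr
      rw [inner_neg_left, inner_neg_left] at this
      simp only [key]
      linarith

theorem cs3_chart_conn {D : Set M} {ψ : M → ℝ × ℝ} {φ : ℝ × ℝ → M} (h : Chart D BoxI ψ φ) :
    IsPreconnected D := by
  have h1 : D = φ '' BoxI := by
    ext x
    constructor
    · intro hx
      exact ⟨ψ x, h.mψ x hx, h.left x hx⟩
    · rintro ⟨p, hp, rfl⟩
      exact h.mφ p hp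
  rw [h1]
  exact ((convex_ball (0 : ℝ × ℝ) 1).isPreconnected).image φ h.cφ

theorem cs3_ann {ρ : ℝ} (h0 : 0 ≤ ρ) : IsPreconnected (BoxI \ closedBall (0 : ℝ × ℝ) ρ) := by
  have hrank : 1 < Module.rank ℝ (ℝ × ℝ) := by
    have h1 : 1 < Module.finrank ℝ (ℝ × ℝ) := by simp [Module.finrank_prod]
    exact_mod_cast Module.lt_rank_of_lt_finrank h1
  have h1 : IsPreconnected (Ioo ρ 1 ×ˢ sphere (0 : ℝ × ℝ) 1) :=
    isPreconnected_Ioo.prod (isPreconnected_sphere hrank 0 1)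
  have h2 := h1.image (fun p : ℝ × (ℝ × ℝ) => p.1 • p.2) (by fun_prop)
  have h3 : (fun p : ℝ × (ℝ × ℝ) => p.1 • p.2) '' (Ioo ρ 1 ×ˢ sphere (0 : ℝ × ℝ) 1)
      = BoxI \ closedBall (0 : ℝ × ℝ) ρ := by
    ext p
    simp only [BoxI, mem_sdiff, mem_ball_zero_iff, mem_closedBall_zero_iff, not_le, mem_image]
    constructor
    · rintro ⟨⟨t, q⟩, ⟨ht, hq⟩, rfl⟩
      have hq' : ‖q‖ = 1 := by simpa using hq
      have ht0 : 0 ≤ t := h0.trans ht.1.le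
      have : ‖t • q‖ = t := by rw [norm_smul, hq', mul_one, Real.norm_of_nonneg ht0]
      show ‖t • q‖ < 1 ∧ ρ < ‖t • q‖
      rw [this]
      exact ⟨ht.2, ht.1⟩
    · rintro ⟨h4, h5⟩
      have hp : 0 < ‖p‖ := lt_of_le_of_lt h0 h5
      refine ⟨(‖p‖, ‖p‖⁻¹ • p), ⟨⟨h5, h4⟩, ?_⟩, ?_⟩
      · rw [mem_sphere_zero_iff_norm, norm_smul, norm_inv, norm_norm, inv_mul_cancel₀ hp.ne']
      · show ‖p‖ • (‖p‖⁻¹ • p) = p
        rw [smul_smul, mul_inv_cancel₀ hp.ne', one_smul]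
  rw [← h3]
  exact h2

theorem cs3_aux [CompactSpace M] [T2Space M] {D : Set M} {ψ : M → ℝ × ℝ} {φ : ℝ × ℝ → M}
    (h : Chart D BoxI ψ φ) {cap : Set M} (hcl : IsClosed cap) (hD : cap ⊆ D)
    (hU : IsPreconnected capᶜ) {ρ : ℝ} (h0 : 0 ≤ ρ) (h1 : ρ < 1) (hρ : ∀ x ∈ cap, ‖ψ x‖ ≤ ρ)
    {u v : Set M} (hu : IsOpen u) (hv : IsOpen v) (hdis : Disjoint u v) (hun : u ∪ v = D \ cap)
    (hvn : v.Nonempty) (hR : φ '' (BoxI \ closedBall (0 : ℝ × ℝ) ρ) ⊆ u) : False := by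
  have hBsub : closedBall (0 : ℝ × ℝ) ρ ⊆ BoxI := by
    intro p hp
    rw [mem_closedBall_zero_iff] at hp
    rw [BoxI, mem_ball_zero_iff]
    linarith
  have hC : IsCompact (φ '' closedBall (0 : ℝ × ℝ) ρ) :=
    (isCompact_closedBall (0 : ℝ × ℝ) ρ).image_of_continuousOn (h.cφ.mono hBsub)
  have hCc : IsClosed (φ '' closedBall (0 : ℝ × ℝ) ρ) := hC.isClosed
  have hvD : v ⊆ D \ cap := by
    rw [← hun]
    exact subset_union_right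
  have huD : u ⊆ D \ cap := by
    rw [← hun]
    exact subset_union_left
  have hvC : v ⊆ φ '' closedBall (0 : ℝ × ℝ) ρ := by
    intro x hx
    have hxD := (hvD hx).1
    by_cases hn : ‖ψ x‖ ≤ ρ
    · exact ⟨ψ x, by rw [mem_closedBall_zero_iff]; exact hn, h.left x hxD⟩
    · exfalso
      have hxu : x ∈ u := by
        apply hR
        refine ⟨ψ x, ⟨h.mψ x hxD, ?_⟩, h.left x hxD⟩
        rw [mem_closedBall_zero_iff]
        exact hn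
      exact (Set.disjoint_left.1 hdis) hxu hx
  have hclC : closure v ⊆ φ '' closedBall (0 : ℝ × ℝ) ρ := closure_minimal hvC hCc
  have hCD : φ '' closedBall (0 : ℝ × ℝ) ρ ⊆ D := by
    rintro x ⟨p, hp, rfl⟩
    exact h.mφ p (hBsub hp)
  have hclv : closure v ∩ capᶜ ⊆ v := by
    rintro x ⟨hx1, hx2⟩
    have h3 : x ∈ D \ cap := ⟨hCD (hclC hx1), hx2⟩
    rw [← hun] at h3
    rcases h3 with h3 | h3
    · exfalso
      rw [_root_.mem_closure_iff] at hx1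
      obtain ⟨y, hy1, hy2⟩ := hx1 u hu h3
      exact (Set.disjoint_left.1 hdis) hy1 hy2
    · exact h3
  have hsub : capᶜ ⊆ v ∪ (closure v)ᶜ := by
    intro x hx
    by_cases hxc : x ∈ closure v
    · exact Or.inl (hclv ⟨hxc, hx⟩)
    · exact Or.inr hxc
  have hdis2 : Disjoint v (closure v)ᶜ := by
    rw [Set.disjoint_left]
    intro x hx hx2
    exact hx2 (subset_closure hx)
  have hne : (capᶜ ∩ v).Nonempty := by
    obtain ⟨x, hx⟩ := hvn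
    exact ⟨x, (hvD hx).2, hx⟩
  have hall : capᶜ ⊆ v := hU.subset_left_of_subset_union hv isClosed_closure.isOpen_compl hdis2 hsub hne
  -- a point of the annulus
  have hp : ((((1 + ρ) / 2 : ℝ), (0 : ℝ)) : ℝ × ℝ) ∈ BoxI \ closedBall (0 : ℝ × ℝ) ρ := by
    have hn : ‖(((1 + ρ) / 2 : ℝ), (0 : ℝ))‖ = (1 + ρ) / 2 := by
      rw [Prod.norm_def]
      simp only [norm_zero]
      rw [Real.norm_of_nonneg (by linarith)]
      exact max_eq_left (by linarith)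
    rw [BoxI]
    refine ⟨?_, ?_⟩
    · rw [mem_ball_zero_iff, hn]
      linarith
    · rw [mem_closedBall_zero_iff, hn]
      linarith
  have hxu := hR ⟨_, hp, rfl⟩
  exact (Set.disjoint_left.1 hdis) hxu (hall (huD hxu).2)

theorem cs3_diff [CompactSpace M] [T2Space M] {D : Set M} {ψ : M → ℝ × ℝ} {φ : ℝ × ℝ → M}
    (h : Chart D BoxI ψ φ) {cap : Set M} (hcl : IsClosed cap) (hD : cap ⊆ D) (hne : cap.Nonempty)
    (hU : IsPreconnected capᶜ) : IsPreconnected (D \ cap) := by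
  have hK : IsCompact (ψ '' cap) := hcl.isCompact.image_of_continuousOn (h.cψ.mono hD)
  obtain ⟨p, hp, hmax⟩ := hK.exists_isMaxOn (hne.image ψ) continuous_norm.continuousOn
  have h0 : 0 ≤ ‖p‖ := norm_nonneg p
  have h1 : ‖p‖ < 1 := by
    obtain ⟨x, hx, rfl⟩ := hp
    have := h.mψ x (hD hx)
    rw [BoxI, mem_ball_zero_iff] at this
    exact this
  have hρ : ∀ x ∈ cap, ‖ψ x‖ ≤ ‖p‖ := fun x hx => hmax ⟨x, hx, rfl⟩
  have hRp : IsPreconnected (φ '' (BoxI \ closedBall (0 : ℝ × ℝ) ‖p‖)) :=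
    (cs3_ann h0).image φ (h.cφ.mono sdiff_subset)
  have hRsub : φ '' (BoxI \ closedBall (0 : ℝ × ℝ) ‖p‖) ⊆ D \ cap := by
    rintro x ⟨q, hq, rfl⟩
    refine ⟨h.mφ q hq.1, ?_⟩
    intro hc
    have := hρ _ hc
    rw [h.right q hq.1] at this
    apply hq.2
    rw [mem_closedBall_zero_iff]
    exact this
  intro u v hu hv huv hun hvn
  by_contra hcon
  have hu' : IsOpen (u ∩ (D \ cap)) := hu.inter (h.isOpen.sdiff hcl)
  have hv' : IsOpen (v ∩ (D \ cap)) := hv.inter (h.isOpen.sdiff hcl)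
  have hdis : Disjoint (u ∩ (D \ cap)) (v ∩ (D \ cap)) := by
    rw [Set.disjoint_left]
    rintro x ⟨hx1, hx2⟩ ⟨hx3, _⟩
    exact hcon ⟨x, hx2, hx1, hx3⟩
  have hunion : (u ∩ (D \ cap)) ∪ (v ∩ (D \ cap)) = D \ cap := by
    ext x
    constructor
    · rintro (⟨_, hx⟩ | ⟨_, hx⟩) <;> exact hx
    · intro hx
      rcases huv hx with hx' | hx'
      · exact Or.inl ⟨hx', hx⟩
      · exact Or.inr ⟨hx', hx⟩
  have hun' : (u ∩ (D \ cap)).Nonempty := by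
    obtain ⟨x, hx1, hx2⟩ := hun
    exact ⟨x, hx2, hx1⟩
  have hvn' : (v ∩ (D \ cap)).Nonempty := by
    obtain ⟨x, hx1, hx2⟩ := hvn
    exact ⟨x, hx2, hx1⟩
  have hRsub' : φ '' (BoxI \ closedBall (0 : ℝ × ℝ) ‖p‖) ⊆ (u ∩ (D \ cap)) ∪ (v ∩ (D \ cap)) := by
    rw [hunion]
    exact hRsub
  by_cases hcase : (φ '' (BoxI \ closedBall (0 : ℝ × ℝ) ‖p‖) ∩ (u ∩ (D \ cap))).Nonempty
  · have hR := hRp.subset_left_of_subset_union hu' hv' hdis hRsub' hcase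
    exact cs3_aux h hcl hD hU h0 h1 hρ hu' hv' hdis hunion hvn' hR
  · have hR : φ '' (BoxI \ closedBall (0 : ℝ × ℝ) ‖p‖) ⊆ v ∩ (D \ cap) := by
      intro x hx
      rcases hRsub' hx with hx' | hx'
      · exact absurd ⟨x, hx, hx'⟩ hcase
      · exact hx'
    rw [union_comm] at hunion
    exact cs3_aux h hcl hD hU h0 h1 hρ hv' hu' hdis.symm hunion hun' hR

/-- closed subsets of the slice missing a point of the common boundary do not separate -/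
theorem slice_co [CompactSpace M] [T2Space M] [ConnectedSpace M] (S : CSetup f) {D : Set M}
    {ψ : M → ℝ × ℝ} {φ : ℝ × ℝ → M} (h : Chart D BoxI ψ φ) {z : EuclideanSpace ℝ (Fin N)} {c : ℝ}
    (hcap : {x | c ≤ ⟪z, f x⟫_ℝ} ⊆ D) (hint : interior {x | ⟪z, f x⟫_ℝ = c} = ∅)
    {x₀ : M} (hx1 : x₀ ∈ closure {x | c < ⟪z, f x⟫_ℝ}) (hx2 : x₀ ∈ closure {x | ⟪z, f x⟫_ℝ < c})
    {Γ : Set M} (hΓ : IsClosed Γ) (hΓs : Γ ⊆ {x | ⟪z, f x⟫_ℝ = c}) (hx : x₀ ∉ Γ) :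
    IsPreconnected (Γᶜ : Set M) ∧ IsPreconnected (D \ Γ) := by
  have hg : Continuous (fun x => ⟪z, f x⟫_ℝ) := continuous_const.inner S.cont
  have hUp : IsPreconnected {x | c < ⟪z, f x⟫_ℝ} := conn_open S.conn z c
  have hUm : IsPreconnected {x | ⟪z, f x⟫_ℝ < c} := conn_lt S.conn z c
  have hg1 : c ≤ ⟪z, f x₀⟫_ℝ := by
    have hc1 : IsClosed {x | c ≤ ⟪z, f x⟫_ℝ} := isClosed_le continuous_const hg
    exact closure_minimal (fun x (hx : c < ⟪z, f x⟫_ℝ) => (le_of_lt hx : c ≤ ⟪z, f x⟫_ℝ)) hc1 hx1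
  have hxD : x₀ ∈ D := hcap hg1
  obtain ⟨B, ψ', φ', hxB, -, hB, hBsub⟩ := small_int (S.pt x₀) (W := D ∩ Γᶜ)
    ((h.isOpen.inter hΓ.isOpen_compl).mem_nhds ⟨hxD, hx⟩)
  have hBc : IsPreconnected B := cs3_chart_conn hB
  have hBp : ({x | c < ⟪z, f x⟫_ℝ} ∩ B).Nonempty := by
    rw [_root_.mem_closure_iff] at hx1
    obtain ⟨y, hy1, hy2⟩ := hx1 B hB.isOpen hxB
    exact ⟨y, hy2, hy1⟩
  obtain ⟨y, hy1, hy2⟩ : (B ∩ {x | ⟪z, f x⟫_ℝ < c}).Nonempty := by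
    rw [_root_.mem_closure_iff] at hx2
    exact hx2 B hB.isOpen hxB
  have hdense : Dense ({x | ⟪z, f x⟫_ℝ = c}ᶜ : Set M) := by
    rw [← interior_eq_empty_iff_dense_compl]
    exact hint
  have hpart : IsPreconnected ({x | c < ⟪z, f x⟫_ℝ} ∪ B) := hUp.union' hBp hBc
  constructor
  · have hG : IsPreconnected (({x | c < ⟪z, f x⟫_ℝ} ∪ B) ∪ {x | ⟪z, f x⟫_ℝ < c}) :=
      hpart.union' ⟨y, Or.inr hy1, hy2⟩ hUm
    refine hG.subset_closure ?_ ?_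
    · rintro x ((hx' | hx') | hx') hxΓ
      · have := hΓs hxΓ
        exact absurd this (ne_of_gt hx')
      · exact (hBsub hx').2 hxΓ
      · have := hΓs hxΓ
        exact absurd this (ne_of_lt hx')
    · intro x _
      refine closure_mono ?_ (hdense x)
      intro w hw
      rcases lt_or_gt_of_ne (show ⟪z, f w⟫_ℝ ≠ c from hw) with hlt | hgt
      · exact Or.inr hlt
      · exact Or.inl (Or.inl hgt)
  · have hcl : IsClosed {x | c ≤ ⟪z, f x⟫_ℝ} := isClosed_le continuous_const hg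
    have hcomp : ({x | c ≤ ⟪z, f x⟫_ℝ}ᶜ : Set M) = {x | ⟪z, f x⟫_ℝ < c} := by
      ext x
      simp
    have hDm : IsPreconnected (D \ {x | c ≤ ⟪z, f x⟫_ℝ}) :=
      cs3_diff h hcl hcap ⟨x₀, hg1⟩ (by rw [hcomp]; exact hUm)
    have hG : IsPreconnected (({x | c < ⟪z, f x⟫_ℝ} ∪ B) ∪ (D \ {x | c ≤ ⟪z, f x⟫_ℝ})) :=
      hpart.union' ⟨y, Or.inr hy1, (hBsub hy1).1, fun (hh : c ≤ ⟪z, f y⟫_ℝ) => (not_lt.2 hh) hy2⟩ hDm
    refine hG.subset_closure ?_ ?_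
    · rintro x ((hx' | hx') | hx')
      · refine ⟨hcap (show c ≤ ⟪z, f x⟫_ℝ from le_of_lt hx'), ?_⟩
        intro hxΓ
        have := hΓs hxΓ
        exact absurd this (ne_of_gt hx')
      · exact ⟨(hBsub hx').1, (hBsub hx').2⟩
      · refine ⟨hx'.1, ?_⟩
        intro hxΓ
        have h9 : ⟪z, f x⟫_ℝ = c := hΓs hxΓ
        exact hx'.2 (le_of_eq h9.symm)
    · intro x hx'
      refine closure_mono ?_ (hdense.open_subset_closure_inter h.isOpen hx'.1)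
      rintro w ⟨hwD, hw⟩
      rcases lt_or_gt_of_ne (show ⟪z, f w⟫_ℝ ≠ c from hw) with hlt | hgt
      · exact Or.inr ⟨hwD, fun (hh : c ≤ ⟪z, f w⟫_ℝ) => (not_lt.2 hh) hlt⟩
      · exact Or.inl (Or.inl hgt)

theorem sc_max29840 [CompactSpace M] [T2Space M] (S : CSetup f)
    {F : Set (EuclideanSpace ℝ (Fin N))} (hF : Fc (Hul f) F) {z : EuclideanSpace ℝ (Fin N)} {c : ℝ}
    (hP : ∃ r ∈ F, ⟪z, r⟫_ℝ = c) (w : EuclideanSpace ℝ (Fin N)) :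
    ∃ (m : ℝ) (F' : Set (EuclideanSpace ℝ (Fin N))), Fc (Hul f) F' ∧ F' ⊆ F ∧
      (∀ r ∈ F, ⟪z, r⟫_ℝ = c → ⟪w, r⟫_ℝ ≤ m) ∧
      (∀ r, (r ∈ F' ∧ ⟪z, r⟫_ℝ = c) ↔ (r ∈ F ∧ ⟪z, r⟫_ℝ = c ∧ ⟪w, r⟫_ℝ = m)) ∧
      {x | f x ∈ {r | r ∈ F ∧ ⟪z, r⟫_ℝ = c} ∧ ∀ r ∈ {r | r ∈ F ∧ ⟪z, r⟫_ℝ = c},
        ⟪w, r⟫_ℝ ≤ ⟪w, f x⟫_ℝ} = Tr f F' z c ∧ (Tr f F' z c).Nonempty := by
  have hK : IsCompact (Hul f) := hul_compact S.cont
  have hFc : IsCompact F := fc_compact hK hF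
  have hPc : IsCompact {r | r ∈ F ∧ ⟪z, r⟫_ℝ = c} := by
    have h1 : {r | r ∈ F ∧ ⟪z, r⟫_ℝ = c} = F ∩ {r | ⟪z, r⟫_ℝ = c} := rfl
    rw [h1]
    exact hFc.inter_right (isClosed_eq (by fun_prop) continuous_const)
  obtain ⟨p, hpF, hpc⟩ := hP
  obtain ⟨r0, hr0, hmax⟩ := hPc.exists_isMaxOn ⟨p, hpF, hpc⟩
    (f := fun r : EuclideanSpace ℝ (Fin N) => ⟪w, r⟫_ℝ) (by fun_prop)
  have hm : ∀ r ∈ F, ⟪z, r⟫_ℝ = c → ⟪w, r⟫_ℝ ≤ ⟪w, r0⟫_ℝ := fun r hr hz => hmax ⟨hr, hz⟩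
  obtain ⟨F', h1, h2, h3⟩ := slice_face (convex_convexHull ℝ (range f)) hF hm
    ⟨r0, hr0.1, hr0.2, rfl⟩
  refine ⟨⟪w, r0⟫_ℝ, F', h1, h2, hm, h3, ?_, ?_⟩
  · ext x
    constructor
    · rintro ⟨hx1, hx2⟩
      have h4 : ⟪w, f x⟫_ℝ = ⟪w, r0⟫_ℝ := le_antisymm (hm _ hx1.1 hx1.2) (hx2 r0 hr0)
      exact (h3 (f x)).2 ⟨hx1.1, hx1.2, h4⟩
    · intro hx
      obtain ⟨a1, a2, a3⟩ := (h3 (f x)).1 hx
      refine ⟨⟨a1, a2⟩, ?_⟩
      intro r hr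
      rw [a3]
      exact hm r hr.1 hr.2
  · exact tr_nonempty S h1 ⟨r0, ((h3 r0).2 ⟨hr0.1, hr0.2, rfl⟩).1, hr0.2⟩

theorem sc_coef29840 (s : ℝ) : (1 - 2 * s ≠ 0 ∨ 4 * s * (1 - s) ≠ 0) := by
  by_contra h
  rw [not_or, not_not, not_not] at h
  obtain ⟨h1, h2⟩ := h
  have : s = 1 / 2 := by linarith
  rw [this] at h2
  norm_num at h2

/-- the circle argument for a slice of a face -/
theorem slice_circle [CompactSpace M] [T2Space M] [ConnectedSpace M] [LocallyPathConnectedSpace M]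
    (S : CSetup f) {D : Set M}
    {ψ : M → ℝ × ℝ} {φ : ℝ × ℝ → M} (h : Chart D BoxI ψ φ) {z : EuclideanSpace ℝ (Fin N)} {c : ℝ}
    (hcap : {x | c ≤ ⟪z, f x⟫_ℝ} ⊆ D) (hint : interior {x | ⟪z, f x⟫_ℝ = c} = ∅)
    {x₀ : M} (hx1 : x₀ ∈ closure {x | c < ⟪z, f x⟫_ℝ}) (hx2 : x₀ ∈ closure {x | ⟪z, f x⟫_ℝ < c})
    {F : Set (EuclideanSpace ℝ (Fin N))} (hF : Fc (Hul f) F)
    {w₁ w₂ : EuclideanSpace ℝ (Fin N)}
    (hw : ∀ a b : ℝ, (a ≠ 0 ∨ b ≠ 0) → ∃ r ∈ {r | r ∈ F ∧ ⟪z, r⟫_ℝ = c},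
      ∃ r' ∈ {r | r ∈ F ∧ ⟪z, r⟫_ℝ = c}, ⟪a • w₁ + b • w₂, r⟫_ℝ < ⟪a • w₁ + b • w₂, r'⟫_ℝ)
    (hx : ∀ a b : ℝ, (a ≠ 0 ∨ b ≠ 0) → f x₀ ∈ F →
      ∃ r ∈ F, ⟪z, r⟫_ℝ = c ∧ ⟪a • w₁ + b • w₂, f x₀⟫_ℝ < ⟪a • w₁ + b • w₂, r⟫_ℝ)
    (hT : ∀ a b : ℝ, (a ≠ 0 ∨ b ≠ 0) → ∀ F', Fc (Hul f) F' → F' ⊆ F → ∀ m : ℝ,
      (∀ r ∈ F, ⟪z, r⟫_ℝ = c → ⟪a • w₁ + b • w₂, r⟫_ℝ ≤ m) →
      (∀ r, (r ∈ F' ∧ ⟪z, r⟫_ℝ = c) ↔ (r ∈ F ∧ ⟪z, r⟫_ℝ = c ∧ ⟪a • w₁ + b • w₂, r⟫_ℝ = m)) →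
      IsPreconnected (Tr f F' z c)) : False := by
  have hK : IsCompact (Hul f) := hul_compact S.cont
  have hFc : IsCompact F := fc_compact hK hF
  have hPc : IsCompact {r | r ∈ F ∧ ⟪z, r⟫_ℝ = c} := by
    have h1 : {r | r ∈ F ∧ ⟪z, r⟫_ℝ = c} = F ∩ {r | ⟪z, r⟫_ℝ = c} := rfl
    rw [h1]
    exact hFc.inter_right (isClosed_eq (by fun_prop) continuous_const)
  have hPne : ∃ r ∈ F, ⟪z, r⟫_ℝ = c := by
    obtain ⟨r, hr, _⟩ := hw 1 0 (Or.inl one_ne_zero)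
    exact ⟨r, hr.1, hr.2⟩
  have hne : ∀ w, {x | f x ∈ {r | r ∈ F ∧ ⟪z, r⟫_ℝ = c} ∧ ∀ r ∈ {r | r ∈ F ∧ ⟪z, r⟫_ℝ = c},
        ⟪w, r⟫_ℝ ≤ ⟪w, f x⟫_ℝ}.Nonempty := by
    intro w
    obtain ⟨m, F', _, _, _, _, h5, h6⟩ := sc_max29840 S hF hPne w
    rw [h5]
    exact h6
  have hconn : ∀ a b : ℝ, (a ≠ 0 ∨ b ≠ 0) →
      IsPreconnected {x | f x ∈ {r | r ∈ F ∧ ⟪z, r⟫_ℝ = c} ∧ ∀ r ∈ {r | r ∈ F ∧ ⟪z, r⟫_ℝ = c},
        ⟪a • w₁ + b • w₂, r⟫_ℝ ≤ ⟪a • w₁ + b • w₂, f x⟫_ℝ} := by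
    intro a b hab
    obtain ⟨m, F', h1, h2, h3, h4, h5, _⟩ := sc_max29840 S hF hPne (a • w₁ + b • w₂)
    rw [h5]
    exact hT a b hab F' h1 h2 m h3 h4
  have hmin : ∀ s : ℝ, (1 - 2 * s ≠ 0 ∨ -(4 * s * (1 - s)) ≠ 0) := by
    intro s
    rcases sc_coef29840 s with h | h
    · exact Or.inl h
    · exact Or.inr (neg_ne_zero.2 h)
  set A : Set M := Arc f {r | r ∈ F ∧ ⟪z, r⟫_ℝ = c}
    (fun s => (1 - 2 * s) • w₁ + (4 * s * (1 - s)) • w₂) with hA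
  set A' : Set M := Arc f {r | r ∈ F ∧ ⟪z, r⟫_ℝ = c}
    (fun s => (1 - 2 * s) • w₁ + (-(4 * s * (1 - s))) • w₂) with hA'
  have cl : IsClosed A := arc_closed S.cont hPc (by fun_prop)
  have cl' : IsClosed A' := arc_closed S.cont hPc (by fun_prop)
  have co : IsPreconnected A := arc_conn S.cont hPc (by fun_prop)
    (fun s _ => hconn _ _ (sc_coef29840 s)) (fun s _ => hne _)
  have co' : IsPreconnected A' := arc_conn S.cont hPc (by fun_prop)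
    (fun s _ => hconn _ _ (hmin s)) (fun s _ => hne _)
  have sA : A ⊆ {x | ⟪z, f x⟫_ℝ = c} := fun x hx => hx.1.2
  have sA' : A' ⊆ {x | ⟪z, f x⟫_ℝ = c} := fun x hx => hx.1.2
  have dA : {x | ⟪z, f x⟫_ℝ = c} ⊆ D := fun x hx => hcap (le_of_eq (Eq.symm hx))
  have nA : x₀ ∉ A := by
    rintro ⟨h1, s, _, h3⟩
    obtain ⟨r, hr, hrc, hlt⟩ := hx _ _ (sc_coef29840 s) h1.1
    exact absurd (h3 r ⟨hr, hrc⟩) (not_le.2 hlt)
  have nA' : x₀ ∉ A' := by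
    rintro ⟨h1, s, _, h3⟩
    obtain ⟨r, hr, hrc, hlt⟩ := hx _ _ (hmin s) h1.1
    exact absurd (h3 r ⟨hr, hrc⟩) (not_le.2 hlt)
  have s1 := slice_co S h hcap hint hx1 hx2 cl sA nA
  have s2 := slice_co S h hcap hint hx1 hx2 cl' sA' nA'
  have s3 := slice_co S h hcap hint hx1 hx2 (cl.union cl') (union_subset sA sA')
    (fun h' => h'.elim nA nA')
  exact circle_chart S h cl cl' (sA.trans dA) (sA'.trans dA) co co' s1.1 s2.1 s3.1 s3.2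
    (arc_inter S.cont hPc hw hne)

/-- both open half-spaces meet the complement of a supporting hyperplane -/
theorem exit_pt [CompactSpace M] [T2Space M] [ConnectedSpace M] (S : CSetup f)
    {z : EuclideanSpace ℝ (Fin N)} {c : ℝ} (h2 : ∃ x, c < ⟪z, f x⟫_ℝ)
    {u : EuclideanSpace ℝ (Fin N)} {m : ℝ} (hu : ∀ r ∈ Hul f, ⟪u, r⟫_ℝ ≤ m)
    (hu' : ∃ r ∈ Hul f, ⟪u, r⟫_ℝ < m) : ∃ x, c < ⟪z, f x⟫_ℝ ∧ ⟪u, f x⟫_ℝ < m := by
  by_contra hcon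
  push Not at hcon
  have hfH : ∀ x, f x ∈ Hul f := fun x => subset_convexHull ℝ _ (mem_range_self x)
  have hm : ∀ x, c < ⟪z, f x⟫_ℝ → ⟪u, f x⟫_ℝ = m := fun x hx =>
    le_antisymm (hu _ (hfH x)) (hcon x hx)
  obtain ⟨x2, hx2⟩ := h2
  obtain ⟨r, hrH, hr⟩ := hu'
  -- the point k
  obtain ⟨k, hkH, hkz, hku⟩ : ∃ k ∈ Hul f, c < ⟪z, k⟫_ℝ ∧ ⟪u, k⟫_ℝ < m := by
    have hcont : Continuous (fun e : ℝ => (1 - e) * ⟪z, f x2⟫_ℝ + e * ⟪z, r⟫_ℝ) := by fun_prop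
    have h0 : c < (1 - (0 : ℝ)) * ⟪z, f x2⟫_ℝ + 0 * ⟪z, r⟫_ℝ := by simpa using hx2
    have hev := (hcont.tendsto 0).eventually (lt_mem_nhds h0)
    obtain ⟨e, he, he1⟩ : ∃ e : ℝ, e ∈ Ioo (0 : ℝ) 1 ∧
        c < (1 - e) * ⟪z, f x2⟫_ℝ + e * ⟪z, r⟫_ℝ := by
      have h3 : ∀ᶠ e in 𝓝[>] (0 : ℝ), c < (1 - e) * ⟪z, f x2⟫_ℝ + e * ⟪z, r⟫_ℝ :=
        nhdsWithin_le_nhds hev
      have h4 : ∀ᶠ e in 𝓝[>] (0 : ℝ), e ∈ Ioo (0 : ℝ) 1 := Ioo_mem_nhdsGT one_pos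
      obtain ⟨e, h5, h6⟩ := (h4.and h3).exists
      exact ⟨e, h5, h6⟩
    refine ⟨(1 - e) • f x2 + e • r, ?_, ?_, ?_⟩
    · exact convex_convexHull ℝ _ (hfH x2) hrH (by linarith [he.2]) he.1.le (by ring)
    · rw [inner_add_right, inner_smul_right, inner_smul_right]
      exact he1
    · rw [inner_add_right, inner_smul_right, inner_smul_right]
      have h7 := hu _ (hfH x2)
      nlinarith [he.1, he.2]
  -- superlevel sets
  set g : ℝ → M → ℝ := fun μ x => ⟪z - μ • u, f x⟫_ℝ with hg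
  have hgv : ∀ μ x, g μ x = ⟪z, f x⟫_ℝ - μ * ⟪u, f x⟫_ℝ := by
    intro μ x
    rw [hg]
    simp only [inner_sub_left, inner_smul_left]
    simp
  have hgc : Continuous (fun p : ℝ × M => g p.1 p.2) := by
    have hfc := S.cont
    simp only [hgv]
    fun_prop
  have hkv : ∀ μ : ℝ, ⟪z - μ • u, k⟫_ℝ = ⟪z, k⟫_ℝ - μ * ⟪u, k⟫_ℝ := by
    intro μ
    simp only [inner_sub_left, inner_smul_left]
    simp
  have hkc : Continuous (fun p : ℝ × M => ⟪z - p.1 • u, k⟫_ℝ) := by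
    simp only [hkv]
    fun_prop
  have hne : ∀ μ : ℝ, ∃ x, ⟪z - μ • u, k⟫_ℝ ≤ g μ x := by
    intro μ
    by_contra h
    push Not at h
    have hsub : Hul f ⊆ {y | ⟪z - μ • u, y⟫_ℝ < ⟪z - μ • u, k⟫_ℝ} := by
      apply convexHull_min
      · rintro _ ⟨x, rfl⟩
        exact h x
      · exact convex_halfSpace_lt (f := fun y => ⟪z - μ • u, y⟫_ℝ)
          ⟨fun a b => inner_add_right _ _ _, fun a b => by
            rw [inner_smul_right]; rfl⟩ _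
    exact absurd (show ⟪z - μ • u, k⟫_ℝ < ⟪z - μ • u, k⟫_ℝ from hsub hkH) (lt_irrefl _)
  have key1 : ∀ μ : ℝ, 0 ≤ μ → ∀ x, ⟪z - μ • u, k⟫_ℝ ≤ g μ x → ⟪u, f x⟫_ℝ = m →
      ⟪z, k⟫_ℝ + μ * (m - ⟪u, k⟫_ℝ) ≤ ⟪z, f x⟫_ℝ := by
    intro μ _ x hx hx'
    rw [hkv, hgv, hx'] at hx
    linarith
  have key2 : ∀ μ : ℝ, 0 ≤ μ → ∀ x, ⟪z - μ • u, k⟫_ℝ ≤ g μ x → ⟪u, f x⟫_ℝ = m →
      c < ⟪z, f x⟫_ℝ := by
    intro μ hμ x hx hx'
    have h8 := key1 μ hμ x hx hx'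
    have h9 : 0 ≤ μ * (m - ⟪u, k⟫_ℝ) := mul_nonneg hμ (by linarith)
    linarith
  have hcl1 : IsClosed {μ : ℝ | ∃ x, ⟪z - μ • u, k⟫_ℝ ≤ g μ x ∧ ⟪u, f x⟫_ℝ = m} := by
    have h10 : IsClosed {p : ℝ × M | ⟪z - p.1 • u, k⟫_ℝ ≤ g p.1 p.2 ∧ ⟪u, f p.2⟫_ℝ = m} := by
      apply IsClosed.inter
      · exact isClosed_le hkc hgc
      · have hfc := S.cont
        have hcc : Continuous (fun p : ℝ × M => ⟪u, f p.2⟫_ℝ) := by fun_prop
        exact isClosed_eq hcc continuous_const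
    have h11 := isClosedMap_fst_of_compactSpace _ h10
    convert h11 using 1
    ext μ
    simp
  have hcl2 : IsClosed {μ : ℝ | ∃ x, ⟪z - μ • u, k⟫_ℝ ≤ g μ x ∧ ⟪z, f x⟫_ℝ ≤ c} := by
    have h10 : IsClosed {p : ℝ × M | ⟪z - p.1 • u, k⟫_ℝ ≤ g p.1 p.2 ∧ ⟪z, f p.2⟫_ℝ ≤ c} := by
      apply IsClosed.inter
      · exact isClosed_le hkc hgc
      · have hfc := S.cont
        have hcc : Continuous (fun p : ℝ × M => ⟪z, f p.2⟫_ℝ) := by fun_prop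
        exact isClosed_le hcc continuous_const
    have h11 := isClosedMap_fst_of_compactSpace _ h10
    convert h11 using 1
    ext μ
    simp
  have hcov : Ici (0 : ℝ) ⊆ {μ : ℝ | ∃ x, ⟪z - μ • u, k⟫_ℝ ≤ g μ x ∧ ⟪u, f x⟫_ℝ = m} ∪
      {μ : ℝ | ∃ x, ⟪z - μ • u, k⟫_ℝ ≤ g μ x ∧ ⟪z, f x⟫_ℝ ≤ c} := by
    intro μ _
    obtain ⟨x, hx⟩ := hne μ
    rcases le_or_gt (⟪z, f x⟫_ℝ) c with h | h
    · exact Or.inr ⟨x, hx, h⟩
    · exact Or.inl ⟨x, hx, hm x h⟩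
  have hn1 : (Ici (0 : ℝ) ∩ {μ : ℝ | ∃ x, ⟪z - μ • u, k⟫_ℝ ≤ g μ x ∧ ⟪u, f x⟫_ℝ = m}).Nonempty := by
    obtain ⟨x, hx⟩ := hne 0
    refine ⟨0, self_mem_Ici, x, hx, ?_⟩
    apply hm
    rw [hkv, hgv] at hx
    linarith
  have hn2 : (Ici (0 : ℝ) ∩ {μ : ℝ | ∃ x, ⟪z - μ • u, k⟫_ℝ ≤ g μ x ∧ ⟪z, f x⟫_ℝ ≤ c}).Nonempty := by
    have hfc := S.cont
    obtain ⟨B, hB⟩ : ∃ B : ℝ, ∀ x, ⟪z, f x⟫_ℝ ≤ B := by
      have hb : BddAbove (range fun x => ⟪z, f x⟫_ℝ) :=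
        (isCompact_range (by fun_prop)).bddAbove
      obtain ⟨B, hB⟩ := hb
      exact ⟨B, fun x => hB (mem_range_self x)⟩
    have hd : 0 < m - ⟪u, k⟫_ℝ := by linarith
    set μ : ℝ := max 0 ((B - ⟪z, k⟫_ℝ + 1) / (m - ⟪u, k⟫_ℝ)) with hμ
    have hμ0 : 0 ≤ μ := le_max_left _ _
    obtain ⟨x, hx⟩ := hne μ
    refine ⟨μ, hμ0, x, hx, ?_⟩
    by_contra h
    rw [not_le] at h
    have h12 := key1 μ hμ0 x hx (hm x h)
    have h13 : (B - ⟪z, k⟫_ℝ + 1) / (m - ⟪u, k⟫_ℝ) ≤ μ := le_max_right _ _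
    rw [div_le_iff₀ hd] at h13
    linarith [hB x]
  obtain ⟨μ, hμ0, ⟨x, hx, hxm⟩, ⟨y, hy, hyc⟩⟩ :=
    (isPreconnected_closed_iff.1 isPreconnected_Ici) _ _ hcl1 hcl2 hcov hn1 hn2
  have hfc := S.cont
  have hconn := S.conn (z - μ • u) (⟪z - μ • u, k⟫_ℝ)
  obtain ⟨w, _, hw1, hw2⟩ := hconn {x | c < ⟪z, f x⟫_ℝ} {x | ⟪u, f x⟫_ℝ < m}
    (isOpen_lt continuous_const (by fun_prop)) (isOpen_lt (by fun_prop) continuous_const)
    (by
      intro w hw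
      rcases lt_or_eq_of_le (hu _ (hfH w)) with h | h
      · exact Or.inr h
      · exact Or.inl (key2 μ hμ0 w hw h))
    ⟨x, hx, key2 μ hμ0 x hx hxm⟩
    ⟨y, hy, by
      rcases lt_or_eq_of_le (hu _ (hfH y)) with h | h
      · exact h
      · exact absurd (key2 μ hμ0 y hy h) (not_lt.2 hyc)⟩
  exact absurd (hm w hw1) (ne_of_lt hw2)

/-- a boundary point of the two sides outside a given proper face -/
theorem exit_bd [CompactSpace M] [T2Space M] [ConnectedSpace M] (S : CSetup f)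
    {z : EuclideanSpace ℝ (Fin N)} {c : ℝ} (hint : interior {x | ⟪z, f x⟫_ℝ = c} = ∅)
    (h1 : ∃ x, ⟪z, f x⟫_ℝ < c) (h2 : ∃ x, c < ⟪z, f x⟫_ℝ)
    {F : Set (EuclideanSpace ℝ (Fin N))} (hF : Fc (Hul f) F) (hne : F ≠ Hul f) :
    ∃ x₀, x₀ ∈ closure {x | c < ⟪z, f x⟫_ℝ} ∧ x₀ ∈ closure {x | ⟪z, f x⟫_ℝ < c} ∧ f x₀ ∉ F := by
  obtain ⟨u, m, hK, hFm, hu'⟩ := fc_proper hF hne
  have hV := conn_lt S.conn u m
  obtain ⟨x1, hx1, hx1'⟩ := exit_pt S h2 hK hu'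
  have h1' : ∃ x, -c < ⟪-z, f x⟫_ℝ := by
    obtain ⟨x, hx⟩ := h1
    refine ⟨x, ?_⟩
    rw [inner_neg_left]
    linarith
  obtain ⟨x2, hx2, hx2'⟩ := exit_pt S h1' hK hu'
  rw [inner_neg_left] at hx2
  have hcov : {x | ⟪u, f x⟫_ℝ < m} ⊆ closure {x | c < ⟪z, f x⟫_ℝ} ∪ closure {x | ⟪z, f x⟫_ℝ < c} := by
    rw [← closure_union]
    have h3 : {x | c < ⟪z, f x⟫_ℝ} ∪ {x | ⟪z, f x⟫_ℝ < c} = ({x | ⟪z, f x⟫_ℝ = c})ᶜ := by
      ext x
      simp only [Set.mem_union, Set.mem_setOf_eq, Set.mem_compl_iff]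
      constructor
      · rintro (h | h) h'
        · exact absurd h' h.ne'
        · exact absurd h' h.ne
      · intro h
        rcases lt_or_gt_of_ne h with h | h
        · exact Or.inr h
        · exact Or.inl h
    rw [h3, closure_compl, hint, Set.compl_empty]
    exact Set.subset_univ _
  obtain ⟨x0, hx0, hx0a, hx0b⟩ := isPreconnected_closed_iff.1 hV _ _ isClosed_closure isClosed_closure
    hcov ⟨x1, hx1', subset_closure hx1⟩ ⟨x2, hx2', subset_closure (by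
      show ⟪z, f x2⟫_ℝ < c
      linarith)⟩
  refine ⟨x0, hx0a, hx0b, fun h => ?_⟩
  have h4 := hFm _ h
  have h5 : ⟪u, f x0⟫_ℝ < m := hx0
  linarith

theorem slice_funs_k0 [CompactSpace M] [Nonempty M] (S : CSetup f)
    {z : EuclideanSpace ℝ (Fin N)} {c : ℝ}
    (h1 : ∃ x, ⟪z, f x⟫_ℝ < c) (h2 : ∃ x, c < ⟪z, f x⟫_ℝ) :
    ∃ k0, k0 ∈ interior (Hul f) ∧ ⟪z, k0⟫_ℝ = c := by
  obtain ⟨k, hk⟩ := hul_interior S
  have hconv : Convex ℝ (Hul f) := convex_convexHull ℝ _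
  have hmem : ∀ x, f x ∈ Hul f := fun x => subset_convexHull ℝ _ ⟨x, rfl⟩
  have key : ∀ y ∈ Hul f, (⟪z, k⟫_ℝ < c ∧ c < ⟪z, y⟫_ℝ) ∨ (c < ⟪z, k⟫_ℝ ∧ ⟪z, y⟫_ℝ < c) →
      ∃ k0, k0 ∈ interior (Hul f) ∧ ⟪z, k0⟫_ℝ = c := by
    intro y hy h
    have hne : ⟪z, y⟫_ℝ - ⟪z, k⟫_ℝ ≠ 0 := by
      rcases h with h | h
      · have := h.1.trans h.2; linarith
      · have := h.2.trans h.1; linarith
    have ht : 0 < (c - ⟪z, k⟫_ℝ) / (⟪z, y⟫_ℝ - ⟪z, k⟫_ℝ) ∧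
        (c - ⟪z, k⟫_ℝ) / (⟪z, y⟫_ℝ - ⟪z, k⟫_ℝ) < 1 := by
      rcases h with h | h
      · have h3 : 0 < ⟪z, y⟫_ℝ - ⟪z, k⟫_ℝ := by linarith [h.1, h.2]
        constructor
        · apply div_pos _ h3; linarith [h.1]
        · rw [div_lt_one h3]; linarith [h.2]
      · have h3 : ⟪z, y⟫_ℝ - ⟪z, k⟫_ℝ < 0 := by linarith [h.1, h.2]
        constructor
        · apply div_pos_of_neg_of_neg _ h3; linarith [h.1]
        · rw [div_lt_one_of_neg h3]; linarith [h.2]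
    set t := (c - ⟪z, k⟫_ℝ) / (⟪z, y⟫_ℝ - ⟪z, k⟫_ℝ) with htd
    refine ⟨(1 - t) • k + t • y, ?_, ?_⟩
    · apply hconv.openSegment_interior_self_subset_interior hk hy
      exact ⟨1 - t, t, by linarith [ht.2], ht.1, by ring, rfl⟩
    · rw [inner_add_right, inner_smul_right, inner_smul_right]
      have : t * (⟪z, y⟫_ℝ - ⟪z, k⟫_ℝ) = c - ⟪z, k⟫_ℝ := by
        rw [htd]; field_simp
      linarith
  rcases lt_trichotomy (⟪z, k⟫_ℝ) c with h | h | h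
  · obtain ⟨x, hx⟩ := h2
    exact key (f x) (hmem x) (Or.inl ⟨h, hx⟩)
  · exact ⟨k, hk, h⟩
  · obtain ⟨x, hx⟩ := h1
    exact key (f x) (hmem x) (Or.inr ⟨h, hx⟩)

/-- a pencil of functionals on the slice of the hull avoiding two points -/
theorem slice_funs [CompactSpace M] [Nonempty M] (S : CSetup f) (hN : 5 ≤ N)
    {z : EuclideanSpace ℝ (Fin N)} {c : ℝ}
    (h1 : ∃ x, ⟪z, f x⟫_ℝ < c) (h2 : ∃ x, c < ⟪z, f x⟫_ℝ) (q r₀ : EuclideanSpace ℝ (Fin N)) :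
    ∃ w₁ w₂ : EuclideanSpace ℝ (Fin N), ∀ a b : ℝ, (a ≠ 0 ∨ b ≠ 0) →
      (∃ r ∈ Hul f, ⟪z, r⟫_ℝ = c ∧ ⟪a • w₁ + b • w₂, q⟫_ℝ < ⟪a • w₁ + b • w₂, r⟫_ℝ) ∧
      (∃ r ∈ Hul f, ⟪z, r⟫_ℝ = c ∧ ⟪a • w₁ + b • w₂, r₀⟫_ℝ < ⟪a • w₁ + b • w₂, r⟫_ℝ) ∧
      (∃ r ∈ {r | r ∈ Hul f ∧ ⟪z, r⟫_ℝ = c}, ∃ r' ∈ {r | r ∈ Hul f ∧ ⟪z, r⟫_ℝ = c},
        ⟪a • w₁ + b • w₂, r⟫_ℝ < ⟪a • w₁ + b • w₂, r'⟫_ℝ) := by
  obtain ⟨k0, hk0, hzk⟩ := slice_funs_k0 S h1 h2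
  let P : Submodule ℝ (EuclideanSpace ℝ (Fin N)) := Submodule.span ℝ {q - k0, r₀ - k0, z}
  have hP : Module.finrank ℝ P ≤ 3 := by
    classical
    have h3 := finrank_span_finset_le_card (R := ℝ) ({q - k0, r₀ - k0, z} : Finset (EuclideanSpace ℝ (Fin N)))
    have h4 : ((({q - k0, r₀ - k0, z} : Finset (EuclideanSpace ℝ (Fin N))) : Set (EuclideanSpace ℝ (Fin N)))) = {q - k0, r₀ - k0, z} := by
      simp
    rw [h4] at h3
    refine le_trans h3 ?_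
    exact Finset.card_le_three
  have hL : 2 ≤ Module.finrank ℝ Pᗮ := by
    have h3 := Submodule.finrank_add_finrank_orthogonal P
    rw [finrank_euclideanSpace, Fintype.card_fin] at h3
    omega
  obtain ⟨g, hg⟩ := exists_linearIndependent_of_le_finrank hL
  refine ⟨(g 0 : EuclideanSpace ℝ (Fin N)), (g 1 : EuclideanSpace ℝ (Fin N)), ?_⟩
  intro a b hab
  have hw0 : a • (g 0 : EuclideanSpace ℝ (Fin N)) + b • (g 1 : EuclideanSpace ℝ (Fin N)) ≠ 0 := by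
    intro h0
    have h5 : a • g 0 + b • g 1 = 0 := by
      apply Subtype.ext
      simpa using h0
    have h6 := (Fintype.linearIndependent_iff.1 hg) ![a, b] (by
      rw [Fin.sum_univ_two]; exact h5)
    rcases hab with h | h
    · exact h (h6 0)
    · exact h (h6 1)
  have hwL : a • (g 0 : EuclideanSpace ℝ (Fin N)) + b • (g 1 : EuclideanSpace ℝ (Fin N)) ∈ Pᗮ :=
    Submodule.add_mem _ (Submodule.smul_mem _ _ (g 0).2) (Submodule.smul_mem _ _ (g 1).2)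
  generalize a • (g 0 : EuclideanSpace ℝ (Fin N)) + b • (g 1 : EuclideanSpace ℝ (Fin N)) = w at hw0 hwL
  have hort : ∀ u ∈ P, ⟪u, w⟫_ℝ = 0 := fun u hu => (Submodule.mem_orthogonal P w).1 hwL u hu
  have hq : ⟪w, q⟫_ℝ = ⟪w, k0⟫_ℝ := by
    have h7 := hort (q - k0) (Submodule.subset_span (by simp))
    rw [inner_sub_left] at h7
    rw [real_inner_comm q w, real_inner_comm k0 w]
    linarith
  have hr : ⟪w, r₀⟫_ℝ = ⟪w, k0⟫_ℝ := by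
    have h7 := hort (r₀ - k0) (Submodule.subset_span (by simp))
    rw [inner_sub_left] at h7
    rw [real_inner_comm r₀ w, real_inner_comm k0 w]
    linarith
  have hz : ⟪z, w⟫_ℝ = 0 := hort z (Submodule.subset_span (by simp))
  obtain ⟨δ, hδ, hball⟩ := Metric.isOpen_iff.1 isOpen_interior k0 hk0
  have hwn : 0 < ‖w‖ := norm_pos_iff.2 hw0
  have hrmem : k0 + (δ / (2 * ‖w‖)) • w ∈ Hul f := by
    apply interior_subset
    apply hball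
    rw [Metric.mem_ball, dist_eq_norm, add_sub_cancel_left, norm_smul, Real.norm_eq_abs,
      abs_of_pos (by positivity)]
    have : δ / (2 * ‖w‖) * ‖w‖ = δ / 2 := by field_simp
    rw [this]
    linarith
  have hrz : ⟪z, k0 + (δ / (2 * ‖w‖)) • w⟫_ℝ = c := by
    rw [inner_add_right, inner_smul_right, hz, mul_zero, add_zero, hzk]
  have hlt : ⟪w, k0⟫_ℝ < ⟪w, k0 + (δ / (2 * ‖w‖)) • w⟫_ℝ := by
    rw [inner_add_right, inner_smul_right, real_inner_self_eq_norm_sq]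
    have : 0 < δ / (2 * ‖w‖) * ‖w‖ ^ 2 := by positivity
    linarith
  refine ⟨⟨_, hrmem, hrz, by rw [hq]; exact hlt⟩, ⟨_, hrmem, hrz, by rw [hr]; exact hlt⟩,
    ⟨k0, ⟨interior_subset hk0, hzk⟩, _, ⟨hrmem, hrz⟩, hlt⟩⟩

/-- small slices have a one-dimensional face with disconnected preimage missing a given point -/
theorem slice_main [CompactSpace M] [T2Space M] [ConnectedSpace M] [LocallyPathConnectedSpace M]
    (S : CSetup f) (hN : 5 ≤ N) {D : Set M}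
    {ψ : M → ℝ × ℝ} {φ : ℝ × ℝ → M} (h : Chart D BoxI ψ φ) {z : EuclideanSpace ℝ (Fin N)} {c : ℝ}
    (hcap : {x | c ≤ ⟪z, f x⟫_ℝ} ⊆ D) (hint : interior {x | ⟪z, f x⟫_ℝ = c} = ∅)
    (h1 : ∃ x, ⟪z, f x⟫_ℝ < c) (h2 : ∃ x, c < ⟪z, f x⟫_ℝ) {r₀ : EuclideanSpace ℝ (Fin N)}
    (hr : r₀ ∈ Hul f) (hrc : ⟪z, r₀⟫_ℝ = c) :
    ∃ F, Fc (Hul f) F ∧ r₀ ∉ F ∧
      Module.finrank ℝ (vectorSpan ℝ {r | r ∈ F ∧ ⟪z, r⟫_ℝ = c}) = 1 ∧
      ¬ IsPreconnected (Tr f F z c) := by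
  by_contra H0
  have H : ∀ F, Fc (Hul f) F → r₀ ∉ F →
      Module.finrank ℝ (vectorSpan ℝ {r | r ∈ F ∧ ⟪z, r⟫_ℝ = c}) = 1 →
      IsPreconnected (Tr f F z c) := by
    intro F hF hrF hd
    by_contra hp
    exact H0 ⟨F, hF, hrF, hd, hp⟩
  have claim : ∀ n : ℕ, ∀ F, Fc (Hul f) F → r₀ ∉ F →
      Module.finrank ℝ (vectorSpan ℝ {r | r ∈ F ∧ ⟪z, r⟫_ℝ = c}) = n →
      IsPreconnected (Tr f F z c) := by
    intro n
    induction n using Nat.strong_induction_on with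
    | _ n ih =>
      intro F hF hrF hd
      rcases Nat.lt_or_ge n 2 with hn | hn
      · interval_cases n
        · -- n = 0
          refine tr_point S hF fun r hr1 r' hr2 hz1 hz2 => ?_
          have hb : vectorSpan ℝ {r | r ∈ F ∧ ⟪z, r⟫_ℝ = c} = ⊥ := Submodule.finrank_eq_zero.mp hd
          have hm : r -ᵥ r' ∈ vectorSpan ℝ {r | r ∈ F ∧ ⟪z, r⟫_ℝ = c} :=
            vsub_mem_vectorSpan ℝ ⟨hr1, hz1⟩ ⟨hr2, hz2⟩
          rw [hb, Submodule.mem_bot, vsub_eq_sub, sub_eq_zero] at hm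
          exact hm
        · exact H F hF hrF hd
      · -- n ≥ 2
        exfalso
        obtain ⟨w₁, w₂, hw⟩ := two_funs (S := {r | r ∈ F ∧ ⟪z, r⟫_ℝ = c}) (by rw [hd]; exact hn)
        have hne : F ≠ Hul f := fun he => hrF (by rw [he]; exact hr)
        obtain ⟨x₀, hx1, hx2, hx3⟩ := exit_bd S hint h1 h2 hF hne
        refine slice_circle S h hcap hint hx1 hx2 hF hw (fun a b _ hfx => absurd hfx hx3) ?_
        intro a b hab F' hF' hsub m hm hiff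
        by_cases hemp : ∃ r, r ∈ F' ∧ ⟪z, r⟫_ℝ = c
        · have hset : {r | r ∈ F' ∧ ⟪z, r⟫_ℝ = c} =
              {r | r ∈ {r | r ∈ F ∧ ⟪z, r⟫_ℝ = c} ∧ ⟪a • w₁ + b • w₂, r⟫_ℝ = m} := by
            ext r
            constructor
            · intro hr'
              have := (hiff r).mp hr'
              exact ⟨⟨this.1, this.2.1⟩, this.2.2⟩
            · intro hr'
              exact (hiff r).mpr ⟨hr'.1.1, hr'.1.2, hr'.2⟩
          have hlt : Module.finrank ℝ (vectorSpan ℝ {r | r ∈ F' ∧ ⟪z, r⟫_ℝ = c}) < n := by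
            rw [hset, ← hd]
            refine dim_drop ?_ ?_
            · obtain ⟨r, hr'⟩ := hemp
              have := (hiff r).mp hr'
              exact ⟨r, ⟨this.1, this.2.1⟩, this.2.2⟩
            · obtain ⟨r, hr1, r', hr2, hlt⟩ := hw a b hab
              exact ⟨r, hr1, hlt.trans_le (hm r' hr2.1 hr2.2)⟩
          exact ih _ hlt F' hF' (fun h' => hrF (hsub h')) rfl
        · have : Tr f F' z c = ∅ := by
            rw [Set.eq_empty_iff_forall_notMem]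
            intro x hx
            exact hemp ⟨f x, hx⟩
          rw [this]
          exact isPreconnected_empty
  -- the hull itself
  have hfc : Continuous fun x => ⟪z, f x⟫_ℝ := continuous_const.inner S.cont
  obtain ⟨x₀, hx1, hx2⟩ : ∃ x₀, x₀ ∈ closure {x | c < ⟪z, f x⟫_ℝ} ∧
      x₀ ∈ closure {x | ⟪z, f x⟫_ℝ < c} := by
    have hpre := isPreconnected_closed_iff.mp (isPreconnected_univ (α := M))
      (closure {x | c < ⟪z, f x⟫_ℝ}) (closure {x | ⟪z, f x⟫_ℝ < c}) isClosed_closure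
      isClosed_closure (by
        rw [← closure_union]
        intro x _
        by_contra hx
        have hx' : x ∈ interior {x | ⟪z, f x⟫_ℝ = c} := by
          rw [mem_interior]
          refine ⟨(closure ({x | c < ⟪z, f x⟫_ℝ} ∪ {x | ⟪z, f x⟫_ℝ < c}))ᶜ, ?_,
            isClosed_closure.isOpen_compl, hx⟩
          intro y hy
          have hy' : y ∉ ({x | c < ⟪z, f x⟫_ℝ} ∪ {x | ⟪z, f x⟫_ℝ < c} : Set M) :=
            fun h' => hy (subset_closure h')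
          simp only [Set.mem_union, Set.mem_setOf_eq, not_or, not_lt] at hy'
          exact le_antisymm hy'.1 hy'.2
        rw [hint] at hx'
        exact hx')
      (by
        obtain ⟨x, hx⟩ := h2
        exact ⟨x, Set.mem_univ x, subset_closure hx⟩)
      (by
        obtain ⟨x, hx⟩ := h1
        exact ⟨x, Set.mem_univ x, subset_closure hx⟩)
    obtain ⟨x₀, -, hx⟩ := hpre
    exact ⟨x₀, hx.1, hx.2⟩
  obtain ⟨w₁, w₂, hw⟩ := slice_funs S hN h1 h2 (f x₀) r₀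
  refine slice_circle S h hcap hint hx1 hx2 Fc.top (fun a b hab => (hw a b hab).2.2)
    (fun a b hab _ => (hw a b hab).1) ?_
  intro a b hab F' hF' hsub m hm hiff
  refine claim _ F' hF' ?_ rfl
  intro hr0
  have e1 := ((hiff r₀).mp ⟨hr0, hrc⟩).2.2
  obtain ⟨r, hr1, hr2, hr3⟩ := (hw a b hab).2.1
  have e2 := hm r hr1 hr2
  linarith

/-- generic levels -/
theorem generic_level [CompactSpace M] [SecondCountableTopology M] (hf : Continuous f)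
    (z : EuclideanSpace ℝ (Fin N)) {a b : ℝ} (hab : a < b) :
    ∃ c, a < c ∧ c < b ∧ interior {x | ⟪z, f x⟫_ℝ = c} = ∅ := by
  by_contra hcon
  push Not at hcon
  have hc : (Ioo a b).Countable := by
    refine Set.PairwiseDisjoint.countable_of_isOpen (s := fun c => interior {x | ⟪z, f x⟫_ℝ = c})
      ?_ (fun c _ => isOpen_interior) (fun c hc => ?_)
    · intro c _ c' _ hne
      refine Set.disjoint_left.mpr fun x hx hx' => hne ?_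
      have h1 : x ∈ {x | ⟪z, f x⟫_ℝ = c} := interior_subset hx
      have h2 : x ∈ {x | ⟪z, f x⟫_ℝ = c'} := interior_subset hx'
      have h1' : ⟪z, f x⟫_ℝ = c := h1
      have h2' : ⟪z, f x⟫_ℝ = c' := h2
      rw [← h1', ← h2']
    · exact hcon c hc.1 hc.2
  have h0 : MeasureTheory.volume (Ioo a b) = 0 := hc.measure_zero _
  rw [Real.volume_Ioo, ENNReal.ofReal_eq_zero] at h0
  linarith

/-- every neighbourhood of an extreme point meets a face with a disconnected chord, different from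
a given one -/
theorem near_ext [CompactSpace M] [T2Space M] [ConnectedSpace M] [LocallyPathConnectedSpace M]
    [SecondCountableTopology M] (S : CSetup f) (hN : 5 ≤ N) {p : EuclideanSpace ℝ (Fin N)}
    (hp : p ∈ extremePoints ℝ (Hul f)) {O : Set (EuclideanSpace ℝ (Fin N))} (hO : O ∈ 𝓝 p)
    (F₀ : Set (EuclideanSpace ℝ (Fin N))) :
    ∃ F, Two f F ∧ F ≠ F₀ ∧ (F ∩ O).Nonempty := by
  obtain ⟨xp, hxp, huniq⟩ := ext_unique S.cont S.loc S.conn hp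
  obtain ⟨z0, hz0⟩ : ∃ z0 : EuclideanSpace ℝ (Fin N), z0 ≠ 0 := by
    refine ⟨EuclideanSpace.single (⟨0, by omega⟩ : Fin N) (1 : ℝ), ?_⟩
    intro h
    have h2 := congrArg norm h
    rw [EuclideanSpace.norm_single, norm_zero, norm_one] at h2
    exact one_ne_zero h2
  obtain ⟨x1, hx1⟩ := S.sub z0 ⟪z0, p⟫_ℝ hz0
  have hx1p : x1 ≠ xp := by
    intro h
    apply hx1
    rw [h, hxp]
  have hW : f ⁻¹' (interior O) ∩ ({x1}ᶜ : Set M) ∈ 𝓝 xp := by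
    apply Filter.inter_mem
    · apply (isOpen_interior.preimage S.cont).mem_nhds
      show f xp ∈ interior O
      rw [hxp]
      exact mem_interior_iff_mem_nhds.2 hO
    · exact isOpen_compl_singleton.mem_nhds (fun h => hx1p h.symm)
  obtain ⟨D, ψ, φ, hxD, -, hch, hDW⟩ := small_int (S.pt xp) hW
  obtain ⟨z, c0, hc0, hcap0⟩ := ext_cap S.cont hp hch.isOpen (fun x hx => by
    rw [huniq x hx]; exact hxD)
  obtain ⟨c, hc1, hc2, hint⟩ := generic_level S.cont z hc0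
  have hcap : {x | c ≤ ⟪z, f x⟫_ℝ} ⊆ D := fun x hx => hcap0 (le_trans hc1.le hx)
  have h1' : ⟪z, f x1⟫_ℝ < c := by
    by_contra h
    push Not at h
    have h2 : x1 ∈ D := hcap h
    exact (hDW h2).2 rfl
  have h2' : c < ⟪z, f xp⟫_ℝ := by rw [hxp]; exact hc2
  have hconv : Convex ℝ (Hul f) := convex_convexHull ℝ _
  have hmem : ∀ x, f x ∈ Hul f := fun x => subset_convexHull ℝ _ ⟨x, rfl⟩
  obtain ⟨r1, hr1, hr1c⟩ : ∃ r ∈ Hul f, ⟪z, r⟫_ℝ = c := by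
    have hd : 0 < ⟪z, f xp⟫_ℝ - ⟪z, f x1⟫_ℝ := by linarith
    obtain ⟨s, hs⟩ : ∃ s, s = (c - ⟪z, f x1⟫_ℝ) / (⟪z, f xp⟫_ℝ - ⟪z, f x1⟫_ℝ) := ⟨_, rfl⟩
    have hs0 : 0 ≤ s := by
      rw [hs]
      apply div_nonneg _ hd.le
      linarith
    have hs1 : s ≤ 1 := by
      rw [hs, div_le_one hd]
      linarith
    refine ⟨(1 - s) • f x1 + s • f xp, hconv (hmem x1) (hmem xp) (by linarith) hs0 (by ring), ?_⟩
    rw [inner_add_right, inner_smul_right, inner_smul_right]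
    have : s * (⟪z, f xp⟫_ℝ - ⟪z, f x1⟫_ℝ) = c - ⟪z, f x1⟫_ℝ := by
      rw [hs]
      field_simp
    linarith
  obtain ⟨r₀, hr0, hr0c, hr0F⟩ : ∃ r₀ ∈ Hul f, ⟪z, r₀⟫_ℝ = c ∧
      ((∃ r, r ∈ F₀ ∧ r ∈ Hul f ∧ ⟪z, r⟫_ℝ = c) → r₀ ∈ F₀) := by
    by_cases h : ∃ r, r ∈ F₀ ∧ r ∈ Hul f ∧ ⟪z, r⟫_ℝ = c
    · obtain ⟨r, h3, h4, h5⟩ := h
      exact ⟨r, h4, h5, fun _ => h3⟩
    · exact ⟨r1, hr1, hr1c, fun h' => absurd h' h⟩
  obtain ⟨F, hF, hr0n, hrk, hdis⟩ := slice_main S hN hch hcap hint ⟨x1, h1'⟩ ⟨xp, h2'⟩ hr0 hr0c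
  have hside : (∃ r ∈ F, ⟪z, r⟫_ℝ < c) ∧ ∃ r ∈ F, c < ⟪z, r⟫_ℝ := by
    constructor
    · by_contra h
      push Not at h
      exact hdis (tr_side S hF (Or.inr h))
    · by_contra h
      push Not at h
      exact hdis (tr_side S hF (Or.inl h))
  have hdim := slice_dim (fc_convex hconv hF) hside.1 hside.2 hrk
  obtain ⟨r, hrF, hrc⟩ : ∃ r, r ∈ F ∧ ⟪z, r⟫_ℝ = c := by
    by_contra h
    have h3 : {r | r ∈ F ∧ ⟪z, r⟫_ℝ = c} = ∅ := by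
      apply Set.eq_empty_of_forall_notMem
      intro r hr
      exact h ⟨r, hr⟩
    rw [h3, vectorSpan_empty, finrank_bot] at hrk
    exact zero_ne_one hrk
  refine ⟨F, ⟨hF, hdim, z, c, hdis⟩, ?_, ?_⟩
  · intro h
    apply hr0n
    rw [h] at hrF ⊢
    exact hr0F ⟨r, hrF, fc_sub hF (by rw [h]; exact hrF), hrc⟩
  · obtain ⟨x, hxF, hxc⟩ := tr_nonempty S hF ⟨r, hrF, hrc⟩
    refine ⟨f x, hxF, ?_⟩
    have h3 : x ∈ D := hcap (le_of_eq hxc.symm)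
    exact interior_subset (hDW h3).1

/-- infinitely many extreme points give infinitely many faces with disconnected chords -/
theorem inf_two [CompactSpace M] [T2Space M] [ConnectedSpace M] [LocallyPathConnectedSpace M]
    [SecondCountableTopology M] (S : CSetup f) (hN : 5 ≤ N)
    (hinf : (extremePoints ℝ (Hul f)).Infinite) : {F | Two f F}.Infinite := by
  intro hT
  apply hinf
  have hcomp : IsCompact (Hul f) := hul_compact S.cont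
  have hconv : Convex ℝ (Hul f) := convex_convexHull ℝ _
  have hclaim : ∀ p ∈ extremePoints ℝ (Hul f), ∃ F G, Two f F ∧ Two f G ∧ F ≠ G ∧ p ∈ F ∧ p ∈ G := by
    intro p hp
    by_contra hcon
    have huniq : ∀ F G, Two f F → Two f G → p ∈ F → p ∈ G → F = G := by
      intro F G hF hG hpF hpG
      by_contra hne
      exact hcon ⟨F, G, hF, hG, hne, hpF, hpG⟩
    have hfin : {F | Two f F ∧ p ∉ F}.Finite := hT.subset fun F hF => hF.1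
    have hcl : IsClosed (⋃ F ∈ {F | Two f F ∧ p ∉ F}, F) :=
      hfin.isClosed_biUnion fun F hF => (fc_compact hcomp hF.1.1).isClosed
    have hO : (⋃ F ∈ {F | Two f F ∧ p ∉ F}, F)ᶜ ∈ 𝓝 p := by
      apply hcl.isOpen_compl.mem_nhds
      intro hmem
      rw [Set.mem_iUnion₂] at hmem
      obtain ⟨F, hF, hpF⟩ := hmem
      exact hF.2 hpF
    obtain ⟨F₀, hF₀⟩ : ∃ F₀ : Set (EuclideanSpace ℝ (Fin N)), ∀ F, Two f F → p ∈ F → F = F₀ := by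
      by_cases h : ∃ F₁, Two f F₁ ∧ p ∈ F₁
      · obtain ⟨F₁, h1, h2⟩ := h
        exact ⟨F₁, fun F hF hpF => huniq F F₁ hF h1 hpF h2⟩
      · exact ⟨∅, fun F hF hpF => absurd ⟨F, hF, hpF⟩ h⟩
    obtain ⟨F, hF, hne, r, hrF, hrO⟩ := near_ext S hN hp hO F₀
    have hpF : p ∈ F := by
      by_contra hpF
      apply hrO
      rw [Set.mem_iUnion₂]
      exact ⟨F, ⟨hF, hpF⟩, hrF⟩
    exact hne (hF₀ F hF hpF)
  have hfin : (⋃ q ∈ ({F | Two f F} ×ˢ {F | Two f F}),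
      {r : EuclideanSpace ℝ (Fin N) | q.1 ≠ q.2 ∧ r ∈ (q.1 ∩ q.2) ∩ extremePoints ℝ (Hul f)}).Finite := by
    apply Set.Finite.biUnion (hT.prod hT)
    rintro ⟨F, G⟩ ⟨hF, hG⟩
    by_cases hne : F = G
    · apply Set.Finite.subset Set.finite_empty
      rintro r ⟨h1, _⟩
      exact h1 hne
    · have hF' : Two f F := hF
      have hG' : Two f G := hG
      have h1 := two_inter (fc_extreme hF'.1) (fc_extreme hG'.1) (fc_convex hconv hF'.1)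
        (fc_convex hconv hG'.1) hF'.2.1 hG'.2.1 hne
      have h2 : F ∩ G ⊆ Hul f := fun r hr => fc_sub hF'.1 hr.1
      exact (line_ext h2 h1).subset fun r hr => hr.2
  refine hfin.subset ?_
  intro p hp
  obtain ⟨F, G, hF, hG, hne, hpF, hpG⟩ := hclaim p hp
  rw [Set.mem_iUnion₂]
  exact ⟨(F, G), ⟨hF, hG⟩, hne, ⟨hpF, hpG⟩, hp⟩

/-- infinitely many of them carry the same class -/
theorem inf_cls [CompactSpace M] [T2Space M] [ConnectedSpace M] [LocallyPathConnectedSpace M]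
    (S : CSetup f) (hinf : {F | Two f F}.Infinite) :
    ∃ t : M → M → ZMod 2, Coc univ t ∧ ¬ Null univ t ∧
      {F | Two f F ∧ Null {x | f x ∉ F} t}.Infinite := by
  obtain ⟨R, hRfin, hRcoc, hR⟩ := S.fin
  by_contra hcon
  push Not at hcon
  have hfin : (⋃ r ∈ {r | r ∈ R ∧ ¬ Null univ r}, {F | Two f F ∧ Null {x | f x ∉ F} r}).Finite := by
    apply Set.Finite.biUnion (hRfin.subset (fun r hr => hr.1))
    intro r hr
    have h1 := hcon r (hRcoc r hr.1) hr.2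
    exact Set.not_infinite.mp (by simpa using h1)
  apply hinf
  apply hfin.subset
  intro F hF
  obtain ⟨hFc, hrk, z, c, hpre⟩ := hF
  obtain ⟨t, ht1, ht2, ht3⟩ := face_class S hFc hpre
  obtain ⟨r, hr, hnr⟩ := hR t ht1
  have e1 : (t + r) + r = t := by rw [add_assoc, add_self_co, add_zero]
  have e2 : t + (t + r) = r := by rw [← add_assoc, add_self_co, zero_add]
  rw [Set.mem_iUnion₂]
  refine ⟨r, ⟨hr, ?_⟩, ⟨hFc, hrk, z, c, hpre⟩, ?_⟩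
  · intro h
    apply ht2
    rw [← e1]
    exact hnr.add h
  · rw [← e2]
    exact ht3.add (hnr.mono (Set.subset_univ _))

end Pool.Agent.Helper775.Clo
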