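import Pool.Agent.Helper775.Clo.Fin
import Pool.Agent.Helper775.Surf.Fin

/-! The final theorem for closed surfaces. -/

set_option autoImplicit false

namespace Pool.Agent.Helper775.Clo

open Set Topology Metric
open Pool.Agent.Helper775.Surf
open Pool.Agent.Helper775.Tight
open scoped InnerProductSpace Manifold

/-- small contractible neighbourhoods in a surface without boundary -/
theorem exists_contr_two {M : Type*} [TopologicalSpace M] [ChartedSpace (EuclideanSpace ℝ (Fin 2)) M]
    (z : M) (W : Set M) (hW : W ∈ 𝓝 z) :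
    ∃ (V : Set M) (hz : z ∈ V), V ∈ 𝓝 z ∧ V ⊆ W ∧
      Nonempty (ContinuousMap.Homotopy (ContinuousMap.id V) (ContinuousMap.const V ⟨z, hz⟩)) := by
  obtain ⟨φ, hφ⟩ : ∃ φ : OpenPartialHomeomorph M (EuclideanSpace ℝ (Fin 2)), z ∈ φ.source :=
    ⟨chartAt _ z, mem_chart_source _ z⟩
  have hzt : φ z ∈ φ.target := φ.map_source hφ
  have h1 : φ.target ∩ φ.symm ⁻¹' W ∈ 𝓝 (φ z) := by
    apply Filter.inter_mem (φ.open_target.mem_nhds hzt)
    apply (φ.continuousAt_symm hzt).preimage_mem_nhds
    rw [φ.left_inv hφ]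
    exact hW
  obtain ⟨r, hr, hball⟩ : ∃ r > 0, Metric.ball (φ z) r ⊆ φ.target ∩ φ.symm ⁻¹' W :=
    Metric.mem_nhds_iff.1 h1
  set B : Set (EuclideanSpace ℝ (Fin 2)) := Metric.ball (φ z) r with hB
  have hBo : IsOpen B := Metric.isOpen_ball
  have hzB : φ z ∈ B := Metric.mem_ball_self hr
  have hsym : ∀ y ∈ B, φ.symm y ∈ φ.source ∩ φ ⁻¹' B := by
    intro y hy
    refine ⟨φ.map_target (hball hy).1, ?_⟩
    rw [mem_preimage, φ.right_inv (hball hy).1]
    exact hy
  have hzV : z ∈ φ.source ∩ φ ⁻¹' B := ⟨hφ, hzB⟩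
  refine ⟨φ.source ∩ φ ⁻¹' B, hzV, ?_, ?_, ?_⟩
  · exact (φ.isOpen_inter_preimage hBo).mem_nhds hzV
  · rintro x ⟨hx1, hx2⟩
    have h2 := (hball hx2).2
    rw [mem_preimage, φ.left_inv hx1] at h2
    exact h2
  · have hseg : ∀ (s : unitInterval) (x : ↥(φ.source ∩ φ ⁻¹' B)),
        (1 - (s : ℝ)) • (φ x.1) + (s : ℝ) • (φ z) ∈ B := by
      intro s x
      apply (convex_ball (φ z) r) x.2.2 (Metric.mem_ball_self hr)
      · linarith [s.2.2]
      · exact s.2.1
      · ring
    have hcont : Continuous (fun p : unitInterval × ↥(φ.source ∩ φ ⁻¹' B) =>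
        (1 - (p.1 : ℝ)) • (φ p.2.1) + (p.1 : ℝ) • (φ z)) := by
      have hφc : Continuous (fun x : ↥(φ.source ∩ φ ⁻¹' B) => φ x.1) := by
        apply φ.continuousOn.comp_continuous continuous_subtype_val
        intro x
        exact x.2.1
      have hs : Continuous (fun p : unitInterval × ↥(φ.source ∩ φ ⁻¹' B) => (p.1 : ℝ)) :=
        continuous_subtype_val.comp continuous_fst
      exact ((continuous_const.sub hs).smul (hφc.comp continuous_snd)).add
        (hs.smul continuous_const)
    refine ⟨{ toFun := fun p => ⟨φ.symm ((1 - (p.1 : ℝ)) • (φ p.2.1) + (p.1 : ℝ) • (φ z)),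
                hsym _ (hseg p.1 p.2)⟩
              continuous_toFun := ?_
              map_zero_left := ?_
              map_one_left := ?_ }⟩
    · apply Continuous.subtype_mk
      apply φ.continuousOn_symm.comp_continuous hcont
      intro p
      exact (hball (hseg p.1 p.2)).1
    · intro x
      apply Subtype.ext
      show φ.symm ((1 - ((0 : unitInterval) : ℝ)) • (φ x.1) + ((0 : unitInterval) : ℝ) • (φ z)) = x.1
      have e : (1 - ((0 : unitInterval) : ℝ)) • (φ x.1) + ((0 : unitInterval) : ℝ) • (φ z) =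
          φ x.1 := by simp
      rw [e, φ.left_inv x.2.1]
    · intro x
      apply Subtype.ext
      show φ.symm ((1 - ((1 : unitInterval) : ℝ)) • (φ x.1) + ((1 : unitInterval) : ℝ) • (φ z)) = z
      have e : (1 - ((1 : unitInterval) : ℝ)) • (φ x.1) + ((1 : unitInterval) : ℝ) • (φ z) =
          φ z := by simp
      rw [e, φ.left_inv hφ]

/-- both versions of tightness give the hypotheses on connectedness and surjectivity -/
theorem tight_sur_two {M : Type*} [TopologicalSpace M] [CompactSpace M] [T2Space M]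
    [ConnectedSpace M] [ChartedSpace (EuclideanSpace ℝ (Fin 2)) M] {N : ℕ}
    {f : M → EuclideanSpace ℝ (Fin N)}
    (hf : Continuous f) (ht : TightSurf f ∨ CechTightSurf f) :
    Conn0 f ∧ ∀ (z : EuclideanSpace ℝ (Fin N)) (c : ℝ), Sur {x | c ≤ ⟪z, f x⟫_ℝ} := by
  have hsc : SecondCountableTopology M :=
    ChartedSpace.secondCountable_of_sigmaCompact (EuclideanSpace ℝ (Fin 2)) M
  have hmet : TopologicalSpace.MetrizableSpace M := inferInstance
  letI : MetricSpace M := TopologicalSpace.metrizableSpaceMetric M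
  have hg : ∀ z : EuclideanSpace ℝ (Fin N), Continuous (fun x => ⟪z, f x⟫_ℝ) :=
    fun z => continuous_const.inner hf
  have h0 : ∀ c : ℝ, {x : M | c ≤ ⟪(0 : EuclideanSpace ℝ (Fin N)), f x⟫_ℝ} = univ ∨
      {x : M | c ≤ ⟪(0 : EuclideanSpace ℝ (Fin N)), f x⟫_ℝ} = ∅ := by
    intro c
    by_cases hc : c ≤ 0
    · left
      rw [Set.eq_univ_iff_forall]
      intro x
      show c ≤ ⟪(0 : EuclideanSpace ℝ (Fin N)), f x⟫_ℝ
      rw [inner_zero_left]
      exact hc
    · right
      rw [Set.eq_empty_iff_forall_notMem]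
      intro x hx
      have hx' : c ≤ ⟪(0 : EuclideanSpace ℝ (Fin N)), f x⟫_ℝ := hx
      rw [inner_zero_left] at hx'
      exact hc hx'
  have hSu : Sur (univ : Set M) := fun t ht => ⟨t, ht, by rw [add_self_co]; exact null_zero _⟩
  have hSe : Sur (∅ : Set M) := fun t ht => ⟨0, coc_zero _, 0, fun x hx => absurd hx (Set.notMem_empty x)⟩
  constructor
  · intro z c
    by_cases hz : z = 0
    · subst hz
      rcases h0 c with h | h
      · rw [h]; exact isPreconnected_univ
      · rw [h]; exact isPreconnected_empty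
    · rcases ht with ht | ht
      · exact (ht z c hz).1
      · exact (ht z c hz).1
  · intro z c
    by_cases hz : z = 0
    · subst hz
      rcases h0 c with h | h
      · rw [h]; exact hSu
      · rw [h]; exact hSe
    · rcases ht with ht | ht
      · exact sur_of_germ (fun k hk => surj_of_sing_one (fun w W hW => exists_contr_two w W hW)
          (fun x => ⟪z, f x⟫_ℝ) (hg z) c (fun t _ => (ht z t hz).2) k hk)
      · exact sur_of_cech_one ((isClosed_le continuous_const (hg z)).isCompact) (ht z c hz).2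

/-- The final theorem. -/
theorem final_closed {M : Type*} [TopologicalSpace M] [CompactSpace M] [T2Space M]
    [ConnectedSpace M] [ChartedSpace (EuclideanSpace ℝ (Fin 2)) M]
    {N : ℕ} (hN : 6 ≤ N) (f : M → EuclideanSpace ℝ (Fin N))
    (hf : Continuous f) (hloc : ∀ x, ∃ U ∈ 𝓝 x, InjOn f U) (hs : Substantial f)
    (ht : TightSurf f ∨ CechTightSurf f) :
    ∃ s : Finset (EuclideanSpace ℝ (Fin N)), convexHull ℝ (range f) = convexHull ℝ (s : Set _) := by
  have hI : ∀ x : M, IntPt x := int_of_charted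
  haveI := clo_locPath hI
  haveI : SecondCountableTopology M :=
    ChartedSpace.secondCountable_of_sigmaCompact (EuclideanSpace ℝ (Fin 2)) M
  obtain ⟨hc, hS⟩ := tight_sur_two hf ht
  exact polytope_of_finite hf (clo_ext_finite ⟨hf, hloc, hs, hc, hS, hI, clo_finH1 hI,
    clo_punct hI⟩ hN)

end Pool.Agent.Helper775.Clo
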