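import Pool.Agent.Helper775.Clo.Defs
import Pool.Agent.Helper775.Surf.Geo
import Pool.Agent.Helper775.Surf.Topo

/-! Closed surfaces: cohomology. -/

set_option autoImplicit false

namespace Pool.Agent.Helper775.Clo

open Set Topology Metric
open Pool.Agent.Helper775.Surf
open scoped InnerProductSpace

variable {M : Type*} [TopologicalSpace M] {N : ℕ}

theorem clo_locPath (h : ∀ x : M, IntPt x) : LocallyPathConnectedSpace M := by
  have hI : Convex ℝ BoxI := convex_ball _ _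
  have key : ∀ (D : Set M) (T : Set (ℝ × ℝ)) (ψ : M → ℝ × ℝ) (φ : ℝ × ℝ → M),
      Chart D T ψ φ → Convex ℝ T → D.Nonempty → IsPathConnected D := by
    intro D T ψ φ hch hT hD
    have e : D = φ '' T := by
      ext y
      constructor
      · intro hy
        exact ⟨ψ y, hch.mψ y hy, hch.left y hy⟩
      · rintro ⟨p, hp, rfl⟩
        exact hch.mφ p hp
    obtain ⟨y, hy⟩ := hD
    rw [e]
    exact (hT.isPathConnected ⟨ψ y, hch.mψ y hy⟩).image' hch.cφ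
  refine ⟨fun x => Filter.hasBasis_self.mpr fun W hW => ?_⟩
  obtain ⟨D, ψ, φ, hxD, -, hch, hDW⟩ := small_int (h x) hW
  exact ⟨D, hch.isOpen.mem_nhds hxD, key D _ ψ φ hch hI ⟨x, hxD⟩, hDW⟩

theorem clo_punct (h : ∀ x : M, IntPt x) : Punct M := by
  intro x W hW
  obtain ⟨D, ψ, φ, hxD, h0, hc, hDW⟩ := small_int (h x) hW
  exact ⟨D, hc.isOpen, hxD, hDW, surf_punct_image hc hxD h0 surf_punct_boxI⟩

theorem clo_finH1 [CompactSpace M] [T2Space M] (h : ∀ x : M, IntPt x) : FinH1 M := by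
  haveI := clo_locPath h
  haveI : LocallyConnectedSpace M := inferInstance
  refine finH1_of fun x => ?_
  have hI : Convex ℝ BoxI := convex_ball 0 1
  obtain ⟨D, ψ, φ, hx, -, hch⟩ := h x
  exact ⟨D, hch.isOpen, hx, fun t ht => chart_null hch hI (ht.mono (subset_univ _))⟩

theorem punct_conn_side {G : Set M} (hc : IsPreconnected G) {y : M} {u v O : Set M}
    (hu : IsOpen u) (hv : IsOpen v) (hO : IsOpen O) (hyO : y ∈ O) (hOG : O ⊆ G)
    (hcov : G \ {y} ⊆ u ∪ v) (hvG : v ⊆ G \ {y}) (hd : Disjoint u v) (hOu : O \ {y} ⊆ u)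
    (hne : v.Nonempty) : False := by
  obtain ⟨z, hz⟩ := hne
  obtain ⟨x, _, hx1, hx2⟩ := hc (u ∪ O) v (hu.union hO) hv (by
      intro x hx
      by_cases hxy : x = y
      · rw [hxy]; exact Or.inl (Or.inr hyO)
      · rcases hcov ⟨hx, hxy⟩ with h | h
        · exact Or.inl (Or.inl h)
        · exact Or.inr h) ⟨y, hOG hyO, Or.inr hyO⟩ ⟨z, (hvG hz).1, hz⟩
  rcases hx1 with h | h
  · exact Set.disjoint_left.mp hd h hx2
  · exact Set.disjoint_left.mp hd (hOu ⟨h, (hvG hx2).2⟩) hx2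

/-- an open connected set minus a point is connected -/
theorem punct_conn [T1Space M] (hp : Punct M) {G : Set M} (hG : IsOpen G) (hc : IsPreconnected G)
    (y : M) : IsPreconnected (G \ {y}) := by
  by_cases hy : y ∈ G
  · intro u v hu hv hcov hnu hnv
    by_contra hcon
    rw [Set.not_nonempty_iff_eq_empty] at hcon
    have hGo : IsOpen (G \ {y}) := hG.sdiff isClosed_singleton
    obtain ⟨O, hO, hyO, hOG, hOc⟩ := hp y G (hG.mem_nhds hy)
    have hd : Disjoint ((G \ {y}) ∩ u) ((G \ {y}) ∩ v) := by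
      rw [Set.disjoint_left]
      rintro x ⟨h1, h2⟩ ⟨_, h3⟩
      have : x ∈ (G \ {y}) ∩ (u ∩ v) := ⟨h1, h2, h3⟩
      rw [hcon] at this
      exact this
    have hcov' : G \ {y} ⊆ ((G \ {y}) ∩ u) ∪ ((G \ {y}) ∩ v) := by
      intro x hx
      rcases hcov hx with h | h
      · exact Or.inl ⟨hx, h⟩
      · exact Or.inr ⟨hx, h⟩
    have hOsub : O \ {y} ⊆ G \ {y} := fun x hx => ⟨hOG hx.1, hx.2⟩
    rcases hOc.subset_or_subset (hGo.inter hu) (hGo.inter hv) hd (hOsub.trans hcov') with h | h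
    · exact punct_conn_side hc (hGo.inter hu) (hGo.inter hv) hO hyO hOG hcov'
        Set.inter_subset_left hd h hnv
    · exact punct_conn_side hc (hGo.inter hv) (hGo.inter hu) hO hyO hOG
        (by rw [Set.union_comm]; exact hcov') Set.inter_subset_left hd.symm h hnu
  · rw [Set.sdiff_singleton_eq_self hy]
    exact hc

theorem ct3_sur_lt [CompactSpace M]
    {f : M → EuclideanSpace ℝ (Fin N)} (S : CSetup f) (z : EuclideanSpace ℝ (Fin N)) (c : ℝ) :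
    Sur {x | ⟪z, f x⟫_ℝ < c} := by
  intro t ht
  obtain ⟨t', h1, h2⟩ := sur_directed S.fin
    (S := {U : Set M | ∃ c' : ℝ, c' < c ∧ U = {x | ⟪z, f x⟫_ℝ < c'}})
    (by
      rintro U ⟨c', _, rfl⟩
      exact isOpen_lt (continuous_const.inner S.cont) continuous_const)
    (by
      rintro U ⟨c', _, rfl⟩
      exact conn_lt S.conn z c')
    (by
      rintro U ⟨c1, hc1, rfl⟩ V ⟨c2, hc2, rfl⟩
      refine ⟨_, ⟨max c1 c2, max_lt hc1 hc2, rfl⟩, ?_, ?_⟩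
      · intro x hx
        exact lt_of_lt_of_le (show ⟪z, f x⟫_ℝ < c1 from hx) (le_max_left _ _)
      · intro x hx
        exact lt_of_lt_of_le (show ⟪z, f x⟫_ℝ < c2 from hx) (le_max_right _ _))
    (t := t)
    (by
      rintro U ⟨c', hc', rfl⟩
      have hsub : {x | -c' ≤ ⟪-z, f x⟫_ℝ} ⊆ {x | ⟪z, f x⟫_ℝ < c} := by
        intro x hx
        have hx' : -c' ≤ ⟪-z, f x⟫_ℝ := hx
        rw [inner_neg_left] at hx'
        show ⟪z, f x⟫_ℝ < c
        linarith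
      obtain ⟨t', g1, g2⟩ := S.sur (-z) (-c') t (ht.mono hsub)
      refine ⟨t', g1, g2.mono ?_⟩
      intro x hx
      have hx' : ⟪z, f x⟫_ℝ < c' := hx
      show -c' ≤ ⟪-z, f x⟫_ℝ
      rw [inner_neg_left]
      linarith)
  refine ⟨t', h1, h2.mono ?_⟩
  intro x hx
  have hx' : ⟪z, f x⟫_ℝ < c := hx
  refine ⟨_, ⟨(⟪z, f x⟫_ℝ + c) / 2, by linarith, rfl⟩, ?_⟩
  show ⟪z, f x⟫_ℝ < (⟪z, f x⟫_ℝ + c) / 2
  linarith

theorem ct3_notV [CompactSpace M] [T2Space M]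
    {f : M → EuclideanSpace ℝ (Fin N)} (S : CSetup f) {p : EuclideanSpace ℝ (Fin N)}
    (hp : p ∈ extremePoints ℝ (Hul f)) {x : M} (hx : f x = p) : ¬ VProp x := by
  rintro ⟨v, hv, hv2⟩
  obtain ⟨x0, _, hun⟩ := ext_unique S.cont S.loc S.conn hp
  have hxx : ∀ y, f y = p → y = x := fun y hy => (hun y hy).trans (hun x hx).symm
  obtain ⟨t', h1, h2⟩ := sur_directed S.fin
    (S := {U : Set M | ∃ (z : EuclideanSpace ℝ (Fin N)) (c : ℝ), c < ⟪z, p⟫_ℝ ∧
      U = {x' | ⟪z, f x'⟫_ℝ < c}})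
    (by
      rintro U ⟨z, c, _, rfl⟩
      exact isOpen_lt (continuous_const.inner S.cont) continuous_const)
    (by
      rintro U ⟨z, c, _, rfl⟩
      exact conn_lt S.conn z c)
    (by
      rintro U ⟨z1, c1, hc1, rfl⟩ V ⟨z2, c2, hc2, rfl⟩
      have ho : IsOpen ({x' | c1 < ⟪z1, f x'⟫_ℝ} ∩ {x' | c2 < ⟪z2, f x'⟫_ℝ}) :=
        (isOpen_lt continuous_const (continuous_const.inner S.cont)).inter
          (isOpen_lt continuous_const (continuous_const.inner S.cont))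
      obtain ⟨z3, c3, hc3, hsub⟩ := ext_cap S.cont hp ho (by
        intro y hy
        constructor
        · show c1 < ⟪z1, f y⟫_ℝ
          rw [hy]; exact hc1
        · show c2 < ⟪z2, f y⟫_ℝ
          rw [hy]; exact hc2)
      refine ⟨_, ⟨z3, c3, hc3, rfl⟩, ?_, ?_⟩
      · intro y hy
        have hy' : ⟪z1, f y⟫_ℝ < c1 := hy
        show ⟪z3, f y⟫_ℝ < c3
        by_contra hcon
        have := (hsub (not_lt.1 hcon)).1
        have h3 : c1 < ⟪z1, f y⟫_ℝ := this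
        linarith
      · intro y hy
        have hy' : ⟪z2, f y⟫_ℝ < c2 := hy
        show ⟪z3, f y⟫_ℝ < c3
        by_contra hcon
        have := (hsub (not_lt.1 hcon)).2
        have h3 : c2 < ⟪z2, f y⟫_ℝ := this
        linarith)
    (t := v)
    (by
      rintro U ⟨z, c, hc, rfl⟩
      have hsub : {x' | ⟪z, f x'⟫_ℝ < c} ⊆ ({x}ᶜ : Set M) := by
        intro y hy hyx
        have hy' : ⟪z, f y⟫_ℝ < c := hy
        rw [Set.mem_singleton_iff] at hyx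
        rw [hyx, hx] at hy'
        linarith
      exact ct3_sur_lt S z c v (hv.mono hsub))
  refine hv2 t' h1 (h2.mono ?_)
  intro y hy
  have hyx : y ≠ x := hy
  obtain ⟨z, c, hc, hsub⟩ := ext_cap S.cont hp (isOpen_compl_singleton (x := y)) (by
    intro y' hy' hyy
    rw [Set.mem_singleton_iff] at hyy
    exact hyx (by rw [← hyy]; exact hxx y' hy'))
  refine ⟨_, ⟨z, c, hc, rfl⟩, ?_⟩
  show ⟪z, f y⟫_ℝ < c
  by_contra hcon
  exact hsub (not_lt.1 hcon) rfl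

/-- every class on the complement of a point extends -/
theorem not_vprop [CompactSpace M] [T2Space M] [ConnectedSpace M]
    {f : M → EuclideanSpace ℝ (Fin N)} (S : CSetup f) (y : M) : ¬ VProp y := by
  intro hy
  have hne : (Hul f).Nonempty := by
    obtain ⟨m⟩ : Nonempty M := inferInstance
    exact ⟨f m, subset_convexHull ℝ _ ⟨m, rfl⟩⟩
  obtain ⟨p, hp⟩ := (hul_compact S.cont).extremePoints_nonempty hne
  obtain ⟨x0, hx0, _⟩ := ext_unique S.cont S.loc S.conn hp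
  have hcl : IsClopen {x : M | VProp x} := by
    constructor
    · rw [← isOpen_compl_iff, isOpen_iff_mem_nhds]
      intro x hx
      obtain ⟨D, ψ, φ, hxD, _, hch⟩ := S.pt x
      filter_upwards [hch.isOpen.mem_nhds hxD] with z hz hzv
      exact hx (v_hom hch hz hxD hzv)
    · rw [isOpen_iff_mem_nhds]
      intro x hx
      obtain ⟨D, ψ, φ, hxD, _, hch⟩ := S.pt x
      filter_upwards [hch.isOpen.mem_nhds hxD] with z hz
      exact v_hom hch hxD hz hx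
  have hall := hcl.eq_univ ⟨y, hy⟩
  have : VProp x0 := by
    have h1 : x0 ∈ {x : M | VProp x} := by rw [hall]; trivial
    exact h1
  exact ct3_notV S hp hx0 this

/-- no class on the complement of a point is essential at that point -/
theorem not_ess [CompactSpace M] [T2Space M] [ConnectedSpace M]
    {f : M → EuclideanSpace ℝ (Fin N)} (S : CSetup f) {y : M} {v : M → M → ZMod 2}
    (hv : Coc ({y}ᶜ : Set M) v) : ¬ Ess y v := by
  intro he
  have hnv := not_vprop S y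
  have hex : ∃ t, Coc univ t ∧ Null ({y}ᶜ : Set M) (v + t) := by
    by_contra hcon
    apply hnv
    refine ⟨v, hv, fun t ht hn => hcon ⟨t, ht, hn⟩⟩
  obtain ⟨t, ht, hn⟩ := hex
  obtain ⟨D, ψ, φ, hyD, _, hch⟩ := S.pt y
  have hD : Null D t := chart_null hch (convex_ball 0 1) (ht.mono (subset_univ _))
  apply he D (hch.isOpen.mem_nhds hyD)
  have h1 : Null (D \ {y}) (v + t) := hn.mono (fun x hx => hx.2)
  have h2 : Null (D \ {y}) t := hD.mono (fun x hx => hx.1)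
  have h3 := h1.add h2
  have h4 : v + t + t = v := by
    rw [add_assoc, add_self_co, add_zero]
  rwa [h4] at h3

theorem ext_one [CompactSpace M] [T2Space M] [ConnectedSpace M]
    {f : M → EuclideanSpace ℝ (Fin N)} (S : CSetup f) {y : M} {v : M → M → ZMod 2}
    (hv : Coc ({y}ᶜ : Set M) v) : ∃ t, Coc univ t ∧ Null ({y}ᶜ : Set M) (v + t) := by
  by_contra hcon
  exact not_vprop S y ⟨v, hv, fun t ht hn => hcon ⟨t, ht, hn⟩⟩

theorem pt2_conn {D : Set M} {ψ : M → ℝ × ℝ} {φ : ℝ × ℝ → M}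
    (h : Chart D BoxI ψ φ) {O : Set (ℝ × ℝ)} (hO : Convex ℝ O) :
    IsPreconnected (D ∩ ψ ⁻¹' O) := by
  have e : D ∩ ψ ⁻¹' O = φ '' (BoxI ∩ O) := by
    ext x
    constructor
    · rintro ⟨hx, hxO⟩
      exact ⟨ψ x, ⟨h.mψ x hx, hxO⟩, h.left x hx⟩
    · rintro ⟨p, ⟨hp, hpO⟩, rfl⟩
      refine ⟨h.mφ p hp, ?_⟩
      change ψ (φ p) ∈ O
      rw [h.right p hp]
      exact hpO
  rw [e]
  exact (((convex_ball (0 : ℝ × ℝ) 1).inter hO).isPreconnected).image φ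
    (h.cφ.mono inter_subset_left)

theorem pt2_null {D : Set M} {ψ : M → ℝ × ℝ} {φ : ℝ × ℝ → M}
    (h : Chart D BoxI ψ φ) {O : Set (ℝ × ℝ)} (hOo : IsOpen O) (hOc : Convex ℝ O)
    {u : M → M → ZMod 2} (hu : Coc (D ∩ ψ ⁻¹' O) u) : Null (D ∩ ψ ⁻¹' O) u :=
  chart_null (chart_restrict h hOo) ((convex_ball (0 : ℝ × ℝ) 1).inter hOc) hu

theorem pt2_mono {D : Set M} {ψ : M → ℝ × ℝ} {y : M} (h0 : ψ y = 0) {O : Set (ℝ × ℝ)}
    (hO : (0 : ℝ × ℝ) ∉ O) : D ∩ ψ ⁻¹' O ⊆ D \ {y} := by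
  rintro x ⟨hx, hxO⟩
  refine ⟨hx, fun hxy => hO ?_⟩
  rw [← h0, ← mem_singleton_iff.1 hxy]
  exact hxO

theorem pt2_c1 : Convex ℝ {p : ℝ × ℝ | 0 < p.2} :=
  (convex_Ioi (0 : ℝ)).linear_preimage (LinearMap.snd ℝ ℝ ℝ)

theorem pt2_c2 : Convex ℝ {p : ℝ × ℝ | p.1 < 0} :=
  (convex_Iio (0 : ℝ)).linear_preimage (LinearMap.fst ℝ ℝ ℝ)

theorem pt2_c3 : Convex ℝ {p : ℝ × ℝ | p.2 < 0} :=
  (convex_Iio (0 : ℝ)).linear_preimage (LinearMap.snd ℝ ℝ ℝ)

theorem pt2_c4 : Convex ℝ {p : ℝ × ℝ | 0 < p.1} :=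
  (convex_Ioi (0 : ℝ)).linear_preimage (LinearMap.fst ℝ ℝ ℝ)

theorem pt2_o1 : IsOpen {p : ℝ × ℝ | 0 < p.2} := isOpen_lt continuous_const continuous_snd

theorem pt2_o2 : IsOpen {p : ℝ × ℝ | p.1 < 0} := isOpen_lt continuous_fst continuous_const

theorem pt2_o3 : IsOpen {p : ℝ × ℝ | p.2 < 0} := isOpen_lt continuous_snd continuous_const

theorem pt2_o4 : IsOpen {p : ℝ × ℝ | 0 < p.1} := isOpen_lt continuous_const continuous_fst

theorem pt2_data {D : Set M} {ψ : M → ℝ × ℝ} {φ : ℝ × ℝ → M}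
    (h : Chart D BoxI ψ φ) {y : M} (h0 : ψ y = 0) {u : M → M → ZMod 2}
    (hu : Coc (D \ {y}) u) : ∃ (s σ : M → ZMod 2) (kp km : ZMod 2),
      Triv ((D ∩ ψ ⁻¹' {p | 0 < p.2} ∪ D ∩ ψ ⁻¹' {p | p.1 < 0}) ∪ D ∩ ψ ⁻¹' {p | p.2 < 0}) u s ∧
      Triv (D ∩ ψ ⁻¹' {p | 0 < p.1}) u σ ∧
      (∀ x ∈ D, 0 < (ψ x).2 → 0 < (ψ x).1 → s x + σ x = kp) ∧
      (∀ x ∈ D, (ψ x).2 < 0 → 0 < (ψ x).1 → s x + σ x = km) := by
  obtain ⟨s1, hs1⟩ := pt2_null h pt2_o1 pt2_c1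
    (hu.mono (pt2_mono h0 (fun hh => lt_irrefl (0 : ℝ) hh)))
  obtain ⟨s2, hs2⟩ := pt2_null h pt2_o2 pt2_c2
    (hu.mono (pt2_mono h0 (fun hh => lt_irrefl (0 : ℝ) hh)))
  obtain ⟨s3, hs3⟩ := pt2_null h pt2_o3 pt2_c3
    (hu.mono (pt2_mono h0 (fun hh => lt_irrefl (0 : ℝ) hh)))
  obtain ⟨σ, hσ⟩ := pt2_null h pt2_o4 pt2_c4
    (hu.mono (pt2_mono h0 (fun hh => lt_irrefl (0 : ℝ) hh)))
  have o1 := (chart_restrict h pt2_o1).isOpen
  have o2 := (chart_restrict h pt2_o2).isOpen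
  have o3 := (chart_restrict h pt2_o3).isOpen
  have k12 := triv_uniq (pt2_conn h (pt2_c1.inter pt2_c2))
    (hs1.mono (fun x hx => ⟨hx.1, hx.2.1⟩)) (hs2.mono (fun x hx => ⟨hx.1, hx.2.2⟩))
  obtain ⟨k12, hk12⟩ := k12
  obtain ⟨s12, hs12⟩ := null_union o1 o2 hs1 hs2 (k := k12)
    (fun x hx => hk12 x ⟨hx.1.1, hx.1.2, hx.2.2⟩)
  obtain ⟨k23, hk23⟩ := triv_uniq (pt2_conn h (pt2_c2.inter pt2_c3))
    (hs12.mono (fun x hx => Or.inr ⟨hx.1, hx.2.1⟩)) (hs3.mono (fun x hx => ⟨hx.1, hx.2.2⟩))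
  obtain ⟨s, hs⟩ := null_union (o1.union o2) o3 hs12 hs3 (k := k23) (by
    rintro x ⟨hx, hx3⟩
    rcases hx with hx | hx
    · exfalso
      have e1 : 0 < (ψ x).2 := hx.2
      have e2 : (ψ x).2 < 0 := hx3.2
      exact lt_asymm e1 e2
    · exact hk23 x ⟨hx.1, hx.2, hx3.2⟩)
  obtain ⟨kp, hkp⟩ := triv_uniq (pt2_conn h (pt2_c1.inter pt2_c4))
    (hs.mono (fun x hx => Or.inl (Or.inl ⟨hx.1, hx.2.1⟩))) (hσ.mono (fun x hx => ⟨hx.1, hx.2.2⟩))
  obtain ⟨km, hkm⟩ := triv_uniq (pt2_conn h (pt2_c3.inter pt2_c4))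
    (hs.mono (fun x hx => Or.inr ⟨hx.1, hx.2.1⟩)) (hσ.mono (fun x hx => ⟨hx.1, hx.2.2⟩))
  exact ⟨s, σ, kp, km, hs, hσ, fun x hx h1 h2 => hkp x ⟨hx, h1, h2⟩,
    fun x hx h1 h2 => hkm x ⟨hx, h1, h2⟩⟩

theorem pt2_glue {D : Set M} {ψ : M → ℝ × ℝ} {φ : ℝ × ℝ → M}
    (h : Chart D BoxI ψ φ) {y : M} (hy : y ∈ D) (h0 : ψ y = 0) {u : M → M → ZMod 2}
    {s σ : M → ZMod 2} {k : ZMod 2}
    (hs : Triv ((D ∩ ψ ⁻¹' {p | 0 < p.2} ∪ D ∩ ψ ⁻¹' {p | p.1 < 0}) ∪ D ∩ ψ ⁻¹' {p | p.2 < 0}) u s)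
    (hσ : Triv (D ∩ ψ ⁻¹' {p | 0 < p.1}) u σ)
    (hp : ∀ x ∈ D, 0 < (ψ x).2 → 0 < (ψ x).1 → s x + σ x = k)
    (hm : ∀ x ∈ D, (ψ x).2 < 0 → 0 < (ψ x).1 → s x + σ x = k) : Null (D \ {y}) u := by
  have o1 := (chart_restrict h pt2_o1).isOpen
  have o2 := (chart_restrict h pt2_o2).isOpen
  have o3 := (chart_restrict h pt2_o3).isOpen
  have o4 := (chart_restrict h pt2_o4).isOpen
  have hn := null_union ((o1.union o2).union o3) o4 hs hσ (k := k) (by
    rintro x ⟨hx, hx4⟩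
    have e4 : 0 < (ψ x).1 := hx4.2
    rcases hx with (hx | hx) | hx
    · exact hp x hx.1 hx.2 e4
    · exfalso
      have e1 : (ψ x).1 < 0 := hx.2
      exact lt_asymm e1 e4
    · exact hm x hx.1 hx.2 e4)
  refine hn.mono ?_
  rintro x ⟨hx, hxy⟩
  have hne : ψ x ≠ 0 := by
    intro he
    apply hxy
    rw [mem_singleton_iff, ← h.left x hx, ← h.left y hy, he, h0]
  rcases lt_trichotomy (ψ x).2 0 with h2 | h2 | h2
  · exact Or.inl (Or.inr ⟨hx, h2⟩)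
  · rcases lt_trichotomy (ψ x).1 0 with h1 | h1 | h1
    · exact Or.inl (Or.inl (Or.inr ⟨hx, h1⟩))
    · exact absurd (Prod.ext h1 h2) hne
    · exact Or.inr ⟨hx, h1⟩
  · exact Or.inl (Or.inl (Or.inl ⟨hx, h2⟩))

theorem pt2_z : ∀ a b c d : ZMod 2, a ≠ b → c ≠ d → a + c = b + d := by
  decide

theorem pt2_z' : ∀ s s' t t' k k' : ZMod 2, s + t = k → s' + t' = k' →
    (s + s') + (t + t') = k + k' := by
  decide

/-- the first cohomology of the punctured disc has order two -/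
theorem punct_two [T2Space M] {D : Set M} {ψ : M → ℝ × ℝ} {φ : ℝ × ℝ → M}
    (h : Chart D BoxI ψ φ) {y : M} (hy : y ∈ D) (h0 : ψ y = 0) {u u' : M → M → ZMod 2}
    (hu : Coc (D \ {y}) u) (hu' : Coc (D \ {y}) u') (hn : ¬ Null (D \ {y}) u)
    (hn' : ¬ Null (D \ {y}) u') : Null (D \ {y}) (u + u') := by
  obtain ⟨s, σ, kp, km, h1, h2, h3, h4⟩ := pt2_data h h0 hu
  obtain ⟨s', σ', kp', km', h1', h2', h3', h4'⟩ := pt2_data h h0 hu'
  have hk : kp ≠ km := by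
    intro he
    rw [he] at h3
    exact hn (pt2_glue h hy h0 h1 h2 h3 h4)
  have hk' : kp' ≠ km' := by
    intro he
    rw [he] at h3'
    exact hn' (pt2_glue h hy h0 h1' h2' h3' h4')
  refine pt2_glue h hy h0 (k := kp + kp') (h1.add h1') (h2.add h2') ?_ ?_
  · intro x hx a b
    exact pt2_z' _ _ _ _ _ _ (h3 x hx a b) (h3' x hx a b)
  · intro x hx a b
    rw [pt2_z kp km kp' km' hk hk']
    exact pt2_z' _ _ _ _ _ _ (h4 x hx a b) (h4' x hx a b)

/-- the sum of two essential classes is locally trivial -/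
theorem ess_add [T2Space M] {y : M} (hy : IntPt y) {O : Set M} (hO : IsOpen O) (hyO : y ∈ O)
    {u u' : M → M → ZMod 2} (hu : Coc (O \ {y}) u) (hu' : Coc (O \ {y}) u') (he : Ess y u)
    (he' : Ess y u') : ∃ W ∈ 𝓝 y, Null (W \ {y}) (u + u') := by
  obtain ⟨D, ψ, φ, hyD, h0, hch, hDO⟩ := small_int hy (hO.mem_nhds hyO)
  have hDn : D ∈ 𝓝 y := hch.isOpen.mem_nhds hyD
  have hsub : D \ {y} ⊆ O \ {y} := fun x hx => ⟨hDO hx.1, hx.2⟩
  exact ⟨D, hDn, punct_two hch hyD h0 (fun x hx => hu x (hsub hx)) (fun x hx => hu' x (hsub hx))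
    (he D hDn) (he' D hDn)⟩

theorem z2_aux845 : ∀ a b c : ZMod 2, a + b + (b + c) = a + c := by decide

theorem ext_aux845 [CompactSpace M] [T2Space M] {Z : Set M} (y : M) {t : M → M → ZMod 2}
    (ht : Coc Z t) (h : ∃ W ∈ 𝓝 y, Null (W \ {y}) t) :
    ∃ t' : M → M → ZMod 2, Coc (insert y Z) t' ∧
      ∀ x, x ≠ y → ∃ U ∈ 𝓝 x, ∀ a ∈ U, ∀ b ∈ U, t' a b = t a b := by
  classical
  obtain ⟨W, hW, σ, hσ⟩ := h
  obtain ⟨C, hC, hCc, hCW⟩ := exists_mem_nhds_isClosed_subset hW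
  have h2 : ∀ x, x ≠ y → ∃ U ∈ 𝓝 x, ∀ a ∈ U, ∀ b ∈ U,
      (fun a b => if a ∈ interior C ∧ b ∈ interior C then σ a + σ b else t a b : M → M → ZMod 2) a b
        = t a b := by
    intro x hxy
    by_cases hx : x ∈ C
    · obtain ⟨U, hU, hU'⟩ := hσ x ⟨hCW hx, hxy⟩
      refine ⟨U, hU, fun a ha b hb => ?_⟩
      simp only
      split_ifs
      · exact (hU' a ha b hb).symm
      · rfl
    · refine ⟨Cᶜ, hCc.isOpen_compl.mem_nhds hx, fun a ha b hb => ?_⟩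
      simp only
      rw [if_neg]
      rintro ⟨h1, -⟩
      exact ha (interior_subset h1)
  refine ⟨_, ?_, h2⟩
  intro x hx
  by_cases hxy : x = y
  · refine ⟨interior C, ?_, ?_⟩
    · rw [hxy]; exact interior_mem_nhds.2 hC
    · intro a ha b hb c hc
      simp only
      rw [if_pos ⟨ha, hb⟩, if_pos ⟨hb, hc⟩, if_pos ⟨ha, hc⟩]
      exact z2_aux845 _ _ _
  · have hxZ : x ∈ Z := by
      rcases hx with hx | hx
      · exact absurd hx hxy
      · exact hx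
    obtain ⟨W1, hW1, hW1'⟩ := ht x hxZ
    obtain ⟨U, hU, hU'⟩ := h2 x hxy
    refine ⟨W1 ∩ U, Filter.inter_mem hW1 hU, ?_⟩
    intro a ha b hb c hc
    rw [hU' a ha.2 b hb.2, hU' b hb.2 c hc.2, hU' a ha.2 c hc.2]
    exact hW1' a ha.1 b hb.1 c hc.1

/-- glueing a cocycle on `O` and a coboundary elsewhere -/
theorem glue_coc [T2Space M] [CompactSpace M] {A R O : Set M} (hA : IsClosed A) (hO : IsOpen O)
    (hAO : A ⊆ O) (hR : IsClosed R) (hRO : Disjoint (closure O) R) {B : Set M} (hB : B ⊆ A)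
    {t : M → M → ZMod 2} {s : M → ZMod 2} (ht : Coc (O \ B) t) (hs : Triv ((A ∪ R)ᶜ : Set M) t s) :
    ∃ t' : M → M → ZMod 2, Coc (Bᶜ : Set M) t' ∧ Triv (Aᶜ : Set M) t' s ∧
      (∀ a ∈ O, ∀ b ∈ O, t' a b = t a b) := by
  classical
  have key : ∀ x ∈ (Aᶜ : Set M), ∃ W ∈ 𝓝 x, ∀ a ∈ W, ∀ b ∈ W,
      (fun a b => if a ∈ O ∧ b ∈ O then t a b else s a + s b : M → M → ZMod 2) a b = s a + s b := by
    intro x hx
    by_cases hxR : x ∈ R
    · have hxO : x ∉ closure O := fun h => Set.disjoint_left.1 hRO h hxR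
      refine ⟨(closure O)ᶜ, isClosed_closure.isOpen_compl.mem_nhds hxO, fun a ha b hb => ?_⟩
      simp only
      rw [if_neg]
      rintro ⟨h1, -⟩
      exact ha (subset_closure h1)
    · obtain ⟨W, hW, hW'⟩ := hs x (by
        intro h
        rcases h with h | h
        · exact hx h
        · exact hxR h)
      refine ⟨W, hW, fun a ha b hb => ?_⟩
      simp only
      split_ifs
      · exact hW' a ha b hb
      · rfl
  have hO2 : ∀ a ∈ O, ∀ b ∈ O,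
      (fun a b => if a ∈ O ∧ b ∈ O then t a b else s a + s b : M → M → ZMod 2) a b = t a b := by
    intro a ha b hb
    simp only
    rw [if_pos ⟨ha, hb⟩]
  refine ⟨_, ?_, key, hO2⟩
  intro x hx
  by_cases hxA : x ∈ A
  · obtain ⟨W, hW, hW'⟩ := ht x ⟨hAO hxA, hx⟩
    refine ⟨W ∩ O, Filter.inter_mem hW (hO.mem_nhds (hAO hxA)), ?_⟩
    intro a ha b hb c hc
    rw [hO2 a ha.2 b hb.2, hO2 b hb.2 c hc.2, hO2 a ha.2 c hc.2]
    exact hW' a ha.1 b hb.1 c hc.1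
  · obtain ⟨W, hW, hW'⟩ := key x hxA
    refine ⟨W, hW, ?_⟩
    intro a ha b hb c hc
    rw [hW' a ha b hb, hW' b hb c hc, hW' a ha c hc]
    exact z2_aux845 _ _ _

/-- a class on the complement of two points which is trivial near both of them extends -/
theorem ext_two [CompactSpace M] [T2Space M] {y y' : M} (hne : y ≠ y') {t : M → M → ZMod 2}
    (ht : Coc ({y, y'}ᶜ : Set M) t) (h : ∃ W ∈ 𝓝 y, Null (W \ {y}) t)
    (h' : ∃ W ∈ 𝓝 y', Null (W \ {y'}) t) :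
    ∃ t', Coc univ t' ∧ Null ({y, y'}ᶜ : Set M) (t + t') := by
  obtain ⟨t1, h1c, h1l⟩ := ext_aux845 y ht h
  obtain ⟨W', hW', σ', hσ'⟩ := h'
  have h3 : ∃ W ∈ 𝓝 y', Null (W \ {y'}) t1 := by
    refine ⟨W' ∩ {y}ᶜ, Filter.inter_mem hW' (isOpen_compl_singleton.mem_nhds (Ne.symm hne)), σ', ?_⟩
    intro x hx
    obtain ⟨U, hU, hU'⟩ := h1l x hx.1.2
    obtain ⟨V, hV, hV'⟩ := hσ' x ⟨hx.1.1, hx.2⟩
    refine ⟨U ∩ V, Filter.inter_mem hU hV, fun a ha b hb => ?_⟩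
    rw [hU' a ha.1 b hb.1]
    exact hV' a ha.2 b hb.2
  obtain ⟨t2, h2c, h2l⟩ := ext_aux845 y' h1c h3
  refine ⟨t2, ?_, 0, ?_⟩
  · refine h2c.mono ?_
    intro x _
    by_cases h1 : x = y'
    · exact Or.inl h1
    · by_cases h2 : x = y
      · exact Or.inr (Or.inl h2)
      · refine Or.inr (Or.inr ?_)
        intro h3
        rcases h3 with h3 | h3
        · exact h2 h3
        · exact h1 h3
  · intro x hx
    have hxy : x ≠ y := fun h => hx (Or.inl h)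
    have hxy' : x ≠ y' := fun h => hx (Or.inr h)
    obtain ⟨U, hU, hU'⟩ := h1l x hxy
    obtain ⟨V, hV, hV'⟩ := h2l x hxy'
    refine ⟨U ∩ V, Filter.inter_mem hU hV, fun a ha b hb => ?_⟩
    have e1 := hV' a ha.2 b hb.2
    have e2 := hU' a ha.1 b hb.1
    simp only [Pi.add_apply, Pi.zero_apply, e1, e2]
    exact (by decide : ∀ z : ZMod 2, z + z = 0 + 0) _

/-- open rhombus -/
def pstB : Set (ℝ × ℝ) := {p | |p.1 - 1 / 4| + |p.2| < 1 / 4}

/-- closed rhombus -/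
def pstC : Set (ℝ × ℝ) := {p | |p.1 - 1 / 4| + |p.2| ≤ 1 / 4}

open Classical in
/-- side -/
noncomputable def pstg (ψ : M → ℝ × ℝ) (x : M) : ZMod 2 := if 0 < (ψ x).2 then 1 else 0

open Classical in
/-- the class -/
noncomputable def pstv (D : Set M) (ψ : M → ℝ × ℝ) (a b : M) : ZMod 2 :=
  if (a ∈ D ∧ ψ a ∈ pstB) ∧ (b ∈ D ∧ ψ b ∈ pstB) then pstg ψ a + pstg ψ b else 0

theorem pst_cont1 : Continuous (fun p : ℝ × ℝ => |p.1 - 1 / 4| + |p.2|) :=
  ((continuous_fst.sub continuous_const).abs).add continuous_snd.abs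

theorem pst_openB : IsOpen pstB := isOpen_lt pst_cont1 continuous_const

theorem pst_closedC : IsClosed pstC := isClosed_le pst_cont1 continuous_const

theorem pst_BC : pstB ⊆ pstC := fun p (hp : |p.1 - 1 / 4| + |p.2| < 1 / 4) => le_of_lt hp

theorem pst_mem_box (p : ℝ × ℝ) : p ∈ BoxI ↔ |p.1| < 1 ∧ |p.2| < 1 := by
  unfold BoxI
  rw [mem_ball_zero_iff, Prod.norm_def, max_lt_iff, Real.norm_eq_abs, Real.norm_eq_abs]

theorem pst_CBox : pstC ⊆ BoxI := by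
  intro p hp
  have hp' : |p.1 - 1 / 4| + |p.2| ≤ 1 / 4 := hp
  rw [pst_mem_box]
  have h1 := abs_nonneg p.2
  have h2 := abs_nonneg (p.1 - 1 / 4)
  have h3 : |p.1 - 1 / 4| ≤ 1 / 4 := by linarith
  rw [abs_le] at h3
  refine ⟨abs_lt.2 ⟨by linarith, by linarith⟩, by linarith⟩

theorem pst_compC : IsCompact pstC := by
  refine IsCompact.of_isClosed_subset (isCompact_closedBall (0 : ℝ × ℝ) 1) pst_closedC ?_
  exact pst_CBox.trans ball_subset_closedBall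

theorem pst_closed [T2Space M] {D : Set M} {ψ : M → ℝ × ℝ} {φ : ℝ × ℝ → M}
    (h : Chart D BoxI ψ φ) : IsClosed (φ '' pstC) :=
  (pst_compC.image_of_continuousOn (h.cφ.mono pst_CBox)).isClosed

theorem pst_v0b [T2Space M] {D : Set M} {ψ : M → ℝ × ℝ} {φ : ℝ × ℝ → M}
    (h : Chart D BoxI ψ φ) {x : M} (hx : x ∉ φ '' pstC) :
    ∃ W ∈ 𝓝 x, ∀ a ∈ W, ∀ b ∈ W, pstv D ψ a b = 0 := by
  refine ⟨(φ '' pstC)ᶜ, (pst_closed h).isOpen_compl.mem_nhds hx, ?_⟩
  intro a ha b hb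
  unfold pstv
  rw [if_neg]
  rintro ⟨⟨haD, haB⟩, -⟩
  exact ha ⟨ψ a, pst_BC haB, h.left a haD⟩

theorem pst_v0a {D : Set M} {ψ : M → ℝ × ℝ} {φ : ℝ × ℝ → M}
    (h : Chart D BoxI ψ φ) {x : M} (hxD : x ∈ D) (hx : (ψ x).2 ≠ 0) :
    ∃ W ∈ 𝓝 x, ∀ a ∈ W, ∀ b ∈ W, pstv D ψ a b = 0 := by
  rcases lt_or_gt_of_ne hx with h1 | h1
  · have ho : IsOpen {q : ℝ × ℝ | q.2 < 0} := isOpen_lt continuous_snd continuous_const
    refine ⟨D ∩ ψ ⁻¹' {q : ℝ × ℝ | q.2 < 0},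
      (h.cψ.isOpen_inter_preimage h.isOpen ho).mem_nhds ⟨hxD, h1⟩, ?_⟩
    rintro a ⟨haD, ha⟩ b ⟨hbD, hb⟩
    have ha' : (ψ a).2 < 0 := ha
    have hb' : (ψ b).2 < 0 := hb
    unfold pstv pstg
    rw [if_neg (not_lt.2 ha'.le), if_neg (not_lt.2 hb'.le), add_zero, ite_self]
  · have ho : IsOpen {q : ℝ × ℝ | 0 < q.2} := isOpen_lt continuous_const continuous_snd
    refine ⟨D ∩ ψ ⁻¹' {q : ℝ × ℝ | 0 < q.2},
      (h.cψ.isOpen_inter_preimage h.isOpen ho).mem_nhds ⟨hxD, h1⟩, ?_⟩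
    rintro a ⟨haD, ha⟩ b ⟨hbD, hb⟩
    have ha' : 0 < (ψ a).2 := ha
    have hb' : 0 < (ψ b).2 := hb
    unfold pstv pstg
    have e : (1 : ZMod 2) + 1 = 0 := by decide
    rw [if_pos ha', if_pos hb', e, ite_self]

theorem pst_v1 {D : Set M} {ψ : M → ℝ × ℝ} {φ : ℝ × ℝ → M}
    (h : Chart D BoxI ψ φ) {x : M} (hxD : x ∈ D) (hx : ψ x ∈ pstB) :
    ∃ W ∈ 𝓝 x, ∀ a ∈ W, ∀ b ∈ W, pstv D ψ a b = pstg ψ a + pstg ψ b := by
  refine ⟨D ∩ ψ ⁻¹' pstB,
    (h.cψ.isOpen_inter_preimage h.isOpen pst_openB).mem_nhds ⟨hxD, hx⟩, ?_⟩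
  intro a ha b hb
  unfold pstv
  rw [if_pos ⟨ha, hb⟩]

theorem pst_conn {D : Set M} {ψ : M → ℝ × ℝ} {φ : ℝ × ℝ → M}
    (h : Chart D BoxI ψ φ) {T' : Set (ℝ × ℝ)} (hT : T' ⊆ BoxI) (hc : IsPreconnected T') :
    IsPreconnected (D ∩ ψ ⁻¹' T') := by
  have : D ∩ ψ ⁻¹' T' = φ '' T' := by
    ext x
    constructor
    · rintro ⟨hxD, hx⟩
      exact ⟨ψ x, hx, h.left x hxD⟩
    · rintro ⟨p, hp, rfl⟩
      refine ⟨h.mφ p (hT hp), ?_⟩
      show ψ (φ p) ∈ T'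
      rw [h.right p (hT hp)]
      exact hp
  rw [this]
  exact hc.image _ (h.cφ.mono hT)

theorem pst_ess [T2Space M] {D : Set M} {ψ : M → ℝ × ℝ} {φ : ℝ × ℝ → M}
    (h : Chart D BoxI ψ φ) (σ : ℝ) (hσ : σ = 1 ∨ σ = -1) :
    Ess (φ (1 / 4 - σ / 4, 0)) (pstv D ψ) := by
  rintro W hW ⟨s, hs⟩
  set a : ℝ := 1 / 4 - σ / 4 with ha
  have hq : ((a, 0) : ℝ × ℝ) ∈ BoxI := by
    rw [pst_mem_box]
    rcases hσ with rfl | rfl
    · norm_num [ha]
    · norm_num [ha, abs_lt]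
  have hσ2 : σ * σ = 1 := by rcases hσ with rfl | rfl <;> norm_num
  have habs : |σ| = 1 := by rcases hσ with rfl | rfl <;> norm_num
  -- small square
  have hBoxo : IsOpen BoxI := isOpen_ball
  have hcat : ContinuousAt φ (a, 0) := h.cφ.continuousAt (hBoxo.mem_nhds hq)
  have hpre : φ ⁻¹' W ∩ BoxI ∈ 𝓝 ((a, 0) : ℝ × ℝ) :=
    Filter.inter_mem (hcat hW) (hBoxo.mem_nhds hq)
  obtain ⟨d0, hd0, hball⟩ := Metric.mem_nhds_iff.1 hpre
  set d : ℝ := min d0 (1 / 4) with hd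
  have hdpos : 0 < d := lt_min hd0 (by norm_num)
  have hd4 : d ≤ 1 / 4 := min_le_right _ _
  have hdd : d ≤ d0 := min_le_left _ _
  have hmemb : ∀ p : ℝ × ℝ, p ∈ ball ((a, 0) : ℝ × ℝ) d ↔ |p.1 - a| < d ∧ |p.2| < d := by
    intro p
    rw [mem_ball, Prod.dist_eq, max_lt_iff, Real.dist_eq, Real.dist_eq]
    simp
  have hsub : ball ((a, 0) : ℝ × ℝ) d ⊆ φ ⁻¹' W ∩ BoxI := (ball_subset_ball hdd).trans hball
  have hinB : ∀ p : ℝ × ℝ, |p.1 - 1 / 4| = |σ * (p.1 - a) - 1 / 4| := by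
    intro p
    have e1 : σ * (p.1 - a) - 1 / 4 = σ * (p.1 - 1 / 4) := by
      rw [ha]
      linear_combination (1 / 4) * hσ2
    rw [e1, abs_mul, habs, one_mul]
  -- the slit disc
  set Q : Set (ℝ × ℝ) := ball ((a, 0) : ℝ × ℝ) d with hQ
  have cQ : Convex ℝ Q := convex_ball _ _
  set TS : Set (ℝ × ℝ) := Q ∩ {p | σ * p.1 < σ * a} with hTS
  have cS : Convex ℝ TS := by
    apply cQ.inter
    exact convex_halfSpace_lt (𝕜 := ℝ) (f := fun p : ℝ × ℝ => σ * p.1)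
      ⟨fun x y => by simp only [Prod.fst_add]; ring,
        fun c x => by simp only [Prod.smul_fst, smul_eq_mul]; ring⟩ _
  have mU : ((a - σ * (d / 2), d / 2) : ℝ × ℝ) ∈ Q ∩ {p | 0 < p.2} ∩ TS := by
    have h1 : ((a - σ * (d / 2), d / 2) : ℝ × ℝ) ∈ Q := by
      rw [hQ, hmemb]
      simp only
      have e : a - σ * (d / 2) - a = -(σ * (d / 2)) := by ring
      rw [e, abs_neg, abs_mul, habs, one_mul, abs_of_pos (by linarith)]
      constructor <;> linarith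
    refine ⟨⟨h1, ?_⟩, h1, ?_⟩
    · show 0 < d / 2
      linarith
    · show σ * (a - σ * (d / 2)) < σ * a
      nlinarith
  have mD : ((a - σ * (d / 2), -(d / 2)) : ℝ × ℝ) ∈ Q ∩ {p | p.2 < 0} ∩ TS := by
    have h1 : ((a - σ * (d / 2), -(d / 2)) : ℝ × ℝ) ∈ Q := by
      rw [hQ, hmemb]
      simp only
      have e : a - σ * (d / 2) - a = -(σ * (d / 2)) := by ring
      rw [e, abs_neg, abs_mul, habs, one_mul, abs_neg, abs_of_pos (by linarith)]
      constructor <;> linarith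
    refine ⟨⟨h1, ?_⟩, h1, ?_⟩
    · show -(d / 2) < 0
      linarith
    · show σ * (a - σ * (d / 2)) < σ * a
      nlinarith
  have c1 : IsPreconnected ((Q ∩ {p | 0 < p.2}) ∪ TS) :=
    IsPreconnected.union _ mU.1 mU.2 (surf_punct_conv_snd_pos cQ) cS.isPreconnected
  have c2 : IsPreconnected ((Q ∩ {p | 0 < p.2}) ∪ TS ∪ (Q ∩ {p | p.2 < 0})) :=
    IsPreconnected.union _ (Or.inr mD.2) mD.1 c1 (surf_punct_conv_snd_neg cQ)
  set S1 : Set (ℝ × ℝ) := (Q ∩ {p | 0 < p.2}) ∪ TS ∪ (Q ∩ {p | p.2 < 0}) with hS1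
  have S1Q : S1 ⊆ Q := by
    rintro p ((hp | hp) | hp) <;> exact hp.1
  have QBox : Q ⊆ BoxI := fun p hp => (hsub hp).2
  have G1 := pst_conn h (S1Q.trans QBox) c2
  have hinW : ∀ x, x ∈ D → ψ x ∈ Q → x ∈ W := by
    intro x hxD hx
    have : φ (ψ x) ∈ W := (hsub hx).1
    rwa [h.left x hxD] at this
  have sub1 : D ∩ ψ ⁻¹' S1 ⊆ W \ {φ (a, 0)} := by
    rintro x ⟨hxD, hx⟩
    refine ⟨hinW x hxD (S1Q hx), ?_⟩
    rintro rfl
    have hx' : ψ (φ (a, 0)) ∈ S1 := hx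
    rw [h.right _ hq] at hx'
    rcases hx' with (hx' | hx') | hx'
    · exact lt_irrefl _ (show (0 : ℝ) < 0 from hx'.2)
    · exact lt_irrefl _ (show σ * a < σ * a from hx'.2)
    · exact lt_irrefl _ (show (0 : ℝ) < 0 from hx'.2)
  have t1 : Triv (D ∩ ψ ⁻¹' S1) (pstv D ψ) (fun _ => 0) := by
    rintro x ⟨hxD, hx⟩
    have hx' : ψ x ∈ S1 := hx
    have key : ∃ W ∈ 𝓝 x, ∀ a ∈ W, ∀ b ∈ W, pstv D ψ a b = 0 := by
      by_cases h2 : (ψ x).2 = 0
      · have h3 : σ * (ψ x).1 < σ * a := by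
          rcases hx' with (hx' | hx') | hx'
          · exact absurd h2 (ne_of_gt hx'.2)
          · exact hx'.2
          · exact absurd h2 (ne_of_lt hx'.2)
        apply pst_v0b h
        rintro ⟨p, hp, hpx⟩
        have e1 : ψ x = p := by
          rw [← hpx, h.right p (pst_CBox hp)]
        have hp' : |p.1 - 1 / 4| + |p.2| ≤ 1 / 4 := hp
        rw [hinB, ← e1] at hp'
        have h4 : σ * ((ψ x).1 - a) < 0 := by
          rw [mul_sub]; linarith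
        have h5 := neg_abs_le (σ * ((ψ x).1 - a) - 1 / 4)
        have h6 := abs_nonneg (ψ x).2
        linarith
      · exact pst_v0a h hxD h2
    obtain ⟨W', hW', h0⟩ := key
    exact ⟨W', hW', fun p hp q hq => by rw [h0 p hp q hq, add_zero]⟩
  obtain ⟨k, hk⟩ := triv_uniq G1 t1 (hs.mono sub1)
  -- the vertical segment
  set S2 : Set (ℝ × ℝ) := {a + σ * (d / 2)} ×ˢ Icc (-(d / 4)) (d / 4) with hS2
  have c3 : IsPreconnected S2 := ((convex_singleton _).prod (convex_Icc _ _)).isPreconnected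
  have S2Q : S2 ⊆ Q := by
    rintro p ⟨hp1, hp2⟩
    have e1 : p.1 = a + σ * (d / 2) := hp1
    have e2 : |p.2| ≤ d / 4 := abs_le.2 hp2
    rw [hQ, hmemb, e1]
    have e : a + σ * (d / 2) - a = σ * (d / 2) := by ring
    rw [e, abs_mul, habs, one_mul, abs_of_pos (by linarith)]
    constructor <;> linarith
  have S2B : S2 ⊆ pstB := by
    rintro p ⟨hp1, hp2⟩
    have e1 : p.1 = a + σ * (d / 2) := hp1
    have e2 : |p.2| ≤ d / 4 := abs_le.2 hp2
    show |p.1 - 1 / 4| + |p.2| < 1 / 4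
    rw [hinB, e1]
    have e3 : σ * (a + σ * (d / 2) - a) - 1 / 4 = -(1 / 4 - d / 2) := by
      linear_combination (d / 2) * hσ2
    rw [e3, abs_neg, abs_of_nonneg (by linarith)]
    linarith
  have G2 := pst_conn h (S2Q.trans QBox) c3
  have sub2 : D ∩ ψ ⁻¹' S2 ⊆ W \ {φ (a, 0)} := by
    rintro x ⟨hxD, hx⟩
    refine ⟨hinW x hxD (S2Q hx), ?_⟩
    rintro rfl
    have hx' : ψ (φ (a, 0)) ∈ S2 := hx
    rw [h.right _ hq] at hx'
    have e1 : a = a + σ * (d / 2) := hx'.1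
    have e2 : σ * (d / 2) = 0 := by linarith
    have e3 : σ ≠ 0 := by rcases hσ with rfl | rfl <;> norm_num
    rcases mul_eq_zero.1 e2 with e4 | e4
    · exact e3 e4
    · linarith
  have t2 : Triv (D ∩ ψ ⁻¹' S2) (pstv D ψ) (pstg ψ) := by
    rintro x ⟨hxD, hx⟩
    exact pst_v1 h hxD (S2B hx)
  obtain ⟨k', hk'⟩ := triv_uniq G2 t2 (hs.mono sub2)
  -- the two points
  have pU2 : ((a + σ * (d / 2), d / 4) : ℝ × ℝ) ∈ S2 := ⟨rfl, by constructor <;> simp only <;> linarith⟩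
  have pD2 : ((a + σ * (d / 2), -(d / 4)) : ℝ × ℝ) ∈ S2 := ⟨rfl, by constructor <;> simp only <;> linarith⟩
  have pU1 : ((a + σ * (d / 2), d / 4) : ℝ × ℝ) ∈ S1 :=
    Or.inl (Or.inl ⟨S2Q pU2, show (0 : ℝ) < d / 4 by linarith⟩)
  have pD1 : ((a + σ * (d / 2), -(d / 4)) : ℝ × ℝ) ∈ S1 :=
    Or.inr ⟨S2Q pD2, show -(d / 4) < (0 : ℝ) by linarith⟩
  have eU := h.right _ (QBox (S2Q pU2))
  have eD := h.right _ (QBox (S2Q pD2))
  have mDU := h.mφ _ (QBox (S2Q pU2))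
  have mDD := h.mφ _ (QBox (S2Q pD2))
  have kU := hk (φ (a + σ * (d / 2), d / 4)) ⟨mDU, by
    show ψ (φ (a + σ * (d / 2), d / 4)) ∈ S1
    rw [eU]; exact pU1⟩
  have kD := hk (φ (a + σ * (d / 2), -(d / 4))) ⟨mDD, by
    show ψ (φ (a + σ * (d / 2), -(d / 4))) ∈ S1
    rw [eD]; exact pD1⟩
  have kU' := hk' (φ (a + σ * (d / 2), d / 4)) ⟨mDU, by
    show ψ (φ (a + σ * (d / 2), d / 4)) ∈ S2
    rw [eU]; exact pU2⟩
  have kD' := hk' (φ (a + σ * (d / 2), -(d / 4))) ⟨mDD, by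
    show ψ (φ (a + σ * (d / 2), -(d / 4))) ∈ S2
    rw [eD]; exact pD2⟩
  have gU : pstg ψ (φ (a + σ * (d / 2), d / 4)) = 1 := by
    unfold pstg
    rw [eU, if_pos (show (0 : ℝ) < d / 4 by linarith)]
  have gD : pstg ψ (φ (a + σ * (d / 2), -(d / 4))) = 0 := by
    unfold pstg
    rw [eD, if_neg (show ¬ (0 : ℝ) < -(d / 4) by linarith)]
  rw [gU] at kU'
  rw [gD] at kD'
  have : (1 : ZMod 2) = 0 := by
    linear_combination kU' - kD' - kU + kD
  exact absurd this (by decide)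

/-- the class of a short arc -/
theorem pair_std [T2Space M] {D : Set M} {ψ : M → ℝ × ℝ} {φ : ℝ × ℝ → M}
    (h : Chart D BoxI ψ φ) : ∃ (v : M → M → ZMod 2) (y' : M), y' ∈ D ∧ y' ≠ φ 0 ∧
      Coc ({φ 0, y'}ᶜ : Set M) v ∧ Null (Dᶜ : Set M) v ∧ Ess (φ 0) v ∧ Ess y' v := by
  have m0 : ((0 : ℝ × ℝ)) ∈ BoxI := by
    rw [pst_mem_box]; norm_num
  have m1 : ((1 / 2, 0) : ℝ × ℝ) ∈ BoxI := by
    rw [pst_mem_box]; norm_num [abs_lt]
  refine ⟨pstv D ψ, φ (1 / 2, 0), h.mφ _ m1, ?_, ?_, ?_, ?_, ?_⟩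
  · intro he
    have e1 := congrArg ψ he
    rw [h.right _ m1, h.right _ m0] at e1
    have e2 : (1 / 2 : ℝ) = 0 := congrArg Prod.fst e1
    norm_num at e2
  · intro x hx
    by_cases hxC : x ∈ φ '' pstC
    · obtain ⟨p, hp, rfl⟩ := hxC
      have hpB := pst_CBox hp
      have e1 := h.right p hpB
      have hxD := h.mφ p hpB
      by_cases hB : p ∈ pstB
      · obtain ⟨W, hW, hv⟩ := pst_v1 h hxD (by rw [e1]; exact hB)
        refine ⟨W, hW, fun a ha b hb c hc => ?_⟩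
        rw [hv a ha b hb, hv b hb c hc, hv a ha c hc]
        have : ∀ x y z : ZMod 2, x + y + (y + z) = x + z := by decide
        exact this _ _ _
      · have h2 : (ψ (φ p)).2 ≠ 0 := by
          rw [e1]
          intro h0
          apply hx
          have hp' : |p.1 - 1 / 4| + |p.2| ≤ 1 / 4 := hp
          have hp'' : ¬ |p.1 - 1 / 4| + |p.2| < 1 / 4 := hB
          rw [h0, abs_zero, add_zero] at hp' hp''
          have e3 : |p.1 - 1 / 4| = 1 / 4 := le_antisymm hp' (not_lt.1 hp'')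
          rcases (abs_eq (by norm_num : (0 : ℝ) ≤ 1 / 4)).1 e3 with e4 | e4
          · right
            have : p = (1 / 2, 0) := Prod.ext (by simp only; linarith) h0
            rw [this]
            rfl
          · left
            have : p = 0 := Prod.ext (by show p.1 = 0; linarith) h0
            rw [this]
        obtain ⟨W, hW, hv⟩ := pst_v0a h hxD h2
        exact ⟨W, hW, fun a ha b hb c hc => by
          rw [hv a ha b hb, hv b hb c hc, hv a ha c hc, add_zero]⟩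
    · obtain ⟨W, hW, hv⟩ := pst_v0b h hxC
      exact ⟨W, hW, fun a ha b hb c hc => by
        rw [hv a ha b hb, hv b hb c hc, hv a ha c hc, add_zero]⟩
  · refine ⟨fun _ => 0, fun x hx => ?_⟩
    have hxC : x ∉ φ '' pstC := by
      rintro ⟨p, hp, rfl⟩
      exact hx (h.mφ p (pst_CBox hp))
    obtain ⟨W, hW, hv⟩ := pst_v0b h hxC
    exact ⟨W, hW, fun a ha b hb => by rw [hv a ha b hb, add_zero]⟩
  · have := pst_ess h 1 (Or.inl rfl)
    have e : ((1 / 4 - 1 / 4, 0) : ℝ × ℝ) = 0 := by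
      rw [sub_self]; rfl
    rwa [e] at this
  · have := pst_ess h (-1) (Or.inr rfl)
    have e : ((1 / 4 - -1 / 4, 0) : ℝ × ℝ) = (1 / 2, 0) := by
      norm_num
    rwa [e] at this

theorem homeo_loc_zero [T2Space M] {D : Set M} {ψ : M → ℝ × ℝ} {φ : ℝ × ℝ → M}
    (h : Chart D BoxI ψ φ) {y : M} (hy : y ∈ D) :
    ∃ Φ : M ≃ₜ M, Φ (φ 0) = y ∧ ∀ x, x ∉ D → Φ x = x := by
  have hw : ‖ψ y‖ < 1 := by
    have := h.mψ y hy
    unfold BoxI at this
    rwa [mem_ball_zero_iff] at this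
  obtain ⟨r, hr1, hr2⟩ := exists_between hw
  obtain ⟨F, hF0, hF⟩ := plane_homeo hr1
  have hFs : ∀ x, r ≤ ‖x‖ → F.symm x = x := by
    intro x hx
    have := hF x hx
    rw [Homeomorph.symm_apply_eq]
    exact this.symm
  refine ⟨{ toFun := extId D ψ φ F
            invFun := extId D ψ φ F.symm
            left_inv := extId_inv h F F.symm (homeo_ball F hr2 hF) (fun x => F.symm_apply_apply x)
            right_inv := extId_inv h F.symm F (homeo_ball F.symm hr2 hFs)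
              (fun x => F.apply_symm_apply x)
            continuous_toFun := extId_cont h F hr2 hF
            continuous_invFun := extId_cont h F.symm hr2 hFs }, ?_, ?_⟩
  · show extId D ψ φ F (φ 0) = y
    have h0 : (0 : ℝ × ℝ) ∈ BoxI := by
      unfold BoxI
      exact mem_ball_self one_pos
    rw [extId_mem (h.mφ 0 h0), h.right 0 h0, hF0, h.left y hy]
  · intro x hx
    exact extId_not hx

/-- local homogeneity -/
theorem homeo_loc [T2Space M] {D : Set M} {ψ : M → ℝ × ℝ} {φ : ℝ × ℝ → M}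
    (h : Chart D BoxI ψ φ) {y y' : M} (hy : y ∈ D) (hy' : y' ∈ D) :
    ∃ Φ : M ≃ₜ M, Φ y = y' ∧ ∀ x, x ∉ D → Φ x = x := by
  obtain ⟨Φ₁, h1, h1'⟩ := homeo_loc_zero h hy
  obtain ⟨Φ₂, h2, h2'⟩ := homeo_loc_zero h hy'
  refine ⟨Φ₁.symm.trans Φ₂, ?_, ?_⟩
  · have e : Φ₁.symm y = φ 0 := by
      rw [Homeomorph.symm_apply_eq]
      exact h1.symm
    rw [Homeomorph.trans_apply, e, h2]
  · intro x hx
    have e : Φ₁.symm x = x := by
      rw [Homeomorph.symm_apply_eq]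
      exact (h1' x hx).symm
    rw [Homeomorph.trans_apply, e, h2' x hx]

theorem ess_homeo (Φ : M ≃ₜ M) {y : M} {v : M → M → ZMod 2} (h : Ess y v) :
    Ess (Φ y) (fun a b => v (Φ.symm a) (Φ.symm b)) := by
  intro W hW hn
  have h1 := null_comap Φ hn
  apply h (Φ ⁻¹' W) (Φ.continuous.continuousAt.preimage_mem_nhds hW)
  have h2 : Φ ⁻¹' (W \ {Φ y}) = Φ ⁻¹' W \ {y} := by
    ext x
    simp [Φ.injective.eq_iff]
  rw [h2] at h1
  simpa only [Homeomorph.symm_apply_apply] using h1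

/-- the class of an arc in a connected open set -/
theorem pair_ex [T2Space M] (hpt : ∀ x : M, IntPt x) (hp : Punct M) {G : Set M} (hG : IsOpen G)
    (hc : IsPreconnected G) {y y' : M} (hy : y ∈ G) (hy' : y' ∈ G) (hne : y ≠ y') :
    ∃ v : M → M → ZMod 2, Coc ({y, y'}ᶜ : Set M) v ∧ Null (Gᶜ : Set M) v ∧ Ess y v ∧ Ess y' v := by
  let Q : M → Prop := fun z => ∃ v : M → M → ZMod 2, Coc ({y, z}ᶜ : Set M) v ∧ Null (Gᶜ : Set M) v ∧
    Ess y v ∧ Ess z v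
  have hSo : IsOpen (G \ {y}) := hG.sdiff isClosed_singleton
  have hSc : IsPreconnected (G \ {y}) := punct_conn hp hG hc y
  -- transport
  have htr : ∀ (D : Set M) (ψ : M → ℝ × ℝ) (φ : ℝ × ℝ → M), Chart D BoxI ψ φ → D ⊆ G \ {y} →
      ∀ z₁ ∈ D, ∀ z₂ ∈ D, Q z₁ → Q z₂ := by
    intro D ψ φ hch hD z₁ hz₁ z₂ hz₂ hQ
    obtain ⟨v, h1, h2, h3, h4⟩ := hQ
    obtain ⟨Φ, hΦ, hΦ'⟩ := homeo_loc hch hz₁ hz₂
    have hΦy : Φ y = y := hΦ' y (fun h => (hD h).2 rfl)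
    refine ⟨fun a b => v (Φ.symm a) (Φ.symm b), ?_, ?_, ?_, ?_⟩
    · refine (coc_comap Φ.symm h1).mono ?_
      intro x hx hx'
      apply hx
      rcases hx' with h | h
      · left
        rw [← hΦy, ← h, Homeomorph.apply_symm_apply]
      · right
        have h' : Φ.symm x = z₁ := h
        show x = z₂
        rw [← hΦ, ← h', Homeomorph.apply_symm_apply]
    · refine (null_comap Φ.symm h2).mono ?_
      intro x hx hx'
      apply hx
      have h5 : Φ x = x := hΦ' x (fun h => hx (hD h).1)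
      have h6 : Φ.symm x = x := by
        rw [Homeomorph.symm_apply_eq, h5]
      have h7 : Φ.symm x ∈ G := hx'
      rwa [h6] at h7
    · have := ess_homeo Φ h3
      rwa [hΦy] at this
    · have := ess_homeo Φ h4
      rwa [hΦ] at this
  -- existence of one point
  obtain ⟨z₀, hz₀, hQ₀⟩ : ∃ z₀ ∈ G \ {y}, Q z₀ := by
    obtain ⟨D, ψ, φ, hyD, h0, hch, hD⟩ := small_int (hpt y) (hG.mem_nhds hy)
    obtain ⟨v, z, hz, hne', h1, h2, h3, h4⟩ := pair_std hch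
    have hφ : φ 0 = y := by rw [← h0]; exact hch.left y hyD
    rw [hφ] at hne' h1 h3
    exact ⟨z, ⟨hD hz, hne'⟩, v, h1, h2.mono (compl_subset_compl.2 hD), h3, h4⟩
  have hloc : ∀ z ∈ G \ {y}, (∃ D : Set M, IsOpen D ∧ z ∈ D ∧ ∀ w ∈ D, Q w) ∨
      (∃ D : Set M, IsOpen D ∧ z ∈ D ∧ ∀ w ∈ D, ¬ Q w) := by
    intro z hz
    obtain ⟨D, ψ, φ, hzD, h0, hch, hD⟩ := small_int (hpt z) (hSo.mem_nhds hz)
    by_cases hQ : Q z
    · exact Or.inl ⟨D, hch.isOpen, hzD, fun w hw => htr D ψ φ hch hD z hzD w hw hQ⟩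
    · exact Or.inr ⟨D, hch.isOpen, hzD, fun w hw hQw => hQ (htr D ψ φ hch hD w hw z hzD hQw)⟩
  by_contra hcon
  have hU : IsOpen {z | ∃ D : Set M, IsOpen D ∧ z ∈ D ∧ ∀ w ∈ D, Q w} := by
    rw [isOpen_iff_forall_mem_open]
    rintro z ⟨D, hD, hz, hw⟩
    exact ⟨D, fun x hx => ⟨D, hD, hx, hw⟩, hD, hz⟩
  have hV : IsOpen {z | ∃ D : Set M, IsOpen D ∧ z ∈ D ∧ ∀ w ∈ D, ¬ Q w} := by
    rw [isOpen_iff_forall_mem_open]
    rintro z ⟨D, hD, hz, hw⟩
    exact ⟨D, fun x hx => ⟨D, hD, hx, hw⟩, hD, hz⟩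
  have hS' : y' ∈ G \ {y} := ⟨hy', fun h => hne h.symm⟩
  obtain ⟨z, hz, ⟨D₁, _, hz1, hq1⟩, ⟨D₂, _, hz2, hq2⟩⟩ := hSc _ _ hU hV (fun z hz => hloc z hz)
    ⟨z₀, hz₀, by
      rcases hloc z₀ hz₀ with h | ⟨D, _, h2, h3⟩
      · exact h
      · exact absurd hQ₀ (h3 z₀ h2)⟩
    ⟨y', hS', by
      rcases hloc y' hS' with ⟨D, _, h2, h3⟩ | h
      · exact absurd (h3 y' h2) hcon
      · exact h⟩
  exact hq2 z hz2 (hq1 z hz1)

/-- the class of a pair of points is trivial, up to a global class, away from any connected open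
set containing the points -/
theorem pair_off [CompactSpace M] [T2Space M] (hpt : ∀ x : M, IntPt x) (hp : Punct M) {G : Set M}
    (hG : IsOpen G) (hc : IsPreconnected G) {y y' : M} (hy : y ∈ G) (hy' : y' ∈ G) (hne : y ≠ y')
    {v : M → M → ZMod 2} (hv : Coc ({y, y'}ᶜ : Set M) v) (he : Ess y v) (he' : Ess y' v) :
    ∃ t : M → M → ZMod 2, Coc univ t ∧ Null (Gᶜ : Set M) (v + t) := by
  obtain ⟨vG, hcG, hnG, heG, heG'⟩ := pair_ex hpt hp hG hc hy hy' hne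
  have hs1 : ({y'}ᶜ : Set M) \ {y} ⊆ ({y, y'}ᶜ : Set M) := by
    intro z hz
    simp only [mem_diff, mem_compl_iff, mem_singleton_iff, mem_insert_iff, not_or] at hz ⊢
    exact ⟨hz.2, hz.1⟩
  have hs2 : ({y}ᶜ : Set M) \ {y'} ⊆ ({y, y'}ᶜ : Set M) := by
    intro z hz
    simp only [mem_diff, mem_compl_iff, mem_singleton_iff, mem_insert_iff, not_or] at hz ⊢
    exact ⟨hz.1, hz.2⟩
  have h1 : ∃ W ∈ 𝓝 y, Null (W \ {y}) (v + vG) :=
    ess_add (hpt y) (O := ({y'}ᶜ : Set M)) isOpen_compl_singleton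
      (by simpa using hne) (hv.mono hs1) (hcG.mono hs1) he heG
  have h2 : ∃ W ∈ 𝓝 y', Null (W \ {y'}) (v + vG) :=
    ess_add (hpt y') (O := ({y}ᶜ : Set M)) isOpen_compl_singleton
      (by simpa using hne.symm) (hv.mono hs2) (hcG.mono hs2) he' heG'
  obtain ⟨t', ht', hn'⟩ := ext_two hne (hv.add hcG) h1 h2
  refine ⟨t', ht', ?_⟩
  have hs3 : (Gᶜ : Set M) ⊆ ({y, y'}ᶜ : Set M) := by
    intro z hz hz'
    rcases hz' with rfl | hz'
    · exact hz hy
    · rw [mem_singleton_iff] at hz'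
      subst hz'
      exact hz hy'
  have h3 := (hn'.mono hs3).add hnG
  have e : v + vG + t' + vG = v + t' := by
    have : v + vG + t' + vG = v + t' + (vG + vG) := by abel
    rw [this, add_self_co, add_zero]
  rw [e] at h3
  exact h3

/-- the same for compact connected sets with connected complement -/
theorem pair_cpt [CompactSpace M] [T2Space M] [LocallyPathConnectedSpace M]
    (hpt : ∀ x : M, IntPt x) (hp : Punct M) (hf : FinH1 M) {A : Set M} (hA : IsClosed A)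
    (hc : IsPreconnected A) (hco : IsPreconnected (Aᶜ : Set M)) {y y' : M} (hy : y ∈ A)
    (hy' : y' ∈ A) (hne : y ≠ y') {v : M → M → ZMod 2} (hv : Coc ({y, y'}ᶜ : Set M) v)
    (he : Ess y v) (he' : Ess y' v) :
    ∃ t : M → M → ZMod 2, Coc univ t ∧ Null (Aᶜ : Set M) (v + t) := by
  rcases (Aᶜ : Set M).eq_empty_or_nonempty with hemp | ⟨x0, hx0⟩
  · refine ⟨0, coc_zero univ, 0, ?_⟩
    rw [hemp]
    intro x hx
    exact absurd hx (notMem_empty x)
  obtain ⟨S, hS⟩ : ∃ S : Set (Set M), S = {V | ∃ N : Set M, IsOpen N ∧ A ⊆ N ∧ x0 ∉ closure N ∧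
    V = connectedComponentIn ((closure N)ᶜ) x0} := ⟨_, rfl⟩
  have hVA : ∀ N : Set M, A ⊆ N → connectedComponentIn ((closure N)ᶜ) x0 ⊆ Nᶜ := by
    intro N _ x hx
    have h1 := connectedComponentIn_subset _ _ hx
    exact fun hxN => h1 (subset_closure hxN)
  have hun : ⋃₀ S = (Aᶜ : Set M) := by
    apply Subset.antisymm
    · rintro x ⟨V, hV, hx⟩
      rw [hS] at hV
      obtain ⟨N, hN, hAN, hxN, rfl⟩ := hV
      exact fun hxA => hVA N hAN hx (hAN hxA)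
    · intro x hx
      have hpc : IsPathConnected (Aᶜ : Set M) :=
        (hA.isOpen_compl.isConnected_iff_isPathConnected).1 ⟨⟨x0, hx0⟩, hco⟩
      have hj := hpc.joinedIn x0 hx0 x hx
      have hK : IsCompact (range hj.somePath) := isCompact_range hj.somePath.continuous
      have hAK : A ⊆ (range hj.somePath)ᶜ := by
        rintro a ha ⟨s, rfl⟩
        exact hj.somePath_mem s ha
      obtain ⟨N, hN, hAN, hcN⟩ := normal_exists_closure_subset hA hK.isClosed.isOpen_compl hAK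
      have hKN : range hj.somePath ⊆ (closure N)ᶜ := fun z hz hzN => hcN hzN hz
      have h0 : x0 ∈ range hj.somePath := ⟨0, hj.somePath.source⟩
      have h1 : x ∈ range hj.somePath := ⟨1, hj.somePath.target⟩
      refine ⟨connectedComponentIn ((closure N)ᶜ) x0, ?_, ?_⟩
      · rw [hS]
        exact ⟨N, hN, hAN, hKN h0, rfl⟩
      · exact (isPreconnected_range hj.somePath.continuous).subset_connectedComponentIn h0 hKN h1
  have key := sur_directed hf (S := S) (t := v)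
    (by
      intro U hU
      rw [hS] at hU
      obtain ⟨N, hN, hAN, hxN, rfl⟩ := hU
      exact isClosed_closure.isOpen_compl.connectedComponentIn)
    (by
      intro U hU
      rw [hS] at hU
      obtain ⟨N, hN, hAN, hxN, rfl⟩ := hU
      exact isPreconnected_connectedComponentIn)
    (by
      intro U hU V hV
      rw [hS] at hU hV
      obtain ⟨N, hN, hAN, hxN, rfl⟩ := hU
      obtain ⟨N', hN', hAN', hxN', rfl⟩ := hV
      refine ⟨connectedComponentIn ((closure (N ∩ N'))ᶜ) x0, ?_, ?_, ?_⟩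
      · rw [hS]
        exact ⟨N ∩ N', hN.inter hN', subset_inter hAN hAN',
          fun h => hxN (closure_mono inter_subset_left h), rfl⟩
      · exact connectedComponentIn_mono x0 (compl_subset_compl.2 (closure_mono inter_subset_left))
      · exact connectedComponentIn_mono x0 (compl_subset_compl.2 (closure_mono inter_subset_right)))
    (by
      intro U hU
      rw [hS] at hU
      obtain ⟨N, hN, hAN, hxN, rfl⟩ := hU
      have hAG : A ⊆ connectedComponentIn N y := hc.subset_connectedComponentIn hy hAN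
      obtain ⟨t, ht, hnt⟩ := pair_off hpt hp (G := connectedComponentIn N y)
        hN.connectedComponentIn isPreconnected_connectedComponentIn (hAG hy) (hAG hy') hne hv he he'
      refine ⟨t, ht, hnt.mono ?_⟩
      intro x hx hxG
      exact hVA N hAN hx (connectedComponentIn_subset _ _ hxG))
  rw [hun] at key
  exact key

/-- the class of a pair of points is not trivial away from two disjoint closed sets -/
theorem pair_sep [CompactSpace M] [T2Space M] [ConnectedSpace M]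
    {f : M → EuclideanSpace ℝ (Fin N)} (S : CSetup f) {C C' : Set M} (hC : IsClosed C)
    (hC' : IsClosed C') (hd : Disjoint C C') {y y' : M} (hy : y ∈ C) (hy' : y' ∈ C')
    {v t : M → M → ZMod 2} (hv : Coc ({y, y'}ᶜ : Set M) v) (he : Ess y v) (ht : Coc univ t) :
    ¬ Null ((C ∪ C')ᶜ : Set M) (v + t) := by
  rintro ⟨s, hs⟩
  obtain ⟨O, hO, hCO, hclO⟩ := normal_exists_closure_subset hC hC'.isOpen_compl
    (Set.disjoint_left.mp hd : C ⊆ C'ᶜ)
  have hy'O : y' ∉ O := fun h => hclO (subset_closure h) hy'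
  have hcoc : Coc (O \ {y}) (v + t) := by
    refine Coc.add (hv.mono ?_) (ht.mono (Set.subset_univ _))
    rintro x ⟨hxO, hxy⟩ hx
    rcases hx with hx | hx
    · exact hxy hx
    · rw [Set.mem_singleton_iff] at hx
      rw [hx] at hxO
      exact hy'O hxO
  obtain ⟨t', ht'1, -, ht'3⟩ := glue_coc hC hO hCO hC' (Set.disjoint_left.mpr fun x hx hx' => hclO hx hx')
    (Set.singleton_subset_iff.mpr hy) hcoc hs
  refine not_ess S ht'1 ?_
  intro W hW hnull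
  have hWO : W ∩ O ∈ 𝓝 y := Filter.inter_mem hW (hO.mem_nhds (hCO hy))
  obtain ⟨D, ψ, φ, hyD, -, hch, hDsub⟩ := small_int (S.pt y) hWO
  have hDt : Null D t := chart_null hch (convex_ball _ _) (ht.mono (Set.subset_univ _))
  have h1 : Null (D \ {y}) (t' + t) := by
    refine Null.add (hnull.mono ?_) (hDt.mono Set.diff_subset)
    intro x hx
    exact ⟨(hDsub hx.1).1, hx.2⟩
  refine he D (hch.isOpen.mem_nhds hyD) ?_
  obtain ⟨s1, hs1⟩ := h1
  refine ⟨s1, ?_⟩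
  intro x hx
  obtain ⟨W', hW', hW'2⟩ := hs1 x hx
  refine ⟨W' ∩ O, Filter.inter_mem hW' (hO.mem_nhds (hDsub hx.1).2), ?_⟩
  intro a ha b hb
  rw [← hW'2 a ha.1 b hb.1]
  have h2 : t' a b = v a b + t a b := ht'3 a ha.2 b hb.2
  show v a b = t' a b + t a b
  rw [h2, add_assoc, CharTwo.add_self_eq_zero, add_zero]

/-- two connected sets meeting in a disconnected set carry a class -/
theorem circle_class [CompactSpace M] [T2Space M] [ConnectedSpace M] [LocallyPathConnectedSpace M]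
    {f : M → EuclideanSpace ℝ (Fin N)} (S : CSetup f) {A A' : Set M} (hA : IsClosed A)
    (hA' : IsClosed A') (hc : IsPreconnected A) (hc' : IsPreconnected A')
    (hco : IsPreconnected (Aᶜ : Set M)) (hco' : IsPreconnected (A'ᶜ : Set M))
    (hu : IsPreconnected ((A ∪ A')ᶜ : Set M)) (hi : ¬ IsPreconnected (A ∩ A')) :
    ∃ t : M → M → ZMod 2, Coc univ t ∧ ¬ Null univ t ∧ Null ((A ∪ A')ᶜ : Set M) t := by
  have hAA : IsClosed (A ∩ A') := hA.inter hA'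
  rw [isPreconnected_closed_iff] at hi
  push Not at hi
  obtain ⟨T₁, T₂, hT₁, hT₂, hsub, ⟨y, hyA, hy1⟩, ⟨y', hyA', hy2⟩, hemp⟩ := hi
  have hC : IsClosed (A ∩ A' ∩ T₁) := hAA.inter hT₁
  have hC' : IsClosed (A ∩ A' ∩ T₂) := hAA.inter hT₂
  have hd : Disjoint (A ∩ A' ∩ T₁) (A ∩ A' ∩ T₂) := by
    rw [Set.disjoint_left]
    rintro x ⟨hx, hx1⟩ ⟨_, hx2⟩
    have : x ∈ A ∩ A' ∩ (T₁ ∩ T₂) := ⟨hx, hx1, hx2⟩
    rw [hemp] at this
    exact this
  have hyC : y ∈ A ∩ A' ∩ T₁ := ⟨hyA, hy1⟩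
  have hyC' : y' ∈ A ∩ A' ∩ T₂ := ⟨hyA', hy2⟩
  have hne : y ≠ y' := by
    intro h
    rw [← h] at hyC'
    exact Set.disjoint_left.mp hd hyC hyC'
  have hCC : (A ∩ A' ∩ T₁) ∪ (A ∩ A' ∩ T₂) = A ∩ A' := by
    rw [← Set.inter_union_distrib_left]
    exact Set.inter_eq_left.mpr hsub
  obtain ⟨v, hv, -, he, he'⟩ := pair_ex S.pt S.pun isOpen_univ isPreconnected_univ
    (Set.mem_univ y) (Set.mem_univ y') hne
  obtain ⟨t₁, ht₁, hn₁⟩ := pair_cpt S.pt S.pun S.fin hA hc hco hyA.1 hyA'.1 hne hv he he'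
  obtain ⟨t₂, ht₂, hn₂⟩ := pair_cpt S.pt S.pun S.fin hA' hc' hco' hyA.2 hyA'.2 hne hv he he'
  have hcu : ((A ∪ A')ᶜ : Set M) = Aᶜ ∩ A'ᶜ := Set.compl_union A A'
  refine ⟨t₁ + t₂, ht₁.add ht₂, ?_, ?_⟩
  · intro hnull
    have h1 : Null (A'ᶜ : Set M) (v + t₁) := by
      have h2 := hn₂.add (hnull.mono (Set.subset_univ _))
      have h3 : v + t₂ + (t₁ + t₂) = v + t₁ := by
        have h4 : v + t₂ + (t₁ + t₂) = v + t₁ + (t₂ + t₂) := by abel
        rw [h4, add_self_co, add_zero]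
      rw [h3] at h2
      exact h2
    obtain ⟨s, hs⟩ := hn₁
    obtain ⟨s', hs'⟩ := h1
    have hs1 : Triv ((A ∪ A')ᶜ : Set M) (v + t₁) s := hs.mono (by rw [hcu]; exact Set.inter_subset_left)
    have hs1' : Triv ((A ∪ A')ᶜ : Set M) (v + t₁) s' := hs'.mono (by rw [hcu]; exact Set.inter_subset_right)
    obtain ⟨k, hk⟩ := triv_uniq hu hs1 hs1'
    have h5 : Null (Aᶜ ∪ A'ᶜ : Set M) (v + t₁) :=
      null_union hA.isOpen_compl hA'.isOpen_compl hs hs' (k := k) (by rw [← hcu]; exact hk)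
    rw [← Set.compl_inter, ← hCC] at h5
    exact pair_sep S hC hC' hd hyC hyC' hv he ht₁ h5
  · have h1 := (hn₁.mono (Z' := (A ∪ A')ᶜ) (by rw [hcu]; exact Set.inter_subset_left)).add
      (hn₂.mono (Z' := (A ∪ A')ᶜ) (by rw [hcu]; exact Set.inter_subset_right))
    have h3 : v + t₁ + (v + t₂) = t₁ + t₂ := by
      have h4 : v + t₁ + (v + t₂) = t₁ + t₂ + (v + v) := by abel
      rw [h4, add_self_co, add_zero]
    rw [h3] at h1
    exact h1

/-- the same in a chart is impossible -/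
theorem circle_chart [CompactSpace M] [T2Space M] [ConnectedSpace M] [LocallyPathConnectedSpace M]
    {f : M → EuclideanSpace ℝ (Fin N)} (S : CSetup f) {D : Set M} {ψ : M → ℝ × ℝ}
    {φ : ℝ × ℝ → M} (h : Chart D BoxI ψ φ) {A A' : Set M} (hA : IsClosed A)
    (hA' : IsClosed A') (hAD : A ⊆ D) (hAD' : A' ⊆ D) (hc : IsPreconnected A)
    (hc' : IsPreconnected A')
    (hco : IsPreconnected (Aᶜ : Set M)) (hco' : IsPreconnected (A'ᶜ : Set M))
    (hu : IsPreconnected ((A ∪ A')ᶜ : Set M)) (hD : IsPreconnected (D \ (A ∪ A')))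
    (hi : ¬ IsPreconnected (A ∩ A')) : False := by
  obtain ⟨t, ht, hnt, hn⟩ := circle_class S hA hA' hc hc' hco hco' hu hi
  have hDn : Null D t := chart_null h (convex_ball 0 1) (ht.mono (subset_univ _))
  obtain ⟨s, hs⟩ := hn
  obtain ⟨s', hs'⟩ := hDn
  obtain ⟨k, hk⟩ := triv_uniq hD (hs.mono (fun x hx => hx.2)) (hs'.mono (fun x hx => hx.1))
  have hU : IsOpen ((A ∪ A')ᶜ : Set M) := (hA.union hA').isOpen_compl
  have hnull : Null ((A ∪ A')ᶜ ∪ D) t :=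
    null_union hU h.isOpen hs hs' (k := k) (fun x hx => hk x ⟨hx.2, hx.1⟩)
  apply hnt
  have huniv : ((A ∪ A')ᶜ ∪ D : Set M) = univ := by
    rw [eq_univ_iff_forall]
    intro x
    by_cases hx : x ∈ A ∪ A'
    · right
      rcases hx with hx | hx
      · exact hAD hx
      · exact hAD' hx
    · left
      exact hx
  rw [huniv] at hnull
  exact hnull

end Pool.Agent.Helper775.Clo
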